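import Mathlib
import Pool.Agent.H771R4.SE.LS
import Pool.Agent.H385R2.EcD1

set_option autoImplicit false

/-! # The large sieve for products of characters of distinct primes -/

namespace Pool.Agent.R345.AP

open Finset
open Pool.Agent.H386R2.Artin (PP Good)
open Pool.Agent.H386R2.Artin.T1 (cc prim_of_prime)
open Pool.Agent.H771R4.SE (maps_toI sum_ccI sum_cc_sqI)

/-- product of primitive characters of distinct primes -/
lemma exists_prod (χ : (p : ℕ) → DirichletCharacter ℂ p) (S : Finset ℕ)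
    (hS : ∀ p ∈ S, p.Prime ∧ (χ p).IsPrimitive) :
    ∃ ψ : DirichletCharacter ℂ (∏ p ∈ S, p), ψ.IsPrimitive ∧
      ∀ n : ℕ, ψ (n : ZMod (∏ p ∈ S, p)) = ∏ p ∈ S, χ p (n : ZMod p) := by
  classical
  induction S using Finset.induction_on with
  | empty =>
    rw [prod_empty]
    refine ⟨1, DirichletCharacter.isPrimitive_one_level_one, fun n => ?_⟩
    have : IsUnit ((n : ℕ) : ZMod 1) := isUnit_of_subsingleton _
    rw [MulChar.one_apply this, prod_empty]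
  | insert p S hp ih =>
    obtain ⟨ψ, h1, h2⟩ := ih (fun q hq => hS q (mem_insert_of_mem hq))
    have hp' := hS p (mem_insert_self _ _)
    have hne : NeZero p := ⟨hp'.1.ne_zero⟩
    have hne2 : NeZero (∏ q ∈ S, q) :=
      ⟨prod_ne_zero_iff.2 fun q hq => (hS q (mem_insert_of_mem hq)).1.ne_zero⟩
    have hcop : Nat.Coprime p (∏ q ∈ S, q) := by
      apply Nat.Coprime.prod_right
      intro q hq
      exact (Nat.coprime_primes hp'.1 (hS q (mem_insert_of_mem hq)).1).2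
        (by rintro rfl; exact hp hq)
    rw [prod_insert hp]
    refine ⟨H385.pm (χ p) ψ, H385.pm_primitive hcop hp'.2 h1, fun n => ?_⟩
    rw [H385.pm_apply, h2, prod_insert hp]

/-- coefficients of the `r`-th power of a weighted sum -/
noncomputable def cu (u : ℕ → ℂ) (E : Finset ℕ) (r n : ℕ) : ℂ :=
  ∑ v ∈ (Fintype.piFinset (fun _ : Fin r => E)).filter (fun v => ∏ i, v i = n), ∏ i, u (v i)

lemma cu_norm (u : ℕ → ℂ) (hu : ∀ n, ‖u n‖ ≤ 1) (E : Finset ℕ) (r n : ℕ) :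
    ‖cu u E r n‖ ≤ (cc E r n : ℝ) := by
  unfold cu cc
  refine (norm_sum_le _ _).trans ?_
  calc _ ≤ ∑ v ∈ (Fintype.piFinset (fun _ : Fin r => E)).filter (fun v => ∏ i, v i = n), (1 : ℝ) :=
        sum_le_sum fun v _ => by
          rw [norm_prod]
          exact prod_le_one (fun _ _ => norm_nonneg _) (fun _ _ => hu _)
    _ = _ := by rw [sum_const, nsmul_eq_mul, mul_one]

lemma sum_pow_u (u : ℕ → ℂ) (E : Finset ℕ) (N r : ℕ) (hE : E ⊆ Icc 1 N) (q : ℕ)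
    (χ : DirichletCharacter ℂ q) :
    (∑ n ∈ E, u n * χ (n : ZMod q)) ^ r = ∑ m ∈ Icc 1 (N ^ r), cu u E r m * χ (m : ZMod q) := by
  have h1 : (∑ n ∈ E, u n * χ (n : ZMod q)) ^ r =
      ∑ v ∈ Fintype.piFinset (fun _ : Fin r => E), ∏ i, (u (v i) * χ (v i : ZMod q)) := by
    have := Finset.prod_univ_sum (fun _ : Fin r => E) (fun _ (n : ℕ) => u n * χ (n : ZMod q))
    rw [← this]
    simp
  have h2 : ∀ v ∈ Fintype.piFinset (fun _ : Fin r => E),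
      ∏ i, (u (v i) * χ (v i : ZMod q)) = (∏ i, u (v i)) * χ ((∏ i, v i : ℕ) : ZMod q) := by
    intro v _
    rw [Nat.cast_prod, map_prod, prod_mul_distrib]
  rw [h1, sum_congr rfl h2, ← Finset.sum_fiberwise_of_maps_to (maps_toI E N r hE)]
  apply sum_congr rfl
  intro n _
  unfold cu
  rw [sum_mul]
  apply sum_congr rfl
  intro v hv
  rw [mem_filter] at hv
  rw [hv.2]

lemma sum_cu_sq (u : ℕ → ℂ) (hu : ∀ n, ‖u n‖ ≤ 1) (E : Finset ℕ) (N r : ℕ) (hE : E ⊆ Icc 1 N)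
    (K : ℝ) (hK : ∀ n ∈ Icc 1 (N ^ r), (cc E r n : ℝ) ≤ K) :
    ∑ n ∈ Icc 1 (N ^ r), ‖cu u E r n‖ ^ 2 ≤ K * (#E : ℝ) ^ r := by
  refine le_trans (sum_le_sum fun n _ => ?_) (sum_cc_sqI E N r hE K hK)
  rw [Complex.norm_natCast]
  exact pow_le_pow_left₀ (norm_nonneg _) (cu_norm u hu E r n) 2

/-- the large sieve for products of characters of distinct primes -/
theorem ls_prod {ι : Type*} (χ : (p : ℕ) → DirichletCharacter ℂ p) (T : Finset ι)
    (S : ι → Finset ℕ) (hinj : Set.InjOn S T) (x k M : ℕ) (hx : 1 ≤ x)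
    (hS : ∀ i ∈ T, #(S i) ≤ k ∧ ∀ p ∈ S i, p.Prime ∧ p ≤ x ∧ (χ p).IsPrimitive) (c : ℕ → ℂ) :
    ∑ i ∈ T, ‖∑ m ∈ Icc 1 M, c m * ∏ p ∈ S i, χ p (m : ZMod p)‖ ^ 2 ≤
      6 * (M + ((x : ℝ) ^ k) ^ 2) * ∑ m ∈ Icc 1 M, ‖c m‖ ^ 2 := by
  classical
  have hLS := Helper112.mult_large_sieve M (x ^ k) c
  set Φ : ℕ → ℝ := fun f => ((f : ℝ) / (Nat.totient f : ℝ)) *
      ∑ χ ∈ (univ : Finset (DirichletCharacter ℂ f)).filter (fun χ => χ.IsPrimitive),
        ‖∑ n ∈ Icc 1 M, c n * χ (n : ZMod f)‖ ^ 2 with hΦ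
  have hΦ0 : ∀ f, 0 ≤ Φ f := fun f => mul_nonneg (div_nonneg (Nat.cast_nonneg _) (Nat.cast_nonneg _))
        (sum_nonneg fun _ _ => sq_nonneg _)
  have h1 : ∀ i ∈ T, ‖∑ m ∈ Icc 1 M, c m * ∏ p ∈ S i, χ p (m : ZMod p)‖ ^ 2 ≤
      Φ (∏ p ∈ S i, p) := by
    intro i hi
    obtain ⟨f, hf, ψ, hψ1, hψ2⟩ : ∃ f, f = ∏ p ∈ S i, p ∧ ∃ ψ : DirichletCharacter ℂ f,
        ψ.IsPrimitive ∧ ∀ n : ℕ, ψ (n : ZMod f) = ∏ p ∈ S i, χ p (n : ZMod p) :=
      ⟨_, rfl, exists_prod χ (S i) (fun p hp => ⟨((hS i hi).2 p hp).1,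
      ((hS i hi).2 p hp).2.2⟩)⟩
    rw [← hf]
    have hf0 : 0 < f := by
      rw [hf]
      exact prod_pos fun p hp => ((hS i hi).2 p hp).1.pos
    have h2 : ∑ m ∈ Icc 1 M, c m * ∏ p ∈ S i, χ p (m : ZMod p) =
        ∑ m ∈ Icc 1 M, c m * ψ (m : ZMod f) := by
      apply sum_congr rfl
      intro m _
      rw [hψ2]
    rw [h2]
    have h3 : (1 : ℝ) ≤ (f : ℝ) / (Nat.totient f : ℝ) := by
      have h0 : (0 : ℝ) < (Nat.totient f : ℝ) := by
        exact_mod_cast Nat.totient_pos.mpr hf0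
      rw [le_div_iff₀ h0, one_mul]
      exact_mod_cast Nat.totient_le f
    have h4 : ‖∑ m ∈ Icc 1 M, c m * ψ (m : ZMod f)‖ ^ 2 ≤
        ∑ χ ∈ (univ : Finset (DirichletCharacter ℂ f)).filter (fun χ => χ.IsPrimitive),
        ‖∑ n ∈ Icc 1 M, c n * χ (n : ZMod f)‖ ^ 2 :=
      single_le_sum (f := fun χ : DirichletCharacter ℂ f =>
        ‖∑ n ∈ Icc 1 M, c n * χ (n : ZMod f)‖ ^ 2)
        (fun _ _ => sq_nonneg _) (mem_filter.mpr ⟨mem_univ _, hψ1⟩)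
    refine h4.trans ?_
    exact le_mul_of_one_le_left (sum_nonneg fun _ _ => sq_nonneg _) h3
  have hinj2 : Set.InjOn (fun i => ∏ p ∈ S i, p) T := by
    intro i hi i' hi' h
    apply hinj hi hi'
    have e1 := Nat.primeFactors_prod (s := S i) (fun p hp => ((hS i hi).2 p hp).1)
    have e2 := Nat.primeFactors_prod (s := S i') (fun p hp => ((hS i' hi').2 p hp).1)
    simp only at h
    rw [← e1, ← e2, h]
  have h2 : ∑ i ∈ T, Φ (∏ p ∈ S i, p) = ∑ f ∈ T.image (fun i => ∏ p ∈ S i, p), Φ f :=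
    (sum_image hinj2).symm
  have h3 : T.image (fun i => ∏ p ∈ S i, p) ⊆ Icc 1 (x ^ k) := by
    intro f hf
    rw [mem_image] at hf
    obtain ⟨i, hi, rfl⟩ := hf
    rw [mem_Icc]
    refine ⟨prod_pos fun p hp => ((hS i hi).2 p hp).1.pos, ?_⟩
    calc ∏ p ∈ S i, p ≤ ∏ _p ∈ S i, x := prod_le_prod' fun p hp => ((hS i hi).2 p hp).2.1
      _ = x ^ #(S i) := by rw [prod_const]
      _ ≤ x ^ k := Nat.pow_le_pow_right hx (hS i hi).1
  calc _ ≤ ∑ i ∈ T, Φ (∏ p ∈ S i, p) := sum_le_sum h1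
    _ = ∑ f ∈ T.image (fun i => ∏ p ∈ S i, p), Φ f := h2
    _ ≤ ∑ f ∈ Icc 1 (x ^ k), Φ f := sum_le_sum_of_subset_of_nonneg h3 (fun f _ _ => hΦ0 f)
    _ ≤ _ := by
        refine le_trans ?_ (le_of_le_of_eq hLS ?_)
        · apply le_of_eq
          rfl
        · push_cast
          rfl

end Pool.Agent.R345.AP
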