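import Mathlib
import Pool.Agent.R345.AP1

set_option autoImplicit false

/-! # Many bad primes force a small set -/

namespace Pool.Agent.R345.AP

open Finset
open Pool.Agent.H386R2.Artin (PP Good)
open Pool.Agent.H386R2.Artin.T1 (cc prim_of_prime)
open scoped ComplexConjugate

lemma exists_phase (w : ℂ) : ∃ c : ℂ, ‖c‖ ≤ 1 ∧ c * w = (‖w‖ : ℂ) := by
  by_cases h : w = 0
  · exact ⟨0, by simp, by simp [h]⟩
  · refine ⟨conj w / ‖w‖, ?_, ?_⟩
    · rw [norm_div, RCLike.norm_conj, Complex.norm_real, norm_norm,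
        div_self (norm_ne_zero_iff.2 h)]
    · have h1 : (‖w‖ : ℂ) ≠ 0 := by exact_mod_cast norm_ne_zero_iff.2 h
      rw [div_mul_eq_mul_div, mul_comm, Complex.mul_conj, Complex.normSq_eq_norm_sq]
      push_cast
      rw [sq, mul_div_assoc, div_self h1, mul_one]

lemma sq_norm_add (d z : ℂ) (w : ℝ) :
    ‖d + z * w‖ ^ 2 = ‖d‖ ^ 2 + w * (2 * (d * conj z).re) + w ^ 2 * ‖z‖ ^ 2 := by
  rw [← Complex.normSq_eq_norm_sq, ← Complex.normSq_eq_norm_sq, ← Complex.normSq_eq_norm_sq,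
    Complex.normSq_add, Complex.normSq_mul, Complex.normSq_ofReal, map_mul, Complex.conj_ofReal,
    ← mul_assoc d, Complex.re_mul_ofReal]
  ring

/-- a partition of `B` into `k` parts, by the greedy algorithm -/
lemma greedy (k : ℕ) (hk : 0 < k) (E : Finset ℕ) (z : ℕ → ℕ → ℂ) (hz : ∀ n p, ‖z n p‖ ≤ 1)
    (B : Finset ℕ) : ∃ a : ℕ → Fin k, ∑ n ∈ E, ∑ i : Fin k,
      ‖(∑ p ∈ B.filter (fun p => a p = i), z n p) - (∑ p ∈ B, z n p) / k‖ ^ 2 ≤
        (#E : ℝ) * #B := by
  classical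
  have hk0 : (0 : ℝ) < k := by exact_mod_cast hk
  induction B using Finset.induction_on with
  | empty =>
    refine ⟨fun _ => ⟨0, hk⟩, ?_⟩
    simp
  | insert p B hp ih =>
    obtain ⟨a, ha⟩ := ih
    set d : ℕ → Fin k → ℂ := fun n i =>
      (∑ q ∈ B.filter (fun q => a q = i), z n q) - (∑ q ∈ B, z n q) / k with hd
    set w : Fin k → Fin k → ℝ := fun c i => (if c = i then 1 else 0) - 1 / k with hw
    have hstep : ∀ c : Fin k, ∀ n i,
        (∑ q ∈ (insert p B).filter (fun q => Function.update a p c q = i), z n q) -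
          (∑ q ∈ insert p B, z n q) / k = d n i + z n p * (w c i : ℂ) := by
      intro c n i
      have h1 : (B.filter (fun q => Function.update a p c q = i)) =
          B.filter (fun q => a q = i) := by
        apply filter_congr
        intro q hq
        rw [Function.update_of_ne (by rintro rfl; exact hp hq)]
      rw [filter_insert, Function.update_self, sum_insert hp, h1]
      simp only [hd, hw]
      by_cases hc : c = i
      · rw [if_pos hc, if_pos hc, sum_insert (by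
          intro h; exact hp (mem_filter.1 h).1)]
        push_cast
        ring
      · rw [if_neg hc, if_neg hc]
        push_cast
        ring
    have hw1 : ∀ i, ∑ c, w c i = 0 := by
      intro i
      simp only [hw]
      rw [sum_sub_distrib, sum_ite_eq' univ i, if_pos (mem_univ _), sum_const, card_univ,
        Fintype.card_fin, nsmul_eq_mul]
      field_simp
      ring
    have hw2 : ∀ i, ∑ c, w c i ^ 2 ≤ 1 := by
      intro i
      have h1 : ∀ c, w c i ^ 2 = (if c = i then 1 - 2 / (k : ℝ) else 0) + 1 / k ^ 2 := by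
        intro c
        simp only [hw]
        split_ifs
        · field_simp
          ring
        · field_simp
          ring
      simp_rw [h1]
      rw [sum_add_distrib, sum_ite_eq' univ i, if_pos (mem_univ _), sum_const, card_univ,
        Fintype.card_fin, nsmul_eq_mul]
      have h2 : (k : ℝ) * (1 / k ^ 2) = 1 / k := by field_simp
      rw [h2]
      have h3 : 0 ≤ 1 / (k : ℝ) := by positivity
      have h4 : 2 / (k : ℝ) = 2 * (1 / k) := by ring
      rw [h4]
      linarith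
    have hsum : ∑ c : Fin k, ∑ n ∈ E, ∑ i : Fin k, ‖d n i + z n p * (w c i : ℂ)‖ ^ 2 ≤
        ∑ _c : Fin k, (#E : ℝ) * #(insert p B) := by
      have h1 : ∀ n ∈ E, ∑ c : Fin k, ∑ i : Fin k, ‖d n i + z n p * (w c i : ℂ)‖ ^ 2 ≤
          k * (∑ i : Fin k, ‖d n i‖ ^ 2 + 1) := by
        intro n _
        rw [sum_comm]
        have h2 : ∀ i : Fin k, ∑ c : Fin k, ‖d n i + z n p * (w c i : ℂ)‖ ^ 2 ≤
            k * ‖d n i‖ ^ 2 + 1 := by
          intro i
          simp_rw [sq_norm_add]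
          rw [sum_add_distrib, sum_add_distrib, ← sum_mul, ← sum_mul, hw1, zero_mul, add_zero,
            sum_const, card_univ, Fintype.card_fin, nsmul_eq_mul]
          have h3 : ‖z n p‖ ^ 2 ≤ 1 := pow_le_one₀ (norm_nonneg _) (hz n p)
          have h4 : (∑ c, w c i ^ 2) * ‖z n p‖ ^ 2 ≤ 1 * 1 :=
            mul_le_mul (hw2 i) h3 (sq_nonneg _) (by norm_num)
          linarith
        refine (sum_le_sum fun i _ => h2 i).trans ?_
        rw [sum_add_distrib, ← mul_sum, sum_const, card_univ, Fintype.card_fin, nsmul_eq_mul]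
        linarith
      rw [sum_comm, sum_const, card_univ, Fintype.card_fin, nsmul_eq_mul]
      refine (sum_le_sum h1).trans ?_
      rw [← mul_sum, sum_add_distrib, sum_const, nsmul_eq_mul, mul_one, card_insert_of_notMem hp]
      push_cast
      apply mul_le_mul_of_nonneg_left _ hk0.le
      linarith
    have hne : (univ : Finset (Fin k)).Nonempty := ⟨⟨0, hk⟩, mem_univ _⟩
    obtain ⟨c, _, hc⟩ := exists_le_of_sum_le hne hsum
    refine ⟨Function.update a p c, ?_⟩
    refine le_trans (le_of_eq ?_) hc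
    apply sum_congr rfl
    intro n _
    apply sum_congr rfl
    intro i _
    rw [hstep]

lemma cc_mono {E F : Finset ℕ} (h : E ⊆ F) (r n : ℕ) : cc E r n ≤ cc F r n := by
  unfold cc
  apply card_le_card
  apply filter_subset_filter
  exact Fintype.piFinset_subset _ _ (fun _ => h)

/-- products over disjoint blocks of primes -/
theorem blocks (χ : (p : ℕ) → DirichletCharacter ℂ p) (c : ℕ → ℂ) (hc : ∀ p, ‖c p‖ ≤ 1)
    (k : ℕ) (Bl : Fin k → Finset ℕ) (hdis : ∀ i i', i ≠ i' → Disjoint (Bl i) (Bl i'))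
    (x N j : ℕ) (hx : 1 ≤ x) (hj : 1 ≤ j)
    (hBl : ∀ i, ∀ p ∈ Bl i, p.Prime ∧ p ≤ x ∧ (χ p).IsPrimitive)
    (E : Finset ℕ) (hE : E ⊆ Icc 1 N) (K : ℝ) (hK : ∀ m ∈ Icc 1 (N ^ j), (cc E j m : ℝ) ≤ K)
    (Y : ℝ) (hY : 0 ≤ Y) (hlow : ∀ n ∈ E, ∀ i, Y ≤ ‖∑ p ∈ Bl i, c p * χ p (n : ZMod p)‖) :
    ((#E : ℝ) * Y ^ k) ^ (2 * j) ≤ (∏ i, (#(Bl i) : ℝ)) ^ (2 * j - 1) *
      (6 * ((N : ℝ) ^ j + ((x : ℝ) ^ k) ^ 2) * (K * (#E : ℝ) ^ j)) := by
  classical
  set F : ℕ → ℂ := fun n => ∏ i, ∑ p ∈ Bl i, c p * χ p (n : ZMod p) with hF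
  choose u hu1 hu2 using fun n => exists_phase (F n)
  set T : Finset (Fin k → ℕ) := Fintype.piFinset Bl with hT
  set S : (Fin k → ℕ) → Finset ℕ := fun s => univ.image s with hS
  have hsinj : ∀ s ∈ T, Function.Injective s := by
    intro s hs i i' h
    rw [hT, Fintype.mem_piFinset] at hs
    by_contra hne
    exact (disjoint_left.1 (hdis i i' hne)) (hs i) (h ▸ hs i')
  have hSprod : ∀ s ∈ T, ∀ m : ℕ, ∏ i, χ (s i) (m : ZMod (s i)) =
      ∏ p ∈ S s, χ p (m : ZMod p) := by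
    intro s hs m
    simp only [hS]
    rw [prod_image (fun i _ i' _ h => hsinj s hs h)]
  have hSinj : Set.InjOn S T := by
    intro s hs s' hs' h
    have h1 := hs
    have h2 := hs'
    rw [mem_coe, hT, Fintype.mem_piFinset] at h1 h2
    funext i
    have h3 : s i ∈ S s' := by
      rw [← h]
      exact mem_image_of_mem _ (mem_univ _)
    simp only [hS, mem_image, mem_univ, true_and] at h3
    obtain ⟨i', hi'⟩ := h3
    by_cases hne : i = i'
    · rw [hne, hi', hne]
    · exact absurd (h1 i) (by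
        rw [← hi']
        exact disjoint_right.1 (hdis i i' hne) (h2 i'))
  -- the sums over `E`
  set A : (Fin k → ℕ) → ℂ := fun s => ∑ n ∈ E, u n * ∏ p ∈ S s, χ p (n : ZMod p) with hA
  have hexp : ∀ n, F n = ∑ s ∈ T, (∏ i, c (s i)) * ∏ i, χ (s i) (n : ZMod (s i)) := by
    intro n
    simp only [hF]
    rw [Finset.prod_univ_sum]
    apply sum_congr rfl
    intro s _
    rw [prod_mul_distrib]
  have hlowF : ∀ n ∈ E, Y ^ k ≤ ‖F n‖ := by
    intro n hn
    simp only [hF]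
    rw [norm_prod]
    calc Y ^ k = ∏ _i : Fin k, Y := by simp
      _ ≤ _ := prod_le_prod (fun _ _ => hY) (fun i _ => hlow n hn i)
  have h1 : (#E : ℝ) * Y ^ k ≤ ∑ s ∈ T, ‖A s‖ := by
    have e1 : (∑ n ∈ E, (‖F n‖ : ℂ)) = ∑ s ∈ T, (∏ i, c (s i)) * A s := by
      have e2 : ∀ n ∈ E, (‖F n‖ : ℂ) = ∑ s ∈ T, (∏ i, c (s i)) *
          (u n * ∏ p ∈ S s, χ p (n : ZMod p)) := by
        intro n _
        rw [← hu2 n, hexp, mul_sum]
        apply sum_congr rfl
        intro s hs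
        rw [hSprod s hs n]
        ring
      rw [sum_congr rfl e2, sum_comm]
      apply sum_congr rfl
      intro s _
      simp only [hA]
      rw [mul_sum]
    have e3 : (#E : ℝ) * Y ^ k ≤ ∑ n ∈ E, ‖F n‖ := by
      rw [← nsmul_eq_mul, ← sum_const]
      exact sum_le_sum hlowF
    have e4 : (∑ n ∈ E, ‖F n‖) = ‖∑ n ∈ E, (‖F n‖ : ℂ)‖ := by
      rw [← Complex.ofReal_sum, Complex.norm_real, Real.norm_of_nonneg
        (sum_nonneg fun _ _ => norm_nonneg _)]
    rw [e4, e1] at e3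
    refine e3.trans ((norm_sum_le _ _).trans (sum_le_sum fun s _ => ?_))
    rw [norm_mul, norm_prod]
    have : ∏ i, ‖c (s i)‖ ≤ 1 := prod_le_one (fun _ _ => norm_nonneg _) (fun _ _ => hc _)
    exact mul_le_of_le_one_left (norm_nonneg _) this
  have hTc : (#T : ℝ) = ∏ i, (#(Bl i) : ℝ) := by
    rw [hT, Fintype.card_piFinset]
    push_cast
    rfl
  -- Hoelder
  have h2 : (∑ s ∈ T, ‖A s‖) ^ (2 * j) ≤ (#T : ℝ) ^ (2 * j - 1) * ∑ s ∈ T, ‖A s‖ ^ (2 * j) := by
    obtain ⟨m, hm⟩ : ∃ m, 2 * j = m + 1 := ⟨2 * j - 1, by omega⟩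
    have hm' : 2 * j - 1 = m := by omega
    rw [hm', hm]
    have h3 := pow_sum_div_card_le_sum_pow (s := T) (f := fun s => ‖A s‖)
      (n := m) (fun _ _ => norm_nonneg _)
    by_cases h0 : #T = 0
    · rw [card_eq_zero] at h0
      rw [h0, sum_empty, sum_empty, mul_zero, zero_pow (by omega)]
    · have h0' : (0 : ℝ) < (#T : ℝ) ^ m := by
        have : (0 : ℝ) < #T := by exact_mod_cast Nat.pos_of_ne_zero h0
        exact pow_pos this m
      rw [div_le_iff₀ h0'] at h3
      linarith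
  -- the large sieve
  have h3 : ∑ s ∈ T, ‖A s‖ ^ (2 * j) ≤
      6 * ((N : ℝ) ^ j + ((x : ℝ) ^ k) ^ 2) * (K * (#E : ℝ) ^ j) := by
    have hls := ls_prod χ T S hSinj x k (N ^ j) hx (by
      intro s hs
      refine ⟨?_, ?_⟩
      · calc #(S s) ≤ #(univ : Finset (Fin k)) := card_image_le
          _ = k := by rw [card_univ, Fintype.card_fin]
      · intro p hp
        simp only [hS, mem_image, mem_univ, true_and] at hp
        obtain ⟨i, rfl⟩ := hp
        rw [hT, Fintype.mem_piFinset] at hs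
        exact hBl i _ (hs i)) (cu u E j)
    have e1 : ∀ s ∈ T, ‖A s‖ ^ (2 * j) =
        ‖∑ m ∈ Icc 1 (N ^ j), cu u E j m * ∏ p ∈ S s, χ p (m : ZMod p)‖ ^ 2 := by
      intro s hs
      have hs' := hs
      rw [hT, Fintype.mem_piFinset] at hs'
      obtain ⟨ψ, hψ1, hψ2⟩ := exists_prod χ (S s) (by
        intro p hp
        simp only [hS, mem_image, mem_univ, true_and] at hp
        obtain ⟨i, rfl⟩ := hp
        exact ⟨(hBl i _ (hs' i)).1, (hBl i _ (hs' i)).2.2⟩)
      have e2 : A s = ∑ n ∈ E, u n * ψ (n : ZMod (∏ p ∈ S s, p)) := by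
        simp only [hA]
        apply sum_congr rfl
        intro n _
        rw [hψ2]
      have e3 : ∑ m ∈ Icc 1 (N ^ j), cu u E j m * ∏ p ∈ S s, χ p (m : ZMod p) =
          ∑ m ∈ Icc 1 (N ^ j), cu u E j m * ψ (m : ZMod (∏ p ∈ S s, p)) := by
        apply sum_congr rfl
        intro n _
        rw [hψ2]
      rw [e3, ← sum_pow_u u E N j hE _ ψ, ← e2, norm_pow, ← pow_mul, mul_comm j 2]
    rw [sum_congr rfl e1]
    refine hls.trans ?_
    push_cast
    apply mul_le_mul_of_nonneg_left (sum_cu_sq u hu1 E N j hE K hK) (by positivity)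
  calc ((#E : ℝ) * Y ^ k) ^ (2 * j) ≤ (∑ s ∈ T, ‖A s‖) ^ (2 * j) :=
        pow_le_pow_left₀ (by positivity) h1 _
    _ ≤ (#T : ℝ) ^ (2 * j - 1) * ∑ s ∈ T, ‖A s‖ ^ (2 * j) := h2
    _ ≤ (#T : ℝ) ^ (2 * j - 1) *
        (6 * ((N : ℝ) ^ j + ((x : ℝ) ^ k) ^ 2) * (K * (#E : ℝ) ^ j)) :=
        mul_le_mul_of_nonneg_left h3 (by positivity)
    _ = _ := by rw [hTc]

end Pool.Agent.R345.AP
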