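import Mathlib
import Pool.Agent.R345.AP2

set_option autoImplicit false

/-! # Many bad primes force a small set, II -/

namespace Pool.Agent.R345.AP

open Finset
open Pool.Agent.H386R2.Artin (PP Good)
open Pool.Agent.H386R2.Artin.T1 (cc prim_of_prime)

/-- arithmetic and geometric mean -/
lemma amgm (k : ℕ) (hk : 0 < k) (y : Fin k → ℝ) (hy : ∀ i, 0 ≤ y i) (b : ℝ)
    (hb : ∑ i, y i ≤ b) : ∏ i, y i ≤ (b / k) ^ k := by
  have hk0 : (0 : ℝ) < k := by exact_mod_cast hk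
  have h := Real.geom_mean_le_arith_mean univ (fun _ : Fin k => (1 : ℝ)) y
    (fun _ _ => zero_le_one) (by simp; exact hk) (fun i _ => hy i)
  simp only [Real.rpow_one, sum_const, card_univ, Fintype.card_fin, nsmul_eq_mul, mul_one,
    one_mul] at h
  have hp : 0 ≤ ∏ i, y i := prod_nonneg fun i _ => hy i
  have h1 : ∏ i, y i = ((∏ i, y i) ^ ((k : ℝ)⁻¹)) ^ k := by
    rw [← Real.rpow_natCast, ← Real.rpow_mul hp, inv_mul_cancel₀ hk0.ne', Real.rpow_one]
  rw [h1]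
  apply pow_le_pow_left₀ (Real.rpow_nonneg hp _)
  refine h.trans ?_
  exact div_le_div_of_nonneg_right hb hk0.le

lemma divide (e b T R : ℝ) (j k k' : ℕ) (hj : 1 ≤ j) (hk'1 : 1 ≤ k') (hk'k : k' ≤ k)
    (e8 : (k : ℝ) ≤ 2 * k') (he : 0 < e) (hb0 : 0 < b) (hT : 1 ≤ T) (hR0 : 0 ≤ R)
    (hmain : (e * (b / (4 * T * k)) ^ k') ^ (2 * j) ≤ ((b / k') ^ k') ^ (2 * j - 1) *
      (R * e ^ j)) : e ^ j ≤ R * (8 * T) ^ (2 * j * k) * ((k' : ℝ) / b) ^ k' := by
  have hk'0 : (0 : ℝ) < k' := by exact_mod_cast hk'1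
  have hk0 : (0 : ℝ) < k := by exact_mod_cast (lt_of_lt_of_le hk'1 hk'k)
  have hT0 : 0 < T := by linarith
  set Y : ℝ := b / (4 * T * k) with hY
  have hY0 : 0 < Y := by positivity
  obtain ⟨m, hm⟩ : ∃ m, 2 * j = m + 1 := ⟨2 * j - 1, by omega⟩
  have hm' : 2 * j - 1 = m := by omega
  have e1 : (e * Y ^ k') ^ (2 * j) = e ^ j * e ^ j * (Y ^ k') ^ (2 * j) := by
    rw [mul_pow, ← pow_add, ← two_mul]
  have e2 : ((b / k') ^ k') ^ (2 * j - 1) = ((b / k') ^ k') ^ (2 * j) * ((k' : ℝ) / b) ^ k' := by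
    rw [hm', hm, pow_succ, mul_assoc, ← mul_pow]
    have : b / k' * (k' / b) = 1 := by field_simp
    rw [this, one_pow, mul_one]
  rw [e1, e2] at hmain
  have e3 : 0 < e ^ j * (Y ^ k') ^ (2 * j) := by positivity
  have e4 : e ^ j * (e ^ j * (Y ^ k') ^ (2 * j)) ≤
      (R * (((b / k') ^ k') ^ (2 * j) / (Y ^ k') ^ (2 * j)) * ((k' : ℝ) / b) ^ k') *
        (e ^ j * (Y ^ k') ^ (2 * j)) := by
    calc e ^ j * (e ^ j * (Y ^ k') ^ (2 * j)) = e ^ j * e ^ j * (Y ^ k') ^ (2 * j) := by ring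
      _ ≤ _ := hmain
      _ = _ := by
        field_simp
  have e5 := le_of_mul_le_mul_right e4 e3
  refine e5.trans ?_
  have e6 : ((b / k') ^ k') ^ (2 * j) / (Y ^ k') ^ (2 * j) ≤ (8 * T) ^ (2 * j * k) := by
    rw [← div_pow, ← div_pow]
    have e7 : b / k' / Y ≤ 8 * T := by
      rw [hY, div_div_eq_mul_div, div_le_iff₀ hb0]
      have e9 : b / k' * (4 * T * k) = (4 * T * b) * (k / k') := by ring
      rw [e9]
      have e10 : (k : ℝ) / k' ≤ 2 := by
        rw [div_le_iff₀ hk'0]; exact e8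
      calc (4 * T * b) * (k / k') ≤ (4 * T * b) * 2 :=
            mul_le_mul_of_nonneg_left e10 (by positivity)
        _ = 8 * T * b := by ring
    calc ((b / k' / Y) ^ k') ^ (2 * j) ≤ ((8 * T) ^ k') ^ (2 * j) := by gcongr
      _ = (8 * T) ^ (2 * j * k') := by rw [← pow_mul, mul_comm k' (2 * j)]
      _ ≤ (8 * T) ^ (2 * j * k) :=
          pow_le_pow_right₀ (by linarith) (Nat.mul_le_mul_left _ hk'k)
  have e11 : 0 ≤ ((k' : ℝ) / b) ^ k' := by positivity
  exact mul_le_mul_of_nonneg_right (mul_le_mul_of_nonneg_left e6 hR0) e11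

theorem few (N x j k : ℕ) (hx : 1 ≤ x) (hj : 1 ≤ j) (hk : 1 ≤ k) (T η K : ℝ) (hT : 1 ≤ T)
    (hη : 0 < η) (hη2 : η ≤ 1 / 2) (E : Finset ℕ) (hE : E ⊆ Icc 1 N) (hE0 : E.Nonempty)
    (hK : ∀ m ∈ Icc 1 (N ^ j), (cc E j m : ℝ) ≤ K) (B : Finset ℕ)
    (hB : ∀ p ∈ B, p ∈ PP x ∧ ¬ Good E ((#E : ℝ) / T) p)
    (hbig : 32 * T ^ 2 * k ≤ η * #B) :
    ∃ k' : ℕ, 1 ≤ k' ∧ k' ≤ k ∧ (1 - η) * k ≤ k' ∧
      (#E : ℝ) ^ j ≤ (4 * T * 2 ^ k) ^ j * (6 * ((N : ℝ) ^ j + ((x : ℝ) ^ k) ^ 2) * K) *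
        (8 * T) ^ (2 * j * k) * ((k' : ℝ) / #B) ^ k' := by
  classical
  have hk0 : (0 : ℝ) < k := by exact_mod_cast hk
  have hT0 : 0 < T := by linarith
  have he0 : (0 : ℝ) < #E := by exact_mod_cast card_pos.2 hE0
  set b : ℝ := (#B : ℝ) with hb
  have hb0 : 0 < b := by
    by_contra hcon
    push Not at hcon
    have : 0 < 32 * T ^ 2 * k := by positivity
    nlinarith
  -- the characters
  have hch : ∀ p : ℕ, ∃ χ : DirichletCharacter ℂ p, p ∈ B →
      χ ≠ 1 ∧ (#E : ℝ) / T < ‖∑ q ∈ E, χ (q : ZMod p)‖ := by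
    intro p
    by_cases hp : p ∈ B
    · have := (hB p hp).2
      unfold Good at this
      push Not at this
      obtain ⟨χ, h1, h2⟩ := this
      exact ⟨χ, fun _ => ⟨h1, h2⟩⟩
    · exact ⟨1, fun h => absurd h hp⟩
  choose χ hχ using hch
  have hpp : ∀ p ∈ B, p.Prime ∧ p ≤ x := by
    intro p hp
    have := (hB p hp).1
    rw [PP, mem_filter, mem_range] at this
    exact ⟨this.2, by omega⟩
  choose c hc1 hc2 using fun p => exists_phase (∑ q ∈ E, χ p (q : ZMod p))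
  set z : ℕ → ℕ → ℂ := fun n p => c p * χ p (n : ZMod p) with hz
  have hz1 : ∀ n p, ‖z n p‖ ≤ 1 := by
    intro n p
    simp only [hz]
    rw [norm_mul]
    exact mul_le_one₀ (hc1 p) (norm_nonneg _) (DirichletCharacter.norm_le_one _ _)
  set f : ℕ → ℂ := fun n => ∑ p ∈ B, z n p with hf
  have hfb : ∀ n, ‖f n‖ ≤ b := by
    intro n
    simp only [hf]
    refine (norm_sum_le _ _).trans ?_
    calc ∑ p ∈ B, ‖z n p‖ ≤ ∑ _p ∈ B, (1 : ℝ) := sum_le_sum fun p _ => hz1 n p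
      _ = b := by rw [sum_const, nsmul_eq_mul, mul_one]
  have hsumf : b * (#E / T) ≤ ∑ n ∈ E, ‖f n‖ := by
    have e1 : ∑ n ∈ E, f n = ((∑ p ∈ B, ‖∑ q ∈ E, χ p (q : ZMod p)‖ : ℝ) : ℂ) := by
      simp only [hf, hz]
      rw [sum_comm]
      push_cast
      apply sum_congr rfl
      intro p _
      rw [← mul_sum, hc2]
    have e2 : b * (#E / T) ≤ ∑ p ∈ B, ‖∑ q ∈ E, χ p (q : ZMod p)‖ := by
      rw [hb, ← nsmul_eq_mul, ← sum_const]
      exact sum_le_sum fun p hp => (hχ p hp).2.le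
    have e3 : ‖∑ n ∈ E, f n‖ = ∑ p ∈ B, ‖∑ q ∈ E, χ p (q : ZMod p)‖ := by
      rw [e1, Complex.norm_real, Real.norm_of_nonneg (sum_nonneg fun _ _ => norm_nonneg _)]
    rw [← e3] at e2
    exact e2.trans (norm_sum_le _ _)
  -- E1
  set E1 : Finset ℕ := E.filter (fun n => b / (2 * T) ≤ ‖f n‖) with hE1
  have hE1c : (#E : ℝ) / (2 * T) ≤ #E1 := by
    have e1 : ∑ n ∈ E, ‖f n‖ ≤ ∑ n ∈ E, ((if n ∈ E1 then b else 0) + b / (2 * T)) := by
      apply sum_le_sum
      intro n hn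
      split_ifs with h
      · have := hfb n
        have : 0 ≤ b / (2 * T) := by positivity
        linarith [hfb n]
      · have : ‖f n‖ < b / (2 * T) := by
          by_contra hcon
          exact h (mem_filter.2 ⟨hn, not_lt.1 hcon⟩)
        linarith
    rw [sum_add_distrib, sum_const, nsmul_eq_mul, ← sum_filter] at e1
    have e2 : E.filter (fun n => n ∈ E1) = E1 := by
      rw [Finset.filter_mem_eq_inter]
      exact Finset.inter_eq_right.2 (filter_subset _ _)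
    rw [e2, sum_const, nsmul_eq_mul] at e1
    have e3 := hsumf.trans e1
    have e4 : b * (#E / T) = 2 * (#E * (b / (2 * T))) := by field_simp
    have e5 : (#E : ℝ) * (b / (2 * T)) ≤ #E1 * b := by linarith
    have e6 : (#E : ℝ) / (2 * T) * b ≤ #E1 * b := by
      calc (#E : ℝ) / (2 * T) * b = #E * (b / (2 * T)) := by ring
        _ ≤ _ := e5
    exact le_of_mul_le_mul_right e6 hb0
  obtain ⟨a, ha⟩ := greedy k hk E1 z hz1 B
  set fi : ℕ → Fin k → ℂ := fun n i => ∑ p ∈ B.filter (fun p => a p = i), z n p with hfi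
  set Φ : ℕ → ℝ := fun n => ∑ i : Fin k, ‖fi n i - f n / k‖ ^ 2 with hΦ
  have hΦ0 : ∀ n, 0 ≤ Φ n := fun n => sum_nonneg fun _ _ => sq_nonneg _
  have hΦs : ∑ n ∈ E1, Φ n ≤ #E1 * b := ha
  set E2 : Finset ℕ := E1.filter (fun n => Φ n ≤ 2 * b) with hE2
  have hE2c : (#E : ℝ) / (4 * T) ≤ #E2 := by
    have e1 : ∑ n ∈ E1, (2 * b - (if n ∈ E2 then 2 * b else 0)) ≤ ∑ n ∈ E1, Φ n := by
      apply sum_le_sum
      intro n hn
      split_ifs with h
      · have := hΦ0 n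
        linarith
      · have : 2 * b < Φ n := by
          by_contra hcon
          exact h (mem_filter.2 ⟨hn, not_lt.1 hcon⟩)
        linarith
    rw [sum_sub_distrib, sum_const, nsmul_eq_mul, ← sum_filter] at e1
    have e2 : E1.filter (fun n => n ∈ E2) = E2 := by
      rw [Finset.filter_mem_eq_inter]
      exact Finset.inter_eq_right.2 (filter_subset _ _)
    rw [e2, sum_const, nsmul_eq_mul] at e1
    have e3 := e1.trans hΦs
    have e4 : (#E1 : ℝ) * b ≤ (2 * #E2) * b := by linarith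
    have e5 := le_of_mul_le_mul_right e4 hb0
    have e6 : (#E : ℝ) / (4 * T) = (#E / (2 * T)) / 2 := by ring
    linarith
  have hE2p : (0 : ℝ) < #E2 := lt_of_lt_of_le (by positivity) hE2c
  -- pigeonhole
  set I : ℕ → Finset (Fin k) := fun n =>
    univ.filter (fun i => b / (4 * T * k) < ‖fi n i - f n / k‖) with hI
  have hpig : ∃ I₀ ∈ (univ : Finset (Fin k)).powerset,
      (#E2 : ℝ) ≤ 2 ^ k * #(E2.filter (fun n => I n = I₀)) := by
    by_contra hcon
    push Not at hcon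
    have e1 := card_eq_sum_card_fiberwise (f := I) (s := E2) (t := (univ : Finset (Fin k)).powerset)
      (fun n _ => mem_powerset.2 (subset_univ _))
    have e2 : (2 : ℝ) ^ k * #E2 < 2 ^ k * #E2 := by
      calc (2 : ℝ) ^ k * #E2 = ∑ I₀ ∈ (univ : Finset (Fin k)).powerset,
            2 ^ k * (#(E2.filter (fun n => I n = I₀)) : ℝ) := by
            rw [← mul_sum, e1]; push_cast; rfl
        _ < ∑ _I₀ ∈ (univ : Finset (Fin k)).powerset, (#E2 : ℝ) :=
            sum_lt_sum_of_nonempty ⟨∅, empty_mem_powerset _⟩ hcon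
        _ = 2 ^ k * #E2 := by
            rw [sum_const, card_powerset, card_univ, Fintype.card_fin, nsmul_eq_mul]
            push_cast
            rfl
    exact absurd e2 (lt_irrefl _)
  obtain ⟨I₀, _, hI₀⟩ := hpig
  set E3 : Finset ℕ := E2.filter (fun n => I n = I₀) with hE3
  have hE3E : E3 ⊆ E := (filter_subset _ _).trans ((filter_subset _ _).trans (filter_subset _ _))
  have hE3p : (0 : ℝ) < #E3 := by
    by_contra hcon
    push Not at hcon
    have : (2 : ℝ) ^ k * #E3 ≤ 0 := mul_nonpos_of_nonneg_of_nonpos (by positivity) hcon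
    linarith
  have hE3n : E3.Nonempty := by
    rw [← card_pos]
    exact_mod_cast hE3p
  have hIc : (#I₀ : ℝ) ≤ η * k := by
    obtain ⟨n, hn⟩ := hE3n
    rw [hE3, mem_filter, hE2, mem_filter] at hn
    obtain ⟨⟨_, h2⟩, h3⟩ := hn
    have e1 : (#I₀ : ℝ) * (b / (4 * T * k)) ^ 2 ≤ 2 * b := by
      refine le_trans ?_ h2
      rw [← h3, ← nsmul_eq_mul, ← sum_const]
      simp only [hΦ, hI]
      refine le_trans (sum_le_sum fun i hi => ?_) (sum_le_sum_of_subset_of_nonneg (subset_univ _)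
        (fun i _ _ => sq_nonneg _))
      rw [mem_filter] at hi
      exact pow_le_pow_left₀ (by positivity) hi.2.le 2
    have e2 : (#I₀ : ℝ) * b ≤ 32 * T ^ 2 * k ^ 2 := by
      have e3 : (#I₀ : ℝ) * (b / (4 * T * k)) ^ 2 * (16 * T ^ 2 * k ^ 2 / b) =
          #I₀ * b := by
        field_simp
        ring
      have e4 : 2 * b * (16 * T ^ 2 * k ^ 2 / b) = 32 * T ^ 2 * k ^ 2 := by
        field_simp
        ring
      rw [← e3, ← e4]
      exact mul_le_mul_of_nonneg_right e1 (by positivity)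
    have e5 : 32 * T ^ 2 * k ^ 2 ≤ η * k * b := by
      calc 32 * T ^ 2 * k ^ 2 = (32 * T ^ 2 * k) * k := by ring
        _ ≤ (η * b) * k := mul_le_mul_of_nonneg_right hbig hk0.le
        _ = η * k * b := by ring
    exact le_of_mul_le_mul_right (e2.trans e5) hb0
  -- the good blocks
  set G : Finset (Fin k) := I₀ᶜ with hG
  obtain ⟨k', hk'⟩ : ∃ k', #G = k' := ⟨_, rfl⟩
  have hGc : k' + #I₀ = k := by
    rw [← hk', hG, card_compl_add_card, Fintype.card_fin]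
  have hk'k : k' ≤ k := by omega
  have hk'r : (1 - η) * k ≤ k' := by
    have : (k' : ℝ) + #I₀ = k := by exact_mod_cast hGc
    linarith
  have hk'1 : 1 ≤ k' := by
    by_contra hcon
    have h0 : k' = 0 := by omega
    rw [h0, Nat.cast_zero] at hk'r
    have : 0 < (1 - η) * k := mul_pos (by linarith) hk0
    linarith
  have hk'0 : (0 : ℝ) < k' := by exact_mod_cast hk'1
  set e := G.orderEmbOfFin hk' with he
  have heG : ∀ i, e i ∉ I₀ := by
    intro i
    have h1 : e i ∈ G := G.orderEmbOfFin_mem hk' i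
    rw [hG, mem_compl] at h1
    exact h1
  set Bl : Fin k' → Finset ℕ := fun i => B.filter (fun p => a p = e i) with hBl
  set Y : ℝ := b / (4 * T * k) with hY
  have hY0 : 0 < Y := by positivity
  have hcc3 : ∀ m ∈ Icc 1 (N ^ j), (cc E3 j m : ℝ) ≤ K := by
    intro m hm
    refine le_trans ?_ (hK m hm)
    exact_mod_cast cc_mono hE3E j m
  have hdis : ∀ i i', i ≠ i' → Disjoint (Bl i) (Bl i') := by
    intro i i' hne
    rw [disjoint_left]
    intro p hp hp'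
    simp only [hBl, mem_filter] at hp hp'
    exact hne (e.injective (hp.2.symm.trans hp'.2))
  have hlow : ∀ n ∈ E3, ∀ i, Y ≤ ‖∑ p ∈ Bl i, c p * χ p (n : ZMod p)‖ := by
    intro n hn i
    rw [hE3, mem_filter, hE2, mem_filter, hE1, mem_filter] at hn
    obtain ⟨⟨⟨_, h1⟩, _⟩, h3⟩ := hn
    have h4 := heG i
    rw [← h3] at h4
    simp only [hI, mem_filter, mem_univ, true_and, not_lt] at h4
    have h5 : ‖f n / k‖ = ‖f n‖ / k := by
      rw [norm_div, Complex.norm_natCast]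
    have h6 : b / (2 * T) / k ≤ ‖f n‖ / k := div_le_div_of_nonneg_right h1 hk0.le
    have h7 : b / (2 * T) / k = 2 * Y := by
      rw [hY]; field_simp; ring
    have h8 : ‖f n / k‖ ≤ ‖fi n (e i)‖ + ‖fi n (e i) - f n / k‖ := by
      have := norm_sub_norm_le (f n / k) (fi n (e i))
      rw [norm_sub_rev] at this
      linarith
    have h9 : fi n (e i) = ∑ p ∈ Bl i, c p * χ p (n : ZMod p) := rfl
    rw [← h9]
    linarith
  have hmain := blocks χ c hc1 k' Bl hdis x N j hx hj (by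
    intro i p hp
    simp only [hBl, mem_filter] at hp
    exact ⟨(hpp p hp.1).1, (hpp p hp.1).2, prim_of_prime (hpp p hp.1).1 (hχ p hp.1).1⟩)
    E3 (hE3E.trans hE) K hcc3 Y hY0.le hlow
  -- the product of the sizes of the blocks
  set W : ℝ := ∏ i, (#(Bl i) : ℝ) with hW
  have hW0 : 0 ≤ W := prod_nonneg fun _ _ => Nat.cast_nonneg _
  have hWle : W ≤ (b / k') ^ k' := by
    apply amgm k' hk'1 _ (fun _ => Nat.cast_nonneg _)
    have h1 : ∑ i, #(Bl i) = #(univ.biUnion Bl) := by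
      rw [card_biUnion]
      intro i _ i' _ hne
      exact hdis i i' hne
    have h2 : univ.biUnion Bl ⊆ B := by
      intro p hp
      rw [mem_biUnion] at hp
      obtain ⟨i, _, hi⟩ := hp
      exact (mem_filter.1 hi).1
    have h3 : ∑ i, #(Bl i) ≤ #B := h1 ▸ card_le_card h2
    rw [hb]
    exact_mod_cast h3
  have hK0 : 0 ≤ K := by
    obtain ⟨n, hn⟩ := hE3n
    have h1 := mem_Icc.1 (hE (hE3E hn))
    refine le_trans (Nat.cast_nonneg _) (hK 1 (mem_Icc.2 ⟨le_refl _, ?_⟩))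
    exact Nat.one_le_pow _ _ (by omega)
  set R : ℝ := 6 * ((N : ℝ) ^ j + ((x : ℝ) ^ k) ^ 2) * K with hR
  have hR0 : 0 ≤ R := by
    rw [hR]
    exact mul_nonneg (mul_nonneg (by norm_num) (add_nonneg (pow_nonneg (Nat.cast_nonneg _) _)
      (sq_nonneg _))) hK0
  have hx1 : (1 : ℝ) ≤ x := by exact_mod_cast hx
  have hmain2 : ((#E3 : ℝ) * Y ^ k') ^ (2 * j) ≤ ((b / k') ^ k') ^ (2 * j - 1) *
      (R * (#E3 : ℝ) ^ j) := by
    refine hmain.trans ?_
    apply mul_le_mul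
    · exact pow_le_pow_left₀ hW0 hWle _
    · rw [hR]
      have e1 : ((x : ℝ) ^ k') ^ 2 ≤ ((x : ℝ) ^ k) ^ 2 :=
        pow_le_pow_left₀ (pow_nonneg (by linarith) _) (pow_le_pow_right₀ hx1 hk'k) 2
      have e2 : 0 ≤ K * (#E3 : ℝ) ^ j := mul_nonneg hK0 (pow_nonneg hE3p.le _)
      calc 6 * ((N : ℝ) ^ j + ((x : ℝ) ^ k') ^ 2) * (K * (#E3 : ℝ) ^ j) ≤
          6 * ((N : ℝ) ^ j + ((x : ℝ) ^ k) ^ 2) * (K * (#E3 : ℝ) ^ j) :=
            mul_le_mul_of_nonneg_right (by linarith) e2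
        _ = _ := by ring
    · exact mul_nonneg (mul_nonneg (by norm_num) (add_nonneg (pow_nonneg (Nat.cast_nonneg _) _)
        (sq_nonneg _))) (mul_nonneg hK0 (pow_nonneg hE3p.le _))
    · exact pow_nonneg (pow_nonneg (div_nonneg hb0.le hk'0.le) _) _
  -- divide
  have hE3j : (#E3 : ℝ) ^ j ≤ R * (8 * T) ^ (2 * j * k) * ((k' : ℝ) / b) ^ k' := by
    have e8 : (k : ℝ) ≤ 2 * k' := by
      have : (1 / 2 : ℝ) * k ≤ (1 - η) * k := mul_le_mul_of_nonneg_right (by linarith) hk0.le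
      linarith
    exact divide (#E3 : ℝ) b T R j k k' hj hk'1 hk'k e8 hE3p hb0 hT hR0 hmain2
  refine ⟨k', hk'1, hk'k, hk'r, ?_⟩
  have hEE3 : (#E : ℝ) ≤ 4 * T * 2 ^ k * #E3 := by
    have e1 : (#E : ℝ) = 4 * T * (#E / (4 * T)) := by field_simp
    rw [e1, mul_assoc (4 * T)]
    exact mul_le_mul_of_nonneg_left (hE2c.trans hI₀) (by linarith)
  calc (#E : ℝ) ^ j ≤ (4 * T * 2 ^ k * #E3) ^ j := pow_le_pow_left₀ he0.le hEE3 _
    _ = (4 * T * 2 ^ k) ^ j * (#E3 : ℝ) ^ j := by rw [mul_pow]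
    _ ≤ (4 * T * 2 ^ k) ^ j * (R * (8 * T) ^ (2 * j * k) * ((k' : ℝ) / b) ^ k') := by
        have hpos : 0 ≤ (4 * T * 2 ^ k) ^ j := pow_nonneg (mul_nonneg (by linarith) (pow_nonneg (by norm_num) _)) _
        exact mul_le_mul_of_nonneg_left hE3j hpos
    _ = _ := by ring

end Pool.Agent.R345.AP
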