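import Mathlib
import Pool.Agent.R345.AP3
import Pool.Agent.H771R4.SE.Rankin

set_option autoImplicit false

/-! # Few bad primes up to `x`, for `(log N) ^ C ≤ x ≤ N ^ C2` -/

namespace Pool.Agent.R345.AP

open Finset Filter Topology
open Pool.Agent.H386R2.Artin (PP Good)
open Pool.Agent.H386R2.Artin.T1 (cc prim_of_prime)
open Pool.Agent.H771R4.SE (cc_sup)

lemma hlast_aux (κ γ X C J L b : ℝ) (k k' : ℕ) (hγ0 : 0 < γ) (hγκ : γ < κ / 2) (hκ1 : κ < 1)
    (hX0 : 0 < X) (hL0 : 0 < L) (hJ0 : 0 < J) (hk'1 : 1 ≤ k') (hk'k : k' ≤ k)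
    (hk'η : (1 - γ / 8) * k ≤ k') (hb1 : Real.exp ((1 - γ / 8) * X) ≤ b) (hb0 : 0 < b)
    (hlogk : Real.log k ≤ Real.log J + X / C) (hκ : κ = 1 - 1 / C)
    (w3 : Real.log J ≤ γ / 16 * X) (hk2 : J * L / (2 * X) < k + 1) :
    (k' : ℝ) * Real.log (k' / b) ≤ - (κ / 2 - 5 * γ / 32) * (J * L) + X := by
  have hk'0 : (0 : ℝ) < k' := by exact_mod_cast hk'1
  have hk0 : (0 : ℝ) < k := by exact_mod_cast (lt_of_lt_of_le hk'1 hk'k)
  have h1 : Real.log (k' / b) ≤ -((κ - γ / 8 - γ / 16) * X) := by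
    rw [Real.log_div hk'0.ne' hb0.ne']
    have h2 : (1 - γ / 8) * X ≤ Real.log b := by
      rw [Real.le_log_iff_exp_le hb0]; exact hb1
    have h3 : Real.log k' ≤ Real.log k := Real.log_le_log hk'0 (by exact_mod_cast hk'k)
    have h5 : (1 - γ / 8) * X = X / C + (κ - γ / 8) * X := by rw [hκ]; ring
    linarith
  have hκ' : 0 < κ - γ / 8 - γ / 16 := by linarith
  have h2 : (k' : ℝ) * Real.log (k' / b) ≤ k' * -((κ - γ / 8 - γ / 16) * X) :=
    mul_le_mul_of_nonneg_left h1 hk'0.le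
  have h3 : (k' : ℝ) * -((κ - γ / 8 - γ / 16) * X) ≤
      ((1 - γ / 8) * k) * -((κ - γ / 8 - γ / 16) * X) := by
    apply mul_le_mul_of_nonpos_right hk'η
    have : 0 < (κ - γ / 8 - γ / 16) * X := by positivity
    linarith
  have h4 : J * L - 2 * X ≤ k * (2 * X) := by
    have h5 : J * L ≤ (k + 1) * (2 * X) := by
      rw [div_lt_iff₀ (by positivity)] at hk2
      exact hk2.le
    linarith
  have h5 : (κ - 5 * γ / 16) ≤ (1 - γ / 8) * (κ - γ / 8 - γ / 16) := by
    have h7 : γ / 8 * (κ - γ / 8 - γ / 16) ≤ γ / 8 * 1 := by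
      apply mul_le_mul_of_nonneg_left _ (by positivity)
      linarith
    have h6 : (1 - γ / 8) * (κ - γ / 8 - γ / 16) =
        (κ - γ / 8 - γ / 16) - γ / 8 * (κ - γ / 8 - γ / 16) := by ring
    rw [h6]
    linarith
  have h6 : 0 ≤ κ - 5 * γ / 16 := by linarith
  have h7 : (κ - 5 * γ / 16) * (J * L - 2 * X) ≤
      (1 - γ / 8) * (κ - γ / 8 - γ / 16) * (k * (2 * X)) := by
    calc (κ - 5 * γ / 16) * (J * L - 2 * X) ≤ (κ - 5 * γ / 16) * (k * (2 * X)) :=
          mul_le_mul_of_nonneg_left h4 h6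
      _ ≤ _ := mul_le_mul_of_nonneg_right h5 (by positivity)
  have h8 : (κ - 5 * γ / 16) * X ≤ X := by
    apply mul_le_of_le_one_left hX0.le
    linarith
  have h9 : ((1 - γ / 8) * k) * -((κ - γ / 8 - γ / 16) * X) =
      - ((1 - γ / 8) * (κ - γ / 8 - γ / 16) * (k * (2 * X))) / 2 := by ring
  have h10 : (κ - 5 * γ / 16) * (J * L - 2 * X) =
      2 * ((κ / 2 - 5 * γ / 32) * (J * L)) - 2 * ((κ - 5 * γ / 16) * X) := by ring
  rw [h10] at h7
  rw [h9] at h3
  linarith

theorem fewLow (θ C C2 : ℝ) (hC : 1 < C) (hθ : 1 / 2 + 1 / (2 * C) < θ) (hθ1 : θ < 1)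
    (hC2 : 1 ≤ C2) :
    ∃ θ₀ δ : ℝ, θ₀ < θ ∧ 1 / 2 < θ₀ ∧ 0 < δ ∧ δ < 1 ∧ ∃ N₁ : ℕ, ∀ N x : ℕ, N₁ ≤ N →
      (Real.log N) ^ C ≤ x → (x : ℝ) ≤ (N : ℝ) ^ C2 →
      ∀ E : Finset ℕ, E ⊆ Icc 1 N → (N : ℝ) ^ θ₀ ≤ (#E : ℝ) →
        ∀ S : Finset ℕ, (∀ p ∈ S, p ∈ PP x ∧ ¬ Good E ((#E : ℝ) / Real.log x) p) →
        (#S : ℝ) ≤ 12 * (x : ℝ) ^ (1 - δ) := by
  classical
  have hC0 : 0 < C := by linarith
  set κ : ℝ := 1 - 1 / C with hκ
  have hC1 : 0 < 1 / C := by positivity
  have hC1' : 1 / C < 1 := by rw [div_lt_one hC0]; exact hC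
  have hκ0 : 0 < κ := by rw [hκ]; linarith
  have hκ1 : κ < 1 := by rw [hκ]; linarith
  have hhalf : 1 / (2 * C) = 1 / C / 2 := by field_simp
  set γ : ℝ := θ - 1 + κ / 2 with hγ
  have hγ0 : 0 < γ := by rw [hγ, hκ]; rw [hhalf] at hθ; linarith
  have hγκ : γ < κ / 2 := by rw [hγ]; linarith
  have hγ1 : γ < 1 / 2 := by linarith
  set δ : ℝ := γ / 8 with hδ
  set η : ℝ := γ / 8 with hη
  have hδ0 : 0 < δ := by positivity
  have hη0 : 0 < η := by positivity
  have hδκ : 0 < κ - δ := by rw [hδ]; linarith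
  obtain ⟨J, hJ⟩ : ∃ J : ℕ, 16 * C2 / γ ≤ J := exists_nat_ge _
  have hJC : 16 * C2 ≤ J * γ := by rwa [div_le_iff₀ hγ0] at hJ
  have hJ16 : (16 : ℝ) ≤ J := by
    have h0 : (0 : ℝ) ≤ J := Nat.cast_nonneg _
    nlinarith
  have hJ1 : 1 ≤ J := by
    have : (1 : ℝ) ≤ J := by linarith
    exact_mod_cast this
  have hJ0 : (0 : ℝ) < J := by linarith
  obtain ⟨N₂, hN₂⟩ := cc_sup (γ / 16) (by positivity) (by linarith)
  -- eventually in X
  have hevX : ∀ᶠ X : ℝ in atTop, J * Real.log (8 * X) ≤ γ / 32 * X := by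
    have h1 := Real.isLittleO_log_id_atTop.def (show (0 : ℝ) < γ / (64 * J) by positivity)
    have h2 : ∀ᶠ X : ℝ in atTop, J * Real.log 8 ≤ γ / 64 * X := by
      have := (tendsto_id (α := ℝ) (x := atTop)).const_mul_atTop (show (0 : ℝ) < γ / 64 by positivity)
      exact this.eventually_ge_atTop _
    filter_upwards [h1, h2, eventually_ge_atTop 1] with X h1 h2 h3
    rw [Real.norm_eq_abs, abs_of_nonneg (Real.log_nonneg h3), id, Real.norm_eq_abs,
      abs_of_pos (by linarith)] at h1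
    rw [Real.log_mul (by norm_num) (by linarith)]
    have h4 : J * Real.log X ≤ J * (γ / (64 * J) * X) := mul_le_mul_of_nonneg_left h1 hJ0.le
    have h5 : J * (γ / (64 * J) * X) = γ / 64 * X := by field_simp
    linarith
  obtain ⟨X₀, hX₀⟩ := eventually_atTop.1 (hevX.and ((eventually_ge_atTop 1).and
    ((eventually_ge_atTop (16 * Real.log J / γ)).and
      (eventually_ge_atTop (32 * J / (η * (κ - δ) ^ 2))))))
  -- eventually in L
  have hlog : Tendsto (fun N : ℕ => Real.log (N : ℝ)) atTop atTop :=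
    Real.tendsto_log_atTop.comp tendsto_natCast_atTop_atTop
  have hevL1 : ∀ᶠ L : ℝ in atTop, Real.log (4 * C2 * L) ≤ γ / 32 * L := by
    have h1 := Real.isLittleO_log_id_atTop.def (show (0 : ℝ) < γ / 64 by positivity)
    have h2 : ∀ᶠ X : ℝ in atTop, Real.log (4 * C2) ≤ γ / 64 * X := by
      have := (tendsto_id (α := ℝ) (x := atTop)).const_mul_atTop (show (0 : ℝ) < γ / 64 by positivity)
      exact this.eventually_ge_atTop _
    filter_upwards [h1, h2, eventually_ge_atTop 1] with X h1 h2 h3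
    rw [Real.norm_eq_abs, abs_of_nonneg (Real.log_nonneg h3), id, Real.norm_eq_abs,
      abs_of_pos (by linarith)] at h1
    rw [Real.log_mul (by positivity) (by linarith)]
    linarith
  have hevL2 : ∀ᶠ L : ℝ in atTop, Real.log 12 ≤ γ / 32 * L := by
    have := (tendsto_id (α := ℝ) (x := atTop)).const_mul_atTop (show (0 : ℝ) < γ / 32 by positivity)
    exact this.eventually_ge_atTop _
  have hevL3 : ∀ᶠ L : ℝ in atTop, (J : ℝ) ≤ L ^ (γ / 16 / 4) :=
    (tendsto_rpow_atTop (by positivity)).eventually_ge_atTop _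
  have hevL4 : ∀ᶠ L : ℝ in atTop, X₀ ≤ C * Real.log L :=
    (Real.tendsto_log_atTop.const_mul_atTop hC0).eventually_ge_atTop _
  obtain ⟨N₁, hN₁⟩ := eventually_atTop.1 ((hlog.eventually (((hevL1.and hevL2).and
    (hevL3.and hevL4)).and (eventually_ge_atTop 1))).and (eventually_ge_atTop (max 2 N₂)))
  refine ⟨θ - γ / 2, δ, by linarith, by rw [hγ]; linarith, hδ0, by rw [hδ]; linarith, N₁,
    fun N x hN hx1 hx2 E hE hEc S hS => ?_⟩
  obtain ⟨⟨⟨⟨v1, v2⟩, ⟨v3, v4⟩⟩, v5⟩, v6⟩ := hN₁ N hN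
  have hN2 : 2 ≤ N := (le_max_left _ _).trans v6
  have hNN2 : N₂ ≤ N := (le_max_right _ _).trans v6
  have hN0 : (0 : ℝ) < N := by exact_mod_cast (by omega : 0 < N)
  have hN1 : (1 : ℝ) < N := by exact_mod_cast (by omega : 1 < N)
  set L : ℝ := Real.log N with hL
  have hL0 : 0 < L := by linarith
  have hx0 : (0 : ℝ) < x := lt_of_lt_of_le (by positivity) hx1
  have hxn : 1 ≤ x := by
    have : 0 < x := by exact_mod_cast hx0
    omega
  set X : ℝ := Real.log x with hX
  have hCX : C * Real.log L ≤ X := by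
    have := Real.log_le_log (by positivity) hx1
    rwa [Real.log_rpow hL0] at this
  have hXC2 : X ≤ C2 * L := by
    have := Real.log_le_log hx0 hx2
    rwa [Real.log_rpow hN0] at this
  obtain ⟨w1, w2, w3, w4⟩ := hX₀ X (v4.trans hCX)
  have hX1 : 1 ≤ X := w2
  have hX0 : 0 < X := by linarith
  by_contra hcon
  push Not at hcon
  set b : ℝ := (#S : ℝ) with hb
  have hxexp : ∀ s : ℝ, (x : ℝ) ^ s = Real.exp (s * X) := fun s => by
    rw [Real.rpow_def_of_pos hx0, mul_comm]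
  have hb1 : Real.exp ((1 - δ) * X) ≤ b := by
    rw [hxexp] at hcon
    have := Real.exp_pos ((1 - δ) * X)
    linarith
  have hb0 : 0 < b := lt_of_lt_of_le (Real.exp_pos _) hb1
  -- k
  set k : ℕ := ⌊J * L / (2 * X)⌋₊ with hk
  have hk1 : (k : ℝ) ≤ J * L / (2 * X) := Nat.floor_le (by positivity)
  have hk2 : J * L / (2 * X) < k + 1 := Nat.lt_floor_add_one _
  have hkX : (k : ℝ) * (2 * X) ≤ J * L := by rwa [le_div_iff₀ (by positivity)] at hk1
  have hkpos : 1 ≤ k := by
    rw [hk, Nat.one_le_floor_iff, le_div_iff₀ (by positivity)]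
    have e1 : 2 * C2 ≤ J := by
      have : J * γ ≤ J * 1 := mul_le_mul_of_nonneg_left (by linarith only [hγ1]) hJ0.le
      linarith only [this, hJC, hC2]
    calc 1 * (2 * X) ≤ 2 * (C2 * L) := by linarith only [hXC2]
      _ = (2 * C2) * L := by ring
      _ ≤ J * L := mul_le_mul_of_nonneg_right e1 hL0.le
  have hk0 : (0 : ℝ) < k := by exact_mod_cast hkpos
  have hlogL : Real.log L ≤ X / C := by
    rw [le_div_iff₀ hC0]; linarith
  have hkJL : (k : ℝ) ≤ J * L := by
    have : (k : ℝ) * 1 ≤ k * (2 * X) := by gcongr; linarith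
    linarith
  have hlogk : Real.log k ≤ Real.log J + X / C := by
    have h1 := Real.log_le_log hk0 hkJL
    rw [Real.log_mul hJ0.ne' hL0.ne'] at h1
    linarith
  have hLexp : L ≤ Real.exp (X / C) := by
    rw [← Real.log_le_iff_le_exp hL0]; exact hlogL
  -- the condition
  have hbig : 32 * X ^ 2 * k ≤ η * b := by
    have h1 : 32 * X ^ 2 * k ≤ 16 * J * X * L := by
      have : 32 * X ^ 2 * k = 16 * X * (k * (2 * X)) := by ring
      rw [this]
      calc 16 * X * (k * (2 * X)) ≤ 16 * X * (J * L) := by gcongr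
        _ = _ := by ring
    have h2 : 16 * J * X ≤ η * Real.exp ((κ - δ) * X) := by
      have h3 := Real.quadratic_le_exp_of_nonneg (show 0 ≤ (κ - δ) * X by positivity)
      have h4 : ((κ - δ) * X) ^ 2 / 2 ≤ Real.exp ((κ - δ) * X) := by
        have : 0 ≤ (κ - δ) * X := by positivity
        linarith
      have h5 : 16 * J * X ≤ η * (((κ - δ) * X) ^ 2 / 2) := by
        rw [div_le_iff₀ (by positivity)] at w4
        have h6 : η * (((κ - δ) * X) ^ 2 / 2) = X * (η * (κ - δ) ^ 2) * X / 2 := by ring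
        rw [h6]
        have h7 := mul_le_mul_of_nonneg_right w4 hX0.le
        linarith only [h7]
      exact h5.trans (mul_le_mul_of_nonneg_left h4 hη0.le)
    calc 32 * X ^ 2 * k ≤ 16 * J * X * L := h1
      _ ≤ (η * Real.exp ((κ - δ) * X)) * Real.exp (X / C) := by
          apply mul_le_mul h2 hLexp hL0.le
          positivity
      _ = η * Real.exp ((1 - δ) * X) := by
          rw [mul_assoc, ← Real.exp_add]
          congr 2
          rw [hκ]; ring
      _ ≤ η * b := mul_le_mul_of_nonneg_left hb1 hη0.le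
  have hE0 : (0 : ℝ) < #E := lt_of_lt_of_le (by positivity) hEc
  have hEne : E.Nonempty := by
    rw [← card_pos]; exact_mod_cast hE0
  obtain ⟨k', hk'1, hk'k, hk'η, hfew⟩ := few N x J k hxn hJ1 hkpos X η
    ((N : ℝ) ^ (2 * (γ / 16) * J)) hX1 hη0 (by rw [hη]; linarith) E hE hEne
    (hN₂ N hNN2 J v3 E hE) S hS hbig
  have hk'0 : (0 : ℝ) < k' := by exact_mod_cast hk'1
  -- logarithms
  have hlE : J * ((θ - γ / 2) * L) ≤ J * Real.log (#E : ℝ) := by
    have := Real.log_le_log (by positivity) hEc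
    rw [Real.log_rpow hN0] at this
    exact mul_le_mul_of_nonneg_left this hJ0.le
  have hlog2 := Real.log_le_log (by positivity) hfew
  rw [Real.log_mul (by positivity) (by positivity), Real.log_mul (by positivity) (by positivity),
    Real.log_mul (by positivity) (by positivity), Real.log_mul (by positivity) (by positivity),
    Real.log_mul (by positivity) (by positivity), Real.log_pow, Real.log_pow, Real.log_pow,
    Real.log_pow,
    Real.log_mul (by positivity) (by positivity), Real.log_pow, Real.log_rpow hN0, ← hb] at hlog2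
  have hsumN : Real.log ((N : ℝ) ^ J + ((x : ℝ) ^ k) ^ 2) ≤ Real.log 2 + J * L := by
    have h1 : ((x : ℝ) ^ k) ^ 2 ≤ (N : ℝ) ^ J := by
      have e1 : ((x : ℝ) ^ k) ^ 2 = Real.exp (k * (2 * X)) := by
        rw [← pow_mul, ← Real.rpow_natCast, hxexp]
        congr 1
        push_cast
        ring
      have e2 : (N : ℝ) ^ J = Real.exp (J * L) := by
        rw [← Real.rpow_natCast, Real.rpow_def_of_pos hN0, mul_comm]
      rw [e1, e2]
      exact Real.exp_le_exp.2 hkX
    have h2 : Real.log ((N : ℝ) ^ J + ((x : ℝ) ^ k) ^ 2) ≤ Real.log (2 * (N : ℝ) ^ J) :=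
      Real.log_le_log (by positivity) (by linarith)
    rwa [Real.log_mul (by norm_num) (by positivity), Real.log_pow] at h2
  have hlast : (k' : ℝ) * Real.log (k' / b) ≤ - (κ / 2 - 5 * γ / 32) * (J * L) + X :=
    hlast_aux κ γ X C J L b k k' hγ0 hγκ hκ1 hX0 hL0 hJ0 hk'1 hk'k hk'η hb1 hb0 hlogk hκ (by
      rw [div_le_iff₀ hγ0] at w3
      linarith only [w3]) hk2
  have hXJ : X ≤ γ / 16 * (J * L) := by
    calc X ≤ C2 * L := hXC2
      _ ≤ (J * γ / 16) * L := by
          apply mul_le_mul_of_nonneg_right _ hL0.le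
          linarith
      _ = _ := by ring
  have hJL0 : 0 < J * L := by positivity
  have t1 : J * Real.log (4 * X) ≤ γ / 32 * (J * L) := by
    have h1 : Real.log (4 * X) ≤ Real.log (4 * C2 * L) :=
      Real.log_le_log (by positivity) (by linarith)
    calc J * Real.log (4 * X) ≤ J * (γ / 32 * L) :=
          mul_le_mul_of_nonneg_left (h1.trans v1) hJ0.le
      _ = _ := by ring
  have t2 : (2 * J * k : ℝ) * Real.log (8 * X) ≤ γ / 32 * (J * L) := by
    calc (2 * J * k : ℝ) * Real.log (8 * X) = 2 * k * (J * Real.log (8 * X)) := by ring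
      _ ≤ 2 * k * (γ / 32 * X) := by gcongr
      _ = γ / 32 * (k * (2 * X)) := by ring
      _ ≤ γ / 32 * (J * L) := by gcongr
  have t3 : J * (k * Real.log 2) ≤ γ / 32 * (J * L) := by
    have h1 : Real.log 2 ≤ 2 * Real.log (8 * X) := by
      have h2 : Real.log 2 ≤ Real.log (8 * X) := Real.log_le_log (by norm_num) (by linarith)
      have h3 : 0 ≤ Real.log 2 := Real.log_nonneg (by norm_num)
      linarith
    calc J * (k * Real.log 2) ≤ J * (k * (2 * Real.log (8 * X))) := by gcongr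
      _ = (2 * J * k : ℝ) * Real.log (8 * X) := by ring
      _ ≤ _ := t2
  have t4 : Real.log 12 ≤ γ / 32 * (J * L) := by
    calc Real.log 12 ≤ γ / 32 * L := v2
      _ ≤ γ / 32 * (J * L) := by
          exact mul_le_mul_of_nonneg_left (le_mul_of_one_le_left hL0.le
            (by linarith only [hJ16])) (by positivity)
  have t5 : Real.log 6 + Real.log 2 = Real.log 12 := by
    rw [← Real.log_mul (by norm_num) (by norm_num)]
    norm_num
  have hc : (((2 * J * k : ℕ) : ℝ)) = 2 * J * k := by push_cast; ring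
  rw [hc] at hlog2
  have hfin : J * ((θ - γ / 2) * L) ≤ (1 - κ / 2 + 15 * γ / 32) * (J * L) := by
    linarith only [hlE, hlog2, hsumN, hlast, hXJ, t1, t2, t3, t4, t5]
  have hθe : θ - γ / 2 = 1 - κ / 2 + γ / 2 := by rw [hγ]; ring
  rw [hθe] at hfin
  have h1 : J * ((1 - κ / 2 + γ / 2) * L) =
      (1 - κ / 2 + 15 * γ / 32) * (J * L) + γ * (J * L) / 32 := by ring
  have h2 : 0 < γ * (J * L) := by positivity
  linarith only [h1, h2, hfin]

end Pool.Agent.R345.AP
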