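import Mathlib
import Pool.Agent.R345.AP4
import Pool.Agent.H771R4.SE.LS2
import Pool.Agent.H771R4.SE.Avg2

set_option autoImplicit false

/-! # The average over a set with at least `N ^ θ` integers, for `x ≥ (log N) ^ C` -/

namespace Pool.Agent.R345.AP

open Finset Filter Topology
open Pool.Agent.H386R2.Artin (PP Good hL gL card_PP ev1 ev3 ev5 tlog pi_lower sumH omegaLarge)
open Pool.Agent.H771R4.SE

/-- few bad primes up to `x`, for every `x` of the range -/
def FBG (θ₀ δ c C : ℝ) : Prop := ∃ N₁ : ℕ, ∀ N x : ℕ, N₁ ≤ N →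
      (Real.log N) ^ C ≤ x → Real.log x ≤ (Real.log N) ^ (1 + c) →
      ∀ E : Finset ℕ, E ⊆ Icc 1 N → (N : ℝ) ^ θ₀ ≤ (#E : ℝ) →
        ∀ S : Finset ℕ, (∀ p ∈ S, p ∈ PP x ∧ ¬ Good E ((#E : ℝ) / Real.log x) p) →
        (#S : ℝ) ≤ 12 * (x : ℝ) ^ (1 - δ)

theorem fbg (θ C : ℝ) (hC : 1 < C) (hθ : 1 / 2 + 1 / (2 * C) < θ) (hθ1 : θ < 1) :
    ∃ θ₀ δ c : ℝ, 1 / 2 < θ₀ ∧ θ₀ < θ ∧ 0 < δ ∧ 0 < c ∧ FBG θ₀ δ c C := by
  have hC0 : 0 < C := by linarith
  have hθh : 1 / 2 < θ := by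
    have : 0 < 1 / (2 * C) := by positivity
    linarith
  have h2θ : 0 < 2 * θ - 1 := by linarith
  set C2 : ℝ := max 2 (θ * (1 - θ) / (2 * θ - 1) + 1) with hC2
  have hC22 : 2 ≤ C2 := le_max_left _ _
  have hC2θ : θ * (1 - θ) < C2 * (2 * θ - 1) := by
    have h1 : θ * (1 - θ) / (2 * θ - 1) + 1 ≤ C2 := le_max_right _ _
    have h2 : θ * (1 - θ) / (2 * θ - 1) < C2 := by linarith
    rwa [div_lt_iff₀ h2θ] at h2
  obtain ⟨θa, δa, ca, ha1, ha2, ha3, ha4, N₁, hN₁⟩ := fewBad2 θ C2 hθh hθ1 (by linarith) hC2θ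
  obtain ⟨θb, δb, hb1, hb2, hb3, _, N₂, hN₂⟩ := fewLow θ C C2 hC hθ hθ1 (by linarith)
  refine ⟨max θa θb, min δa δb, ca, lt_of_lt_of_le ha1 (le_max_left _ _), max_lt ha2 hb1,
    lt_min ha3 hb3, ha4, max (max N₁ N₂) 2, fun N x hN hx1 hx2 E hE hEc S hS => ?_⟩
  have hNN1 : N₁ ≤ N := (le_max_left _ _).trans ((le_max_left _ _).trans hN)
  have hNN2 : N₂ ≤ N := (le_max_right _ _).trans ((le_max_left _ _).trans hN)
  have hN2 : 2 ≤ N := (le_max_right _ _).trans hN
  have hN1 : (1 : ℝ) < N := by exact_mod_cast (by omega : 1 < N)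
  have hx0 : (0 : ℝ) < x := lt_of_lt_of_le (by
    have := Real.log_pos hN1
    positivity) hx1
  have hx1' : (1 : ℝ) ≤ x := by
    have : 0 < x := by exact_mod_cast hx0
    exact_mod_cast this
  rcases le_total ((N : ℝ) ^ C2) x with h | h
  · have h1 := hN₁ N x hNN1 h hx2 E hE
      ((Real.rpow_le_rpow_of_exponent_le hN1.le (le_max_left _ _)).trans hEc) S hS
    refine h1.trans (mul_le_mul_of_nonneg_left ?_ (by norm_num))
    apply Real.rpow_le_rpow_of_exponent_le hx1'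
    have := min_le_left δa δb
    linarith
  · have h1 := hN₂ N x hNN2 hx1 h E hE
      ((Real.rpow_le_rpow_of_exponent_le hN1.le (le_max_right _ _)).trans hEc) S hS
    refine h1.trans (mul_le_mul_of_nonneg_left ?_ (by norm_num))
    apply Real.rpow_le_rpow_of_exponent_le hx1'
    have := min_le_right δa δb
    linarith

/-- removing the multiples of `p` does not change the character sums -/
lemma good_sub (E : Finset ℕ) (M : ℝ) (p : ℕ) (hp : p.Prime) (h : Good E M p) :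
    Good (E.filter (fun q => ¬ p ∣ q)) M p := by
  have : Fact p.Prime := ⟨hp⟩
  intro χ hχ
  refine le_of_eq_of_le ?_ (h χ hχ)
  congr 1
  rw [sum_filter]
  apply sum_congr rfl
  intro q _
  by_cases hq : p ∣ q
  · rw [if_neg (not_not.2 hq)]
    have : ((q : ℕ) : ZMod p) = 0 := (ZMod.natCast_eq_zero_iff q p).2 hq
    rw [this, MulChar.map_zero]
  · rw [if_pos hq]

lemma sum_div_le_log (E : Finset ℕ) (N : ℕ) (hN : 1 ≤ N) (hE : E ⊆ Icc 1 N) (x : ℕ) :
    ∑ p ∈ PP x, (#(E.filter (fun q => p ∣ q)) : ℝ) ≤ #E * (2 * Real.log N) := by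
  classical
  have h1 : ∑ p ∈ PP x, (#(E.filter (fun q => p ∣ q)) : ℝ) =
      ∑ q ∈ E, (#((PP x).filter (fun p => p ∣ q)) : ℝ) := by
    have := sum_card_bipartiteAbove_eq_sum_card_bipartiteBelow (s := PP x) (t := E)
      (fun p q : ℕ => p ∣ q)
    unfold bipartiteAbove bipartiteBelow at this
    exact_mod_cast this
  rw [h1, ← nsmul_eq_mul, ← sum_const]
  apply sum_le_sum
  intro q hq
  have h2 := mem_Icc.1 (hE hq)
  have h3 : (PP x).filter (fun p => p ∣ q) ⊆ q.primeFactors := by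
    intro p hp
    rw [mem_filter, PP, mem_filter] at hp
    rw [Nat.mem_primeFactors]
    exact ⟨hp.1.2, hp.2, by omega⟩
  have h4 := card_primeFactors_log q (by omega)
  have h5 : Real.log q ≤ Real.log N :=
    Real.log_le_log (by exact_mod_cast (by omega : 0 < q)) (by exact_mod_cast h2.2)
  have h6 : (#((PP x).filter (fun p => p ∣ q)) : ℝ) ≤ #q.primeFactors := by
    exact_mod_cast card_le_card h3
  have h7 : (1 / 2 : ℝ) ≤ Real.log 2 := by
    have := Real.log_two_gt_d9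
    linarith
  have h8 : (#q.primeFactors : ℝ) * (1 / 2) ≤ #q.primeFactors * Real.log 2 :=
    mul_le_mul_of_nonneg_left h7 (Nat.cast_nonneg _)
  linarith

theorem avg4 (d : Dat) {θ₀ δ c C : ℝ} (hθ₀ : 1 / 2 < θ₀) (hδ : 0 < δ) (hC1 : 1 < C)
    (hF : FBG θ₀ δ c C) (ε : ℝ) (hε : 0 < ε) : ∃ N₀ : ℕ, ∀ N x : ℕ, N₀ ≤ N →
      (Real.log N) ^ C ≤ x → Real.log x ≤ (Real.log N) ^ (1 + c) → ∀ E : Finset ℕ, E ⊆ Icc 1 N →
        (N : ℝ) ^ θ₀ ≤ (#E : ℝ) →
          |∑ q ∈ E, (cntE d q x : ℝ) - d.A * Nat.primeCounting x * #E| ≤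
            ε * Nat.primeCounting x * #E := by
  classical
  obtain ⟨N₁, hfew⟩ := hF
  obtain ⟨CH, hC, h5⟩ := sumH
  obtain ⟨x₆, hx₆⟩ := omegaLarge
  obtain ⟨y₀, hy3, hy₀⟩ := pi_lower
  set ε' : ℝ := ε / 20 with hε'd
  have hε' : 0 < ε' := by positivity
  have hCL : ∀ᶠ L : ℕ in atTop, CH / (L : ℝ) < ε' := by
    have : Tendsto (fun L : ℕ => CH / (L : ℝ)) atTop (𝓝 0) :=
      tendsto_const_nhds.div_atTop tendsto_natCast_atTop_atTop
    exact this.eventually (gt_mem_nhds hε')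
  obtain ⟨L, hL2, hL3⟩ := (hCL.and (eventually_ge_atTop 2)).exists
  obtain ⟨x₅, hx₅⟩ := h5 L (by omega)
  have hG : ∀ᶠ x : ℕ in atTop, |(∑ p ∈ PP x, d.G p) / (Nat.primeCounting x : ℝ) - d.A| < ε' := by
    have := (Metric.tendsto_nhds.1 d.lim) ε' hε'
    simpa [Real.dist_eq] using this
  have hNb : ∀ᶠ N : ℕ in atTop, 1 / ε' ≤ (N : ℝ) ^ (1 / 2 : ℝ) :=
    ((tendsto_rpow_atTop (by norm_num)).comp tendsto_natCast_atTop_atTop).eventually_ge_atTop _
  have hp0ev : ∀ᶠ x : ℕ in atTop, (d.p0 : ℝ) ≤ ε' * (Nat.primeCounting x : ℝ) :=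
    ((tendsto_natCast_atTop_atTop.comp Nat.tendsto_primeCounting).const_mul_atTop
      hε').eventually_ge_atTop _
  have hC0 : 0 < C := by linarith
  have hC1' : 0 < 1 - 1 / C := by
    rw [sub_pos, div_lt_one hC0]
    exact hC1
  have hev := (((((((evB 12 0 δ ε' hδ hε' (by norm_num)).and
    (ev1 (1 - 1 / C) (ε' / 2) hC1' (by positivity))).and (ev3 ε' hε')).and
    (ev5 ε' 1 (2 ^ L) hε' (by norm_num))).and
    hG).and (tlog.eventually_ge_atTop (max 3 (y₀ : ℝ)))).and hp0ev).and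
    (((eventually_ge_atTop x₅).and (eventually_ge_atTop x₆)).and (eventually_ge_atTop y₀))
  obtain ⟨x₀, hx₀⟩ := eventually_atTop.1 hev
  have hlx : ∀ᶠ N : ℕ in atTop, (x₀ : ℝ) ≤ (Real.log N) ^ C :=
    ((tendsto_rpow_atTop hC0).comp tlog).eventually_ge_atTop _
  obtain ⟨N₂, hN₂⟩ := eventually_atTop.1 (hNb.and hlx)
  refine ⟨max (max N₁ N₂) 2, fun N x hN' hNx hxN E hE hEc => ?_⟩
  have hN : 2 ≤ N := (le_max_right _ _).trans hN'
  have hNN1 : N₁ ≤ N := (le_max_left _ _).trans ((le_max_left _ _).trans hN')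
  have hNN2 : N₂ ≤ N := (le_max_right _ _).trans ((le_max_left _ _).trans hN')
  have hN0 : (0 : ℝ) < N := by exact_mod_cast (by omega : 0 < N)
  have hN1 : (1 : ℝ) ≤ N := by exact_mod_cast (by omega : 1 ≤ N)
  have hlN : 0 < Real.log N := Real.log_pos (by exact_mod_cast (by omega : 1 < N))
  obtain ⟨e4, e6⟩ := hN₂ N hNN2
  have hxx : x₀ ≤ x := by exact_mod_cast e6.trans hNx
  obtain ⟨⟨⟨⟨⟨⟨⟨e1, e2⟩, e3⟩, e5⟩, eG⟩, hX⟩, ep0⟩, ⟨⟨hxx5, hxx6⟩, hxxy⟩⟩ := hx₀ x hxx
  have hP := hy₀ x hxxy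
  set P : ℝ := (Nat.primeCounting x : ℝ) with hPd
  set X : ℝ := Real.log x with hXd
  have hX3 : 3 ≤ X := le_trans (le_max_left _ _) hX
  have hX0 : 0 < X := by linarith
  have hX1 : 1 ≤ X := by linarith
  have hx3 : 3 ≤ x := le_trans hy3 hxxy
  have hx0 : (0 : ℝ) < x := by exact_mod_cast (by omega : 0 < x)
  have hx1 : (1 : ℝ) ≤ x := by exact_mod_cast (by omega : 1 ≤ x)
  have hP0 : 0 < P := lt_of_lt_of_le (by positivity) hP
  set e : ℝ := (#E : ℝ) with hed
  have he0 : 0 < e := lt_of_lt_of_le (by positivity) hEc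
  have hNup : 2 * Real.log N ≤ ε' * P := by
    have h1 : ((Real.log N) ^ C) ^ (1 / C) ≤ (x : ℝ) ^ (1 / C) :=
      Real.rpow_le_rpow (by positivity) hNx (by positivity)
    rw [← Real.rpow_mul hlN.le, mul_one_div_cancel hC0.ne', Real.rpow_one] at h1
    have h2 : (x : ℝ) ^ (1 / C) = (x : ℝ) ^ (1 - (1 - 1 / C) : ℝ) := by
      congr 1
      ring
    rw [h2] at h1
    have h3 := h1.trans e2
    have h4 : ε' / 2 * (x / (2 * X)) ≤ ε' / 2 * P := mul_le_mul_of_nonneg_left hP (by positivity)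
    linarith
  have hone : 1 ≤ ε' * e := by
    have h1 : (N : ℝ) ^ (1 / 2 : ℝ) ≤ (N : ℝ) ^ θ₀ :=
      Real.rpow_le_rpow_of_exponent_le hN1 (by linarith)
    have h2 : 1 / ε' ≤ e := e4.trans (h1.trans hEc)
    rw [div_le_iff₀ hε'] at h2
    linarith
  set M : ℝ := e / X with hMd
  have hM0 : 0 < M := by positivity
  set W : ℝ := 5 * Real.log X with hWd
  have hW0 : 0 ≤ W := by
    have := Real.log_nonneg hX1
    positivity
  set F : ℕ → ℝ := fun p => (#(E.filter (fun q : ℕ => d.Q p ((q : ℕ) : ZMod p))) : ℝ) with hFd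
  set Dv : ℕ → ℝ := fun p => (#(E.filter (fun q : ℕ => p ∣ q)) : ℝ) with hDv
  have hDv0 : ∀ p, 0 ≤ Dv p := fun p => Nat.cast_nonneg _
  have hDvs : ∑ p ∈ PP x, Dv p ≤ ε' * P * e := by
    have h1 := sum_div_le_log E N (by omega) hE x
    refine h1.trans ?_
    rw [← hed]
    calc e * (2 * Real.log N) ≤ e * (ε' * P) := mul_le_mul_of_nonneg_left hNup he0.le
      _ = ε' * P * e := by ring
  have hF0 : ∀ p, 0 ≤ F p := fun p => Nat.cast_nonneg _
  have hFe : ∀ p, F p ≤ e := fun p => by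
    simp only [hFd, hed]
    exact_mod_cast card_filter_le _ _
  set Z1 : Finset ℕ := (PP x).filter (fun p => ¬ Good E M p) with hZ1
  set Z2 : Finset ℕ := (PP x).filter (fun p : ℕ => p < d.p0) with hZ2
  set Z3 : Finset ℕ := (PP x).filter (fun p => W < ((p - 1).primeFactors.card : ℝ)) with hZ3
  have hZ1c : (#Z1 : ℝ) ≤ ε' * P := by
    have h1 := hfew N x hNN1 hNx hxN E hE hEc Z1 (fun p hp => by
      rw [hZ1, mem_filter] at hp
      exact hp)
    rw [pow_zero, mul_one] at e1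
    refine h1.trans (e1.trans ?_)
    exact mul_le_mul_of_nonneg_left hP hε'.le
  have hZ2c : (#Z2 : ℝ) ≤ ε' * P := by
    have h1 : Z2 ⊆ range d.p0 := by
      intro p hp
      rw [hZ2, mem_filter] at hp
      exact mem_range.2 hp.2
    have h2 : (#Z2 : ℝ) ≤ d.p0 := by
      have := card_le_card h1
      rw [card_range] at this
      exact_mod_cast this
    exact h2.trans ep0
  have hZ3c : (#Z3 : ℝ) ≤ ε' * P := by
    refine le_trans (hx₆ x hxx6) (le_trans e3 ?_)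
    exact mul_le_mul_of_nonneg_left hP hε'.le
  have hpt : ∀ p ∈ PP x, |F p - e * d.G p| ≤
      (if p ∈ Z1 then 2 * e else 0) + (if p ∈ Z2 then 2 * e else 0) +
        (if p ∈ Z3 then 2 * e else 0) +
        3 * (1 + 2 ^ L * M + W * M + e * hL L (p - 1)) + 3 * Dv p := by
    intro p hp
    have hg0 := d.G0 p
    have hg1 := d.G1 p
    have hh0 : 0 ≤ hL L (p - 1) := Finset.sum_nonneg fun l _ => by positivity
    have hrest : 0 ≤ 3 * (1 + 2 ^ L * M + W * M + e * hL L (p - 1)) := by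
      have h1 : 0 ≤ 2 ^ L * M := mul_nonneg (by positivity) hM0.le
      have h2 : 0 ≤ W * M := mul_nonneg hW0 hM0.le
      have h3 : 0 ≤ e * hL L (p - 1) := mul_nonneg he0.le hh0
      linarith
    have hd0 := hDv0 p
    have htriv : |F p - e * d.G p| ≤ 2 * e := by
      have f0 := hF0 p
      have fe := hFe p
      have g1 : 0 ≤ e * d.G p := mul_nonneg he0.le hg0
      have g2 : e * d.G p ≤ e * 2 := mul_le_mul_of_nonneg_left hg1 he0.le
      rw [abs_le]
      constructor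
      · linarith
      · linarith
    have i1 : 0 ≤ (if p ∈ Z1 then 2 * e else 0) := by split_ifs <;> linarith
    have i2 : 0 ≤ (if p ∈ Z2 then 2 * e else 0) := by split_ifs <;> linarith
    have i3 : 0 ≤ (if p ∈ Z3 then 2 * e else 0) := by split_ifs <;> linarith
    by_cases c1 : p ∈ Z1
    · rw [if_pos c1]; linarith
    by_cases c2 : p ∈ Z2
    · rw [if_pos c2]; linarith
    by_cases c3 : p ∈ Z3
    · rw [if_pos c3]; linarith
    have hgood : Good E M p := by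
      by_contra hcon; exact c1 (mem_filter.2 ⟨hp, hcon⟩)
    have hpN : d.p0 ≤ p := by
      by_contra hcon; exact c2 (mem_filter.2 ⟨hp, not_le.1 hcon⟩)
    have hom : ((p - 1).primeFactors.card : ℝ) ≤ W := by
      by_contra hcon; exact c3 (mem_filter.2 ⟨hp, not_le.1 hcon⟩)
    have hpp : p.Prime := (mem_filter.1 hp).2
    set Ep : Finset ℕ := E.filter (fun q => ¬ p ∣ q) with hEp
    have hE0 : ∀ q ∈ Ep, ((q : ℕ) : ZMod p) ≠ 0 := by
      intro q hq h
      rw [ZMod.natCast_eq_zero_iff] at h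
      rw [hEp, mem_filter] at hq
      exact hq.2 h
    have hEpc : (#Ep : ℝ) + Dv p = e := by
      simp only [hEp, hDv, hed]
      have := card_filter_add_card_filter_not (s := E) (fun q : ℕ => p ∣ q)
      have h2 : #(E.filter (fun q => ¬ p ∣ q)) + #(E.filter (fun q => p ∣ q)) = #E := by
        omega
      exact_mod_cast h2
    have hFp : F p ≤ #(Ep.filter (fun q : ℕ => d.Q p ((q : ℕ) : ZMod p))) + Dv p := by
      simp only [hFd, hDv]
      have h1 : E.filter (fun q : ℕ => d.Q p ((q : ℕ) : ZMod p)) ⊆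
          (Ep.filter (fun q : ℕ => d.Q p ((q : ℕ) : ZMod p))) ∪ (E.filter (fun q => p ∣ q)) := by
        intro q hq
        rw [mem_filter] at hq
        rw [mem_union, mem_filter, hEp, mem_filter, mem_filter]
        by_cases h : p ∣ q
        · right; exact ⟨hq.1, h⟩
        · left; exact ⟨⟨hq.1, h⟩, hq.2⟩
      exact_mod_cast (card_le_card h1).trans (card_union_le _ _)
    have hFp2 : (#(Ep.filter (fun q : ℕ => d.Q p ((q : ℕ) : ZMod p))) : ℝ) ≤ F p := by
      simp only [hFd]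
      have h1 : Ep.filter (fun q : ℕ => d.Q p ((q : ℕ) : ZMod p)) ⊆
          E.filter (fun q : ℕ => d.Q p ((q : ℕ) : ZMod p)) :=
        filter_subset_filter _ (filter_subset _ _)
      exact_mod_cast card_le_card h1
    have hloc := d.loc p hpp hpN Ep M L hL3 hE0 hM0.le (good_sub E M p hpp hgood)
    set F' : ℝ := (#(Ep.filter (fun q : ℕ => d.Q p ((q : ℕ) : ZMod p))) : ℝ) with hF'
    have hloc' : |F' - #Ep * d.G p| ≤
      1 + 2 ^ L * M + 3 * (#Ep * hL L (p - 1)) + (p - 1).primeFactors.card * M := by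
      refine le_trans (le_of_eq ?_) hloc
      simp only [hF']
    have h8 : ((p - 1).primeFactors.card : ℝ) * M ≤ W * M :=
      mul_le_mul_of_nonneg_right hom hM0.le
    have h9 : 0 ≤ 2 ^ L * M := mul_nonneg (by positivity) hM0.le
    have h10 : 0 ≤ W * M := mul_nonneg hW0 hM0.le
    have h11 : (#Ep : ℝ) * hL L (p - 1) ≤ e * hL L (p - 1) :=
      mul_le_mul_of_nonneg_right (by linarith) hh0
    have h12 : 0 ≤ e * hL L (p - 1) := mul_nonneg he0.le hh0
    have h13 : (#Ep : ℝ) * d.G p = e * d.G p - Dv p * d.G p := by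
      rw [← hEpc]; ring
    have h14 : Dv p * d.G p ≤ Dv p * 2 := mul_le_mul_of_nonneg_left hg1 hd0
    have h15 : 0 ≤ Dv p * d.G p := mul_nonneg hd0 hg0
    rw [if_neg c1, if_neg c2, if_neg c3]
    rw [abs_le] at hloc' ⊢
    constructor
    · linarith [hloc'.1, hloc'.2]
    · linarith [hloc'.1, hloc'.2]
  have hsum : |∑ p ∈ PP x, F p - e * ∑ p ∈ PP x, d.G p| ≤
      3 * (2 * (ε' * P * e)) + 3 * (P * (1 + 2 ^ L * M + W * M)) + 3 * (e * (CH / L * P)) +
        3 * (ε' * P * e) := by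
    have hs1 : ∑ p ∈ PP x, F p - e * ∑ p ∈ PP x, d.G p =
        ∑ p ∈ PP x, (F p - e * d.G p) := by
      rw [Finset.sum_sub_distrib, Finset.mul_sum]
    rw [hs1]
    refine le_trans (Finset.abs_sum_le_sum_abs _ _) (le_trans (Finset.sum_le_sum hpt) ?_)
    rw [Finset.sum_add_distrib, Finset.sum_add_distrib, Finset.sum_add_distrib,
      Finset.sum_add_distrib, ← Finset.mul_sum, ← Finset.mul_sum, Finset.sum_add_distrib]
    have hsub : ∀ Z : Finset ℕ, Z ⊆ PP x →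
        ∑ p ∈ PP x, (if p ∈ Z then 2 * e else 0) = #Z * (2 * e) := by
      intro Z hZ
      rw [← Finset.sum_filter, Finset.sum_const, nsmul_eq_mul, Finset.filter_mem_eq_inter,
        Finset.inter_eq_right.2 hZ]
    rw [hsub Z1 (filter_subset _ _), hsub Z2 (filter_subset _ _), hsub Z3 (filter_subset _ _),
      Finset.sum_const, nsmul_eq_mul, card_PP, ← hPd, ← Finset.mul_sum]
    have hh := hx₅ x hxx5
    have he2 : 0 ≤ 2 * e := by linarith
    have g1 : (#Z1 : ℝ) * (2 * e) ≤ ε' * P * (2 * e) := mul_le_mul_of_nonneg_right hZ1c he2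
    have g2 : (#Z2 : ℝ) * (2 * e) ≤ ε' * P * (2 * e) := mul_le_mul_of_nonneg_right hZ2c he2
    have g3 : (#Z3 : ℝ) * (2 * e) ≤ ε' * P * (2 * e) := mul_le_mul_of_nonneg_right hZ3c he2
    have g4 : e * ∑ p ∈ PP x, hL L (p - 1) ≤ e * (CH / L * P) :=
      mul_le_mul_of_nonneg_left hh he0.le
    linarith
  rw [cntE_sum d E x]
  change |∑ p ∈ PP x, F p - d.A * P * e| ≤ ε * P * e
  have hεPe : 0 ≤ ε' * P * e := mul_nonneg (mul_nonneg hε'.le hP0.le) he0.le
  have hMs : P * (1 + 2 ^ L * M + W * M) ≤ 2 * (ε' * P * e) := by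
    have k1 : 2 ^ L * M + W * M = e * ((2 ^ L + W) / X) := by
      rw [hMd]; ring
    rw [Real.rpow_one] at e5
    have k2 : e * ((2 ^ L + W) / X) ≤ e * ε' := mul_le_mul_of_nonneg_left e5 he0.le
    have k3 : 1 + 2 ^ L * M + W * M ≤ 2 * (ε' * e) := by linarith
    calc P * (1 + 2 ^ L * M + W * M) ≤ P * (2 * (ε' * e)) := mul_le_mul_of_nonneg_left k3 hP0.le
      _ = 2 * (ε' * P * e) := by ring
  have hCLP : e * (CH / L * P) ≤ ε' * P * e := by
    have h1 : CH / (L : ℝ) * P ≤ ε' * P := mul_le_mul_of_nonneg_right hL2.le hP0.le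
    have h2 := mul_le_mul_of_nonneg_left h1 he0.le
    linarith
  have hGP : |e * ∑ p ∈ PP x, d.G p - d.A * P * e| ≤ ε' * P * e := by
    have k1 : e * ∑ p ∈ PP x, d.G p - d.A * P * e =
        ((∑ p ∈ PP x, d.G p) / P - d.A) * (P * e) := by
      field_simp
    rw [k1, abs_mul, abs_of_pos (mul_pos hP0 he0 : 0 < P * e)]
    calc |(∑ p ∈ PP x, d.G p) / P - d.A| * (P * e) ≤ ε' * (P * e) :=
          mul_le_mul_of_nonneg_right eG.le (mul_pos hP0 he0).le
      _ = ε' * P * e := by ring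
  have htri : |∑ p ∈ PP x, F p - d.A * P * e| ≤
      |∑ p ∈ PP x, F p - e * ∑ p ∈ PP x, d.G p| +
      |e * ∑ p ∈ PP x, d.G p - d.A * P * e| := abs_sub_le _ _ _
  have hfin : 19 * (ε' * P * e) ≤ ε * P * e := by
    have k3 : ε * P * e = 20 * (ε' * P * e) := by
      rw [hε'd]; ring
    linarith
  linarith

open Classical in
/-- the exceptional set -/
theorem exc4 (d : Dat) {θ₀ δ c C : ℝ} (hθ₀ : 1 / 2 < θ₀) (hδ : 0 < δ) (hC1 : 1 < C)
    (hF : FBG θ₀ δ c C) (ε : ℝ) (hε : 0 < ε) : ∃ N₀ : ℕ, ∀ N x : ℕ, N₀ ≤ N →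
      (Real.log N) ^ C ≤ x →
      Real.log x ≤ (Real.log N) ^ (1 + c) →
      (#((Icc 1 N).filter (fun n : ℕ => ε * (Nat.primeCounting x : ℝ) <
        |(cntE d n x : ℝ) - d.A * (Nat.primeCounting x : ℝ)|)) : ℝ) ≤
        2 * (N : ℝ) ^ θ₀ := by
  obtain ⟨N₁, hx₁⟩ := avg4 d hθ₀ hδ hC1 hF (ε / 2) (by positivity)
  have hC0 : 0 < C := by linarith
  have hlx : ∀ᶠ N : ℕ in atTop, (2 : ℝ) ≤ (Real.log N) ^ C :=
    ((tendsto_rpow_atTop hC0).comp tlog).eventually_ge_atTop _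
  obtain ⟨N₂, hN₂⟩ := eventually_atTop.1 hlx
  refine ⟨max (max N₁ N₂) 2, fun N x hN hNx hxN => ?_⟩
  have hNN1 : N₁ ≤ N := (le_max_left _ _).trans ((le_max_left _ _).trans hN)
  have hNN2 : N₂ ≤ N := (le_max_right _ _).trans ((le_max_left _ _).trans hN)
  have hN2 : 2 ≤ N := (le_max_right _ _).trans hN
  have hN0 : (0 : ℝ) < N := by exact_mod_cast (by omega : 0 < N)
  have hN1 : (1 : ℝ) ≤ N := by exact_mod_cast (by omega : 1 ≤ N)
  have hx2 : 2 ≤ x := by exact_mod_cast (hN₂ N hNN2).trans hNx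
  set P : ℝ := (Nat.primeCounting x : ℝ) with hPd
  have hP0 : 0 < P := by
    have h1 : Nat.primeCounting 2 ≤ Nat.primeCounting x := Nat.monotone_primeCounting hx2
    have h2 : Nat.primeCounting 2 = 1 := by decide
    have : 0 < Nat.primeCounting x := by omega
    rw [hPd]
    exact_mod_cast this
  have side : ∀ s : ℝ, (s = 1 ∨ s = -1) →
      (#((Icc 1 N).filter (fun n : ℕ => ε * P < s * ((cntE d n x : ℝ) - d.A * P))) : ℝ) ≤
        (N : ℝ) ^ θ₀ := by
    intro s hs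
    by_contra hcon
    push Not at hcon
    set E := (Icc 1 N).filter (fun n : ℕ => ε * P < s * ((cntE d n x : ℝ) - d.A * P)) with hEd
    have hav := hx₁ N x hNN1 hNx hxN E (filter_subset _ _) hcon.le
    have he0 : (0 : ℝ) < #E := lt_trans (by positivity) hcon
    have hlow : ε * P * #E ≤ s * (∑ q ∈ E, (cntE d q x : ℝ) - d.A * P * #E) := by
      have h1 : s * (∑ q ∈ E, (cntE d q x : ℝ) - d.A * P * #E) =
          ∑ q ∈ E, (s * ((cntE d q x : ℝ) - d.A * P)) := by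
        rw [← Finset.mul_sum, Finset.sum_sub_distrib, Finset.sum_const, nsmul_eq_mul]
        ring
      rw [h1]
      have h3 : ∑ _q ∈ E, ε * P ≤ ∑ q ∈ E, (s * ((cntE d q x : ℝ) - d.A * P)) := by
        apply Finset.sum_le_sum
        intro q hq
        rw [hEd, mem_filter] at hq
        exact hq.2.le
      rw [Finset.sum_const, nsmul_eq_mul] at h3
      linarith
    have hup : s * (∑ q ∈ E, (cntE d q x : ℝ) - d.A * P * #E) ≤ ε / 2 * P * #E := by
      rcases hs with hs | hs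
      · rw [hs, one_mul]; exact le_trans (le_abs_self _) hav
      · rw [hs]
        have := neg_abs_le (∑ q ∈ E, (cntE d q x : ℝ) - d.A * P * #E)
        linarith
    have hpos : 0 < ε * P * #E := mul_pos (mul_pos hε hP0) he0
    have : ε / 2 * P * #E = (ε * P * #E) / 2 := by ring
    linarith
  have h1 := side 1 (Or.inl rfl)
  have h2 := side (-1) (Or.inr rfl)
  have hsub : (Icc 1 N).filter (fun n : ℕ => ε * P < |(cntE d n x : ℝ) - d.A * P|) ⊆
      (Icc 1 N).filter (fun n : ℕ => ε * P < 1 * ((cntE d n x : ℝ) - d.A * P)) ∪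
      (Icc 1 N).filter (fun n : ℕ => ε * P < (-1) * ((cntE d n x : ℝ) - d.A * P)) := by
    intro q hq
    rw [mem_filter] at hq
    rw [mem_union, mem_filter, mem_filter]
    rcases lt_abs.1 hq.2 with h3 | h3
    · left; exact ⟨hq.1, by linarith⟩
    · right; exact ⟨hq.1, by linarith⟩
  have h3 := (card_le_card hsub).trans (card_union_le _ _)
  have h4 : (#((Icc 1 N).filter (fun n : ℕ => ε * P < |(cntE d n x : ℝ) - d.A * P|)) : ℝ) ≤
      (#((Icc 1 N).filter (fun n : ℕ => ε * P < 1 * ((cntE d n x : ℝ) - d.A * P))) : ℝ) +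
      (#((Icc 1 N).filter (fun n : ℕ => ε * P < (-1) * ((cntE d n x : ℝ) - d.A * P))) : ℝ) := by
    exact_mod_cast h3
  linarith

end Pool.Agent.R345.AP
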