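import Mathlib
import Pool.Agent.R345.AP6
import Pool.Agent.H74R5.Uniform

set_option autoImplicit false

/-! # Uniformity over families of counting problems with the same local densities -/

namespace Pool.Agent.R345.AP

open Finset Filter Topology
open Pool.Agent.H386R2.Artin (PP Good hL tlog)
open Pool.Agent.H771R4.SE
open Pool.Agent.H74R5 (mix cnt_diff)

theorem uniform4 (θ C : ℝ) (hθ : 1 / 2 < θ) (hθ1 : θ < 1) (hCθ : 1 < C * (2 * θ - 1)) :
    ∃ c : ℝ, 0 < c ∧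
    ∀ (ι : Type) (F : ι → Dat) (i0 : ι), (∀ i, (F i).G = (F i0).G) → (∀ i, (F i).A = (F i0).A) →
      (∀ i, (F i).p0 = (F i0).p0) → ∀ ε : ℝ, 0 < ε →
      ∃ N₀ : ℕ, ∀ N : ℕ, N₀ ≤ N → ∀ i, (#(badZ (F i) ε C c N) : ℝ) ≤ (N : ℝ) ^ θ := by
  classical
  obtain ⟨c, hc, hall⟩ := allX4 θ C hθ hθ1 hCθ
  have hC0 : 1 < C := by
    by_contra hcon
    push Not at hcon
    have h1 : 0 < 2 * θ - 1 := by linarith
    have h2 : C * (2 * θ - 1) ≤ 1 * (2 * θ - 1) := mul_le_mul_of_nonneg_right hcon h1.le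
    linarith
  refine ⟨c, hc, fun ι F i0 hG hA hp ε hε => ?_⟩
  by_contra hcon
  push Not at hcon
  choose Nf hN If hI using hcon
  -- thresholds
  have hT : ∀ y : ℕ, ∃ T : ℕ, y < T ∧ ∀ x : ℕ, T ≤ x →
      (Nat.primeCounting y : ℝ) ≤ ε / 2 * (Nat.primeCounting x : ℝ) := by
    intro y
    have h1 : Tendsto (fun x : ℕ => ε / 2 * (Nat.primeCounting x : ℝ)) atTop atTop :=
      (tendsto_natCast_atTop_atTop.comp Nat.tendsto_primeCounting).const_mul_atTop (by positivity)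
    obtain ⟨T, hT⟩ := eventually_atTop.1 (h1.eventually_ge_atTop (Nat.primeCounting y : ℝ))
    exact ⟨max T (y + 1), by omega, fun x hx => hT x (le_trans (le_max_left _ _) hx)⟩
  choose T0 hT1 hT2 using hT
  -- from `N ≥ V y` on, `(log N) ^ C ≥ T0 y`
  have hV : ∀ y : ℕ, ∃ V : ℕ, y < V ∧ ∀ N : ℕ, V ≤ N → (T0 y : ℝ) ≤ (Real.log N) ^ C := by
    intro y
    have h1 : ∀ᶠ N : ℕ in atTop, (T0 y : ℝ) ≤ (Real.log N) ^ C :=
      ((tendsto_rpow_atTop (by linarith)).comp tlog).eventually_ge_atTop _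
    obtain ⟨V, hV⟩ := eventually_atTop.1 h1
    exact ⟨max V (y + 1), by omega, fun x hx => hV x (le_trans (le_max_left _ _) hx)⟩
  choose T hV1 hV2 using hV
  let Yf : ℕ → ℕ := fun N => max N ⌈Real.exp ((Real.log N) ^ (1 + c))⌉₊
  let S : ℕ → ℕ := fun n => Nat.rec 0 (fun _ s => T (Yf (Nf s))) n
  have hS : ∀ n, S (n + 1) = T (Yf (Nf (S n))) := fun n => rfl
  let Y : ℕ → ℕ := fun n => Yf (Nf (S n))
  have hYS : ∀ n, Y n < S (n + 1) := fun n => by rw [hS]; exact hV1 _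
  have hSN : ∀ n, S n ≤ Nf (S n) := fun n => hN _
  have hNY : ∀ n, Nf (S n) ≤ Y n := fun n => le_max_left _ _
  have hYY : ∀ n, Y n < Y (n + 1) := fun n =>
    (hYS n).trans_le ((hSN (n + 1)).trans (hNY (n + 1)))
  have hmono : StrictMono Y := strictMono_nat_of_lt_succ hYY
  have hYid : ∀ n, n ≤ Y n := hmono.id_le
  have hex : ∀ p : ℕ, ∃ n, p ≤ Y n := fun p => ⟨p, hYid p⟩
  let ν : ℕ → ℕ := fun p => Nat.find (hex p)
  have hν : ∀ n p : ℕ, Y n < p → p ≤ Y (n + 1) → ν p = n + 1 := by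
    intro n p h1 h2
    apply le_antisymm
    · exact Nat.find_min' (hex p) h2
    · by_contra h3
      have h4 : ν p ≤ n := by omega
      have h5 : p ≤ Y (ν p) := Nat.find_spec (hex p)
      have h6 : Y (ν p) ≤ Y n := hmono.monotone h4
      omega
  let dm : Dat := mix F i0 (fun p => If (S (ν p))) hG hp
  obtain ⟨N₁, hN₁⟩ := hall dm (ε / 2) (by positivity)
  -- compare at the step `N₁ + 1`
  set n := N₁ with hn
  set N := Nf (S (n + 1)) with hNdef
  have hNN : N₁ ≤ N := by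
    have h1 := hYid n
    have h2 := hYS n
    have h3 := hSN (n + 1)
    omega
  have h1 := hN₁ N hNN
  have h2 := hI (S (n + 1))
  rw [← hNdef] at h2
  have hsub : badZ (F (If (S (n + 1)))) ε C c N ⊆ badZ dm (ε / 2) C c N := by
    intro m hm
    unfold badZ at hm ⊢
    rw [mem_filter] at hm ⊢
    obtain ⟨hm1, x, hx1, hx2, hx3⟩ := hm
    refine ⟨hm1, x, hx1, hx2, ?_⟩
    have hxY : x ≤ Y (n + 1) := by
      have h3 : (x : ℝ) ≤ ⌈Real.exp ((Real.log N) ^ (1 + c))⌉₊ := hx2.trans (Nat.le_ceil _)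
      have h4 : x ≤ ⌈Real.exp ((Real.log N) ^ (1 + c))⌉₊ := by exact_mod_cast h3
      exact h4.trans (le_max_right _ _)
    have hTx : T0 (Y n) ≤ x := by
      have h3 := hSN (n + 1)
      rw [hS] at h3
      have h4 := hV2 (Y n) N h3
      exact_mod_cast h4.trans hx1
    have hpi := hT2 (Y n) x hTx
    have hag : ∀ p : ℕ, Y n < p → p ≤ x →
        (dm.Q p (m : ZMod p) ↔ (F (If (S (n + 1)))).Q p (m : ZMod p)) := by
      intro p h3 h4
      have h5 : ν p = n + 1 := hν n p h3 (h4.trans hxY)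
      change (F (If (S (ν p)))).Q p (m : ZMod p) ↔ _
      rw [h5]
    have e1 := cnt_diff dm (F (If (S (n + 1)))) m x (Y n) hag
    have e2 := cnt_diff (F (If (S (n + 1)))) dm m x (Y n) (fun p h3 h4 => (hag p h3 h4).symm)
    have hA' : (F (If (S (n + 1)))).A = dm.A := hA _
    rw [hA'] at hx3
    have e3 : |(cntE (F (If (S (n + 1)))) m x : ℝ) - dm.A * (Nat.primeCounting x : ℝ)| ≤
        |(cntE dm m x : ℝ) - dm.A * (Nat.primeCounting x : ℝ)| + Nat.primeCounting (Y n) := by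
      have e4 : |(cntE (F (If (S (n + 1)))) m x : ℝ) - cntE dm m x| ≤ Nat.primeCounting (Y n) := by
        rw [abs_le]
        constructor <;> linarith
      have e5 := abs_sub_le (cntE (F (If (S (n + 1)))) m x : ℝ) (cntE dm m x : ℝ)
        (dm.A * (Nat.primeCounting x : ℝ))
      linarith
    linarith
  have h3 : (#(badZ (F (If (S (n + 1)))) ε C c N) : ℝ) ≤ #(badZ dm (ε / 2) C c N) := by
    exact_mod_cast card_le_card hsub
  linarith

end Pool.Agent.R345.AP
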