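import Pool.Agent.R345.SS6

set_option autoImplicit false

/-! Primes modulo which the elements of a sumset are squares: all ranges at once. -/

namespace Pool.Agent.R345.SS

open Finset Filter
open scoped Nat.Prime

/-- few pairs have a large symbol sum for some `y ≥ L` -/
theorem sym_pairs (k : ℕ) (hk : 1 ≤ k) (η : ℝ) (hη : 0 < η) (hη1 : η ≤ 1) : ∃ C : ℝ, 0 < C ∧
    ∀ (X : ℕ) (u v D : ℤ) (A A' : Finset ℤ) (L : ℝ), 2 ≤ X → A ⊆ Icc u (u + X) → A' ⊆ Icc v (v + X) → 0 < L →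
      ∀ G : Finset (ℤ × ℤ), (∀ z ∈ G, z ∈ A ×ˢ A' ∧
        ∃ y : ℕ, L ≤ y ∧ (y : ℝ) ^ (2 * k) ≤ A.card ∧ (y : ℝ) ^ (2 * k) ≤ A'.card ∧
          η * (π y : ℝ) ≤ |SJ (D * (z.1 + z.2)) y|) →
      (G.card : ℝ) ≤ C * (Real.log X ^ 2 / L) ^ k * (A.card * A'.card) := by
  classical
  obtain ⟨C1, hC1, Y0, hY04, hdy⟩ := dyadic k hk η hη hη1
  obtain ⟨Y1, hY1⟩ : ∃ Y1 : ℕ, Y1 = Y0 := ⟨_, rfl⟩
  have hY10 : Y0 ≤ Y1 := hY1.ge
  have hl2 : (0 : ℝ) < Real.log 2 := Real.log_pos (by norm_num)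
  refine ⟨(Y1 / Real.log 2 ^ 2) ^ k + 2 * C1, by positivity, ?_⟩
  intro X u v D A A' L hX hA hA' hL0 G hG
  have hXr : (2 : ℝ) ≤ X := by exact_mod_cast hX
  have hlX : Real.log 2 ≤ Real.log X := Real.log_le_log (by norm_num) hXr
  have hAA : (0 : ℝ) ≤ A.card * A'.card := by positivity
  have hZ0 : 0 ≤ (Real.log X ^ 2 / L) ^ k := by positivity
  rcases lt_or_ge L (Y1 : ℝ) with hLY | hLY
  · -- small L
    have h1 : (G.card : ℝ) ≤ A.card * A'.card := by
      have h2 : G ⊆ A ×ˢ A' := fun z hz => (hG z hz).1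
      have h3 := card_le_card h2
      rw [card_product] at h3
      exact_mod_cast h3
    refine h1.trans ?_
    have h2 : 1 ≤ (Y1 / Real.log 2 ^ 2 : ℝ) ^ k * (Real.log X ^ 2 / L) ^ k := by
      rw [← mul_pow]
      apply one_le_pow₀
      rw [div_mul_div_comm, le_div_iff₀ (by positivity), one_mul]
      have h4 : Real.log 2 ^ 2 ≤ Real.log X ^ 2 := pow_le_pow_left₀ hl2.le hlX 2
      calc Real.log 2 ^ 2 * L ≤ Real.log X ^ 2 * Y1 := mul_le_mul h4 hLY.le hL0.le (by positivity)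
        _ = _ := by ring
    have h3 : 1 ≤ ((Y1 / Real.log 2 ^ 2 : ℝ) ^ k + 2 * C1) * (Real.log X ^ 2 / L) ^ k := by
      rw [add_mul]
      have : 0 ≤ 2 * C1 * (Real.log X ^ 2 / L) ^ k := by positivity
      linarith
    calc (A.card * A'.card : ℝ) = 1 * (A.card * A'.card) := (one_mul _).symm
      _ ≤ _ := mul_le_mul_of_nonneg_right h3 hAA
  -- large L
  set Y : ℕ := ⌈L⌉₊ with hYdef
  have hLYr : L ≤ Y := Nat.le_ceil L
  have hY1Y : Y1 ≤ Y := by
    have : (Y1 : ℝ) ≤ Y := hLY.trans hLYr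
    exact_mod_cast this
  have hYpos : 0 < Y := by
    have : 4 ≤ Y := (hY04.trans hY10).trans hY1Y
    omega
  have hYr : (0 : ℝ) < Y := by exact_mod_cast hYpos
  -- each bad pair has a large sum
  have hbad : ∀ z ∈ G, ∃ y : ℕ, Y ≤ y ∧ (y : ℝ) ^ (2 * k) ≤ A.card ∧ (y : ℝ) ^ (2 * k) ≤ A'.card ∧
      η * (π y : ℝ) ≤ |SJ (D * (z.1 + z.2)) y| := by
    intro z hz
    obtain ⟨hzA, y, hLy, hyA, hyA', hbad⟩ := hG z hz
    exact ⟨y, Nat.ceil_le.2 hLy, hyA, hyA', hbad⟩
  -- the dyadic classes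
  set T : ℕ := A.card + 1 with hT
  set Gt : ℕ → Finset (ℤ × ℤ) := fun t => G.filter (fun z => ∃ y : ℕ, (2 ^ t * Y ≤ y ∧ y ≤ 2 * (2 ^ t * Y)) ∧
    (y : ℝ) ^ (2 * k) ≤ A.card ∧ (y : ℝ) ^ (2 * k) ≤ A'.card ∧ η * (π y : ℝ) ≤ |SJ (D * (z.1 + z.2)) y|) with hGt
  have hcover : G ⊆ (range T).biUnion Gt := by
    intro z hz
    obtain ⟨y, hYy, hyA, hyA', hlarge⟩ := hbad z hz
    rw [mem_biUnion]
    have hy1n : 1 ≤ y := by omega
    have hyA1 : y ≤ A.card := by
      have h1 : (y : ℝ) ≤ (y : ℝ) ^ (2 * k) := by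
        have : (1 : ℝ) ≤ y := by exact_mod_cast hy1n
        exact le_self_pow₀ this (by omega)
      exact_mod_cast h1.trans hyA
    have hq : y / Y ≠ 0 := by
      have := Nat.div_pos hYy hYpos
      omega
    refine ⟨Nat.log 2 (y / Y), ?_, ?_⟩
    · rw [mem_range, hT]
      have h1 : Nat.log 2 (y / Y) ≤ y / Y := Nat.log_le_self _ _
      have h2 := Nat.div_le_self y Y
      omega
    · rw [hGt]
      simp only [mem_filter]
      refine ⟨hz, y, ⟨?_, ?_⟩, hyA, hyA', hlarge⟩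
      · have h1 := Nat.pow_log_le_self 2 hq
        calc 2 ^ Nat.log 2 (y / Y) * Y ≤ y / Y * Y := Nat.mul_le_mul_right _ h1
          _ ≤ y := Nat.div_mul_le_self _ _
      · have h1 := Nat.lt_pow_succ_log_self (b := 2) (by norm_num) (y / Y)
        have h2 : y < (y / Y + 1) * Y := by
          have := Nat.lt_div_mul_add (a := y) hYpos
          rw [add_mul, one_mul]; exact this
        have h3 : (y / Y + 1) * Y ≤ 2 ^ (Nat.log 2 (y / Y) + 1) * Y := Nat.mul_le_mul_right _ h1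
        have h4 : 2 ^ (Nat.log 2 (y / Y) + 1) * Y = 2 * (2 ^ Nat.log 2 (y / Y) * Y) := by
          rw [pow_succ]; ring
        omega
  have heach : ∀ t ∈ range T, ((Gt t).card : ℝ) ≤ (1 / 2) ^ t * (C1 * (Real.log X ^ 2 / L) ^ k * (A.card * A'.card)) := by
    intro t _
    rcases (Gt t).eq_empty_or_nonempty with he | ⟨z0, hz0⟩
    · rw [he, card_empty, Nat.cast_zero]
      positivity
    rw [hGt] at hz0
    simp only [mem_filter] at hz0
    obtain ⟨-, y0, ⟨h1, -⟩, h2, h3, -⟩ := hz0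
    have hle : (((2 ^ t * Y : ℕ) : ℝ)) ^ (2 * k) ≤ (y0 : ℝ) ^ (2 * k) :=
      pow_le_pow_left₀ (Nat.cast_nonneg _) (by exact_mod_cast h1) _
    have h2t : 1 ≤ 2 ^ t := Nat.one_le_two_pow
    have h4 := hdy (2 ^ t * Y) X u v A A' D (by nlinarith) hA hA' (hle.trans h2) (hle.trans h3) (Gt t) (by
      intro z hz
      rw [hGt] at hz
      simp only [mem_filter] at hz
      obtain ⟨hz1, y, hy, -, -, hy3⟩ := hz
      exact ⟨(hG z hz1).1, y, hy, hy3⟩)
    refine h4.trans ?_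
    have h5 : (Real.log X ^ 2 / ((2 ^ t * Y : ℕ) : ℝ)) ^ k ≤ (1 / 2) ^ t * (Real.log X ^ 2 / L) ^ k := by
      have h6 : Real.log X ^ 2 / ((2 ^ t * Y : ℕ) : ℝ) ≤ (1 / 2) ^ t * (Real.log X ^ 2 / L) := by
        push_cast
        have h7 : Real.log X ^ 2 / (2 ^ t * (Y : ℝ)) = (1 / 2) ^ t * (Real.log X ^ 2 / Y) := by
          rw [one_div, inv_pow]; field_simp
        rw [h7]
        refine mul_le_mul_of_nonneg_left ?_ (by positivity)
        exact div_le_div_of_nonneg_left (by positivity) hL0 hLYr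
      refine (pow_le_pow_left₀ (by positivity) h6 k).trans ?_
      rw [mul_pow]
      refine mul_le_mul_of_nonneg_right ?_ hZ0
      rw [← pow_mul]
      refine pow_le_pow_of_le_one (by norm_num) (by norm_num) ?_
      nlinarith
    calc C1 * (Real.log X ^ 2 / ((2 ^ t * Y : ℕ) : ℝ)) ^ k * (A.card * A'.card) ≤
        C1 * ((1 / 2) ^ t * (Real.log X ^ 2 / L) ^ k) * (A.card * A'.card) :=
          mul_le_mul_of_nonneg_right (mul_le_mul_of_nonneg_left h5 hC1.le) hAA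
      _ = _ := by ring
  have h6 : (G.card : ℝ) ≤ ∑ t ∈ range T, ((Gt t).card : ℝ) := by
    exact_mod_cast (card_le_card hcover).trans card_biUnion_le
  refine h6.trans ((sum_le_sum heach).trans ?_)
  rw [← sum_mul]
  have h7 : ∑ t ∈ range T, ((1 : ℝ) / 2) ^ t ≤ 2 := by
    have h8 := geom_sum_eq (show (1 : ℝ) / 2 ≠ 1 by norm_num) T
    rw [h8]
    have h9 : (0 : ℝ) < (1 / 2) ^ T := by positivity
    rw [div_le_iff_of_neg (by norm_num)]
    linarith
  have h8 : 0 ≤ C1 * (Real.log X ^ 2 / L) ^ k * (A.card * A'.card) := by positivity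
  calc (∑ t ∈ range T, ((1 : ℝ) / 2) ^ t) * (C1 * (Real.log X ^ 2 / L) ^ k * (A.card * A'.card)) ≤
      2 * (C1 * (Real.log X ^ 2 / L) ^ k * (A.card * A'.card)) := mul_le_mul_of_nonneg_right h7 h8
    _ = 2 * C1 * (Real.log X ^ 2 / L) ^ k * (A.card * A'.card) := by ring
    _ ≤ ((Y1 / Real.log 2 ^ 2 : ℝ) ^ k + 2 * C1) * (Real.log X ^ 2 / L) ^ k * (A.card * A'.card) := by
        refine mul_le_mul_of_nonneg_right (mul_le_mul_of_nonneg_right ?_ hZ0) hAA
        have : (0 : ℝ) ≤ (Y1 / Real.log 2 ^ 2 : ℝ) ^ k := by positivity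
        linarith


/-- the odd primes `p ≤ y` modulo which `n` is a nonzero square -/
noncomputable def PS (n : ℤ) (y : ℕ) : Finset ℕ := (Nat.primesLE y).filter (fun p => p ≠ 2 ∧ jacobiSym n p = 1)

theorem PS_count (n : ℤ) (hn : n ≠ 0) (y : ℕ) :
    ((π y : ℝ) - |SJ n y| - 2 * Real.log (n.natAbs : ℝ)) / 2 - 1 ≤ ((PS n y).card : ℝ) := by
  classical
  set P1 := (Nat.primesLE y).filter (fun p => jacobiSym n p = 1) with hP1
  set Z := (Nat.primesLE y).filter (fun p => jacobiSym n p = 0) with hZ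
  have hZc : (Z.card : ℝ) ≤ 2 * Real.log (n.natAbs : ℝ) := by
    have h1 : Z ⊆ n.natAbs.primeFactors := by
      intro p hp
      rw [hZ, mem_filter, Nat.mem_primesLE] at hp
      rw [Nat.mem_primeFactors]
      refine ⟨hp.1.2, ?_, Int.natAbs_ne_zero.2 hn⟩
      have : NeZero p := ⟨hp.1.2.ne_zero⟩
      have h2 := jacobiSym.eq_zero_iff_not_coprime.1 hp.2
      by_contra h3
      apply h2
      have h4 : Nat.Coprime p n.natAbs := (Nat.Prime.coprime_iff_not_dvd hp.1.2).2 h3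
      rw [Int.gcd_comm]
      exact h4
    refine le_trans ?_ (card_primeFactors_le _ (Int.natAbs_ne_zero.2 hn))
    exact_mod_cast card_le_card h1
  have hsum : (π y : ℝ) + SJ n y ≤ 2 * P1.card + Z.card := by
    have h1 : (π y : ℝ) = ∑ p ∈ Nat.primesLE y, (1 : ℝ) := by
      rw [sum_const, nsmul_eq_mul, mul_one, Nat.primesLE_card_eq_primeCounting]
    have h2 : (2 : ℝ) * P1.card + Z.card = ∑ p ∈ Nat.primesLE y, (2 * (if jacobiSym n p = 1 then (1 : ℝ) else 0) + (if jacobiSym n p = 0 then (1 : ℝ) else 0)) := by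
      rw [sum_add_distrib, ← mul_sum, sum_boole, sum_boole]
    rw [h1, h2, SJ, ← sum_add_distrib]
    refine sum_le_sum fun p _ => ?_
    unfold J
    rcases jacobiSym.trichotomy n p with h | h | h <;> rw [h] <;> norm_num
  have hP1' : (P1.card : ℝ) ≤ (PS n y).card + 1 := by
    have h1 : P1 ⊆ insert 2 (PS n y) := by
      intro p hp
      rw [hP1, mem_filter] at hp
      rw [mem_insert]
      by_cases h2 : p = 2
      · left; exact h2
      · right
        unfold PS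
        rw [mem_filter]
        exact ⟨hp.1, h2, hp.2⟩
    have h2 := (card_le_card h1).trans (card_insert_le _ _)
    exact_mod_cast h2
  have h3 := neg_abs_le (SJ n y)
  linarith

theorem pi_sqrt (y : ℕ) (hy : 4 ≤ y) (h : (y : ℝ) / (2 * Real.log y) ≤ (π y : ℝ)) : Real.sqrt y / 4 ≤ (π y : ℝ) := by
  have hyr : (4 : ℝ) ≤ y := by exact_mod_cast hy
  have hly : 0 < Real.log y := Real.log_pos (by linarith)
  have hs : 0 < Real.sqrt y := Real.sqrt_pos.2 (by linarith)
  have hss : Real.sqrt y * Real.sqrt y = y := Real.mul_self_sqrt (by linarith)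
  have hl : Real.log y ≤ 2 * Real.sqrt y := by
    have h2 : Real.log y = 2 * Real.log (Real.sqrt y) := by rw [Real.log_sqrt (by linarith)]; ring
    have h3 := Real.log_le_sub_one_of_pos hs
    rw [h2]
    linarith
  refine le_trans ?_ h
  rw [div_le_div_iff₀ (by norm_num) (by positivity)]
  calc Real.sqrt y * (2 * Real.log y) ≤ Real.sqrt y * (2 * (2 * Real.sqrt y)) :=
        mul_le_mul_of_nonneg_left (by linarith) hs.le
    _ = (Real.sqrt y * Real.sqrt y) * 4 := by ring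
    _ = y * 4 := by rw [hss]

/-- all but few elements of a sumset are squares modulo many primes -/
theorem good_pairs (k : ℕ) (hk : 1 ≤ k) : ∃ C : ℝ, 1 ≤ C ∧
    ∀ (N : ℕ) (D : ℤ) (A B : Finset ℤ) (L : ℝ), 2 ≤ N → D ≠ 0 → |D| ≤ N → A ⊆ Icc (-(N : ℤ)) N → B ⊆ Icc (-(N : ℤ)) N →
      0 < L → ∀ G : Finset (ℤ × ℤ), (∀ z ∈ G, z ∈ A ×ˢ B ∧
        (C * Real.log N ^ 2 ≤ L → D * (z.1 + z.2) ≠ 0 ∧
        ∃ y : ℕ, L ≤ y ∧ (y : ℝ) ^ (2 * k) ≤ A.card ∧ (y : ℝ) ^ (2 * k) ≤ B.card ∧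
          ((PS (D * (z.1 + z.2)) y).card : ℝ) < (π y : ℝ) / 8)) →
      (G.card : ℝ) ≤ (C * Real.log N ^ 2 / L) ^ k * (A.card * B.card) := by
  classical
  obtain ⟨C1, hC1, hs⟩ := sym_pairs k hk (1 / 2) (by norm_num) (by norm_num)
  obtain ⟨Y2, hY24, hpi⟩ := pi_facts 1 one_pos
  have hl2 : (0 : ℝ) < Real.log 2 := Real.log_pos (by norm_num)
  have hl2' := Real.log_two_gt_d9
  have hl2'' := Real.log_two_lt_d9
  obtain ⟨C, hC⟩ : ∃ C : ℝ, C = 30000 + Y2 / Real.log 2 ^ 2 + 4 * (C1 + 1) := ⟨_, rfl⟩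
  have hY2p : (0 : ℝ) ≤ Y2 / Real.log 2 ^ 2 := by positivity
  refine ⟨C, by rw [hC]; linarith, ?_⟩
  intro N D A B L hN hD0 hDN hA hB hL0 G hG
  have hNr : (2 : ℝ) ≤ N := by exact_mod_cast hN
  have hlN : Real.log 2 ≤ Real.log N := Real.log_le_log (by norm_num) hNr
  have hlN0 : 0 < Real.log N := by linarith
  have hAB : (0 : ℝ) ≤ A.card * B.card := by positivity
  have hCpos : 0 < C := by rw [hC]; linarith
  by_cases hsmall : L < C * Real.log N ^ 2
  · have h1 : (G.card : ℝ) ≤ A.card * B.card := by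
      have h2 : G ⊆ A ×ˢ B := fun z hz => (hG z hz).1
      have h3 := card_le_card h2
      rw [card_product] at h3
      exact_mod_cast h3
    refine h1.trans ?_
    have h2 : (1 : ℝ) ≤ (C * Real.log N ^ 2 / L) ^ k := by
      apply one_le_pow₀
      rw [one_le_div hL0]
      exact hsmall.le
    exact le_mul_of_one_le_left hAB h2
  push Not at hsmall
  obtain ⟨X, hX⟩ : ∃ X : ℕ, X = 2 * N := ⟨_, rfl⟩
  have hAX : A ⊆ Icc (-(N : ℤ)) (-(N : ℤ) + X) := by
    intro a ha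
    have := mem_Icc.1 (hA ha)
    rw [mem_Icc, hX]
    push_cast
    constructor <;> linarith [this.1, this.2]
  have hBX : B ⊆ Icc (-(N : ℤ)) (-(N : ℤ) + X) := by
    intro a ha
    have := mem_Icc.1 (hB ha)
    rw [mem_Icc, hX]
    push_cast
    constructor <;> linarith [this.1, this.2]
  have h1 := hs X (-(N : ℤ)) (-(N : ℤ)) D A B L (by omega) hAX hBX hL0 G ?_
  · refine h1.trans (mul_le_mul_of_nonneg_right ?_ hAB)
    have hXr : (X : ℝ) = 2 * N := by rw [hX]; push_cast; ring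
    have h2 : Real.log X ≤ 2 * Real.log N := by
      rw [hXr, Real.log_mul (by norm_num) (by linarith)]
      linarith
    have h3 : 0 ≤ Real.log X := Real.log_natCast_nonneg _
    have h4 : Real.log X ^ 2 ≤ (2 * Real.log N) ^ 2 := pow_le_pow_left₀ h3 h2 2
    have h5 : Real.log X ^ 2 / L ≤ 4 * (Real.log N ^ 2 / L) := by
      rw [← mul_div_assoc]
      refine div_le_div_of_nonneg_right ?_ hL0.le
      linarith [h4, mul_pow (2 : ℝ) (Real.log N) 2]
    have h6 : C1 ≤ (C1 + 1) ^ k := by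
      have : C1 + 1 ≤ (C1 + 1) ^ k := le_self_pow₀ (by linarith) (by omega)
      linarith
    calc C1 * (Real.log X ^ 2 / L) ^ k ≤ (C1 + 1) ^ k * (4 * (Real.log N ^ 2 / L)) ^ k :=
          mul_le_mul h6 (pow_le_pow_left₀ (by positivity) h5 k) (by positivity) (by positivity)
      _ = ((4 * (C1 + 1)) * (Real.log N ^ 2 / L)) ^ k := by rw [← mul_pow]; congr 1; ring
      _ ≤ (C * Real.log N ^ 2 / L) ^ k := by
          rw [mul_div_assoc]
          refine pow_le_pow_left₀ (by positivity) (mul_le_mul_of_nonneg_right ?_ (by positivity)) k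
          rw [hC]
          linarith
  · intro z hz
    obtain ⟨hzA, hrest⟩ := hG z hz
    obtain ⟨hn0, y, hLy, hyA, hyB, hbad⟩ := hrest hsmall
    refine ⟨hzA, y, hLy, hyA, hyB, ?_⟩
    by_contra hlt
    push Not at hlt
    have hc := PS_count (D * (z.1 + z.2)) hn0 y
    set n := D * (z.1 + z.2) with hn
    have hzA' := mem_product.1 hzA
    have ha := mem_Icc.1 (hA hzA'.1)
    have hb := mem_Icc.1 (hB hzA'.2)
    have hnN : |n| ≤ (N : ℤ) * (2 * N) := by
      rw [hn, abs_mul]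
      refine mul_le_mul hDN ?_ (abs_nonneg _) (by positivity)
      rw [abs_le]
      constructor <;> linarith [ha.1, ha.2, hb.1, hb.2]
    have hlogn : Real.log (n.natAbs : ℝ) ≤ 3 * Real.log N := by
      have h2 : (n.natAbs : ℝ) ≤ N * (2 * N) := by
        rw [Nat.cast_natAbs]
        exact_mod_cast hnN
      have h3 : (0 : ℝ) < n.natAbs := by exact_mod_cast Int.natAbs_pos.2 hn0
      refine (Real.log_le_log h3 h2).trans ?_
      rw [Real.log_mul (by linarith) (by linarith), Real.log_mul (by norm_num) (by linarith)]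
      linarith
    have hly2 : C * Real.log 2 ^ 2 ≤ y := by
      refine le_trans ?_ (hsmall.trans hLy)
      exact mul_le_mul_of_nonneg_left (pow_le_pow_left₀ hl2.le hlN 2) hCpos.le
    have hyY2 : Y2 ≤ y := by
      have h2 : (Y2 : ℝ) ≤ y := by
        refine le_trans ?_ hly2
        have h3 : (Y2 : ℝ) / Real.log 2 ^ 2 ≤ C := by rw [hC]; linarith
        calc (Y2 : ℝ) = Y2 / Real.log 2 ^ 2 * Real.log 2 ^ 2 := by field_simp
          _ ≤ _ := mul_le_mul_of_nonneg_right h3 (by positivity)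
      exact_mod_cast h2
    have hpi1 := pi_sqrt y (hY24.trans hyY2) (hpi y hyY2).1
    have hsq : 170 * Real.log N ≤ Real.sqrt y := by
      apply Real.le_sqrt_of_sq_le
      refine le_trans ?_ (hsmall.trans hLy)
      rw [mul_pow]
      refine mul_le_mul_of_nonneg_right ?_ (by positivity)
      rw [hC]
      linarith
    linarith

end Pool.Agent.R345.SS
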