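import Pool.Agent.R345.CT1
import Pool.Agent.R459.Tor1
import Pool.Agent.TH847.LG.Disc
import Pool.Agent.Results.MP_695920_nt.LogSavingAllDegrees

set_option autoImplicit false

/-! Torsion in the class groups of quadratic fields with many small split primes. -/

namespace Pool.Agent.R345.SS

open Finset NumberField
open scoped Nat.Prime
open Pool.Agent.Results.MP_695920_nt.LogSavingAllDegrees (smallNorms)

open Polynomial in
/-- primes modulo which `n` is a square are norms in `ℚ(√n)` -/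
theorem norm_quadratic (K : Type) [Field K] [NumberField K] (α : K) (n : ℤ)
    (hfin : Module.finrank ℚ K = 2) (hα : IntermediateField.adjoin ℚ {α} = ⊤) (h : α ^ 2 = (n : K))
    (p : ℕ) (hp : p.Prime) (hp2 : p ≠ 2) (hJ : jacobiSym n p = 1) : ∃ P : Ideal (𝓞 K), Ideal.absNorm P = p := by
  have : Fact p.Prime := ⟨hp⟩
  rw [← jacobiSym.legendreSym.to_jacobiSym] at hJ
  have hn0 : (n : ZMod p) ≠ 0 := by
    intro h0
    rw [(legendreSym.eq_zero_iff p n).2 h0] at hJ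
    norm_num at hJ
  obtain ⟨x, hx⟩ := (legendreSym.eq_one_iff p hn0).1 hJ
  obtain ⟨a, rfl⟩ : ∃ a : ℤ, (a : ZMod p) = x := ⟨x.val, by simp⟩
  refine Pool.Agent.R459.Tor.norm_of_root K (X ^ 2) (monic_X_pow 2) (by simp) α n hα (by simp [hfin]) (by simp [h]) p a ?_ ?_
  · rw [eval_pow, eval_X, ← ZMod.intCast_zmod_eq_zero_iff_dvd _ p]
    push_cast
    rw [hx]
    ring
  · intro hd
    rw [derivative_X_pow] at hd
    simp only [Nat.cast_ofNat, map_ofNat, Nat.add_one_sub_one, pow_one, eval_mul, eval_ofNat, eval_X] at hd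
    rcases (Int.Prime.dvd_mul' hp hd) with h1 | h1
    · have h2 : p ∣ 2 := by exact_mod_cast h1
      exact hp2 ((Nat.prime_dvd_prime_iff_eq hp Nat.prime_two).1 h2)
    · apply hn0
      rw [hx, (ZMod.intCast_zmod_eq_zero_iff_dvd a p).2 h1, mul_zero]

open Polynomial in
theorem disc_quadratic (K : Type) [Field K] [NumberField K] (α : K) (n : ℤ)
    (hfin : Module.finrank ℚ K = 2) (hα : IntermediateField.adjoin ℚ {α} = ⊤) (h : α ^ 2 = (n : K)) :
    |(discr K : ℝ)| ≤ 4 * |(n : ℝ)| := by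
  have hint : IsIntegral ℤ α := by
    refine ⟨X ^ 2 - C n, monic_X_pow_sub_C n (by norm_num), ?_⟩
    rw [eval₂_sub, eval₂_C, eval₂_pow, eval₂_X, h]
    simp
  obtain ⟨z, hz⟩ : ∃ z : 𝓞 K, (z : K) = α := ⟨⟨α, hint⟩, rfl⟩
  have hw : ∀ w : InfinitePlace K, w (z : K) ≤ √|(n : ℝ)| := by
    intro w
    rw [hz]
    have h1 : w ((n : ℤ) : K) = |(n : ℝ)| := by
      have h1 : w ((n : ℚ) : K) = |((n : ℚ) : ℝ)| := by
        rw [← InfinitePlace.norm_embedding_eq]
        simp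
      simpa using h1
    have h2 : (w α) ^ 2 = |(n : ℝ)| := by rw [← map_pow, h, h1]
    exact Real.le_sqrt_of_sq_le h2.le
  have h4 := Pool.Agent.TH847.LG.disc_bound hfin z (by rw [hz]; exact hα) hw
  refine h4.trans (le_of_eq ?_)
  norm_num
  rw [mul_pow, Real.sq_sqrt (abs_nonneg _)]
  norm_num

theorem log_pow_two_le (u : ℝ) (hu : 1 ≤ u) : (Real.log (u + 2)) ^ 2 / u ≤ 6 := by
  have h1 : 0 ≤ Real.log (u + 2) := Real.log_nonneg (by linarith)
  have h2 := Real.pow_div_factorial_le_exp _ h1 2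
  rw [Real.exp_log (by linarith), div_le_iff₀ (by positivity)] at h2
  rw [div_le_iff₀ (by linarith)]
  norm_num at h2
  linarith

/-- the bounds for the torsion -/
theorem class_quadratic : ∃ C : ℝ, 1 ≤ C ∧ ∀ (N : ℕ) (n : ℤ) (K : Type) [Field K] [NumberField K] (α : K) (ℓ : ℕ), 2 ≤ N →
    |n| ≤ (N : ℤ) * (2 * N) → Module.finrank ℚ K = 2 → IntermediateField.adjoin ℚ {α} = ⊤ → α ^ 2 = (n : K) → 1 ≤ ℓ →
    (Nat.card {x : ClassGroup (𝓞 K) // x ^ ℓ = 1} : ℝ) ≤ C * ℓ ^ 2 * √|(discr K : ℝ)| ∧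
    ∀ y : ℕ, C * Real.log N ^ 2 ≤ y → (600 * (y : ℝ)) ^ (2 * ℓ) ≤ |(discr K : ℝ)| → (π y : ℝ) / 8 ≤ (PS n y).card →
      (Nat.card {x : ClassGroup (𝓞 K) // x ^ ℓ = 1} : ℝ) ≤ C * ℓ ^ 2 * Real.log N ^ 3 * √|(discr K : ℝ)| / y := by
  classical
  obtain ⟨C₁, hC₁, hmain⟩ := Pool.Agent.Results.MP_695920_nt.LogSavingAllDegrees.result 2 le_rfl
  obtain ⟨Y2, hY24, hpi⟩ := pi_facts 1 one_pos
  have hl2 : (0 : ℝ) < Real.log 2 := Real.log_pos (by norm_num)
  have hl2' := Real.log_two_gt_d9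
  have hl2'' := Real.log_two_lt_d9
  obtain ⟨C, hC⟩ : ∃ C : ℝ, C = 2000000 + Y2 / Real.log 2 ^ 2 + 800000 * C₁ := ⟨_, rfl⟩
  have hY2p : (0 : ℝ) ≤ Y2 / Real.log 2 ^ 2 := by positivity
  have hCpos : 0 < C := by rw [hC]; linarith
  refine ⟨C, by rw [hC]; linarith, ?_⟩
  intro N n K _ _ α ℓ hN hnN hfin hα h hℓ
  have hNr : (2 : ℝ) ≤ N := by exact_mod_cast hN
  have hlN : Real.log 2 ≤ Real.log N := Real.log_le_log (by norm_num) hNr
  have hlN0 : 0 < Real.log N := by linarith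
  have hD2 : 2 < |discr K| := abs_discr_gt_two (by omega)
  have hDn : |(discr K : ℝ)| = ((discr K).natAbs : ℝ) := by
    rw [Nat.cast_natAbs, Int.cast_abs]
  have hD3 : 3 ≤ (discr K).natAbs := by
    have : (2 : ℤ) < ((discr K).natAbs : ℤ) := by rw [Int.natCast_natAbs]; exact hD2
    omega
  have hdisc := disc_quadratic K α n hfin hα h
  have hres := (hmain ℓ hℓ K hfin).2
  rw [hDn] at hres hdisc
  rw [hDn]
  obtain ⟨D, hD⟩ : ∃ D : ℕ, D = (discr K).natAbs := ⟨_, rfl⟩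
  rw [← hD] at hres hdisc hD3
  rw [← hD]
  have hDR : (3 : ℝ) ≤ D := by exact_mod_cast hD3
  have hD0 : (0 : ℝ) < D := by linarith
  have hu : 1 ≤ Real.log (D : ℝ) := by
    rw [Real.le_log_iff_exp_le hD0]
    linarith [Real.exp_one_lt_d9]
  have hu0 : 0 < Real.log (D : ℝ) := by linarith
  have hll0 : 0 ≤ Real.log (Real.log (D : ℝ) + 2) := Real.log_nonneg (by linarith)
  have hlp := log_pow_two_le _ hu
  have hlogD : Real.log (D : ℝ) ≤ 10 * Real.log N := by
    have h3 : (D : ℝ) ≤ 2 ^ 3 * (N : ℝ) ^ 2 := by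
      refine hdisc.trans ?_
      have h2 : |(n : ℝ)| ≤ N * (2 * N) := by exact_mod_cast hnN
      linarith
    refine (Real.log_le_log hD0 h3).trans ?_
    rw [Real.log_mul (by norm_num) (by positivity), Real.log_pow, Real.log_pow]
    push_cast
    linarith
  have hsD : 0 < √(D : ℝ) := Real.sqrt_pos.2 hD0
  have hℓr : (1 : ℝ) ≤ ℓ := by exact_mod_cast hℓ
  constructor
  · calc (Nat.card {x : ClassGroup (𝓞 K) // x ^ ℓ = 1} : ℝ)
        ≤ C₁ * (ℓ : ℝ) ^ 2 * (Real.log (Real.log (D : ℝ) + 2)) ^ 2 * (√(D : ℝ) / Real.log (D : ℝ)) := hres.1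
      _ = C₁ * (ℓ : ℝ) ^ 2 * ((Real.log (Real.log (D : ℝ) + 2)) ^ 2 / Real.log (D : ℝ)) * √(D : ℝ) := by ring
      _ ≤ C₁ * (ℓ : ℝ) ^ 2 * 6 * √(D : ℝ) := by gcongr
      _ = (6 * C₁) * (ℓ : ℝ) ^ 2 * √(D : ℝ) := by ring
      _ ≤ C * (ℓ : ℝ) ^ 2 * √(D : ℝ) := by
          have : 6 * C₁ ≤ C := by rw [hC]; linarith
          gcongr
  · intro y hyC hyD hyS
    have hly2 : C * Real.log 2 ^ 2 ≤ y := by
      refine le_trans ?_ hyC
      exact mul_le_mul_of_nonneg_left (pow_le_pow_left₀ hl2.le hlN 2) hCpos.le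
    have hyY2 : Y2 ≤ y := by
      have h2 : (Y2 : ℝ) ≤ y := by
        refine le_trans ?_ hly2
        have h3 : (Y2 : ℝ) / Real.log 2 ^ 2 ≤ C := by rw [hC]; linarith
        calc (Y2 : ℝ) = Y2 / Real.log 2 ^ 2 * Real.log 2 ^ 2 := by field_simp
          _ ≤ _ := mul_le_mul_of_nonneg_right h3 (by positivity)
      exact_mod_cast h2
    have hy4 : 4 ≤ y := hY24.trans hyY2
    have hyr : (4 : ℝ) ≤ y := by exact_mod_cast hy4
    have hy0 : (0 : ℝ) < y := by linarith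
    have hpi0 := (hpi y hyY2).1
    have hpi1 := pi_sqrt y hy4 hpi0
    have hsq : 1400 * Real.log N ≤ Real.sqrt y := by
      apply Real.le_sqrt_of_sq_le
      refine le_trans ?_ hyC
      rw [mul_pow]
      refine mul_le_mul_of_nonneg_right ?_ (by positivity)
      rw [hC]
      linarith
    have hyleD : (y : ℝ) ≤ D := by
      have h1 : (1 : ℝ) ≤ 600 * (y : ℝ) := by linarith
      have h2 : 600 * (y : ℝ) ≤ (600 * (y : ℝ)) ^ (2 * ℓ) := le_self_pow₀ h1 (by omega)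
      linarith
    have hlogy : Real.log y ≤ 10 * Real.log N := (Real.log_le_log hy0 hyleD).trans hlogD
    have hlogy0 : 0 < Real.log y := Real.log_pos (by linarith)
    obtain ⟨S, hS⟩ : ∃ S : Finset ℕ, S = PS n y := ⟨_, rfl⟩
    have hSmem : ∀ p ∈ S, p.Prime ∧ p ≤ y ∧ p ≠ 2 ∧ jacobiSym n p = 1 := by
      intro p hp
      rw [hS] at hp
      unfold PS at hp
      rw [mem_filter, Nat.mem_primesLE] at hp
      exact ⟨hp.1.2, hp.1.1, hp.2.1, hp.2.2⟩
    have hS1 : ((S.filter (fun p => p ∣ D)).card : ℝ) ≤ 20 * Real.log N := by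
      have h1 : S.filter (fun p => p ∣ D) ⊆ D.primeFactors := by
        intro p hp
        rw [mem_filter] at hp
        rw [Nat.mem_primeFactors]
        exact ⟨(hSmem p hp.1).1, hp.2, by omega⟩
      have h2 := card_primeFactors_le D (by omega)
      have h3 : ((S.filter (fun p => p ∣ D)).card : ℝ) ≤ D.primeFactors.card := by exact_mod_cast card_le_card h1
      linarith
    have hS2 : (π y : ℝ) / 16 ≤ ((S.filter (fun p => ¬ p ∣ D)).card : ℝ) := by
      have h1 : ((S.filter (fun p => p ∣ D)).card : ℝ) + ((S.filter (fun p => ¬ p ∣ D)).card : ℝ) = S.card := by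
        exact_mod_cast Finset.card_filter_add_card_filter_not (s := S) (fun p => p ∣ D)
      rw [← hS] at hyS
      linarith
    obtain ⟨SS, hSS⟩ : ∃ SS : Set ℕ, SS = {p ∈ smallNorms K 2 ℓ | ¬ p ∣ D} := ⟨_, rfl⟩
    have hsub : ((S.filter (fun p => ¬ p ∣ D) : Finset ℕ) : Set ℕ) ⊆ SS := by
      intro p hp
      rw [Finset.mem_coe, Finset.mem_filter] at hp
      obtain ⟨hpS, hpD⟩ := hp
      obtain ⟨hpp, hpy, hp2, hpJ⟩ := hSmem p hpS
      rw [hSS]
      refine ⟨⟨hpp, ?_, norm_quadratic K α n hfin hα h p hpp hp2 hpJ⟩, hpD⟩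
      rw [← hD]
      have h1 : (((2 * (150 * p) ^ ℓ) ^ (2 * (2 - 1)) : ℕ) : ℝ) < ((D : ℕ) : ℝ) := by
        have hp0 : (0 : ℝ) < p := by exact_mod_cast hpp.pos
        have hpx' : (p : ℝ) ≤ y := by exact_mod_cast hpy
        push_cast
        calc (2 * (150 * (p : ℝ)) ^ ℓ) ^ (2 * (2 - 1)) ≤ ((300 * (p : ℝ)) ^ ℓ) ^ (2 * (2 - 1)) := by
              apply pow_le_pow_left₀ (by positivity)
              have h5 : (2 : ℝ) ≤ 2 ^ ℓ := le_self_pow₀ (by norm_num) (by omega)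
              calc 2 * (150 * (p : ℝ)) ^ ℓ ≤ 2 ^ ℓ * (150 * (p : ℝ)) ^ ℓ :=
                    mul_le_mul_of_nonneg_right h5 (by positivity)
                _ = (300 * (p : ℝ)) ^ ℓ := by rw [← mul_pow]; ring
          _ = (300 * (p : ℝ)) ^ (2 * ℓ) := by rw [← pow_mul, mul_comm ℓ]
          _ < (600 * (y : ℝ)) ^ (2 * ℓ) := by
              apply pow_lt_pow_left₀ _ (by positivity) (by omega)
              linarith
          _ ≤ D := hyD
      exact_mod_cast h1
    have hSSr : SS ⊆ ((range D : Finset ℕ) : Set ℕ) := by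
      intro p hp
      rw [hSS] at hp
      obtain ⟨⟨hpp, h1, _⟩, _⟩ := hp
      rw [← hD] at h1
      rw [Finset.mem_coe, Finset.mem_range]
      refine lt_of_le_of_lt ?_ h1
      calc p ≤ 150 * p := by omega
        _ ≤ (150 * p) ^ ℓ := Nat.le_self_pow (by omega) _
        _ ≤ 2 * (150 * p) ^ ℓ := by omega
        _ ≤ _ := Nat.le_self_pow (by norm_num) _
    have hfinite : SS.Finite := (range D).finite_toSet.subset hSSr
    have hk'1 : (π y : ℝ) / 16 ≤ SS.ncard := by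
      refine hS2.trans ?_
      have h1 := Set.ncard_le_ncard hsub hfinite
      rw [Set.ncard_coe_finset] at h1
      exact_mod_cast h1
    have hk'2 : (SS.ncard : ℝ) ≤ D := by
      have h1 := Set.ncard_le_ncard hSSr (range D).finite_toSet
      rw [Set.ncard_coe_finset, card_range] at h1
      exact_mod_cast h1
    have hlogk : Real.log ((SS.ncard : ℝ) + 2) ≤ 20 * Real.log N := by
      have h1 : Real.log ((SS.ncard : ℝ) + 2) ≤ Real.log ((D : ℝ) ^ 2) := by
        apply Real.log_le_log (by positivity)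
        nlinarith
      rw [Real.log_pow] at h1
      push_cast at h1
      linarith
    have hlk0 : 0 ≤ Real.log ((SS.ncard : ℝ) + 2) := Real.log_nonneg (by
      have : (0 : ℝ) ≤ SS.ncard := Nat.cast_nonneg _
      linarith)
    have hk'3 : 1 / ((SS.ncard : ℝ) + 1) ≤ 320 * Real.log N / y := by
      have h1 : (y : ℝ) / (320 * Real.log N) ≤ (SS.ncard : ℝ) + 1 := by
        have h2 : (y : ℝ) / (320 * Real.log N) ≤ (y : ℝ) / (2 * Real.log y) / 16 := by
          rw [div_div]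
          apply div_le_div_of_nonneg_left hy0.le (by positivity)
          linarith
        linarith
      have h2 : 0 < (y : ℝ) / (320 * Real.log N) := by positivity
      calc 1 / ((SS.ncard : ℝ) + 1) ≤ 1 / ((y : ℝ) / (320 * Real.log N)) := one_div_le_one_div_of_le h2 h1
        _ = _ := by rw [one_div_div]
    have h1 := hres.2
    rw [← hSS] at h1
    calc (Nat.card {c : ClassGroup (𝓞 K) // c ^ ℓ = 1} : ℝ)
        ≤ C₁ * (ℓ : ℝ) ^ 2 * (Real.log (Real.log (D : ℝ) + 2)) ^ 2 *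
          ((Real.log ((SS.ncard : ℝ) + 2)) ^ 2 / ((SS.ncard : ℝ) + 1)) * (√(D : ℝ) / Real.log (D : ℝ)) := h1
      _ = C₁ * (ℓ : ℝ) ^ 2 * ((Real.log (Real.log (D : ℝ) + 2)) ^ 2 / Real.log (D : ℝ)) *
          ((Real.log ((SS.ncard : ℝ) + 2)) ^ 2 * (1 / ((SS.ncard : ℝ) + 1))) * √(D : ℝ) := by ring
      _ ≤ C₁ * (ℓ : ℝ) ^ 2 * 6 * ((20 * Real.log N) ^ 2 * (320 * Real.log N / y)) * √(D : ℝ) := by gcongr
      _ = (768000 * C₁) * (ℓ : ℝ) ^ 2 * Real.log N ^ 3 * √(D : ℝ) / y := by ring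
      _ ≤ C * (ℓ : ℝ) ^ 2 * Real.log N ^ 3 * √(D : ℝ) / y := by
          have : 768000 * C₁ ≤ C := by rw [hC]; linarith
          gcongr

end Pool.Agent.R345.SS
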