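import Pool.Agent.R345.CT2

set_option autoImplicit false

/-! Torsion in the class groups of the quadratic fields given by the elements of a sumset. -/

namespace Pool.Agent.R345.SS

open Finset NumberField
open scoped Nat.Prime

/-- the number of the ideal classes killed by `ℓ` -/
noncomputable def tor (K : Type) [Field K] [NumberField K] (ℓ : ℕ) : ℝ :=
  (Nat.card {x : ClassGroup (𝓞 K) // x ^ ℓ = 1} : ℝ)

theorem tor_nonneg (K : Type) [Field K] [NumberField K] (ℓ : ℕ) : 0 ≤ tor K ℓ := Nat.cast_nonneg _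

/-- the elements of a sumset: two cases for all but few pairs -/
theorem torsion_pairs (k : ℕ) (hk : 1 ≤ k) : ∃ C : ℝ, 1 ≤ C ∧
    ∀ (N : ℕ) (D : ℤ) (A B : Finset ℤ) (L Y : ℝ), 2 ≤ N → D ≠ 0 → |D| ≤ N → A ⊆ Icc (-(N : ℤ)) N → B ⊆ Icc (-(N : ℤ)) N →
      1 ≤ L → 1 ≤ Y → Y ^ (2 * k) ≤ A.card → Y ^ (2 * k) ≤ B.card →
      ∃ G : Finset (ℤ × ℤ), G ⊆ A ×ˢ B ∧ (G.card : ℝ) ≤ (C * Real.log N ^ 2 / L) ^ k * (A.card * B.card) ∧
        ∀ z ∈ A ×ˢ B, ∀ (ℓ : ℕ), 1 ≤ ℓ → ∀ (K : Type) [Field K] [NumberField K] (α : K),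
          Module.finrank ℚ K = 2 → IntermediateField.adjoin ℚ {α} = ⊤ → α ^ 2 = ((D * (z.1 + z.2) : ℤ) : K) →
          |(discr K : ℝ)| ≤ 4 * |((D * (z.1 + z.2) : ℤ) : ℝ)| ∧
          tor K ℓ ≤ C * ℓ ^ 2 * √|(discr K : ℝ)| ∧
          (z ∉ G → min (|(discr K : ℝ)| ^ (1 / (2 * (ℓ : ℝ))) / 600) Y < 2 * L ∨
            tor K ℓ ≤ C * ℓ ^ 2 * Real.log N ^ 3 * √|(discr K : ℝ)| *
              max (|(discr K : ℝ)| ^ (-(1 / (2 * (ℓ : ℝ))))) (1 / Y)) := by
  classical
  obtain ⟨C₁, hC₁, hgood⟩ := good_pairs k hk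
  obtain ⟨C₂, hC₂, hclass⟩ := class_quadratic
  obtain ⟨C, hC⟩ : ∃ C : ℝ, C = C₁ + 1200 * C₂ := ⟨_, rfl⟩
  have hCC₁ : C₁ ≤ C := by rw [hC]; linarith
  have hCC₂ : 1200 * C₂ ≤ C := by rw [hC]; linarith
  refine ⟨C, by linarith, ?_⟩
  intro N D A B L Y hN hD0 hDN hA hB hL hY hYA hYB
  have hNr : (2 : ℝ) ≤ N := by exact_mod_cast hN
  have hlN0 : 0 < Real.log N := Real.log_pos (by linarith)
  have hL0 : 0 < L := by linarith
  have hY0 : 0 < Y := by linarith
  obtain ⟨M, hM⟩ : ∃ M : ℝ, M = C₁ + C₂ := ⟨_, rfl⟩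
  have hMC : M ≤ C := by rw [hM, hC]; linarith
  have hAB : (0 : ℝ) ≤ (A.card : ℝ) * B.card := by positivity
  have hC₁N : (0 : ℝ) ≤ C₁ * Real.log N ^ 2 / L := by positivity
  set G : Finset (ℤ × ℤ) := if M * Real.log N ^ 2 ≤ L then (A ×ˢ B).filter (fun z => D * (z.1 + z.2) ≠ 0 ∧
    ∃ y : ℕ, L ≤ y ∧ (y : ℝ) ^ (2 * k) ≤ A.card ∧ (y : ℝ) ^ (2 * k) ≤ B.card ∧
      ((PS (D * (z.1 + z.2)) y).card : ℝ) < (π y : ℝ) / 8) else A ×ˢ B with hG
  refine ⟨G, ?_, ?_, ?_⟩
  · rw [hG]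
    split_ifs
    · exact filter_subset _ _
    · exact Subset.refl _
  · by_cases hcase : M * Real.log N ^ 2 ≤ L
    · rw [if_pos hcase] at hG
      have h1 := hgood N D A B L hN hD0 hDN hA hB hL0 G (by
        intro z hz
        rw [hG, mem_filter] at hz
        exact ⟨hz.1, fun _ => hz.2⟩)
      refine h1.trans (mul_le_mul_of_nonneg_right ?_ hAB)
      refine pow_le_pow_left₀ hC₁N ?_ k
      refine div_le_div_of_nonneg_right ?_ hL0.le
      exact mul_le_mul_of_nonneg_right hCC₁ (by positivity)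
    · rw [if_neg hcase] at hG
      push Not at hcase
      rw [hG, card_product]
      push_cast
      refine le_mul_of_one_le_left hAB ?_
      apply one_le_pow₀
      rw [one_le_div hL0]
      exact hcase.le.trans (mul_le_mul_of_nonneg_right hMC (by positivity))
  · intro z hz ℓ hℓ K _ _ α hfin hα h
    have hzA := mem_product.1 hz
    have ha := mem_Icc.1 (hA hzA.1)
    have hb := mem_Icc.1 (hB hzA.2)
    have hnN : |D * (z.1 + z.2)| ≤ (N : ℤ) * (2 * N) := by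
      rw [abs_mul]
      refine mul_le_mul hDN ?_ (abs_nonneg _) (by positivity)
      rw [abs_le]
      constructor <;> linarith [ha.1, ha.2, hb.1, hb.2]
    have hcl := hclass N (D * (z.1 + z.2)) K α ℓ hN hnN hfin hα h hℓ
    have hdisc := disc_quadratic K α _ hfin hα h
    have hs0 : 0 ≤ √|(discr K : ℝ)| := Real.sqrt_nonneg _
    have hℓr : (1 : ℝ) ≤ ℓ := by exact_mod_cast hℓ
    refine ⟨hdisc, ?_, ?_⟩
    · refine hcl.1.trans ?_
      have : C₂ ≤ C := by linarith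
      gcongr
    · intro hzG
      by_cases hmin : min (|(discr K : ℝ)| ^ (1 / (2 * (ℓ : ℝ))) / 600) Y < 2 * L
      · left; exact hmin
      right
      push Not at hmin
      have hcase : M * Real.log N ^ 2 ≤ L := by
        by_contra hcon
        rw [hG, if_neg hcon] at hzG
        exact hzG hz
      rw [hG, if_pos hcase, mem_filter] at hzG
      push Not at hzG
      set Δ : ℝ := |(discr K : ℝ)| with hΔ
      set y₁ : ℝ := min (Δ ^ (1 / (2 * (ℓ : ℝ))) / 600) Y with hy₁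
      have hy₁1 : 2 ≤ y₁ := by linarith
      obtain ⟨y, hy⟩ : ∃ y : ℕ, y = ⌊y₁⌋₊ := ⟨_, rfl⟩
      have hyle : (y : ℝ) ≤ y₁ := by rw [hy]; exact Nat.floor_le (by linarith)
      have hylt : y₁ < y + 1 := by rw [hy]; exact Nat.lt_floor_add_one _
      have hLy : L ≤ y := by linarith
      have hyr : y₁ / 2 ≤ y := by linarith
      have hy0 : (0 : ℝ) < y := by linarith
      have hyY : (y : ℝ) ^ (2 * k) ≤ Y ^ (2 * k) := pow_le_pow_left₀ hy0.le (hyle.trans (min_le_right _ _)) _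
      have hn0 : D * (z.1 + z.2) ≠ 0 := by
        intro h0
        have hΔ3 : (2 : ℤ) < |discr K| := abs_discr_gt_two (by omega)
        have h1 : (2 : ℝ) < Δ := by
          rw [hΔ]
          exact_mod_cast hΔ3
        rw [h0] at hdisc
        simp only [Int.cast_zero, abs_zero, mul_zero] at hdisc
        linarith
      have hPS := hzG hz hn0 y hLy (hyY.trans hYA) (hyY.trans hYB)
      have hlow : C₂ * Real.log N ^ 2 ≤ y := by
        have h1 : C₂ * Real.log N ^ 2 ≤ M * Real.log N ^ 2 := by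
          refine mul_le_mul_of_nonneg_right ?_ (by positivity)
          rw [hM]; linarith
        linarith
      have hΔ0 : 0 ≤ Δ := abs_nonneg _
      have hpow : (600 * (y : ℝ)) ^ (2 * ℓ) ≤ Δ := by
        have h1 : 600 * (y : ℝ) ≤ Δ ^ (1 / (2 * (ℓ : ℝ))) := by
          have h2 := hyle.trans (min_le_left _ _)
          rw [le_div_iff₀ (by norm_num)] at h2
          linarith
        refine (pow_le_pow_left₀ (by positivity) h1 _).trans (le_of_eq ?_)
        rw [← Real.rpow_natCast, ← Real.rpow_mul hΔ0]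
        push_cast
        rw [one_div, inv_mul_cancel₀ (by positivity), Real.rpow_one]
      have hT := hcl.2 y hlow hpow hPS
      refine hT.trans ?_
      have hΔp : 0 < Δ := lt_of_lt_of_le (by positivity) hpow
      have hinv : 1 / (y : ℝ) ≤ 1200 * max (Δ ^ (-(1 / (2 * (ℓ : ℝ))))) (1 / Y) := by
        have h1 : 1 / (y : ℝ) ≤ 2 * (1 / y₁) := by
          have h2 : 1 / (y : ℝ) ≤ 1 / (y₁ / 2) := one_div_le_one_div_of_le (by linarith) hyr
          rw [one_div_div] at h2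
          rw [mul_one_div]
          exact h2
        have h2 : 1 / y₁ ≤ 600 * max (Δ ^ (-(1 / (2 * (ℓ : ℝ))))) (1 / Y) := by
          rcases min_choice (Δ ^ (1 / (2 * (ℓ : ℝ))) / 600) Y with h3 | h3
          · rw [hy₁, h3, one_div_div, Real.rpow_neg hΔ0, div_eq_mul_inv]
            exact mul_le_mul_of_nonneg_left (le_max_left _ _) (by norm_num)
          · rw [hy₁, h3]
            have h4 : 1 / Y ≤ max (Δ ^ (-(1 / (2 * (ℓ : ℝ))))) (1 / Y) := le_max_right _ _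
            have h5 : 0 < 1 / Y := by positivity
            linarith
        linarith
      calc C₂ * (ℓ : ℝ) ^ 2 * Real.log N ^ 3 * √Δ / y = C₂ * (ℓ : ℝ) ^ 2 * Real.log N ^ 3 * √Δ * (1 / y) := by ring
        _ ≤ C₂ * (ℓ : ℝ) ^ 2 * Real.log N ^ 3 * √Δ * (1200 * max (Δ ^ (-(1 / (2 * (ℓ : ℝ))))) (1 / Y)) :=
            mul_le_mul_of_nonneg_left hinv (by positivity)
        _ = (1200 * C₂) * (ℓ : ℝ) ^ 2 * Real.log N ^ 3 * √Δ * max (Δ ^ (-(1 / (2 * (ℓ : ℝ))))) (1 / Y) := by ring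
        _ ≤ C * (ℓ : ℝ) ^ 2 * Real.log N ^ 3 * √Δ * max (Δ ^ (-(1 / (2 * (ℓ : ℝ))))) (1 / Y) := by
            have : 0 ≤ max (Δ ^ (-(1 / (2 * (ℓ : ℝ))))) (1 / Y) := le_max_of_le_right (by positivity)
            gcongr

end Pool.Agent.R345.SS
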