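import Mathlib

set_option autoImplicit false

/-!
# The number of homomorphisms to a finite abelian group and torsion
-/

namespace Pool.Agent.R345.HM

/-- homomorphisms to a cyclic group and elements killed by its order -/
theorem card_hom_zmod_le (A : Type*) [CommGroup A] [Finite A] (n : ℕ) [NeZero n] :
    Nat.card (A →* Multiplicative (ZMod n)) ≤ Nat.card {x : A // x ^ n = 1} := by
  classical
  have : NeZero (Monoid.exponent A) := ⟨Monoid.exponent_ne_zero_of_finite⟩
  obtain ⟨e⟩ := CommGroup.monoidHom_mulEquiv_of_hasEnoughRootsOfUnity A ℂ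
  set ι : Multiplicative (ZMod n) →* ℂ := (ZMod.stdAddChar (N := n)).toMonoidHom with hι
  have hιinj : Function.Injective ι := by
    intro x y h
    exact ZMod.injective_stdAddChar h
  set F : (A →* Multiplicative (ZMod n)) → {x : A // x ^ n = 1} := fun φ =>
    ⟨e (MonoidHom.toHomUnits (ι.comp φ)), by
      rw [← map_pow]
      have h1 : (MonoidHom.toHomUnits (ι.comp φ)) ^ n = 1 := by
        ext a
        rw [MonoidHom.pow_apply, Units.val_pow_eq_pow_val]
        have h2 : ((MonoidHom.toHomUnits (ι.comp φ)) a : ℂ) = ι (φ a) := rfl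
        have h3 : (φ a) ^ n = 1 := by
          have : n • (Multiplicative.toAdd (φ a)) = 0 := by
            rw [nsmul_eq_mul, ZMod.natCast_self, zero_mul]
          exact this
        rw [h2, ← map_pow, h3, map_one]
        rfl
      rw [h1, map_one]⟩ with hF
  refine Nat.card_le_card_of_injective F ?_
  intro φ ψ h
  have h1 := Subtype.ext_iff.1 h
  have h2 := e.injective h1
  ext a
  have h3 : ((MonoidHom.toHomUnits (ι.comp φ)) a : ℂ) = (MonoidHom.toHomUnits (ι.comp ψ)) a := by rw [h2]
  exact hιinj h3

/-- The number of surjective homomorphisms from the `p`-primary part of a finite abelian group `G` to the product of `r`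
cyclic groups of orders `p ^ e i`, `e i ≤ m`, is at most the `r`-th power of the number of the elements killed by `p ^ m`. -/
theorem card_sur_le (G : Type*) [CommGroup G] [Finite G] (p : ℕ) (hp : p.Prime) (m r : ℕ) (e : Fin r → ℕ)
    (he : ∀ i, e i ≤ m) :
    Nat.card {φ : CommGroup.primaryComponent G p →* (∀ i : Fin r, Multiplicative (ZMod (p ^ e i))) //
      Function.Surjective φ} ≤ Nat.card {x : G // x ^ (p ^ m) = 1} ^ r := by
  classical
  have : ∀ i, NeZero (p ^ e i) := fun i => ⟨pow_ne_zero _ hp.ne_zero⟩
  have hfin : ∀ i, Finite (CommGroup.primaryComponent G p →* Multiplicative (ZMod (p ^ e i))) := fun i =>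
    Finite.of_injective (fun φ : CommGroup.primaryComponent G p →* Multiplicative (ZMod (p ^ e i)) => (φ : _ → _))
      DFunLike.coe_injective
  have h1 : Nat.card {φ : CommGroup.primaryComponent G p →* (∀ i : Fin r, Multiplicative (ZMod (p ^ e i))) //
      Function.Surjective φ} ≤ Nat.card (∀ i : Fin r, (CommGroup.primaryComponent G p →* Multiplicative (ZMod (p ^ e i)))) := by
    refine Nat.card_le_card_of_injective (fun φ i => (Pi.evalMonoidHom (fun i : Fin r => Multiplicative (ZMod (p ^ e i))) i).comp φ.1) ?_
    intro φ ψ h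
    apply Subtype.ext
    ext a i
    have h2 := congrFun h i
    have h3 := DFunLike.congr_fun h2 a
    exact h3
  refine h1.trans ?_
  rw [Nat.card_pi]
  have h2 : ∀ i ∈ Finset.univ, Nat.card (CommGroup.primaryComponent G p →* Multiplicative (ZMod (p ^ e i))) ≤
      Nat.card {x : G // x ^ (p ^ m) = 1} := by
    intro i _
    refine (card_hom_zmod_le _ _).trans ?_
    refine Nat.card_le_card_of_injective (fun x => ⟨(x.1 : G), ?_⟩) ?_
    · have h3 : ((x.1 : G)) ^ (p ^ e i) = 1 := by
        have := congrArg (Subgroup.subtype _) x.2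
        rw [map_pow, map_one] at this
        exact this
      obtain ⟨c, hc⟩ := pow_dvd_pow p (he i)
      rw [hc, pow_mul, h3, one_pow]
    · intro x y h
      simp only [Subtype.mk.injEq] at h
      exact Subtype.ext (Subtype.ext h)
  refine (Finset.prod_le_prod' h2).trans ?_
  rw [Finset.prod_const, Finset.card_univ, Fintype.card_fin]

end Pool.Agent.R345.HM
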