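import Pool.Agent.R345.IXFin

/-!
# Few radicands for which products of small primes reach few ideal classes
-/

set_option autoImplicit false

namespace Pool.Agent.R345.IX

open Finset Filter NumberField Pool.Agent.H38R2.CG Pool.Agent.H38R2.CG2
open scoped Classical

/-- The discriminant attached to a squarefree d. -/
def Dof (d : ℕ) : ℕ := if d % 4 = 1 then d else 4 * d

theorem isFund_Dof {d : ℕ} (h1 : 1 < d) (hs : Squarefree d) : IsFund (Dof d) := by
  unfold Dof IsFund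
  split_ifs with h
  · exact ⟨h1, Or.inl ⟨h, hs⟩⟩
  · refine ⟨by omega, Or.inr ⟨d, rfl, ?_, hs⟩⟩
    have h0 : d % 4 ≠ 0 := by
      intro h0
      have := hs 2 (by
        have : 4 ∣ d := Nat.dvd_of_mod_eq_zero h0
        simpa using this)
      rw [Nat.isUnit_iff] at this
      omega
    omega

theorem reach_mono {K : Type} [Field K] [NumberField K] {B B' n n' : ℝ} (hB : B ≤ B')
    (hn : n ≤ n') : Reach K B n ⊆ Reach K B' n' := by
  rintro C ⟨L, h1, h2, h3⟩
  exact ⟨L, fun P hP => ⟨(h1 P hP).1, (h1 P hP).2.trans hB⟩, h2.trans hn, h3⟩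

/-- the property of the radicand -/
def GoodI (a e : ℝ) (d : ℕ) : Prop :=
  ∀ (K : Type) [Field K] [NumberField K], Module.finrank ℚ K = 2 →
    (∃ x : K, x ^ 2 = (d : K)) →
    (Nat.card (ClassGroup (𝓞 K)) : ℝ) ≤ (d : ℝ) ^ e *
      ((Reach K ((Real.log d) ^ a) (Real.log d / Real.log (Real.log d))).ncard : ℝ)

/-- dyadic summation -/
theorem dyadic (E : Finset ℕ → ℕ) (Q : ℕ → Prop) (hE : ∀ S : Finset ℕ, E S = (S.filter Q).card)
    (δ : ℝ) (hδ : 0 < δ) (hδ2 : δ ≤ 1 / 2) (Y0 : ℕ)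
    (h : ∀ Y ≥ Y0, ((E (Finset.Ioc Y (2 * Y)) : ℕ) : ℝ) ≤ 5 * (Y : ℝ) ^ (1 - δ)) :
    ∃ C : ℝ, 0 < C ∧ ∀ X : ℕ, ((E (Finset.Icc 2 X) : ℕ) : ℝ) ≤ C * (X : ℝ) ^ (1 - δ) := by
  refine ⟨max 25 (2 * Y0 + 3), lt_of_lt_of_le (by norm_num) (le_max_left _ _), ?_⟩
  set C : ℝ := max 25 (2 * Y0 + 3) with hC
  have hC25 : 25 ≤ C := le_max_left _ _
  have hCY : 2 * (Y0 : ℝ) + 3 ≤ C := le_max_right _ _
  intro X
  induction X using Nat.strong_induction_on with
  | _ X ih =>
    have hexp : 0 ≤ 1 - δ := by linarith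
    rcases Nat.lt_or_ge X (2 * Y0 + 3) with hX | hX
    · rcases Nat.eq_zero_or_pos X with h0 | h0
      · subst h0
        rw [hE]
        have : ((Finset.Icc 2 0).filter Q).card = 0 := by simp
        rw [this, Nat.cast_zero]
        exact mul_nonneg (by linarith) (Real.rpow_nonneg le_rfl _)
      · have h1 : E (Finset.Icc 2 X) ≤ X := by
          rw [hE]
          refine (Finset.card_filter_le _ _).trans ?_
          rw [Nat.card_Icc]
          omega
        have h2 : ((E (Finset.Icc 2 X) : ℕ) : ℝ) ≤ X := by exact_mod_cast h1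
        have h3 : (X : ℝ) ≤ 2 * Y0 + 3 := by exact_mod_cast hX.le
        have h4 : (1 : ℝ) ≤ (X : ℝ) ^ (1 - δ) := Real.one_le_rpow (by exact_mod_cast h0) hexp
        nlinarith
    · set Y := (X + 1) / 2 with hY
      have hYX : Y < X := by omega
      have hYY : Y0 ≤ Y := by omega
      have h2Y : X ≤ 2 * Y := by omega
      have hY3 : 3 * Y ≤ 2 * X := by omega
      have h1 := ih Y hYX
      have h2 := h Y hYY
      have h3 : E (Finset.Icc 2 X) ≤ E (Finset.Icc 2 Y) + E (Finset.Ioc Y (2 * Y)) := by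
        rw [hE, hE, hE]
        have hsub : (Finset.Icc 2 X).filter Q ⊆
            (Finset.Icc 2 Y).filter Q ∪ (Finset.Ioc Y (2 * Y)).filter Q := by
          intro d hd
          rw [Finset.mem_filter, Finset.mem_Icc] at hd
          rw [Finset.mem_union, Finset.mem_filter, Finset.mem_filter, Finset.mem_Icc,
            Finset.mem_Ioc]
          by_cases hdY : d ≤ Y
          · exact Or.inl ⟨⟨hd.1.1, hdY⟩, hd.2⟩
          · exact Or.inr ⟨⟨by omega, by omega⟩, hd.2⟩
        exact (Finset.card_le_card hsub).trans (Finset.card_union_le _ _)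
      have h4 : ((E (Finset.Icc 2 X) : ℕ) : ℝ) ≤
          ((E (Finset.Icc 2 Y) : ℕ) : ℝ) + ((E (Finset.Ioc Y (2 * Y)) : ℕ) : ℝ) := by
        exact_mod_cast h3
      have hX0 : (0 : ℝ) < X := by
        have : 0 < X := by omega
        exact_mod_cast this
      have hYr : (Y : ℝ) ≤ (2 / 3) * X := by
        have : (3 : ℝ) * Y ≤ 2 * X := by exact_mod_cast hY3
        linarith
      have h5 : (Y : ℝ) ^ (1 - δ) ≤ (5 / 6) * (X : ℝ) ^ (1 - δ) := by
        calc (Y : ℝ) ^ (1 - δ) ≤ ((2 / 3) * X) ^ (1 - δ) :=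
              Real.rpow_le_rpow (Nat.cast_nonneg _) hYr hexp
          _ = (2 / 3 : ℝ) ^ (1 - δ) * (X : ℝ) ^ (1 - δ) := Real.mul_rpow (by norm_num) hX0.le
          _ ≤ (5 / 6) * (X : ℝ) ^ (1 - δ) := by
              apply mul_le_mul_of_nonneg_right _ (by positivity)
              calc (2 / 3 : ℝ) ^ (1 - δ) ≤ (2 / 3 : ℝ) ^ (1 / 2 : ℝ) :=
                    Real.rpow_le_rpow_of_exponent_ge (by norm_num) (by norm_num) (by linarith)
                _ = √(2 / 3) := (Real.sqrt_eq_rpow _).symm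
                _ ≤ 5 / 6 := by
                    rw [Real.sqrt_le_left (by norm_num)]
                    norm_num
      have h6 : 0 ≤ (X : ℝ) ^ (1 - δ) := by positivity
      calc ((E (Finset.Icc 2 X) : ℕ) : ℝ) ≤ C * (Y : ℝ) ^ (1 - δ) + 5 * (Y : ℝ) ^ (1 - δ) := by
            linarith
        _ = (C + 5) * (Y : ℝ) ^ (1 - δ) := by ring
        _ ≤ (C + 5) * ((5 / 6) * (X : ℝ) ^ (1 - δ)) := by gcongr
        _ ≤ C * (X : ℝ) ^ (1 - δ) := by nlinarith

/-- **Main theorem.** All but `O(X^(1-δ))` radicands up to X are good. -/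
theorem main (a : ℝ) (ha : 1 < a) (ε : ℝ) (hε : 0 < ε) : ∃ δ C : ℝ, 0 < δ ∧ 0 < C ∧
    ∀ X : ℕ, (((Finset.Icc 2 X).filter (fun d => Squarefree d ∧
      ¬ GoodI a (max 0 (1 / a - 1 / 2) + ε) d)).card : ℝ) ≤ C * (X : ℝ) ^ (1 - δ) := by
  have h_P_N0 : P_N0 := T_N0
  have h_P_N0d : P_N0d := T_N0d
  have h_P_SPL : P_SPL := T_SPL h_P_N0
  have h_P_N1 : P_N1 := T_N1 h_P_SPL
  have h_P_N2 : P_N2 := T_N2 h_P_SPL
  have h_P_KR : P_KR := T_KR
  have h_P_PV : P_PV := T_PV
  have h_P_N3a : P_N3a := T_N3a h_P_KR h_P_PV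
  have h_P_N3b : P_N3b := T_N3b h_P_KR h_P_PV h_P_N3a
  have h_P_N3 : P_N3 := T_N3 h_P_N2 h_P_N3b
  have h_P_N4a : P_N4a := T_N4a
  have h_P_N4b : P_N4b := T_N4b
  have h_P_N4 : P_N4 := T_N4 h_P_N4a h_P_N4b
  have h_P_KF : P_KF := T_KF
  have h_P_N5b : P_N5b := T_N5b h_P_KF h_P_N4
  have h_P_N6 : P_N6 := T_N6 h_P_KF
  obtain ⟨δ, hδ, hδ2, X0, hX0⟩ := count_bad h_P_N0 h_P_N1 h_P_N3 h_P_N4 h_P_KF h_P_N5b h_P_N6
    h_P_N3a h_P_PV a ha (ε / 2) (by positivity)
  set θ : ℝ := max 0 (1 / a - 1 / 2) with hθ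
  have hθ0 : 0 ≤ θ := le_max_left _ _
  obtain ⟨X1, hX1⟩ := Filter.eventually_atTop.1 (params a ha 1 1 one_pos le_rfl)
  obtain ⟨X2, hX2⟩ := Filter.eventually_atTop.1
    (ERRh.ev_const (ε / 2) (by positivity) ((4 : ℝ) ^ (θ + ε / 2)))
  -- a bad radicand gives a bad discriminant
  have key : ∀ Y : ℕ, X0 ≤ Y → X1 ≤ Y → X2 ≤ Y → 1 ≤ Y → ∀ d : ℕ, Y < d → d ≤ 2 * Y →
      Squarefree d → ¬ GoodI a (θ + ε) d → ∀ X : ℕ, X1 ≤ X → X ≤ 4 * d → d ≤ 2 * X →
      X ≤ 4 * Y →
      IsFund (Dof d) ∧ BadI a (θ + ε / 2) X (Dof d) := by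
    intro Y _ _ hY2 hY1 d hd1 hd2 hsq hbad X hXX1 hX4 hdX hX4Y
    have hd : 1 < d := by omega
    refine ⟨isFund_Dof hd hsq, ?_⟩
    unfold GoodI at hbad
    push Not at hbad
    obtain ⟨K, i1, i2, h2, hx, hlt⟩ := hbad
    refine ⟨K, i1, i2, h2, ?_, ?_⟩
    · rw [h_P_N0d K d hd hsq h2 hx]
      unfold Dof
      split_ifs <;> push_cast <;> rfl
    · intro hle
      refine absurd hle (not_le.2 (lt_of_le_of_lt ?_ hlt))
      have hdr : (0 : ℝ) < d := by
        have : 0 < d := by omega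
        exact_mod_cast this
      obtain ⟨-, -, -, -, -, -, -, -, -, hfin⟩ := hX1 X hXX1
      obtain ⟨g1, g2⟩ := hfin d (by
        have : (X : ℝ) ≤ 4 * d := by exact_mod_cast hX4
        linarith) (by exact_mod_cast hdX)
      have hsub : Reach K ((2 * yI a X : ℕ) : ℝ) (kI a X) ⊆
          Reach K ((Real.log d) ^ a) (Real.log d / Real.log (Real.log d)) :=
        reach_mono (by push_cast; exact g1) g2
      have hcard : ((Reach K ((2 * yI a X : ℕ) : ℝ) (kI a X)).ncard : ℝ) ≤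
          ((Reach K ((Real.log d) ^ a) (Real.log d / Real.log (Real.log d))).ncard : ℝ) := by
        exact_mod_cast Set.ncard_le_ncard hsub (Set.toFinite _)
      have hpow : (X : ℝ) ^ (θ + ε / 2) ≤ (d : ℝ) ^ (θ + ε) := by
        have h4d : (4 : ℝ) ^ (θ + ε / 2) ≤ (d : ℝ) ^ (ε / 2) := hX2 d (by omega)
        calc (X : ℝ) ^ (θ + ε / 2) ≤ (4 * (d : ℝ)) ^ (θ + ε / 2) := by
              apply Real.rpow_le_rpow (Nat.cast_nonneg _) _ (by positivity)
              exact_mod_cast hX4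
          _ = (4 : ℝ) ^ (θ + ε / 2) * (d : ℝ) ^ (θ + ε / 2) :=
              Real.mul_rpow (by norm_num) hdr.le
          _ ≤ (d : ℝ) ^ (ε / 2) * (d : ℝ) ^ (θ + ε / 2) := by gcongr
          _ = (d : ℝ) ^ (θ + ε) := by
              rw [← Real.rpow_add hdr]
              congr 1
              ring
      exact mul_le_mul hpow hcard (Nat.cast_nonneg _) (by positivity)
  have hdy := dyadic (fun S => (S.filter (fun d => Squarefree d ∧ ¬ GoodI a (θ + ε) d)).card)
    (fun d => Squarefree d ∧ ¬ GoodI a (θ + ε) d) (fun S => by congr) δ hδ hδ2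
    (max (max X0 X1) (max X2 1)) (by
      intro Y hY
      have hY0 : X0 ≤ Y := le_trans (le_trans (le_max_left _ _) (le_max_left _ _)) hY
      have hY1 : X1 ≤ Y := le_trans (le_trans (le_max_right _ _) (le_max_left _ _)) hY
      have hY2 : X2 ≤ Y := le_trans (le_trans (le_max_left _ _) (le_max_right _ _)) hY
      have hY3 : 1 ≤ Y := le_trans (le_trans (le_max_right _ _) (le_max_right _ _)) hY
      have hYr : (0 : ℝ) < Y := by exact_mod_cast hY3
      set S := (Finset.Ioc Y (2 * Y)).filter (fun d => Squarefree d ∧ ¬ GoodI a (θ + ε) d) with hS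
      set A := (Finset.Ioc Y (2 * Y)).filter (fun D => IsFund D ∧ BadI a (θ + ε / 2) Y D) with hA
      set B := (Finset.Ioc (4 * Y) (2 * (4 * Y))).filter
        (fun D => IsFund D ∧ BadI a (θ + ε / 2) (4 * Y) D) with hB
      have hA' := hX0 Y hY0
      have hB' := hX0 (4 * Y) (by omega)
      have hinj : S.card ≤ (A ∪ B).card := by
        refine Finset.card_le_card_of_injOn Dof ?_ ?_
        · intro d hd
          rw [Finset.mem_coe] at hd ⊢
          obtain ⟨h1, h2, h3⟩ := Finset.mem_filter.1 hd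
          obtain ⟨h4, h5⟩ := Finset.mem_Ioc.1 h1
          rw [Finset.mem_union]
          by_cases h : d % 4 = 1
          · left
            have hDof : Dof d = d := by unfold Dof; rw [if_pos h]
            have hk := key Y hY0 hY1 hY2 hY3 d h4 h5 h2 h3 Y hY1 (by omega) (by omega) (by omega)
            rw [hA, Finset.mem_filter, Finset.mem_Ioc]
            exact ⟨by rw [hDof]; exact ⟨h4, h5⟩, hk⟩
          · right
            have hDof : Dof d = 4 * d := by unfold Dof; rw [if_neg h]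
            have hk := key Y hY0 hY1 hY2 hY3 d h4 h5 h2 h3 (4 * Y) (by omega) (by omega)
              (by omega) (by omega)
            rw [hB, Finset.mem_filter, Finset.mem_Ioc]
            exact ⟨by rw [hDof]; omega, hk⟩
        · intro d _ d' _ hdd
          unfold Dof at hdd
          split_ifs at hdd <;> omega
      have h1 : (S.card : ℝ) ≤ A.card + B.card := by
        exact_mod_cast hinj.trans (Finset.card_union_le _ _)
      have h4Y : (((4 * Y : ℕ) : ℝ)) ^ (1 - δ) ≤ 4 * (Y : ℝ) ^ (1 - δ) := by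
        push_cast
        rw [Real.mul_rpow (by norm_num) hYr.le]
        apply mul_le_mul_of_nonneg_right _ (by positivity)
        calc (4 : ℝ) ^ (1 - δ) ≤ (4 : ℝ) ^ (1 : ℝ) :=
              Real.rpow_le_rpow_of_exponent_le (by norm_num) (by linarith)
          _ = 4 := Real.rpow_one 4
      show ((S.card : ℕ) : ℝ) ≤ 5 * (Y : ℝ) ^ (1 - δ)
      linarith)
  obtain ⟨C, hC, hfin⟩ := hdy
  exact ⟨δ, C, hδ, hC, hfin⟩

end Pool.Agent.R345.IX
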