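import Pool.Agent.H38R2.CG3.NC
import Pool.Agent.H38R2.CG.N3a

/-!
# The number of ideal classes reached by products of small primes
-/

set_option autoImplicit false

namespace Pool.Agent.R345.IX

open Finset Filter NumberField Pool.Agent.H38R2.CG Pool.Agent.H38R2.CG3
open scoped Classical

/-- The ideal classes that are products of at most `n` classes of prime ideals of norm at most `B`. -/
def Reach (K : Type) [Field K] [NumberField K] (B n : ℝ) : Set (ClassGroup (𝓞 K)) :=
  {C | ∃ L : Multiset (nonZeroDivisors (Ideal (𝓞 K))),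
    (∀ P ∈ L, (P : Ideal (𝓞 K)).IsPrime ∧ ((Ideal.absNorm (P : Ideal (𝓞 K)) : ℕ) : ℝ) ≤ B) ∧
    (L.card : ℝ) ≤ n ∧ (L.map (fun P => ClassGroup.mk0 P)).prod = C}

/-- factorisation of an ideal whose norm is a product of distinct primes -/
theorem factor (K : Type) [Field K] [NumberField K] (s : Finset ℕ) (hs : ∀ p ∈ s, p.Prime)
    (I : nonZeroDivisors (Ideal (𝓞 K))) (hI : Ideal.absNorm (I : Ideal (𝓞 K)) = prodS s) :
    ∃ L : Multiset (nonZeroDivisors (Ideal (𝓞 K))),
      (∀ P ∈ L, (P : Ideal (𝓞 K)).IsPrime ∧ Ideal.absNorm (P : Ideal (𝓞 K)) ∈ s) ∧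
      L.card = s.card ∧ (L.map (fun P => ClassGroup.mk0 P)).prod = ClassGroup.mk0 I := by
  have hI0 : (I : Ideal (𝓞 K)) ≠ 0 := nonZeroDivisors.coe_ne_zero I
  set M := UniqueFactorizationMonoid.normalizedFactors (I : Ideal (𝓞 K)) with hM
  have hprod : M.prod = (I : Ideal (𝓞 K)) :=
    associated_iff_eq.1 (UniqueFactorizationMonoid.prod_normalizedFactors hI0)
  have hprime : ∀ P ∈ M, Prime P := fun P hP =>
    UniqueFactorizationMonoid.prime_of_normalized_factor P hP
  have hdvd : ∀ P ∈ M, P ∣ (I : Ideal (𝓞 K)) := fun P hP =>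
    UniqueFactorizationMonoid.dvd_of_mem_normalizedFactors hP
  have hnorm : ∀ P ∈ M, Ideal.absNorm P ∈ s := fun P hP =>
    NFh.norm_mem hs hI (hprime P hP) (hdvd P hP)
  have hcard : M.card = s.card := by
    have h1 : (M.map (fun P => Ideal.absNorm P)).prod = prodS s := by
      rw [← hI, ← hprod, map_multiset_prod]
    have h2 := congrArg ArithmeticFunction.cardFactors h1
    have hne : (M.map (fun P => Ideal.absNorm P)).prod ≠ 0 := by
      rw [h1]
      exact (NFh.prodS_pos hs).ne'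
    rw [ArithmeticFunction.cardFactors_multiset_prod hne, Multiset.map_map] at h2
    have h3 : (M.map (ArithmeticFunction.cardFactors ∘ fun P => Ideal.absNorm P)) =
        M.map (fun _ => 1) := by
      refine Multiset.map_congr rfl fun P hP => ?_
      exact ArithmeticFunction.cardFactors_apply_prime (hs _ (hnorm P hP))
    rw [h3, Multiset.map_const', Multiset.sum_replicate, smul_eq_mul, mul_one] at h2
    rw [h2]
    have h4 : prodS s = (s.val).prod := by
      unfold prodS
      rw [Finset.prod_val]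
      rfl
    have hne2 : (s.val).prod ≠ 0 := by
      rw [← h4]
      exact (NFh.prodS_pos hs).ne'
    rw [h4, ArithmeticFunction.cardFactors_multiset_prod hne2]
    have h5 : (s.val.map fun p => ArithmeticFunction.cardFactors p) = s.val.map (fun _ => 1) := by
      refine Multiset.map_congr rfl fun p hp => ?_
      exact ArithmeticFunction.cardFactors_apply_prime (hs _ hp)
    rw [h5, Multiset.map_const', Multiset.sum_replicate, smul_eq_mul, mul_one]
    rfl
  have hmem : ∀ P ∈ M, P ∈ nonZeroDivisors (Ideal (𝓞 K)) := fun P hP =>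
    mem_nonZeroDivisors_of_ne_zero (hprime P hP).ne_zero
  refine ⟨M.pmap (fun P h => ⟨P, h⟩) hmem, ?_, ?_, ?_⟩
  · intro P hP
    obtain ⟨Q, hQ, rfl⟩ := Multiset.mem_pmap.1 hP
    exact ⟨Ideal.isPrime_of_prime (hprime Q hQ), hnorm Q hQ⟩
  · rw [Multiset.card_pmap, hcard]
  · have h1 : ((M.pmap (fun P h => (⟨P, h⟩ : nonZeroDivisors (Ideal (𝓞 K)))) hmem)).prod = I := by
      apply Subtype.ext
      rw [← hprod]
      have h2 := map_multiset_prod (nonZeroDivisors (Ideal (𝓞 K))).subtype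
        (M.pmap (fun P h => (⟨P, h⟩ : nonZeroDivisors (Ideal (𝓞 K)))) hmem)
      refine h2.trans ?_
      congr 1
      rw [Multiset.map_pmap]
      exact (Multiset.pmap_eq_map _ (fun P => P) M hmem).trans (Multiset.map_id' M)
    rw [← h1, map_multiset_prod]

/-- the number of classes reached -/
theorem reach_bound (hN0 : P_N0) (hN1 : P_N1) (hN3 : P_N3) (h4 : P_N4) (hKF : P_KF)
    (h5b : P_N5b) (hN6 : P_N6) (K : Type) [Field K] [NumberField K] (D : ℕ)
    (hD : IsFund D) (h2 : Module.finrank ℚ K = 2) (hK : NumberField.discr K = (D : ℤ))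
    (P : Finset ℕ) (B : ℝ) (hP : ∀ p ∈ P, p.Prime ∧ p ≠ 2 ∧ (p : ℝ) ≤ B) (k : ℕ) :
    (Nat.card (ClassGroup (𝓞 K)) : ℝ) * (MD D (P.powersetCard k) (fun _ => 1)) ^ 2 ≤
      ((Reach K B k).ncard : ℝ) *
        (2 * √(D : ℝ) * Lone D * SD D (P.powersetCard k) (fun _ => 1)) := by
  set S := P.powersetCard k with hS
  have hf : ∀ s ∈ S, (0 : ℝ) ≤ (fun _ : Finset ℕ => (1 : ℝ)) s ∧ ∀ p ∈ s, p.Prime ∧ p ≠ 2 := by
    intro s hs
    refine ⟨zero_le_one, fun p hp => ?_⟩
    have := hP p ((mem_powersetCard.1 hs).1 hp)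
    exact ⟨this.1, this.2.1⟩
  obtain ⟨hA, hB⟩ := nf_classes hN0 hN1 hN3 h4 hKF h5b hN6 K D hD h2 hK S (fun _ => 1) hf
  set A0 : Finset (ClassGroup (𝓞 K)) := Finset.univ.filter
    (fun C => MC K S (fun _ => 1) C ≠ 0) with hA0
  have hsub : (A0 : Set (ClassGroup (𝓞 K))) ⊆ Reach K B k := by
    intro C hC
    have h5 := (Finset.mem_filter.1 (Finset.mem_coe.1 hC)).2
    unfold MC at h5
    obtain ⟨s, hs, hs'⟩ := Finset.exists_ne_zero_of_sum_ne_zero h5
    have hne : Nonempty {I : nonZeroDivisors (Ideal (𝓞 K)) //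
        Ideal.absNorm (I : Ideal (𝓞 K)) = prodS s ∧ ClassGroup.mk0 I = C} := by
      by_contra hemp
      rw [not_nonempty_iff] at hemp
      apply hs'
      rw [Nat.card_of_isEmpty]
      simp
    obtain ⟨I, hI1, hI2⟩ := hne
    have hsP := Finset.mem_powersetCard.1 hs
    obtain ⟨L, hL1, hL2, hL3⟩ := factor K s (fun p hp => (hP p (hsP.1 hp)).1) I hI1
    refine ⟨L, ?_, ?_, ?_⟩
    · intro Q hQ
      exact ⟨(hL1 Q hQ).1, (hP _ (hsP.1 (hL1 Q hQ).2)).2.2⟩
    · rw [hL2, hsP.2]
    · rw [hL3, hI2]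
  have hcard : (A0.card : ℝ) ≤ ((Reach K B k).ncard : ℝ) := by
    have h1 : (A0 : Set (ClassGroup (𝓞 K))).ncard ≤ (Reach K B k).ncard :=
      Set.ncard_le_ncard hsub (Set.toFinite _)
    rw [Set.ncard_coe_finset] at h1
    exact_mod_cast h1
  have hMD : MD D S (fun _ => 1) = ∑ C ∈ A0, MC K S (fun _ => 1) C := by
    rw [← hB]
    refine (Finset.sum_subset (Finset.subset_univ A0) ?_).symm
    intro C _ hC
    by_contra h
    exact hC (Finset.mem_filter.2 ⟨Finset.mem_univ _, h⟩)
  have hCS : (MD D S (fun _ => 1)) ^ 2 ≤ (A0.card : ℝ) *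
      ∑ C : ClassGroup (𝓞 K), (MC K S (fun _ => 1) C) ^ 2 := by
    rw [hMD]
    refine (sq_sum_le_card_mul_sum_sq (s := A0) (f := fun C => MC K S (fun _ => 1) C)).trans ?_
    refine mul_le_mul_of_nonneg_left ?_ (Nat.cast_nonneg _)
    exact Finset.sum_le_sum_of_subset_of_nonneg (Finset.subset_univ _) fun C _ _ => sq_nonneg _
  have hh : (0 : ℝ) ≤ Nat.card (ClassGroup (𝓞 K)) := Nat.cast_nonneg _
  have hsumnn : 0 ≤ (Nat.card (ClassGroup (𝓞 K)) : ℝ) *
      ∑ C : ClassGroup (𝓞 K), (MC K S (fun _ => 1) C) ^ 2 :=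
    mul_nonneg hh (Finset.sum_nonneg fun C _ => sq_nonneg _)
  calc (Nat.card (ClassGroup (𝓞 K)) : ℝ) * (MD D S (fun _ => 1)) ^ 2
      ≤ (Nat.card (ClassGroup (𝓞 K)) : ℝ) * ((A0.card : ℝ) *
        ∑ C : ClassGroup (𝓞 K), (MC K S (fun _ => 1) C) ^ 2) :=
        mul_le_mul_of_nonneg_left hCS hh
    _ = (A0.card : ℝ) * ((Nat.card (ClassGroup (𝓞 K)) : ℝ) *
        ∑ C : ClassGroup (𝓞 K), (MC K S (fun _ => 1) C) ^ 2) := by ring
    _ ≤ ((Reach K B k).ncard : ℝ) * ((Nat.card (ClassGroup (𝓞 K)) : ℝ) *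
        ∑ C : ClassGroup (𝓞 K), (MC K S (fun _ => 1) C) ^ 2) :=
        mul_le_mul_of_nonneg_right hcard hsumnn
    _ ≤ _ := mul_le_mul_of_nonneg_left hA (Nat.cast_nonneg _)

/-- comparison of binomial coefficients -/
theorem choose_cmp (n0 n1 k : ℕ) (h1 : n0 ≤ 10 * n1) (h2 : 20 * k ≤ n0) :
    n0.choose k ≤ 20 ^ k * n1.choose k := by
  have h3 : n0.descFactorial k ≤ 20 ^ k * n1.descFactorial k := by
    rw [Nat.descFactorial_eq_prod_range, Nat.descFactorial_eq_prod_range]
    have h4 : 20 ^ k * ∏ i ∈ Finset.range k, (n1 - i) = ∏ i ∈ Finset.range k, 20 * (n1 - i) := by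
      rw [Finset.prod_mul_distrib, Finset.prod_const, Finset.card_range]
    rw [h4]
    refine Finset.prod_le_prod' fun i hi => ?_
    have := Finset.mem_range.1 hi
    omega
  rw [Nat.descFactorial_eq_factorial_mul_choose, Nat.descFactorial_eq_factorial_mul_choose] at h3
  have h5 : 0 < k.factorial := Nat.factorial_pos k
  refine Nat.le_of_mul_le_mul_left ?_ h5
  calc k.factorial * n0.choose k ≤ 20 ^ k * (k.factorial * n1.choose k) := h3
    _ = _ := by ring

/-- the Kronecker symbol at an odd prime -/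
theorem chi_odd (D : ℤ) (p : ℕ) (hp : p.Prime) (h2 : p ≠ 2) : chi D p = jacobiSym D p := by
  unfold chi
  have h : padicValNat 2 p = 0 := by
    apply padicValNat.eq_zero_of_not_dvd
    intro h
    exact h2 ((Nat.prime_dvd_prime_iff_eq Nat.prime_two hp).1 h).symm
  rw [h]
  simp

/-- lower bound for the number of ideals -/
theorem MD_low (D : ℕ) (P : Finset ℕ) (hP : ∀ p ∈ P, p.Prime ∧ p ≠ 2) (k : ℕ)
    (h20 : 20 * k ≤ P.card)
    (hlow : (P.card : ℝ) / 5 ≤ ∑ p ∈ P, (1 + ((jacobiSym (D : ℤ) p : ℤ) : ℝ))) :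
    (P.card.choose k : ℝ) ≤ 20 ^ k * MD D (P.powersetCard k) (fun _ => 1) := by
  set P1 := P.filter (fun p => 0 ≤ jacobiSym (D : ℤ) p) with hP1
  have h1 : ∑ p ∈ P, (1 + ((jacobiSym (D : ℤ) p : ℤ) : ℝ)) ≤ 2 * P1.card := by
    calc ∑ p ∈ P, (1 + ((jacobiSym (D : ℤ) p : ℤ) : ℝ))
        ≤ ∑ p ∈ P, (if 0 ≤ jacobiSym (D : ℤ) p then (2 : ℝ) else 0) := by
          refine Finset.sum_le_sum fun p _ => ?_
          rcases jacobiSym.trichotomy (D : ℤ) p with h | h | h <;> rw [h] <;> norm_num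
      _ = 2 * P1.card := by
          rw [← Finset.sum_filter, Finset.sum_const, nsmul_eq_mul, mul_comm]
  have h2 : P.card ≤ 10 * P1.card := by
    have : (P.card : ℝ) ≤ 10 * P1.card := by linarith
    exact_mod_cast this
  have h3 := choose_cmp P.card P1.card k h2 h20
  have h4 : (P1.card.choose k : ℝ) ≤ MD D (P.powersetCard k) (fun _ => 1) := by
    unfold MD
    have hnn : ∀ s ∈ P.powersetCard k, 0 ≤ (1 : ℝ) * ∏ p ∈ s, (1 + (chi D p : ℝ)) := by
      intro s hs
      rw [one_mul]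
      refine Finset.prod_nonneg fun p hp => ?_
      have hpP := hP p ((mem_powersetCard.1 hs).1 hp)
      rw [chi_odd _ _ hpP.1 hpP.2]
      rcases jacobiSym.trichotomy (D : ℤ) p with h | h | h <;> rw [h] <;> norm_num
    calc (P1.card.choose k : ℝ) = ∑ s ∈ P1.powersetCard k, (1 : ℝ) := by
          rw [Finset.sum_const, Finset.card_powersetCard, nsmul_eq_mul, mul_one]
      _ ≤ ∑ s ∈ P1.powersetCard k, (1 : ℝ) * ∏ p ∈ s, (1 + (chi D p : ℝ)) := by
          refine Finset.sum_le_sum fun s hs => ?_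
          rw [one_mul]
          have h5 : ∀ p ∈ s, (1 : ℝ) ≤ 1 + (chi D p : ℝ) := by
            intro p hp
            have hp1 := (mem_powersetCard.1 hs).1 hp
            have hpP := hP p (Finset.filter_subset _ _ hp1)
            rw [chi_odd _ _ hpP.1 hpP.2]
            have h6 := (Finset.mem_filter.1 hp1).2
            have h7 : (0 : ℝ) ≤ ((jacobiSym (D : ℤ) p : ℤ) : ℝ) := by exact_mod_cast h6
            linarith
          calc (1 : ℝ) = ∏ p ∈ s, (1 : ℝ) := by rw [Finset.prod_const_one]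
            _ ≤ ∏ p ∈ s, (1 + (chi D p : ℝ)) :=
              Finset.prod_le_prod (fun _ _ => zero_le_one) h5
      _ ≤ ∑ s ∈ P.powersetCard k, (1 : ℝ) * ∏ p ∈ s, (1 + (chi D p : ℝ)) :=
          Finset.sum_le_sum_of_subset_of_nonneg
            (Finset.powersetCard_mono (Finset.filter_subset _ _)) fun s hs _ => hnn s hs
  calc (P.card.choose k : ℝ) ≤ ((20 ^ k * P1.card.choose k : ℕ) : ℝ) := by exact_mod_cast h3
    _ = 20 ^ k * (P1.card.choose k : ℝ) := by push_cast; ring
    _ ≤ _ := mul_le_mul_of_nonneg_left h4 (by positivity)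

/-- upper bound for L(1, chi_D) -/
theorem Lone_le (hN3a : P_N3a) : ∃ C : ℝ, 0 < C ∧ ∀ D : ℕ, IsFund D →
    Lone D ≤ C * (1 + Real.log D) := by
  obtain ⟨C, hC, h⟩ := hN3a
  refine ⟨C + 1, by linarith, fun D hD => ?_⟩
  have hD1 : 1 < D := hD.1
  have hDr : (1 : ℝ) < D := by exact_mod_cast hD1
  have h1 := h D hD D hD1.le
  have hlog : 0 ≤ Real.log D := Real.log_natCast_nonneg D
  have h2 : C * √(D : ℝ) * Real.log D / D ≤ C * Real.log D := by
    rw [div_le_iff₀ (by linarith)]
    have h3 : √(D : ℝ) ≤ D := by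
      rw [Real.sqrt_le_left (by linarith)]
      nlinarith
    have h4 : 0 ≤ C * Real.log D := by positivity
    nlinarith
  have h3 : ∑ n ∈ Finset.Icc 1 D, (chi D n : ℝ) / n ≤ 1 + Real.log D := by
    calc ∑ n ∈ Finset.Icc 1 D, (chi D n : ℝ) / n ≤ ∑ n ∈ Finset.Icc 1 D, (1 : ℝ) / n := by
          refine Finset.sum_le_sum fun n _ => ?_
          have h5 : (chi D n : ℝ) ≤ 1 := by
            unfold chi chi2
            have h6 := jacobiSym.trichotomy (D : ℤ) (n / 2 ^ padicValNat 2 n)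
            push_cast
            split_ifs
            · rcases h6 with h6 | h6 | h6 <;> rw [h6] <;> norm_num
            · rcases neg_one_pow_eq_or ℝ (padicValNat 2 n) with h7 | h7
              · push_cast; rw [h7]
                rcases h6 with h6 | h6 | h6 <;> rw [h6] <;> norm_num
              · push_cast; rw [h7]
                rcases h6 with h6 | h6 | h6 <;> rw [h6] <;> norm_num
            · rcases Nat.eq_zero_or_pos (padicValNat 2 n) with h7 | h7
              · rw [h7] at h6 ⊢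
                rcases h6 with h6 | h6 | h6 <;> rw [h6] <;> norm_num
              · rw [zero_pow h7.ne']
                norm_num
          exact div_le_div_of_nonneg_right h5 (Nat.cast_nonneg _)
      _ ≤ 1 + Real.log D := by
          have h8 := harmonic_le_one_add_log D
          rw [harmonic_eq_sum_Icc] at h8
          push_cast at h8
          simpa [one_div] using h8
  have h4 := (abs_le.1 h1).2
  nlinarith

end Pool.Agent.R345.IX
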