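import Pool.Agent.H38R2.CG.NB

/-!
# Sizes of the parameters
-/

set_option autoImplicit false

namespace Pool.Agent.R345.IX

open Finset Filter Pool.Agent.H38R2.CG
open scoped Classical

noncomputable def yI (a : ℝ) (X : ℕ) : ℕ := ⌊(Real.log X) ^ a / 4⌋₊
noncomputable def kI (a : ℝ) (X : ℕ) : ℕ := ⌊Real.log X / Real.log (2 * yI a X)⌋₊

theorem ev_ll (c : ℝ) (hc : 0 < c) : ∀ᶠ L : ℝ in atTop, Real.log L ≤ c * L := by
  have h1 := Real.isLittleO_log_id_atTop.bound hc
  filter_upwards [h1, eventually_ge_atTop (1 : ℝ)] with L h2 h3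
  have h4 : 0 ≤ Real.log L := Real.log_nonneg h3
  rw [Real.norm_of_nonneg h4, id, Real.norm_of_nonneg (by linarith)] at h2
  exact h2

/-- bounds for y and k -/
theorem par1 (a : ℝ) (ha : 1 < a) (X : ℕ) (L l : ℝ) (hL : L = Real.log X) (hl : l = Real.log L)
    (hL8 : 8 ≤ L) (hl4 : 4 ≤ l) :
    L ^ a / 8 ≤ yI a X ∧ (yI a X : ℝ) ≤ L ^ a / 4 ∧
    a * l - 2 ≤ Real.log (2 * yI a X) ∧ Real.log (2 * yI a X) ≤ a * l ∧
    0 < Real.log (yI a X) ∧ Real.log (yI a X) ≤ a * l ∧ 2 ≤ yI a X ∧
    (kI a X : ℝ) ≤ L / (a * l - 2) ∧ L / (a * l) - 1 ≤ kI a X ∧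
    (kI a X : ℝ) * Real.log (2 * yI a X) ≤ L := by
  have hL0 : 0 < L := by linarith
  have hLa : L ≤ L ^ a := by
    have := Real.rpow_le_rpow_of_exponent_le (by linarith : 1 ≤ L) ha.le
    rwa [Real.rpow_one] at this
  have hy2 : (yI a X : ℝ) ≤ L ^ a / 4 := by
    unfold yI
    rw [← hL]
    exact Nat.floor_le (by positivity)
  have hy1 : L ^ a / 8 ≤ yI a X := by
    have h1 : L ^ a / 4 - 1 < yI a X := by
      have := Nat.lt_floor_add_one (L ^ a / 4)
      unfold yI
      rw [← hL]
      linarith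
    linarith
  have hla : Real.log (L ^ a) = a * l := by rw [Real.log_rpow hL0, hl]
  have hLap : 0 < L ^ a := by positivity
  have hypos : (0 : ℝ) < yI a X := by
    have : 0 < L ^ a / 8 := by positivity
    linarith
  have hal : 4 < a * l := by nlinarith
  have hlog4 : Real.log 4 ≤ 2 := by
    rw [show (4 : ℝ) = 2 ^ 2 by norm_num, Real.log_pow]
    have := Real.log_two_lt_d9
    push_cast
    linarith
  have hlog8 : Real.log 8 ≤ 3 := by
    rw [show (8 : ℝ) = 2 ^ 3 by norm_num, Real.log_pow]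
    have := Real.log_two_lt_d9
    push_cast
    linarith
  have h1 : a * l - 2 ≤ Real.log (2 * yI a X) := by
    have h2 : Real.log (L ^ a / 4) ≤ Real.log (2 * yI a X) :=
      Real.log_le_log (by positivity) (by linarith)
    rw [Real.log_div hLap.ne' (by norm_num), hla] at h2
    linarith
  have h3 : Real.log (2 * yI a X) ≤ a * l := by
    rw [← hla]
    exact Real.log_le_log (by positivity) (by linarith)
  have h4 : a * l - 3 ≤ Real.log (yI a X) := by
    have h2 : Real.log (L ^ a / 8) ≤ Real.log (yI a X) :=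
      Real.log_le_log (by positivity) hy1
    rw [Real.log_div hLap.ne' (by norm_num), hla] at h2
    linarith
  have h5 : Real.log (yI a X) ≤ a * l := by
    rw [← hla]
    exact Real.log_le_log hypos (by linarith)
  have hy2' : 2 ≤ yI a X := by
    by_contra h
    have h6 : yI a X ≤ 1 := by omega
    have h7 : (yI a X : ℝ) ≤ 1 := by exact_mod_cast h6
    have h8 := Real.log_nonpos hypos.le h7
    linarith
  have hlog2y : 0 < Real.log (2 * yI a X) := by linarith
  have hk1 : (kI a X : ℝ) ≤ L / Real.log (2 * yI a X) := by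
    unfold kI
    rw [← hL]
    exact Nat.floor_le (by positivity)
  have hk2 : L / Real.log (2 * yI a X) < kI a X + 1 := by
    unfold kI
    rw [← hL]
    exact Nat.lt_floor_add_one _
  refine ⟨hy1, hy2, h1, h3, by linarith, h5, hy2', ?_, ?_, ?_⟩
  · refine hk1.trans ?_
    exact div_le_div_of_nonneg_left hL0.le (by linarith) h1
  · have : L / (a * l) ≤ L / Real.log (2 * yI a X) := div_le_div_of_nonneg_left hL0.le hlog2y h3
    linarith
  · rw [le_div_iff₀ hlog2y] at hk1
    exact hk1

theorem params (a : ℝ) (ha : 1 < a) (ε B : ℝ) (hε : 0 < ε) (hB : 1 ≤ B) : ∀ᶠ X : ℕ in atTop,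
    2 ≤ yI a X ∧ ((2 * yI a X : ℕ) : ℝ) ^ (kI a X) ≤ X ∧ B ^ (kI a X) ≤ (X : ℝ) ^ ε ∧
    20 * kI a X ≤ (PP (yI a X)).card ∧ 8 ≤ kI a X ∧
    (X : ℝ) ^ (1 - 1 / a - ε) ≤ ((PP (yI a X)).card.choose (kI a X) : ℝ) ∧
    1 ≤ (PP (yI a X)).card / (2 * (kI a X / 4)) ∧
    (X : ℝ) ^ ((a - 1) / (16 * a)) ≤
      (((PP (yI a X)).card / (2 * (kI a X / 4)) : ℕ) : ℝ) ^ (kI a X / 4) ∧
    (kI a X : ℝ) * Real.log (2 * yI a X) ≤ Real.log X ∧
    ∀ d : ℝ, (X : ℝ) / 4 ≤ d → d ≤ 2 * X → 2 * (yI a X : ℝ) ≤ (Real.log d) ^ a ∧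
      (kI a X : ℝ) ≤ Real.log d / Real.log (Real.log d) := by
  obtain ⟨y0, hy0⟩ := NBh.part2
  have hLt : Tendsto (fun X : ℕ => Real.log (X : ℝ)) atTop atTop :=
    Real.tendsto_log_atTop.comp tendsto_natCast_atTop_atTop
  have hlt : Tendsto (fun X : ℕ => Real.log (Real.log (X : ℝ))) atTop atTop :=
    Real.tendsto_log_atTop.comp hLt
  have ha0 : 0 < a := by linarith
  have ha1 : 0 < a - 1 := by linarith
  have hc : 0 < min (ε / (2 * a)) (1 / (16 * a)) := by positivity
  filter_upwards [hLt.eventually_ge_atTop (4 * a + 8), hLt.eventually_ge_atTop (8 * (y0 : ℝ)),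
    hlt.eventually_ge_atTop 4, hlt.eventually_ge_atTop (Real.log B / ε + 2),
    hlt.eventually_ge_atTop (8 / ε), hlt.eventually_ge_atTop (6 / (a - 1)),
    hLt.eventually (ev_ll _ hc), eventually_ge_atTop 2] with X e1 e2 e3 e4 e5 e6 e7 e8
  set L := Real.log (X : ℝ) with hL
  set l := Real.log L with hl
  obtain ⟨p1, p2, p3, p4, p5, p6, p7, p8, p9, p10⟩ := par1 a ha X L l hL hl (by linarith) e3
  set y := yI a X with hy
  set k := kI a X with hk
  set n0 := (PP y).card with hn0
  have hL0 : 0 < L := by linarith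
  have hl0 : 0 < l := by linarith
  have hX0 : (0 : ℝ) < X := by
    have : 0 < X := by omega
    exact_mod_cast this
  have hexpL : Real.exp L = X := Real.exp_log hX0
  have hlal : l ≤ a * l := by
    have := mul_le_mul_of_nonneg_right ha.le hl0.le
    linarith
  have hal : 4 ≤ a * l := by linarith
  have hal0 : 0 < a * l := by linarith
  have hsmall1 : l ≤ ε / (2 * a) * L := e7.trans (mul_le_mul_of_nonneg_right (min_le_left _ _) hL0.le)
  have hsmall2 : l ≤ 1 / (16 * a) * L :=
    e7.trans (mul_le_mul_of_nonneg_right (min_le_right _ _) hL0.le)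
  have h16 : 16 * (a * l) ≤ L := by
    have : l * (16 * a) ≤ L := by
      calc l * (16 * a) ≤ (1 / (16 * a) * L) * (16 * a) := by gcongr
        _ = L := by field_simp
    linarith
  have hLal : 16 ≤ L / (a * l) := by
    rw [le_div_iff₀ hal0]
    linarith
  have hk8r : (15 : ℝ) ≤ k := by linarith
  have hk8 : 8 ≤ k := by
    have : (8 : ℝ) ≤ k := by linarith
    exact_mod_cast this
  have hk0 : (0 : ℝ) < k := by linarith
  -- the number of primes
  have hyy0 : y0 ≤ y := by
    have h1 : (y0 : ℝ) ≤ y := by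
      have hLa : L ≤ L ^ a := by
        have := Real.rpow_le_rpow_of_exponent_le (by linarith : 1 ≤ L) ha.le
        rwa [Real.rpow_one] at this
      linarith
    exact_mod_cast h1
  have hnb := (hy0 y hyy0).1
  have hLap : 0 < L ^ a := by positivity
  have hn1 : L ^ a / (9 * (a * l)) ≤ n0 := by
    refine le_trans ?_ hnb
    calc L ^ a / (9 * (a * l)) ≤ (9 / 10 * (L ^ a / 8)) / (a * l) := by
          rw [div_le_div_iff₀ (by positivity) hal0]
          have : 0 < L ^ a * (a * l) := by positivity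
          have e : 9 / 10 * (L ^ a / 8) * (9 * (a * l)) = 81 / 80 * (L ^ a * (a * l)) := by ring
          rw [e]
          linarith
      _ ≤ (9 / 10 * (y : ℝ)) / Real.log y := by
          apply div_le_div₀ (by positivity) (by linarith) p5 p6
      _ = 9 / 10 * y / Real.log y := by ring
  have hpow : L ^ a = L ^ (a - 1) * L := by
    rw [Real.rpow_sub_one hL0.ne']
    field_simp
  have hkL : (k : ℝ) ≤ 2 * L / (a * l) := by
    refine p8.trans ?_
    rw [div_le_div_iff₀ (by linarith) hal0]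
    have := mul_le_mul_of_nonneg_left hal hL0.le
    linarith
  have hLa1 : 0 < L ^ (a - 1) := by positivity
  have hkn : (k : ℝ) * L ^ (a - 1) ≤ 18 * n0 := by
    calc (k : ℝ) * L ^ (a - 1) ≤ (2 * L / (a * l)) * L ^ (a - 1) := by gcongr
      _ = 18 * (L ^ a / (9 * (a * l))) := by
          rw [hpow]
          field_simp
          ring
      _ ≤ 18 * n0 := by linarith
  have hLa1log : Real.log (L ^ (a - 1)) = (a - 1) * l := by rw [Real.log_rpow hL0]
  have h6 : 6 ≤ (a - 1) * l := by
    rw [div_le_iff₀ ha1] at e6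
    linarith
  have hLa1big : 400 ≤ L ^ (a - 1) := by
    have h1 : Real.exp 6 ≤ L ^ (a - 1) := by
      rw [← Real.exp_log hLa1, hLa1log]
      exact Real.exp_le_exp.2 h6
    have h2 : (400 : ℝ) ≤ Real.exp 6 := by
      have h3 := Real.exp_one_gt_d9
      have h4 : Real.exp 6 = Real.exp 1 ^ 6 := by
        rw [← Real.exp_nat_mul]
        norm_num
      rw [h4]
      calc (400 : ℝ) ≤ 2.7182818283 ^ 6 := by norm_num
        _ ≤ Real.exp 1 ^ 6 := by gcongr
    linarith
  have h20 : 20 * k ≤ n0 := by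
    have h1 : (20 : ℝ) * k ≤ n0 := by
      have h2 : (k : ℝ) * 400 ≤ k * L ^ (a - 1) := by gcongr
      have h3 : (0 : ℝ) ≤ n0 := Nat.cast_nonneg _
      linarith
    exact_mod_cast h1
  -- (2y)^k ≤ X
  have hyk : ((2 * y : ℕ) : ℝ) ^ k ≤ X := by
    have hpos : (0 : ℝ) < ((2 * y : ℕ) : ℝ) := by
      have : 0 < 2 * y := by omega
      exact_mod_cast this
    rw [← Real.log_le_log_iff (by positivity) hX0, Real.log_pow]
    push_cast
    exact p10
  -- B^k
  have hBk : B ^ k ≤ (X : ℝ) ^ ε := by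
    have hB0 : 0 < B := by linarith
    rw [← Real.log_le_log_iff (by positivity) (by positivity), Real.log_pow, Real.log_rpow hX0]
    have hlogB : 0 ≤ Real.log B := Real.log_nonneg hB
    calc (k : ℝ) * Real.log B ≤ (L / (a * l - 2)) * Real.log B := by gcongr
      _ ≤ ε * L := by
        rw [div_mul_eq_mul_div, div_le_iff₀ (by linarith)]
        have h1 : Real.log B ≤ ε * (a * l - 2) := by
          have h2 : Real.log B / ε ≤ a * l - 2 := by linarith
          rw [div_le_iff₀ hε] at h2
          linarith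
        have := mul_le_mul_of_nonneg_left h1 hL0.le
        linarith
  -- number of ideals
  have hM : (X : ℝ) ^ (1 - 1 / a - ε) ≤ (n0.choose k : ℝ) := by
    have h1 : ((n0 + 1 - k : ℕ) ^ k : ℝ) / (k.factorial : ℝ) ≤ (n0.choose k : ℝ) :=
      Nat.pow_le_choose k n0
    have h2 : (n0 : ℝ) / 2 ≤ ((n0 + 1 - k : ℕ) : ℝ) := by
      rw [Nat.cast_sub (by omega)]
      have : (20 : ℝ) * k ≤ n0 := by exact_mod_cast h20
      push_cast
      linarith
    have h3 : ((k.factorial : ℕ) : ℝ) ≤ (k : ℝ) ^ k := by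
      exact_mod_cast Nat.factorial_le_pow k
    have h4 : ((n0 : ℝ) / 2) ^ k / (k : ℝ) ^ k ≤ (n0.choose k : ℝ) := by
      refine le_trans ?_ h1
      have h5 : (0 : ℝ) < k.factorial := by exact_mod_cast Nat.factorial_pos k
      apply div_le_div₀ (by positivity) _ h5 h3
      gcongr
    refine le_trans ?_ h4
    rw [← div_pow]
    have h5 : L ^ (a - 1) / 36 ≤ (n0 : ℝ) / 2 / k := by
      rw [le_div_iff₀ hk0]
      linarith
    have h6' : (L ^ (a - 1) / 36) ^ k ≤ ((n0 : ℝ) / 2 / k) ^ k := by gcongr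
    refine le_trans ?_ h6'
    rw [← Real.log_le_log_iff (by positivity) (by positivity), Real.log_rpow hX0, Real.log_pow,
      Real.log_div hLa1.ne' (by norm_num), hLa1log]
    have hlog36 : Real.log 36 ≤ 4 := by
      rw [Real.log_le_iff_le_exp (by norm_num)]
      have h3 := Real.exp_one_gt_d9
      have h4 : Real.exp 4 = Real.exp 1 ^ 4 := by
        rw [← Real.exp_nat_mul]
        norm_num
      rw [h4]
      calc (36 : ℝ) ≤ 2.7182818283 ^ 4 := by norm_num
        _ ≤ Real.exp 1 ^ 4 := by gcongr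
    have h7 : 0 ≤ (a - 1) * l - 4 := by linarith
    calc (1 - 1 / a - ε) * L ≤ (L / (a * l) - 1) * ((a - 1) * l - 4) := by
          have e9 : (L / (a * l) - 1) * ((a - 1) * l - 4) =
              (1 - 1 / a) * L - 4 * (L / (a * l)) - (a - 1) * l + 4 := by
            field_simp
            ring
          rw [e9]
          have h8 : 4 * (L / (a * l)) ≤ ε / 2 * L := by
            have h9 : 8 / ε ≤ a * l := by linarith
            rw [div_le_iff₀ hε] at h9
            rw [← mul_div_assoc, div_le_iff₀ hal0]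
            have := mul_le_mul_of_nonneg_left h9 hL0.le
            linarith
          have h10 : (a - 1) * l ≤ ε / 2 * L := by
            calc (a - 1) * l ≤ a * l := by linarith
              _ ≤ a * (ε / (2 * a) * L) := by gcongr
              _ = ε / 2 * L := by field_simp
          linarith
      _ ≤ k * ((a - 1) * l - Real.log 36) := by
          apply mul_le_mul p9 (by linarith) h7 hk0.le
  -- groups
  have hj1 : 2 ≤ k / 4 := by omega
  have hj0 : 0 < 2 * (k / 4) := by omega
  set m := n0 / (2 * (k / 4)) with hm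
  have hmlt : n0 < 2 * (k / 4) * (m + 1) := by
    have := Nat.lt_mul_div_succ n0 hj0
    rw [hm]
    exact this
  have hmr : L ^ (a - 1) / 18 ≤ m := by
    have h1 : (n0 : ℝ) < (k : ℝ) / 2 * (m + 1) := by
      have h2 : (n0 : ℝ) < ((2 * (k / 4) * (m + 1) : ℕ) : ℝ) := by exact_mod_cast hmlt
      refine h2.trans_le ?_
      have h3 : ((2 * (k / 4) : ℕ) : ℝ) ≤ (k : ℝ) / 2 := by
        have h4 : 4 * (k / 4) ≤ k := Nat.mul_div_le k 4
        have h5 : (4 : ℝ) * ((k / 4 : ℕ) : ℝ) ≤ k := by exact_mod_cast h4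
        push_cast
        linarith
      push_cast at h3 ⊢
      have h6 : (0 : ℝ) ≤ (m : ℝ) + 1 := by positivity
      exact mul_le_mul_of_nonneg_right h3 h6
    have h2 : (k : ℝ) * L ^ (a - 1) < k * (9 * (m + 1)) := by linarith
    have h3 : L ^ (a - 1) < 9 * (m + 1) := lt_of_mul_lt_mul_left h2 hk0.le
    linarith
  have hm1 : 1 ≤ m := by
    have : (1 : ℝ) ≤ m := by linarith
    exact_mod_cast this
  have hmpos : (0 : ℝ) < m := by linarith
  have hlogm : (a - 1) * l / 2 ≤ Real.log m := by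
    have h1 : Real.log (L ^ (a - 1) / 18) ≤ Real.log m := Real.log_le_log (by positivity) hmr
    rw [Real.log_div hLa1.ne' (by norm_num), hLa1log] at h1
    have hlog18 : Real.log 18 ≤ 3 := by
      rw [Real.log_le_iff_le_exp (by norm_num)]
      have h3 := Real.exp_one_gt_d9
      have h4 : Real.exp 3 = Real.exp 1 ^ 3 := by
        rw [← Real.exp_nat_mul]
        norm_num
      rw [h4]
      calc (18 : ℝ) ≤ 2.7182818283 ^ 3 := by norm_num
        _ ≤ Real.exp 1 ^ 3 := by gcongr
    linarith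
  have hjr : L / (8 * (a * l)) ≤ ((k / 4 : ℕ) : ℝ) := by
    have h1 : k < 4 * (k / 4) + 4 := by omega
    have h2 : (k : ℝ) < 4 * ((k / 4 : ℕ) : ℝ) + 4 := by exact_mod_cast h1
    have h3 : L / (8 * (a * l)) = L / (a * l) / 8 := by
      field_simp
    rw [h3]
    linarith
  have hmj : (X : ℝ) ^ ((a - 1) / (16 * a)) ≤ (m : ℝ) ^ (k / 4) := by
    rw [← Real.log_le_log_iff (by positivity) (by positivity), Real.log_rpow hX0, Real.log_pow]
    calc (a - 1) / (16 * a) * L = L / (8 * (a * l)) * ((a - 1) * l / 2) := by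
          field_simp
          ring
      _ ≤ ((k / 4 : ℕ) : ℝ) * Real.log m := by
          apply mul_le_mul hjr hlogm (by positivity) (Nat.cast_nonneg _)
  refine ⟨p7, hyk, hBk, h20, hk8, hM, hm1, hmj, p10, ?_⟩
  intro d hd1 hd2
  have hd0 : 0 < d := by
    have : (0 : ℝ) < (X : ℝ) / 4 := by positivity
    linarith
  have hlog4 : Real.log 4 ≤ 2 := by
    rw [show (4 : ℝ) = 2 ^ 2 by norm_num, Real.log_pow]
    have := Real.log_two_lt_d9
    push_cast
    linarith
  have hdlow : L - 2 ≤ Real.log d := by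
    have h1 : Real.log ((X : ℝ) / 4) ≤ Real.log d := Real.log_le_log (by positivity) hd1
    rw [Real.log_div hX0.ne' (by norm_num)] at h1
    linarith
  have hdup : Real.log d ≤ L + 1 := by
    have h1 : Real.log d ≤ Real.log (2 * X) := Real.log_le_log hd0 hd2
    rw [Real.log_mul (by norm_num) hX0.ne'] at h1
    have := Real.log_two_lt_d9
    linarith
  have hld0 : 0 < Real.log d := by linarith
  constructor
  · have h1 : (L - 2) ^ a ≤ (Real.log d) ^ a :=
      Real.rpow_le_rpow (by linarith) hdlow ha0.le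
    refine le_trans ?_ h1
    have h2 : L - 2 = L * (1 + (-(2 / L))) := by field_simp; ring
    rw [h2, Real.mul_rpow hL0.le (by
      have : 2 / L ≤ 1 := by rw [div_le_one hL0]; linarith
      linarith)]
    have h3 : 1 + a * (-(2 / L)) ≤ (1 + (-(2 / L))) ^ a :=
      one_add_mul_self_le_rpow_one_add (by
        have : 2 / L ≤ 1 := by rw [div_le_one hL0]; linarith
        linarith) ha.le
    have h4 : (1 : ℝ) / 2 ≤ 1 + a * (-(2 / L)) := by
      have h5 : a * (2 / L) ≤ 1 / 2 := by
        rw [← mul_div_assoc, div_le_iff₀ hL0]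
        linarith
      linarith
    calc 2 * (y : ℝ) ≤ L ^ a * (1 / 2) := by linarith
      _ ≤ L ^ a * (1 + (-(2 / L))) ^ a := by
          apply mul_le_mul_of_nonneg_left _ hLap.le
          linarith
  · have hll : Real.log (Real.log d) ≤ l + 1 := by
      have h1 : Real.log (Real.log d) ≤ Real.log (L + 1) := Real.log_le_log hld0 hdup
      have h2 : Real.log (L + 1) ≤ Real.log (L * 2) := Real.log_le_log (by linarith) (by linarith)
      rw [Real.log_mul hL0.ne' (by norm_num)] at h2
      have := Real.log_two_lt_d9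
      linarith
    have hll0 : 0 < Real.log (Real.log d) := by
      apply Real.log_pos
      linarith
    rw [le_div_iff₀ hll0]
    calc (k : ℝ) * Real.log (Real.log d) ≤ (L / (a * l - 2)) * (l + 1) :=
          mul_le_mul p8 hll hll0.le (div_nonneg hL0.le (by linarith))
      _ ≤ L - 2 := by
          rw [div_mul_eq_mul_div, div_le_iff₀ (by linarith)]
          have := mul_le_mul_of_nonneg_left h6 hL0.le
          linarith
      _ ≤ Real.log d := hdlow

end Pool.Agent.R345.IX
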