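import Pool.Agent.R345.IXLow
import Pool.Agent.R345.IXNum
import Pool.Agent.R345.IXPar
import Pool.Agent.H38R2.CG.N0
import Pool.Agent.H38R2.CG.N0d
import Pool.Agent.H38R2.CG.N1
import Pool.Agent.H38R2.CG.N2
import Pool.Agent.H38R2.CG.N3a
import Pool.Agent.H38R2.CG.N3b
import Pool.Agent.H38R2.CG.N4
import Pool.Agent.H38R2.CG.N4a
import Pool.Agent.H38R2.CG.N4b
import Pool.Agent.H38R2.CG.N5b
import Pool.Agent.H38R2.CG.N6
import Pool.Agent.H38R2.CG.KF
import Pool.Agent.H38R2.CG.KR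
import Pool.Agent.H38R2.CG.PV
import Pool.Agent.H38R2.CG.SPL

/-!
# Few discriminants for which products of small primes reach few ideal classes
-/

set_option autoImplicit false

namespace Pool.Agent.R345.IX

open Finset Filter NumberField Pool.Agent.H38R2.CG Pool.Agent.H38R2.CG2
open scoped Classical

/-- the exceptional discriminants -/
def BadI (a e : ℝ) (X D : ℕ) : Prop := ∃ (K : Type) (_ : Field K) (_ : NumberField K),
  Module.finrank ℚ K = 2 ∧ NumberField.discr K = (D : ℤ) ∧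
    ¬ ((Nat.card (ClassGroup (𝓞 K)) : ℝ) ≤
      (X : ℝ) ^ e * ((Reach K (2 * yI a X : ℕ) (kI a X)).ncard : ℝ))

theorem SD_nonneg (D : ℕ) (S : Finset (Finset ℕ)) : 0 ≤ SD D S (fun _ => 1) := by
  unfold SD
  refine Finset.sum_nonneg fun s _ => Finset.sum_nonneg fun t _ => ?_
  have : 0 ≤ Rsum D (prodS s * prodS t) := by
    unfold Rsum
    refine Finset.sum_nonneg fun u _ => Finset.sum_nonneg fun v _ => ?_
    split_ifs
    · exact TB5h.phi_nonneg _
    · exact le_rfl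
  positivity

/-- number of the discriminants with a large near collision sum -/
theorem high_card (r X k : ℕ) (hr : r < Qz 2) (hX : 1 ≤ X) (S : Finset (Finset ℕ))
    (hS : ∀ s ∈ S, (∀ p ∈ s, p.Prime) ∧ s.card = k ∧ prodS s ≤ X) (T : ℝ) (hT : 0 < T)
    (hc : 0 < S.card) :
    (((DD 2 r X 1).filter (fun D => T * ((S.card : ℝ) + (S.card : ℝ) ^ 2 / √(X : ℝ)) <
      SD D S (fun _ => 1))).card : ℝ) ≤ 4096 * 8 ^ k * (1 + Real.log X) * X / T := by
  have hXr : (1 : ℝ) ≤ X := by exact_mod_cast hX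
  have hX0 : (0 : ℝ) < X := by linarith
  have hsX : 0 < √(X : ℝ) := Real.sqrt_pos.2 hX0
  have hXX : √(X : ℝ) * √(X : ℝ) = X := Real.mul_self_sqrt hX0.le
  have hM : (0 : ℝ) < S.card := by exact_mod_cast hc
  set M : ℝ := (S.card : ℝ) with hMdef
  set A : ℝ := M + M ^ 2 / √(X : ℝ) with hA
  have hA0 : 0 < A := by positivity
  set Bd := (DD 2 r X 1).filter (fun D => T * A < SD D S (fun _ => 1)) with hBd
  have h1 := avg_SD r X k hr hX S hS
  have h2 : (Bd.card : ℝ) * (T * A) ≤ ∑ D ∈ DD 2 r X 1, SD D S (fun _ => 1) := by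
    calc (Bd.card : ℝ) * (T * A) = ∑ D ∈ Bd, (T * A) := by rw [Finset.sum_const, nsmul_eq_mul]
      _ ≤ ∑ D ∈ Bd, SD D S (fun _ => 1) :=
          Finset.sum_le_sum fun D hD => (Finset.mem_filter.1 hD).2.le
      _ ≤ _ := Finset.sum_le_sum_of_subset_of_nonneg (Finset.filter_subset _ _)
          fun D _ _ => SD_nonneg D S
  have h3 : X * M + √(X : ℝ) * M ^ 2 = X * A := by
    rw [hA, mul_add]
    congr 1
    have : (X : ℝ) * (M ^ 2 / √(X : ℝ)) = (√(X : ℝ) * √(X : ℝ)) * (M ^ 2 / √(X : ℝ)) := by rw [hXX]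
    rw [this]
    field_simp
  rw [h3] at h1
  rw [le_div_iff₀ hT]
  have h4 : ((Bd.card : ℝ) * T) * A ≤ (4096 * 8 ^ k * (1 + Real.log X) * X) * A := by
    calc ((Bd.card : ℝ) * T) * A = (Bd.card : ℝ) * (T * A) := by ring
      _ ≤ _ := h2.trans h1
      _ = _ := by ring
  exact le_of_mul_le_mul_right h4 hA0

/-- the deterministic part: a discriminant outside of the two exceptional sets is not bad -/
theorem not_bad (hN0 : P_N0) (hN1 : P_N1) (hN3 : P_N3) (h4 : P_N4) (hKF : P_KF)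
    (h5b : P_N5b) (hN6 : P_N6) (a θ η C : ℝ) (hC : 0 < C)
    (hLone : ∀ D : ℕ, IsFund D → Lone D ≤ C * (1 + Real.log D))
    (hθ0 : 0 ≤ θ) (hθ : 1 / a - 1 / 2 ≤ θ) (hη : 0 < η) (X D : ℕ) (hD : IsFund D)
    (hDX : D ≤ 2 * X) (hX : 1 ≤ X) (hy : 2 ≤ yI a X)
    (hB : (400 : ℝ) ^ (kI a X) ≤ (X : ℝ) ^ η)
    (h20 : 20 * kI a X ≤ (PP (yI a X)).card)
    (hM : (X : ℝ) ^ (1 - 1 / a - η) ≤ ((PP (yI a X)).card.choose (kI a X) : ℝ))
    (hL2 : C * (2 + Real.log X) ≤ (X : ℝ) ^ η) (h8 : 8 ≤ (X : ℝ) ^ η)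
    (hlow : ((PP (yI a X)).card : ℝ) / 5 ≤
      ∑ p ∈ PP (yI a X), (1 + ((jacobiSym (D : ℤ) p : ℤ) : ℝ)))
    (hhigh : SD D ((PP (yI a X)).powersetCard (kI a X)) (fun _ => 1) ≤ (X : ℝ) ^ (4 * η) *
      (((PP (yI a X)).card.choose (kI a X) : ℝ) +
        ((PP (yI a X)).card.choose (kI a X) : ℝ) ^ 2 / √(X : ℝ))) :
    ¬ BadI a (θ + 8 * η) X D := by
  rintro ⟨K, i1, i2, h2, hK, hne⟩
  apply hne
  have hXr : (1 : ℝ) ≤ X := by exact_mod_cast hX
  have hX0 : (0 : ℝ) < X := by linarith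
  have hsX : 0 < √(X : ℝ) := Real.sqrt_pos.2 hX0
  have hlogX : 0 ≤ Real.log X := Real.log_natCast_nonneg X
  set P := PP (yI a X) with hP
  set k := kI a X with hk
  set M : ℝ := (P.card.choose k : ℝ) with hMdef
  have hPm : ∀ p ∈ P, p.Prime ∧ p ≠ 2 ∧ (p : ℝ) ≤ ((2 * yI a X : ℕ) : ℝ) := by
    intro p hp
    rw [hP] at hp
    unfold PP at hp
    rw [Finset.mem_filter, Finset.mem_Ioc] at hp
    refine ⟨hp.2, by omega, ?_⟩
    exact_mod_cast hp.1.2
  have hR := reach_bound hN0 hN1 hN3 h4 hKF h5b hN6 K D hD h2 hK P ((2 * yI a X : ℕ) : ℝ) hPm k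
  have hMD := MD_low D P (fun p hp => ⟨(hPm p hp).1, (hPm p hp).2.1⟩) k h20 hlow
  set R : ℝ := ((Reach K ((2 * yI a X : ℕ) : ℝ) k).ncard : ℝ) with hRdef
  set h : ℝ := (Nat.card (ClassGroup (𝓞 K)) : ℝ) with hh
  set md := MD D (P.powersetCard k) (fun _ => 1) with hmd
  set sd := SD D (P.powersetCard k) (fun _ => 1) with hsd
  have hR0 : 0 ≤ R := Nat.cast_nonneg _
  have hh0 : 0 ≤ h := Nat.cast_nonneg _
  have hM0 : 0 < M := lt_of_lt_of_le (Real.rpow_pos_of_pos hX0 _) hM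
  have hsd0 : 0 ≤ sd := SD_nonneg D _
  have hD1 : 1 < D := hD.1
  have hDr : (1 : ℝ) < D := by exact_mod_cast hD1
  have hDX' : (D : ℝ) ≤ 2 * X := by exact_mod_cast hDX
  have hlogD : Real.log D ≤ 1 + Real.log X := by
    have h1 : Real.log D ≤ Real.log (2 * X) := Real.log_le_log (by linarith) hDX'
    rw [Real.log_mul (by norm_num) hX0.ne'] at h1
    have := Real.log_two_lt_d9
    linarith
  have hL0 : 0 ≤ Lone D := (hN3 K D hD h2 hK).1
  have hL : Lone D ≤ (X : ℝ) ^ η := by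
    refine (hLone D hD).trans (le_trans ?_ hL2)
    apply mul_le_mul_of_nonneg_left _ hC.le
    linarith
  have hsD : √(D : ℝ) ≤ 2 * √(X : ℝ) := by
    rw [Real.sqrt_le_left (by positivity), mul_pow, Real.sq_sqrt hX0.le]
    linarith
  have hXη : 0 < (X : ℝ) ^ η := Real.rpow_pos_of_pos hX0 _
  have hX4η : 0 < (X : ℝ) ^ (4 * η) := Real.rpow_pos_of_pos hX0 _
  -- the inequality for h
  have h1 : h * M ^ 2 ≤ 400 ^ k * (R * (2 * (2 * √(X : ℝ)) * (X : ℝ) ^ η *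
      ((X : ℝ) ^ (4 * η) * (M + M ^ 2 / √(X : ℝ))))) := by
    have e400 : (400 : ℝ) ^ k = (20 ^ k) ^ 2 := by
      rw [← pow_mul, mul_comm, pow_mul]; norm_num
    calc h * M ^ 2 ≤ h * (20 ^ k * md) ^ 2 := by gcongr
      _ = 400 ^ k * (h * md ^ 2) := by rw [e400]; ring
      _ ≤ 400 ^ k * (R * (2 * √(D : ℝ) * Lone D * sd)) := by gcongr
      _ ≤ _ := by gcongr
  have h3 : h ≤ 400 ^ k * R * 4 * (X : ℝ) ^ η * (X : ℝ) ^ (4 * η) * (√(X : ℝ) / M + 1) := by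
    have hM2 : 0 < M ^ 2 := by positivity
    refine le_of_mul_le_mul_right (h1.trans (le_of_eq ?_)) hM2
    field_simp
    norm_num
  have h4' : √(X : ℝ) / M ≤ (X : ℝ) ^ (θ + η) := by
    rw [div_le_iff₀ hM0]
    calc √(X : ℝ) = (X : ℝ) ^ (1 / 2 : ℝ) := Real.sqrt_eq_rpow _
      _ ≤ (X : ℝ) ^ ((θ + η) + (1 - 1 / a - η)) :=
          Real.rpow_le_rpow_of_exponent_le hXr (by linarith)
      _ = (X : ℝ) ^ (θ + η) * (X : ℝ) ^ (1 - 1 / a - η) := Real.rpow_add hX0 _ _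
      _ ≤ _ := by gcongr
  have h5 : (1 : ℝ) ≤ (X : ℝ) ^ (θ + η) := Real.one_le_rpow hXr (by linarith)
  calc h ≤ 400 ^ k * R * 4 * (X : ℝ) ^ η * (X : ℝ) ^ (4 * η) * (√(X : ℝ) / M + 1) := h3
    _ ≤ (X : ℝ) ^ η * R * 4 * (X : ℝ) ^ η * (X : ℝ) ^ (4 * η) *
        ((X : ℝ) ^ (θ + η) + (X : ℝ) ^ (θ + η)) := by gcongr
    _ = ((X : ℝ) ^ η * (X : ℝ) ^ η * (X : ℝ) ^ (4 * η) * (X : ℝ) ^ (θ + η)) * 8 * R := by ring
    _ ≤ ((X : ℝ) ^ η * (X : ℝ) ^ η * (X : ℝ) ^ (4 * η) * (X : ℝ) ^ (θ + η)) * (X : ℝ) ^ η * R := by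
        gcongr
    _ = (X : ℝ) ^ (θ + 8 * η) * R := by
        rw [← Real.rpow_add hX0, ← Real.rpow_add hX0, ← Real.rpow_add hX0, ← Real.rpow_add hX0]
        congr 2
        ring

/-- few exceptional discriminants in a dyadic interval -/
theorem count_bad (hN0 : P_N0) (hN1 : P_N1) (hN3 : P_N3) (h4 : P_N4) (hKF : P_KF)
    (h5b : P_N5b) (hN6 : P_N6) (hN3a : P_N3a) (hPV' : P_PV) (a : ℝ) (ha : 1 < a) (ε : ℝ)
    (hε : 0 < ε) : ∃ δ : ℝ, 0 < δ ∧ δ ≤ 1 / 2 ∧ ∃ X0 : ℕ, ∀ X ≥ X0,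
    (((Finset.Ioc X (2 * X)).filter (fun D => IsFund D ∧
      BadI a (max 0 (1 / a - 1 / 2) + ε) X D)).card : ℝ) ≤ (X : ℝ) ^ (1 - δ) := by
  obtain ⟨C, hC, hLone⟩ := Lone_le hN3a
  obtain ⟨C', hC', hPV⟩ := hPV'
  have ha0 : 0 < a := by linarith
  set δ0 : ℝ := (a - 1) / (16 * a) with hδ0
  have hδ0pos : 0 < δ0 := div_pos (by linarith) (by linarith)
  have hδ0le : δ0 ≤ 1 / 16 := by
    rw [hδ0, div_le_div_iff₀ (by linarith) (by norm_num)]
    linarith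
  set η : ℝ := min (ε / 20) (δ0 / 4) with hη
  have hηpos : 0 < η := lt_min (by positivity) (by positivity)
  have hη1 : η ≤ ε / 20 := min_le_left _ _
  have hη2 : η ≤ δ0 / 4 := min_le_right _ _
  set θ : ℝ := max 0 (1 / a - 1 / 2) with hθ
  refine ⟨η / 2, by positivity, by linarith, ?_⟩
  rw [← Filter.eventually_atTop]
  have hpar := params a ha η 400 hηpos (by norm_num)
  have hlog1 := ERRh.ev_log (η / 2) (by positivity)
  have hc1 := ERRh.ev_const (η / 2) (by positivity) (max (4096 * C) 4096)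
  have hc2 := ERRh.ev_const (η / 2) (by positivity) (max (2 * C) 48)
  have hc3 := ERRh.ev_const (1 / 8) (by norm_num) C'
  have hlog2 := ERRh.ev_log (1 / 8) (by norm_num)
  filter_upwards [hpar, hlog1, hc1, hc2, hc3, hlog2, eventually_ge_atTop 1] with X hX hl1 hk1 hk2
    hk3 hl2 hX1
  obtain ⟨q1, q2, q3, q4, q5, q6, q7, q8, q9, -⟩ := hX
  have hXr : (1 : ℝ) ≤ X := by exact_mod_cast hX1
  have hX0 : (0 : ℝ) < X := by linarith
  have hlogX : 0 ≤ Real.log X := Real.log_natCast_nonneg X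
  set y := yI a X with hy
  set k := kI a X with hk
  set P := PP y with hP
  set j := k / 4 with hj
  set m := P.card / (2 * j) with hm
  set M : ℝ := (P.card.choose k : ℝ) with hM
  have hhalf : (X : ℝ) ^ (η / 2) * (X : ℝ) ^ (η / 2) = (X : ℝ) ^ η := by
    rw [← Real.rpow_add hX0]; congr 1; ring
  have hXh : 0 < (X : ℝ) ^ (η / 2) := Real.rpow_pos_of_pos hX0 _
  have hXη : 0 < (X : ℝ) ^ η := Real.rpow_pos_of_pos hX0 _
  have hXh1 : 1 ≤ (X : ℝ) ^ (η / 2) := Real.one_le_rpow hXr (by positivity)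
  have hXhη : (X : ℝ) ^ (η / 2) ≤ (X : ℝ) ^ η := Real.rpow_le_rpow_of_exponent_le hXr (by linarith)
  have hPm : ∀ p ∈ P, p.Prime ∧ p ≠ 2 ∧ p ≤ 2 * y := by
    intro p hp
    rw [hP] at hp
    unfold PP at hp
    rw [Finset.mem_filter, Finset.mem_Ioc] at hp
    exact ⟨hp.2, by omega, hp.1.2⟩
  have hj2 : 2 ≤ j := by omega
  -- the two exceptional sets for each residue class
  let Low : ℕ → Finset ℕ := fun r => (DD 2 r X 1).filter
    (fun D : ℕ => ∑ p ∈ P, (1 + ((jacobiSym (D : ℤ) p : ℤ) : ℝ)) < (j : ℝ) * m / 2)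
  let High : ℕ → Finset ℕ := fun r => (DD 2 r X 1).filter
    (fun D : ℕ => (X : ℝ) ^ (4 * η) * (((P.powersetCard k).card : ℝ) +
      ((P.powersetCard k).card : ℝ) ^ 2 / √(X : ℝ)) < SD D (P.powersetCard k) (fun _ => 1))
  have hcardS : ((P.powersetCard k).card : ℝ) = M := by rw [Finset.card_powersetCard, hM]
  have hcardS0 : 0 < (P.powersetCard k).card := by
    rw [Finset.card_powersetCard]
    exact Nat.choose_pos (by omega)
  -- cardinality of Low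
  have hLow : ∀ r < Qz 2, ((Low r).card : ℝ) ≤ 2 * (X : ℝ) ^ (1 - η) := by
    intro r hr
    have h1 := low_set C' hC' hPV r X m j (2 * y) hr P hPm q7 (by
      rw [hm]
      exact Nat.mul_div_le _ _) (by omega)
    refine h1.trans ?_
    have h16 : (16 : ℝ) ^ j ≤ (X : ℝ) ^ η := by
      calc (16 : ℝ) ^ j ≤ 400 ^ j := pow_le_pow_left₀ (by norm_num) (by norm_num) _
        _ ≤ 400 ^ k := pow_le_pow_right₀ (by norm_num) (by omega)
        _ ≤ _ := q3
    have hmj : X / (m : ℝ) ^ j ≤ (X : ℝ) ^ (1 - δ0) := by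
      have hmjpos : 0 < (m : ℝ) ^ j := lt_of_lt_of_le (Real.rpow_pos_of_pos hX0 _) q8
      rw [div_le_iff₀ hmjpos]
      calc (X : ℝ) = (X : ℝ) ^ (1 - δ0) * (X : ℝ) ^ δ0 := by
            rw [← Real.rpow_add hX0]
            rw [show (1 - δ0 + δ0 : ℝ) = 1 by ring, Real.rpow_one]
        _ ≤ (X : ℝ) ^ (1 - δ0) * (m : ℝ) ^ j := by gcongr
    have hYj : (((2 * y : ℕ) : ℝ)) ^ j ≤ (X : ℝ) ^ (1 / 4 : ℝ) := by
      have h2 : ((((2 * y : ℕ) : ℝ)) ^ j) ^ 4 ≤ X := by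
        rw [← pow_mul]
        refine le_trans ?_ q2
        have h2y : (1 : ℝ) ≤ ((2 * y : ℕ) : ℝ) := by
          have : 1 ≤ 2 * y := by omega
          exact_mod_cast this
        exact pow_le_pow_right₀ h2y (by omega)
      have h3 : (0 : ℝ) ≤ ((2 * y : ℕ) : ℝ) ^ j := by positivity
      calc (((2 * y : ℕ) : ℝ)) ^ j = (((((2 * y : ℕ) : ℝ)) ^ j) ^ 4) ^ (1 / 4 : ℝ) := by
            rw [← Real.rpow_natCast ((((2 * y : ℕ) : ℝ)) ^ j) 4, ← Real.rpow_mul h3]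
            norm_num
        _ ≤ (X : ℝ) ^ (1 / 4 : ℝ) := Real.rpow_le_rpow (by positivity) h2 (by norm_num)
    have hjl : (2 * j : ℝ) * Real.log ((2 * y : ℕ) : ℝ) ≤ Real.log X := by
      refine le_trans ?_ q9
      have h2 : 0 ≤ Real.log ((2 * y : ℕ) : ℝ) := Real.log_natCast_nonneg _
      have h3 : (2 * j : ℝ) ≤ k := by
        have : 2 * j ≤ k := by omega
        exact_mod_cast this
      have h5 : ((2 * y : ℕ) : ℝ) = 2 * y := by push_cast; ring
      rw [h5] at h2 ⊢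
      exact mul_le_mul_of_nonneg_right h3 h2
    have hjl0 : 0 ≤ (2 * j : ℝ) * Real.log ((2 * y : ℕ) : ℝ) := by
      have h2 : 0 ≤ Real.log ((2 * y : ℕ) : ℝ) := Real.log_natCast_nonneg _
      positivity
    have hsec : C' * ((2 * y : ℕ) : ℝ) ^ j * (2 * j * Real.log ((2 * y : ℕ) : ℝ)) ≤
        (X : ℝ) ^ (1 - δ0) := by
      calc C' * ((2 * y : ℕ) : ℝ) ^ j * (2 * j * Real.log ((2 * y : ℕ) : ℝ))
          ≤ (X : ℝ) ^ (1 / 8 : ℝ) * (X : ℝ) ^ (1 / 4 : ℝ) * (X : ℝ) ^ (1 / 8 : ℝ) := by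
            have h6 : Real.log X ≤ (X : ℝ) ^ (1 / 8 : ℝ) := by linarith
            gcongr
            exact hjl.trans h6
        _ = (X : ℝ) ^ (1 / 8 + 1 / 4 + 1 / 8 : ℝ) := by
            rw [← Real.rpow_add hX0, ← Real.rpow_add hX0]
        _ ≤ _ := Real.rpow_le_rpow_of_exponent_le hXr (by linarith)
    calc (16 : ℝ) ^ j * (X / (m : ℝ) ^ j +
          C' * ((2 * y : ℕ) : ℝ) ^ j * (2 * j * Real.log ((2 * y : ℕ) : ℝ)))
        ≤ (X : ℝ) ^ η * ((X : ℝ) ^ (1 - δ0) + (X : ℝ) ^ (1 - δ0)) := by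
          have h7 : 0 ≤ C' * ((2 * y : ℕ) : ℝ) ^ j * (2 * j * Real.log ((2 * y : ℕ) : ℝ)) := by
            positivity
          gcongr
      _ = 2 * (X : ℝ) ^ (η + (1 - δ0)) := by rw [Real.rpow_add hX0]; ring
      _ ≤ 2 * (X : ℝ) ^ (1 - η) := by
          have := Real.rpow_le_rpow_of_exponent_le hXr (show η + (1 - δ0) ≤ 1 - η by linarith)
          linarith
  -- cardinality of High
  have hHigh : ∀ r < Qz 2, ((High r).card : ℝ) ≤ (X : ℝ) ^ (1 - η) := by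
    intro r hr
    have hS : ∀ s ∈ P.powersetCard k, (∀ p ∈ s, p.Prime) ∧ s.card = k ∧ prodS s ≤ X := by
      intro s hs
      obtain ⟨hs1, hs2⟩ := Finset.mem_powersetCard.1 hs
      refine ⟨fun p hp => (hPm p (hs1 hp)).1, hs2, ?_⟩
      have h1 : prodS s ≤ (2 * y) ^ k := by
        unfold prodS
        rw [← hs2]
        exact Finset.prod_le_pow_card _ _ _ fun p hp => (hPm p (hs1 hp)).2.2
      have h2 : (((2 * y) ^ k : ℕ) : ℝ) ≤ X := by
        push_cast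
        push_cast at q2
        exact q2
      have h3 : (2 * y) ^ k ≤ X := by exact_mod_cast h2
      exact h1.trans h3
    have h1 := high_card r X k hr hX1 (P.powersetCard k) hS ((X : ℝ) ^ (4 * η))
      (Real.rpow_pos_of_pos hX0 _) hcardS0
    refine h1.trans ?_
    rw [div_le_iff₀ (Real.rpow_pos_of_pos hX0 _), ← Real.rpow_add hX0]
    have h8 : (8 : ℝ) ^ k ≤ (X : ℝ) ^ η :=
      (pow_le_pow_left₀ (by norm_num) (by norm_num) _).trans q3
    have h4096 : (4096 : ℝ) ≤ (X : ℝ) ^ (η / 2) := (le_max_right _ _).trans hk1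
    calc 4096 * 8 ^ k * (1 + Real.log X) * X
        ≤ (X : ℝ) ^ (η / 2) * (X : ℝ) ^ η * (X : ℝ) ^ (η / 2) * X := by gcongr
      _ = (X : ℝ) ^ (η / 2 + η + η / 2 + 1) := by
          rw [Real.rpow_add hX0 _ 1, Real.rpow_one, Real.rpow_add hX0, Real.rpow_add hX0]
      _ ≤ _ := Real.rpow_le_rpow_of_exponent_le hXr (by linarith)
  -- covering
  have hcover : ((Finset.Ioc X (2 * X)).filter (fun D => IsFund D ∧
      BadI a (θ + ε) X D)) ⊆ (Finset.range 16).biUnion (fun r => Low r ∪ High r) := by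
    intro D hD
    obtain ⟨hD1, hD2, hD3⟩ := Finset.mem_filter.1 hD
    obtain ⟨hDa, hDb⟩ := Finset.mem_Ioc.1 hD1
    rw [Finset.mem_biUnion]
    refine ⟨D % 16, Finset.mem_range.2 (Nat.mod_lt _ (by norm_num)), ?_⟩
    have hDD : D ∈ DD 2 (D % 16) X 1 := by
      unfold DD
      rw [Finset.mem_filter, Finset.mem_Ioc, floor_two, Qz_two]
      exact ⟨⟨hDa, hDb⟩, rfl⟩
    by_contra hcon
    rw [Finset.mem_union, not_or] at hcon
    obtain ⟨hc1', hc2'⟩ := hcon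
    have hlow' : (j : ℝ) * m / 2 ≤ ∑ p ∈ P, (1 + ((jacobiSym (D : ℤ) p : ℤ) : ℝ)) := by
      by_contra h
      exact hc1' (Finset.mem_filter.2 ⟨hDD, not_le.1 h⟩)
    have hhigh' : SD D (P.powersetCard k) (fun _ => 1) ≤ (X : ℝ) ^ (4 * η) *
        (((P.powersetCard k).card : ℝ) + ((P.powersetCard k).card : ℝ) ^ 2 / √(X : ℝ)) := by
      by_contra h
      exact hc2' (Finset.mem_filter.2 ⟨hDD, not_le.1 h⟩)
    rw [hcardS] at hhigh'
    have hlow5 : ((P.card : ℕ) : ℝ) / 5 ≤ ∑ p ∈ P, (1 + ((jacobiSym (D : ℤ) p : ℤ) : ℝ)) := by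
      refine le_trans ?_ hlow'
      have h1 : P.card < 2 * j * (m + 1) := by
        rw [hm]
        exact Nat.lt_mul_div_succ _ (by omega)
      have h2 : (P.card : ℝ) < 2 * j * (m + 1) := by exact_mod_cast h1
      have h3 : 80 * j ≤ P.card := by omega
      have h4' : (80 : ℝ) * j ≤ P.card := by exact_mod_cast h3
      linarith
    have hnb := not_bad hN0 hN1 hN3 h4 hKF h5b hN6 a θ η C hC hLone (le_max_left _ _)
      (le_max_right _ _) hηpos X D hD2 hDb hX1 q1 q3 q4 q6 (by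
        have h2C : 2 * C ≤ (X : ℝ) ^ (η / 2) := (le_max_left _ _).trans hk2
        have h1 : 2 + Real.log X ≤ 2 * (1 + Real.log X) := by linarith
        calc C * (2 + Real.log X) ≤ C * (2 * (1 + Real.log X)) := by gcongr
          _ = (2 * C) * (1 + Real.log X) := by ring
          _ ≤ (X : ℝ) ^ (η / 2) * (X : ℝ) ^ (η / 2) := by gcongr
          _ = _ := hhalf) (by
        have h48 : (48 : ℝ) ≤ (X : ℝ) ^ (η / 2) := (le_max_right _ _).trans hk2
        linarith) hlow5 hhigh'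
    apply hnb
    obtain ⟨K, i1, i2, g1, g2, g3⟩ := hD3
    refine ⟨K, i1, i2, g1, g2, fun hcon => g3 (hcon.trans ?_)⟩
    have : (X : ℝ) ^ (θ + 8 * η) ≤ (X : ℝ) ^ (θ + ε) :=
      Real.rpow_le_rpow_of_exponent_le hXr (by linarith)
    gcongr
  have hfin : ((((Finset.range 16).biUnion (fun r => Low r ∪ High r)).card : ℕ) : ℝ) ≤
      48 * (X : ℝ) ^ (1 - η) := by
    have h1 : (((Finset.range 16).biUnion (fun r => Low r ∪ High r)).card : ℝ) ≤
        ∑ r ∈ Finset.range 16, ((Low r ∪ High r).card : ℝ) := by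
      exact_mod_cast Finset.card_biUnion_le
    refine h1.trans ?_
    have h2 : ∀ r ∈ Finset.range 16, ((Low r ∪ High r).card : ℝ) ≤ 3 * (X : ℝ) ^ (1 - η) := by
      intro r hr
      have hr' : r < Qz 2 := by rw [Qz_two]; exact Finset.mem_range.1 hr
      have h3 : ((Low r ∪ High r).card : ℝ) ≤ (Low r).card + (High r).card := by
        exact_mod_cast Finset.card_union_le _ _
      have := hLow r hr'
      have := hHigh r hr'
      linarith
    refine (Finset.sum_le_sum h2).trans ?_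
    rw [Finset.sum_const, Finset.card_range, nsmul_eq_mul]
    push_cast
    linarith
  have hcard : (((Finset.Ioc X (2 * X)).filter (fun D => IsFund D ∧
      BadI a (θ + ε) X D)).card : ℝ) ≤
      ((((Finset.range 16).biUnion (fun r => Low r ∪ High r)).card : ℕ) : ℝ) := by
    exact_mod_cast Finset.card_le_card hcover
  refine hcard.trans (hfin.trans ?_)
  have h48 : (48 : ℝ) ≤ (X : ℝ) ^ (η / 2) := (le_max_right _ _).trans hk2
  calc 48 * (X : ℝ) ^ (1 - η) ≤ (X : ℝ) ^ (η / 2) * (X : ℝ) ^ (1 - η) := by gcongr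
    _ = (X : ℝ) ^ (1 - η / 2) := by
        rw [← Real.rpow_add hX0]
        congr 1
        ring

end Pool.Agent.R345.IX
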