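import Pool.Agent.H38R2.CG.LM2
import Pool.Agent.H38R2.CG.PV
import Pool.Agent.R345.IXAvg

/-!
# Few discriminants have few split small primes
-/

set_option autoImplicit false

namespace Pool.Agent.R345.IX

open Finset Filter Pool.Agent.H38R2.CG Pool.Agent.H38R2.CG2
open scoped Classical

/-- disjoint groups of equal size -/
theorem exists_groups (m : ℕ) : ∀ (g : ℕ) (P : Finset ℕ), g * m ≤ P.card →
    ∃ G : ℕ → Finset ℕ, (∀ i < g, G i ⊆ P ∧ (G i).card = m) ∧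
      ∀ i < g, ∀ j < g, i ≠ j → Disjoint (G i) (G j) := by
  intro g
  induction g with
  | zero => intro P _; exact ⟨fun _ => ∅, fun i hi => absurd hi (Nat.not_lt_zero i),
      fun i hi => absurd hi (Nat.not_lt_zero i)⟩
  | succ g ih =>
    intro P hP
    have hm : m ≤ P.card := by
      refine le_trans ?_ hP
      rw [Nat.succ_mul]
      omega
    obtain ⟨T, hTP, hT⟩ := Finset.exists_subset_card_eq hm
    obtain ⟨G, hG1, hG2⟩ := ih (P \ T) (by
      rw [Finset.card_sdiff_of_subset hTP, hT]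
      rw [Nat.succ_mul] at hP
      omega)
    refine ⟨fun i => if i = g then T else G i, ?_, ?_⟩
    · intro i hi
      by_cases h : i = g
      · simp only [h, if_true]
        exact ⟨hTP, hT⟩
      · simp only [h, if_false]
        have := hG1 i (by omega)
        exact ⟨this.1.trans Finset.sdiff_subset, this.2⟩
    · intro i hi j hj hij
      by_cases h : i = g
      · have h2 : j ≠ g := fun h3 => hij (h.trans h3.symm)
        simp only [h, h2, if_true, if_false]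
        exact (Finset.disjoint_of_subset_left (hG1 j (by omega)).1 Finset.sdiff_disjoint).symm
      · by_cases h2 : j = g
        · simp only [h, h2, if_true, if_false]
          exact Finset.disjoint_of_subset_left (hG1 i (by omega)).1 Finset.sdiff_disjoint
        · simp only [h, h2, if_false]
          exact hG2 i (by omega) j (by omega) hij

theorem jac_prod {ι : Type*} (a : ℤ) (S : Finset ι) (f : ι → ℕ) (hf : ∀ i ∈ S, f i ≠ 0) :
    jacobiSym a (∏ i ∈ S, f i) = ∏ i ∈ S, jacobiSym a (f i) := by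
  induction S using Finset.induction_on with
  | empty => simp
  | insert i S hi ih =>
    rw [Finset.prod_insert hi, Finset.prod_insert hi]
    have h1 : f i ≠ 0 := hf i (Finset.mem_insert_self _ _)
    have h2 : ∏ i ∈ S, f i ≠ 0 :=
      Finset.prod_ne_zero_iff.2 fun j hj => hf j (Finset.mem_insert_of_mem hj)
    have : NeZero (f i) := ⟨h1⟩
    have : NeZero (∏ i ∈ S, f i) := ⟨h2⟩
    rw [jacobiSym.mul_right, ih fun j hj => hf j (Finset.mem_insert_of_mem hj)]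

/-- the modulus attached to a choice of pairs -/
def NN {J : Finset ℕ} (φ : (i : ℕ) → i ∈ J → ℕ × ℕ) : ℕ :=
  ∏ i ∈ J.attach, (φ i.1 i.2).1 * (φ i.1 i.2).2

theorem not_square {J : Finset ℕ} (G : ℕ → Finset ℕ) (hG : ∀ i ∈ J, ∀ p ∈ G i, p.Prime)
    (hd : ∀ i ∈ J, ∀ j ∈ J, i ≠ j → Disjoint (G i) (G j))
    (φ : (i : ℕ) → i ∈ J → ℕ × ℕ) (hφ : ∀ i (hi : i ∈ J), (φ i hi).1 ∈ G i ∧ (φ i hi).2 ∈ G i)
    (i0 : ℕ) (hi0 : i0 ∈ J) (hne : (φ i0 hi0).1 ≠ (φ i0 hi0).2) : ¬ IsSquare (NN φ) := by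
  rintro ⟨a, ha⟩
  set p := (φ i0 hi0).1 with hp
  set q := (φ i0 hi0).2 with hq
  have hpp : p.Prime := hG i0 hi0 p (hφ i0 hi0).1
  have hqp : q.Prime := hG i0 hi0 q (hφ i0 hi0).2
  have e1 : NN φ = p * (q * ∏ i ∈ J.attach.erase ⟨i0, hi0⟩, (φ i.1 i.2).1 * (φ i.1 i.2).2) := by
    unfold NN
    rw [← Finset.mul_prod_erase J.attach _ (Finset.mem_attach J ⟨i0, hi0⟩), mul_assoc]
  have h1 : p ∣ a := by
    have : p ∣ a * a := by rw [← ha, e1]; exact dvd_mul_right _ _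
    rcases hpp.dvd_mul.1 this with h | h <;> exact h
  have h2 : p * p ∣ NN φ := by rw [ha]; exact mul_dvd_mul h1 h1
  rw [e1] at h2
  have h3 := Nat.dvd_of_mul_dvd_mul_left hpp.pos h2
  rcases hpp.dvd_mul.1 h3 with h | h
  · exact hne ((Nat.prime_dvd_prime_iff_eq hpp hqp).1 h)
  · obtain ⟨i, hi, hpi⟩ := (hpp.prime.dvd_finsetProd_iff _).1 h
    rw [Finset.mem_erase] at hi
    have hne' : i.1 ≠ i0 := fun h4 => hi.1 (Subtype.ext h4)
    have hdis := hd i.1 i.2 i0 hi0 hne'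
    rw [Finset.disjoint_left] at hdis
    rcases hpp.dvd_mul.1 hpi with h4 | h4
    · have h5 := (Nat.prime_dvd_prime_iff_eq hpp (hG i.1 i.2 _ (hφ i.1 i.2).1)).1 h4
      exact hdis (show p ∈ G i.1 by rw [h5]; exact (hφ i.1 i.2).1) (hφ i0 hi0).1
    · have h5 := (Nat.prime_dvd_prime_iff_eq hpp (hG i.1 i.2 _ (hφ i.1 i.2).2)).1 h4
      exact hdis (show p ∈ G i.1 by rw [h5]; exact (hφ i.1 i.2).2) (hφ i0 hi0).1

/-- second moment of the product of the sums over the groups -/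
theorem moment (C : ℝ) (hC : 0 < C)
    (hPV : ∀ (q : ℕ) (χ : DirichletCharacter ℂ q), 2 ≤ q → χ ≠ 1 →
    ∀ a b : ℕ, ‖∑ n ∈ Finset.Ioc a b, χ (n : ZMod q)‖ ≤ C * √(q : ℝ) * Real.log q)
    (r X m Y : ℕ) (hr : r < Qz 2) (J : Finset ℕ) (G : ℕ → Finset ℕ)
    (hG : ∀ i ∈ J, ∀ p ∈ G i, p.Prime ∧ p ≠ 2 ∧ p ≤ Y)
    (hm : ∀ i ∈ J, (G i).card = m)
    (hd : ∀ i ∈ J, ∀ j ∈ J, i ≠ j → Disjoint (G i) (G j)) (hY : 1 ≤ Y) :
    ∑ D ∈ DD 2 r X 1, ∏ i ∈ J, (∑ p ∈ G i, ((jacobiSym (D : ℤ) p : ℤ) : ℝ)) ^ 2 ≤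
      X * (m : ℝ) ^ J.card + (m : ℝ) ^ (2 * J.card) *
        (C * (Y : ℝ) ^ J.card * (2 * J.card * Real.log Y)) := by
  set W : ℝ := C * (Y : ℝ) ^ J.card * (2 * J.card * Real.log Y) with hW
  have hYr : (1 : ℝ) ≤ Y := by exact_mod_cast hY
  have hlogY : 0 ≤ Real.log Y := Real.log_natCast_nonneg Y
  have hW0 : 0 ≤ W := by positivity
  have hXnn : (0 : ℝ) ≤ X := Nat.cast_nonneg X
  -- expansion
  have e1 : ∀ D : ℕ, ∏ i ∈ J, (∑ p ∈ G i, ((jacobiSym (D : ℤ) p : ℤ) : ℝ)) ^ 2 =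
      ∑ φ ∈ J.pi (fun i => G i ×ˢ G i), ((jacobiSym (D : ℤ) (NN φ) : ℤ) : ℝ) := by
    intro D
    have h1 : ∀ i ∈ J, (∑ p ∈ G i, ((jacobiSym (D : ℤ) p : ℤ) : ℝ)) ^ 2 =
        ∑ z ∈ G i ×ˢ G i, ((jacobiSym (D : ℤ) z.1 : ℤ) : ℝ) * ((jacobiSym (D : ℤ) z.2 : ℤ) : ℝ) := by
      intro i _
      rw [sq, Finset.sum_mul_sum, Finset.sum_product]
    rw [Finset.prod_congr rfl h1, Finset.prod_sum]
    refine Finset.sum_congr rfl fun φ hφ => ?_
    unfold NN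
    have hmem := Finset.mem_pi.1 hφ
    have hne : ∀ i : {x // x ∈ J}, (φ i.1 i.2).1 ≠ 0 ∧ (φ i.1 i.2).2 ≠ 0 := by
      intro i
      have := Finset.mem_product.1 (hmem i.1 i.2)
      exact ⟨(hG i.1 i.2 _ this.1).1.ne_zero, (hG i.1 i.2 _ this.2).1.ne_zero⟩
    rw [jac_prod _ _ _ (fun i _ => Nat.mul_ne_zero (hne i).1 (hne i).2)]
    push_cast
    refine Finset.prod_congr rfl fun i _ => ?_
    have : NeZero (φ i.1 i.2).1 := ⟨(hne i).1⟩
    have : NeZero (φ i.1 i.2).2 := ⟨(hne i).2⟩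
    rw [jacobiSym.mul_right]
    push_cast
    ring
  rw [Finset.sum_congr rfl fun D _ => e1 D, Finset.sum_comm]
  -- bound for each φ
  have h2 : ∀ φ ∈ J.pi (fun i => G i ×ˢ G i),
      ∑ D ∈ DD 2 r X 1, ((jacobiSym (D : ℤ) (NN φ) : ℤ) : ℝ) ≤
        X * ∏ i ∈ J.attach, (if (φ i.1 i.2).1 = (φ i.1 i.2).2 then (1 : ℝ) else 0) + W := by
    intro φ hφ
    have hmem := Finset.mem_pi.1 hφ
    have hmem' : ∀ i (hi : i ∈ J), (φ i hi).1 ∈ G i ∧ (φ i hi).2 ∈ G i := fun i hi =>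
      Finset.mem_product.1 (hmem i hi)
    by_cases hall : ∀ i : {x // x ∈ J}, (φ i.1 i.2).1 = (φ i.1 i.2).2
    · have h3 : ∏ i ∈ J.attach, (if (φ i.1 i.2).1 = (φ i.1 i.2).2 then (1 : ℝ) else 0) = 1 := by
        refine Finset.prod_eq_one fun i _ => ?_
        rw [if_pos (hall i)]
      rw [h3, mul_one]
      have h4 : ∑ D ∈ DD 2 r X 1, ((jacobiSym (D : ℤ) (NN φ) : ℤ) : ℝ) ≤
          ∑ D ∈ DD 2 r X 1, (1 : ℝ) := by
        refine Finset.sum_le_sum fun D _ => ?_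
        exact (le_abs_self _).trans (LM2h.abs_jac _ _)
      rw [Finset.sum_const, nsmul_eq_mul, mul_one] at h4
      have := DD_card_le r X
      linarith
    · push Not at hall
      obtain ⟨i0, hi0⟩ := hall
      have hsq := not_square G (fun i hi p hp => (hG i hi p hp).1) hd φ hmem' i0.1 i0.2 hi0
      have hodd : Odd (NN φ) := by
        unfold NN
        refine Finset.prod_induction _ Odd (fun a b => Odd.mul) odd_one ?_
        intro i _
        have h5 := hmem' i.1 i.2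
        exact ((hG i.1 i.2 _ h5.1).1.odd_of_ne_two (hG i.1 i.2 _ h5.1).2.1).mul
          ((hG i.1 i.2 _ h5.2).1.odd_of_ne_two (hG i.1 i.2 _ h5.2).2.1)
      have hco : (Qz 2).Coprime (NN φ) := by
        rw [Qz_two, show (16 : ℕ) = 2 ^ 4 by norm_num]
        exact Nat.Coprime.pow_left 4 (Nat.coprime_two_left.2 hodd)
      have hN1 : 1 ≤ NN φ := hodd.pos
      have h6 := LM2h.ap_sum C hPV (NN φ) hodd hsq (Qz 2) r hr hco X ⌊((1 : ℝ) + 1) * X⌋₊ (by
        rw [floor_two]; omega)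
      have h7 : NN φ ≤ Y ^ (2 * J.card) := by
        unfold NN
        calc ∏ i ∈ J.attach, (φ i.1 i.2).1 * (φ i.1 i.2).2 ≤ ∏ i ∈ J.attach, Y ^ 2 := by
              refine Finset.prod_le_prod' fun i _ => ?_
              have h5 := hmem' i.1 i.2
              rw [sq]
              exact Nat.mul_le_mul (hG i.1 i.2 _ h5.1).2.2 (hG i.1 i.2 _ h5.2).2.2
          _ = Y ^ (2 * J.card) := by
              rw [Finset.prod_const, Finset.card_attach, ← pow_mul]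
      have h7r : ((NN φ : ℕ) : ℝ) ≤ (Y : ℝ) ^ (2 * J.card) := by exact_mod_cast h7
      have hNr : (1 : ℝ) ≤ ((NN φ : ℕ) : ℝ) := by exact_mod_cast hN1
      have h8 : √((NN φ : ℕ) : ℝ) ≤ (Y : ℝ) ^ J.card := by
        rw [Real.sqrt_le_left (by positivity), ← pow_mul, mul_comm]
        exact h7r
      have h9 : Real.log ((NN φ : ℕ) : ℝ) ≤ 2 * J.card * Real.log Y := by
        have := Real.log_le_log (by linarith) h7r
        rw [Real.log_pow] at this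
        push_cast at this
        exact this
      have h10 : 0 ≤ Real.log ((NN φ : ℕ) : ℝ) := Real.log_natCast_nonneg _
      have h11 : 0 ≤ ∏ i ∈ J.attach, (if (φ i.1 i.2).1 = (φ i.1 i.2).2 then (1 : ℝ) else 0) := by
        refine Finset.prod_nonneg fun i _ => ?_
        split_ifs <;> norm_num
      have h12 : ∑ D ∈ DD 2 r X 1, ((jacobiSym (D : ℤ) (NN φ) : ℤ) : ℝ) ≤ W := by
        refine (le_abs_self _).trans (h6.trans ?_)
        rw [hW]
        gcongr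
      have h13 : (0 : ℝ) ≤ X * ∏ i ∈ J.attach,
          (if (φ i.1 i.2).1 = (φ i.1 i.2).2 then (1 : ℝ) else 0) := mul_nonneg hXnn h11
      linarith
  refine (Finset.sum_le_sum h2).trans ?_
  rw [Finset.sum_add_distrib, ← Finset.mul_sum]
  have e2 : ∑ φ ∈ J.pi (fun i => G i ×ˢ G i),
      ∏ i ∈ J.attach, (if (φ i.1 i.2).1 = (φ i.1 i.2).2 then (1 : ℝ) else 0) =
      (m : ℝ) ^ J.card := by
    have h3 := Finset.prod_sum J (fun i => G i ×ˢ G i)
      (fun _ z => (if z.1 = z.2 then (1 : ℝ) else 0))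
    rw [← h3]
    rw [Finset.prod_congr rfl (g := fun _ => (m : ℝ)), Finset.prod_const]
    intro i hi
    rw [Finset.sum_product]
    simp only [Finset.sum_ite_eq, Finset.sum_ite_mem, Finset.inter_self]
    rw [Finset.sum_const, hm i hi]
    simp
  have e3 : ∑ _φ ∈ J.pi (fun i => G i ×ˢ G i), W = (m : ℝ) ^ (2 * J.card) * W := by
    rw [Finset.sum_const, Finset.card_pi, nsmul_eq_mul]
    have h3 : ∏ i ∈ J, (G i ×ˢ G i).card = m ^ (2 * J.card) := by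
      rw [Finset.prod_congr rfl (g := fun _ => m ^ 2), Finset.prod_const, ← pow_mul]
      intro i hi
      rw [Finset.card_product, hm i hi, sq]
    rw [h3]
    push_cast
    ring
  rw [e2, e3]

/-- discriminants for which the small primes split rarely -/
theorem low_set (C : ℝ) (hC : 0 < C)
    (hPV : ∀ (q : ℕ) (χ : DirichletCharacter ℂ q), 2 ≤ q → χ ≠ 1 →
    ∀ a b : ℕ, ‖∑ n ∈ Finset.Ioc a b, χ (n : ZMod q)‖ ≤ C * √(q : ℝ) * Real.log q)
    (r X m j Y : ℕ) (hr : r < Qz 2) (P : Finset ℕ) (hP : ∀ p ∈ P, p.Prime ∧ p ≠ 2 ∧ p ≤ Y)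
    (hm : 1 ≤ m) (hjm : 2 * j * m ≤ P.card) (hY : 1 ≤ Y) :
    (((DD 2 r X 1).filter (fun D : ℕ => ∑ p ∈ P, (1 + ((jacobiSym (D : ℤ) p : ℤ) : ℝ)) <
      (j : ℝ) * m / 2)).card : ℝ) ≤
      16 ^ j * (X / (m : ℝ) ^ j + C * (Y : ℝ) ^ j * (2 * j * Real.log Y)) := by
  obtain ⟨G, hG1, hG2⟩ := exists_groups m (2 * j) P hjm
  set T : ℕ → ℕ → ℝ := fun D i => ∑ p ∈ G i, ((jacobiSym (D : ℤ) p : ℤ) : ℝ) with hT
  have hmr : (1 : ℝ) ≤ m := by exact_mod_cast hm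
  have hm0 : (0 : ℝ) < m := by linarith
  have hjac : ∀ (D p : ℕ), (0 : ℝ) ≤ 1 + ((jacobiSym (D : ℤ) p : ℤ) : ℝ) := by
    intro D p
    rcases jacobiSym.trichotomy (D : ℤ) p with h | h | h <;> rw [h] <;> norm_num
  -- a bad D has many bad groups
  have hbad : ∀ D : ℕ, ∑ p ∈ P, (1 + ((jacobiSym (D : ℤ) p : ℤ) : ℝ)) < (j : ℝ) * m / 2 →
      j ≤ ((Finset.range (2 * j)).filter (fun i => T D i < -(m : ℝ) / 2)).card := by
    intro D hD
    by_contra hcon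
    push Not at hcon
    have hsum := Finset.card_filter_add_card_filter_not (s := Finset.range (2 * j))
      (fun i => T D i < -(m : ℝ) / 2)
    rw [Finset.card_range] at hsum
    set A := (Finset.range (2 * j)).filter (fun i => ¬ T D i < -(m : ℝ) / 2) with hA
    have hAc : j ≤ A.card := by omega
    have hdisj : ∀ i ∈ A, ∀ i' ∈ A, i ≠ i' → Disjoint (G i) (G i') := by
      intro i hi i' hi' hne
      exact hG2 i (Finset.mem_range.1 (Finset.mem_filter.1 hi).1) i'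
        (Finset.mem_range.1 (Finset.mem_filter.1 hi').1) hne
    have hsub : A.biUnion G ⊆ P := by
      intro p hp
      obtain ⟨i, hi, hpi⟩ := Finset.mem_biUnion.1 hp
      exact (hG1 i (Finset.mem_range.1 (Finset.mem_filter.1 hi).1)).1 hpi
    have h1 : ∑ p ∈ A.biUnion G, (1 + ((jacobiSym (D : ℤ) p : ℤ) : ℝ)) ≤
        ∑ p ∈ P, (1 + ((jacobiSym (D : ℤ) p : ℤ) : ℝ)) :=
      Finset.sum_le_sum_of_subset_of_nonneg hsub fun p _ _ => hjac D p
    have h2 : ∑ p ∈ A.biUnion G, (1 + ((jacobiSym (D : ℤ) p : ℤ) : ℝ)) =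
        ∑ i ∈ A, ∑ p ∈ G i, (1 + ((jacobiSym (D : ℤ) p : ℤ) : ℝ)) :=
      Finset.sum_biUnion fun i hi i' hi' hne => hdisj i hi i' hi' hne
    have h3 : ∀ i ∈ A, (m : ℝ) / 2 ≤ ∑ p ∈ G i, (1 + ((jacobiSym (D : ℤ) p : ℤ) : ℝ)) := by
      intro i hi
      rw [Finset.sum_add_distrib, Finset.sum_const, nsmul_eq_mul, mul_one,
        (hG1 i (Finset.mem_range.1 (Finset.mem_filter.1 hi).1)).2]
      have h4 := (Finset.mem_filter.1 hi).2
      rw [not_lt] at h4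
      have h5 : -(m : ℝ) / 2 ≤ ∑ p ∈ G i, ((jacobiSym (D : ℤ) p : ℤ) : ℝ) := h4
      linarith
    have h4 : (A.card : ℝ) * ((m : ℝ) / 2) ≤
        ∑ i ∈ A, ∑ p ∈ G i, (1 + ((jacobiSym (D : ℤ) p : ℤ) : ℝ)) := by
      rw [← nsmul_eq_mul, ← Finset.sum_const]
      exact Finset.sum_le_sum h3
    have h5 : (j : ℝ) ≤ A.card := by exact_mod_cast hAc
    have h6 : (j : ℝ) * ((m : ℝ) / 2) ≤ (A.card : ℝ) * ((m : ℝ) / 2) := by gcongr
    rw [h2] at h1
    linarith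
  -- weights
  set F : ℕ → ℝ := fun D => ∑ J ∈ (Finset.range (2 * j)).powersetCard j,
    ∏ i ∈ J, (T D i) ^ 2 with hF
  have hFpos : ∀ D : ℕ, ∑ p ∈ P, (1 + ((jacobiSym (D : ℤ) p : ℤ) : ℝ)) < (j : ℝ) * m / 2 →
      ((m : ℝ) / 2) ^ (2 * j) ≤ F D := by
    intro D hD
    obtain ⟨J, hJ, hJc⟩ := Finset.exists_subset_card_eq (hbad D hD)
    have hJm : J ∈ (Finset.range (2 * j)).powersetCard j := by
      rw [Finset.mem_powersetCard]
      exact ⟨hJ.trans (Finset.filter_subset _ _), hJc⟩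
    have h1 : ∏ i ∈ J, (T D i) ^ 2 ≤ F D :=
      Finset.single_le_sum (f := fun J => ∏ i ∈ J, (T D i) ^ 2)
        (fun J _ => Finset.prod_nonneg fun i _ => sq_nonneg _) hJm
    refine le_trans ?_ h1
    calc ((m : ℝ) / 2) ^ (2 * j) = ∏ i ∈ J, ((m : ℝ) / 2) ^ 2 := by
          rw [Finset.prod_const, hJc, ← pow_mul]
      _ ≤ ∏ i ∈ J, (T D i) ^ 2 := by
          refine Finset.prod_le_prod (fun i _ => by positivity) fun i hi => ?_
          have h2 := (Finset.mem_filter.1 (hJ hi)).2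
          rw [sq_le_sq]
          rw [abs_of_pos (by positivity : 0 < (m : ℝ) / 2), abs_of_neg (by linarith)]
          linarith
  have hFnn : ∀ D : ℕ, 0 ≤ F D := fun D => Finset.sum_nonneg fun J _ =>
    Finset.prod_nonneg fun i _ => sq_nonneg _
  set B : Finset ℕ := (DD 2 r X 1).filter (fun D : ℕ => ∑ p ∈ P, (1 + ((jacobiSym (D : ℤ) p : ℤ) : ℝ)) <
      (j : ℝ) * m / 2) with hB
  have h1 : (B.card : ℝ) * ((m : ℝ) / 2) ^ (2 * j) ≤ ∑ D ∈ DD 2 r X 1, F D := by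
    calc (B.card : ℝ) * ((m : ℝ) / 2) ^ (2 * j) = ∑ D ∈ B, ((m : ℝ) / 2) ^ (2 * j) := by
          rw [Finset.sum_const, nsmul_eq_mul]
      _ ≤ ∑ D ∈ B, F D := Finset.sum_le_sum fun D hD => hFpos D (Finset.mem_filter.1 hD).2
      _ ≤ ∑ D ∈ DD 2 r X 1, F D :=
          Finset.sum_le_sum_of_subset_of_nonneg (Finset.filter_subset _ _) fun D _ _ => hFnn D
  have h2 : ∑ D ∈ DD 2 r X 1, F D ≤ 4 ^ j * (X * (m : ℝ) ^ j + (m : ℝ) ^ (2 * j) *
        (C * (Y : ℝ) ^ j * (2 * j * Real.log Y))) := by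
    rw [hF, Finset.sum_comm]
    have h3 : ∀ J ∈ (Finset.range (2 * j)).powersetCard j,
        ∑ D ∈ DD 2 r X 1, ∏ i ∈ J, (T D i) ^ 2 ≤ X * (m : ℝ) ^ j + (m : ℝ) ^ (2 * j) *
        (C * (Y : ℝ) ^ j * (2 * j * Real.log Y)) := by
      intro J hJ
      obtain ⟨hJ1, hJ2⟩ := Finset.mem_powersetCard.1 hJ
      have := moment C hC hPV r X m Y hr J G
        (fun i hi p hp => hP p ((hG1 i (Finset.mem_range.1 (hJ1 hi))).1 hp))
        (fun i hi => (hG1 i (Finset.mem_range.1 (hJ1 hi))).2)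
        (fun i hi i' hi' hne => hG2 i (Finset.mem_range.1 (hJ1 hi)) i'
          (Finset.mem_range.1 (hJ1 hi')) hne) hY
      rw [hJ2] at this
      exact this
    refine (Finset.sum_le_sum h3).trans ?_
    rw [Finset.sum_const, Finset.card_powersetCard, Finset.card_range, nsmul_eq_mul]
    have h4 : (((2 * j).choose j : ℕ) : ℝ) ≤ 4 ^ j := by
      have : (2 * j).choose j ≤ 2 ^ (2 * j) := Nat.choose_le_two_pow (2 * j) j
      rw [pow_mul] at this
      exact_mod_cast this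
    have hlogY : 0 ≤ Real.log Y := Real.log_natCast_nonneg Y
    exact mul_le_mul_of_nonneg_right h4 (by positivity)
  have h3 : (B.card : ℝ) * ((m : ℝ) / 2) ^ (2 * j) ≤ 4 ^ j * (X * (m : ℝ) ^ j +
      (m : ℝ) ^ (2 * j) * (C * (Y : ℝ) ^ j * (2 * j * Real.log Y))) := h1.trans h2
  have hmj : (0 : ℝ) < (m : ℝ) ^ j := by positivity
  have e1 : ((m : ℝ) / 2) ^ (2 * j) = (m : ℝ) ^ j * (m : ℝ) ^ j / 4 ^ j := by
    rw [div_pow, two_mul, pow_add, pow_add, ← mul_pow 2 2]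
    norm_num
  have e2 : (m : ℝ) ^ (2 * j) = (m : ℝ) ^ j * (m : ℝ) ^ j := by rw [two_mul, pow_add]
  rw [e1, e2] at h3
  have e3 : (16 : ℝ) ^ j = 4 ^ j * 4 ^ j := by rw [← mul_pow]; norm_num
  rw [e3]
  set w : ℝ := C * (Y : ℝ) ^ j * (2 * j * Real.log Y) with hw
  have h4j : (0 : ℝ) < 4 ^ j := by positivity
  have h5 : (B.card : ℝ) * ((m : ℝ) ^ j * (m : ℝ) ^ j) ≤
      4 ^ j * 4 ^ j * (X * (m : ℝ) ^ j + (m : ℝ) ^ j * (m : ℝ) ^ j * w) := by
    have : (B.card : ℝ) * ((m : ℝ) ^ j * (m : ℝ) ^ j / 4 ^ j) * 4 ^ j =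
        (B.card : ℝ) * ((m : ℝ) ^ j * (m : ℝ) ^ j) := by
      field_simp
    rw [← this]
    calc (B.card : ℝ) * ((m : ℝ) ^ j * (m : ℝ) ^ j / 4 ^ j) * 4 ^ j ≤
        (4 ^ j * (X * (m : ℝ) ^ j + (m : ℝ) ^ j * (m : ℝ) ^ j * w)) * 4 ^ j :=
          mul_le_mul_of_nonneg_right h3 h4j.le
      _ = _ := by ring
  have h6 : (B.card : ℝ) * ((m : ℝ) ^ j * (m : ℝ) ^ j) ≤
      (4 ^ j * 4 ^ j * (X / (m : ℝ) ^ j + w)) * ((m : ℝ) ^ j * (m : ℝ) ^ j) := by
    refine h5.trans (le_of_eq ?_)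
    field_simp
  exact le_of_mul_le_mul_right h6 (by positivity)

end Pool.Agent.R345.IX
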