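import Pool.Agent.R345.IXNum
import Pool.Agent.H38R2.CG.TB1
import Pool.Agent.H38R2.CG.NB
import Pool.Agent.H38R2.CG.CC5
import Pool.Agent.H38R2.CG.LS
import Pool.Agent.H38R2.CG2.ERR

/-!
# Short products: no near collisions, and very few discriminants with few split small primes
-/

set_option autoImplicit false

namespace Pool.Agent.R345.IY

open Finset Filter Pool.Agent.H38R2.CG Pool.Agent.H38R2.CG2
open scoped Classical

/-- for n < X/4 only the trivial solutions count -/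
theorem rsum_small (X D n : ℕ) (hX : 1 ≤ X) (hn : 1 ≤ n) (hD : X < D) (h : 4 * n < X) :
    Rsum D n ≤ if IsSquare n then 1 else 0 := by
  have e1 : Rsum D n = ∑ u ∈ Finset.Icc 1 (4 * n), ∑ v ∈ Finset.Icc (-((4 * n : ℕ) : ℤ))
      ((4 * n : ℕ) : ℤ), TB1h.T D n u v := by
    unfold Rsum TB1h.T
    push_cast
    rfl
  have h1 : ∀ v : ℕ, 1 ≤ v → ∀ u, TB1h.T D n u (v : ℤ) = 0 := by
    intro v hv u
    apply TB1h.T_large X D n u v hX hn hD
    have hXr : (0 : ℝ) < X := by exact_mod_cast hX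
    have h2 : (4 : ℝ) * n < X := by exact_mod_cast h
    have h3 : (1 : ℝ) ≤ v := by exact_mod_cast hv
    have h4 : √((n : ℝ) / X) < 1 / 2 := by
      rw [Real.sqrt_lt' (by norm_num), div_lt_iff₀ hXr]
      linarith
    linarith
  rw [e1]
  refine le_trans (le_of_eq ?_) (TB1h.sum_T_zero D n (4 * n))
  refine Finset.sum_congr rfl fun u _ => ?_
  rw [TB1h.sum_sym]
  have h2 : ∑ v ∈ Finset.Icc 1 (4 * n), (TB1h.T D n u (v : ℤ) + TB1h.T D n u (-(v : ℤ))) = 0 := by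
    refine Finset.sum_eq_zero fun v hv => ?_
    rw [TB1h.T_neg, h1 v (Finset.mem_Icc.1 hv).1 u]
    norm_num
  rw [h2, add_zero]

/-- the near collision sum has only the diagonal terms -/
theorem SD_diag (X D k : ℕ) (hX : 1 ≤ X) (hD : X < D) (S : Finset (Finset ℕ)) (Y : ℕ)
    (hY : 4 * (Y * Y) < X)
    (hS : ∀ s ∈ S, (∀ p ∈ s, p.Prime) ∧ s.card = k ∧ prodS s ≤ Y) :
    SD D S (fun _ => 1) ≤ 2 ^ k * S.card := by
  unfold SD
  have h1 : ∀ s ∈ S, ∀ t ∈ S, (1 : ℝ) * 1 * 2 ^ ((s ∩ t).card) * Rsum D (prodS s * prodS t) ≤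
      if s = t then 2 ^ k else 0 := by
    intro s hs t ht
    obtain ⟨hs1, hs2, hs3⟩ := hS s hs
    obtain ⟨ht1, ht2, ht3⟩ := hS t ht
    have hps : 1 ≤ prodS s := Finset.prod_pos fun p hp => (hs1 p hp).pos
    have hpt : 1 ≤ prodS t := Finset.prod_pos fun p hp => (ht1 p hp).pos
    have hn : 4 * (prodS s * prodS t) < X := lt_of_le_of_lt
      (Nat.mul_le_mul_left 4 (Nat.mul_le_mul hs3 ht3)) hY
    have h2 := rsum_small X D (prodS s * prodS t) hX (Nat.mul_pos hps hpt) hD hn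
    have h3 : (2 : ℝ) ^ ((s ∩ t).card) ≤ 2 ^ k := by
      apply pow_le_pow_right₀ (by norm_num)
      rw [← hs2]
      exact Finset.card_le_card Finset.inter_subset_left
    by_cases hst : s = t
    · rw [if_pos hst]
      have h4 : Rsum D (prodS s * prodS t) ≤ 1 := by
        refine h2.trans ?_
        split_ifs <;> norm_num
      calc (1 : ℝ) * 1 * 2 ^ ((s ∩ t).card) * Rsum D (prodS s * prodS t)
          ≤ 1 * 1 * 2 ^ ((s ∩ t).card) * 1 := by gcongr
        _ ≤ 2 ^ k := by linarith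
    · rw [if_neg hst]
      have h4 : Rsum D (prodS s * prodS t) ≤ 0 := by
        refine h2.trans ?_
        rw [if_neg]
        intro hsq
        exact hst (ERRh.isSquare_imp_eq hs1 ht1 hsq)
      have h5 : (0 : ℝ) < 2 ^ ((s ∩ t).card) := by positivity
      nlinarith
  calc ∑ s ∈ S, ∑ t ∈ S, (1 : ℝ) * 1 * 2 ^ ((s ∩ t).card) * Rsum D (prodS s * prodS t)
      ≤ ∑ s ∈ S, ∑ t ∈ S, (if s = t then (2 : ℝ) ^ k else 0) :=
        Finset.sum_le_sum fun s hs => Finset.sum_le_sum fun t ht => h1 s hs t ht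
    _ = ∑ s ∈ S, (2 : ℝ) ^ k := by
        refine Finset.sum_congr rfl fun s hs => ?_
        rw [Finset.sum_ite_eq, if_pos hs]
    _ = 2 ^ k * S.card := by rw [Finset.sum_const, nsmul_eq_mul, mul_comm]

/-! ## Reciprocity -/

noncomputable def psi8 : DirichletCharacter ℂ 8 :=
  (ZMod.χ₈ : MulChar (ZMod 8) ℤ).ringHomComp (Int.castRingHom ℂ)

noncomputable def psi8' : DirichletCharacter ℂ 8 :=
  (ZMod.χ₈' : MulChar (ZMod 8) ℤ).ringHomComp (Int.castRingHom ℂ)

theorem psi8_apply (n : ℕ) : psi8 (n : ZMod 8) = ((ZMod.χ₈ (n : ZMod 8) : ℤ) : ℂ) := rfl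

theorem psi8'_apply (n : ℕ) : psi8' (n : ZMod 8) = ((ZMod.χ₈' (n : ZMod 8) : ℤ) : ℂ) := rfl

theorem psi8_ne_one : psi8 ≠ 1 := by
  intro h
  have h1 : psi8 ((3 : ℕ) : ZMod 8) = (1 : DirichletCharacter ℂ 8) ((3 : ℕ) : ZMod 8) := by
    rw [h]
  rw [psi8_apply] at h1
  have h2 : (1 : DirichletCharacter ℂ 8) ((3 : ℕ) : ZMod 8) = 1 := by
    apply MulChar.one_apply
    exact (ZMod.isUnit_iff_coprime 3 8).2 (by norm_num)
  rw [h2] at h1
  have h3 : ZMod.χ₈ ((3 : ℕ) : ZMod 8) = -1 := by decide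
  rw [h3] at h1
  norm_num at h1

theorem chi4_of_odd (p : ℕ) (hp : Odd p) :
    (ZMod.χ₈ (p : ZMod 8) : ℤ) * ZMod.χ₈' (p : ZMod 8) = (-1) ^ (p / 2) := by
  have h1 : p % 8 = 1 ∨ p % 8 = 3 ∨ p % 8 = 5 ∨ p % 8 = 7 := by
    have := Nat.odd_iff.1 hp
    omega
  have h2 : ((p : ℕ) : ZMod 8) = ((p % 8 : ℕ) : ZMod 8) := by
    rw [ZMod.natCast_mod]
  rw [h2]
  have h3 : ((-1 : ℤ)) ^ (p / 2) = (-1) ^ ((p % 8) / 2) := by
    have h4 : p / 2 = 4 * (p / 8) + (p % 8) / 2 := by omega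
    rw [h4, pow_add, pow_mul]
    norm_num
  rw [h3]
  rcases h1 with h | h | h | h <;> rw [h] <;> decide

theorem four_left (p m : ℕ) (hp : Odd p) : jacobiSym ((4 * m : ℕ) : ℤ) p = jacobiSym (m : ℤ) p := by
  push_cast
  rw [jacobiSym.mul_left, show (4 : ℤ) = 2 ^ 2 by norm_num, jacobiSym.pow_left]
  rw [jacobiSym.sq_one, one_mul]
  have := Nat.coprime_two_left.2 hp
  exact this

theorem recip3 (f p : ℕ) (hf : f % 4 = 3) (hp : Odd p) :
    jacobiSym (f : ℤ) p = (-1) ^ (p / 2) * jacobiSym (p : ℤ) f := by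
  have hfo : Odd f := Nat.odd_iff.2 (by omega)
  rw [jacobiSym.quadratic_reciprocity hfo hp]
  congr 1
  have h1 : Odd (f / 2) := Nat.odd_iff.2 (by omega)
  rw [pow_mul, h1.neg_one_pow]

/-- the Kronecker symbol of a fundamental discriminant in terms of the Jacobi symbol -/
theorem recip (D : ℕ) (hD : IsFund D) : ∃ (f e : ℕ) (ψ : DirichletCharacter ℂ 8), D = 2 ^ e * f ∧
    e < 4 ∧ Squarefree f ∧ Odd f ∧ ¬ (ψ = 1 ∧ f = 1) ∧ ∀ p : ℕ, p.Prime → p ≠ 2 →
      ((jacobiSym (D : ℤ) p : ℤ) : ℂ) = ψ (p : ZMod 8) * ((jacobiSym (p : ℤ) f : ℤ) : ℂ) := by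
  obtain ⟨hD1, hD2⟩ := hD
  rcases hD2 with ⟨h4, hsq⟩ | ⟨m, hm, h4, hsq⟩
  · refine ⟨D, 0, 1, by simp, by norm_num, hsq, Nat.odd_iff.2 (by omega), ?_, ?_⟩
    · rintro ⟨-, h⟩
      omega
    · intro p hp hp2
      have hpo := hp.odd_of_ne_two hp2
      rw [jacobiSym.quadratic_reciprocity_one_mod_four h4 hpo]
      rw [MulChar.one_apply, one_mul]
      rw [ZMod.isUnit_iff_coprime, show (8 : ℕ) = 2 ^ 3 by norm_num]
      exact Nat.Coprime.pow_right 3 (Nat.coprime_two_right.2 hpo)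
  · rcases h4 with h4 | h4
    · -- m = 2 f
      obtain ⟨f, rfl⟩ : ∃ f, m = 2 * f := ⟨m / 2, by omega⟩
      have hfo : Odd f := Nat.odd_iff.2 (by omega)
      have hfs : Squarefree f := hsq.squarefree_of_dvd (Dvd.intro_left 2 rfl)
      have hdec : ∀ p : ℕ, p.Prime → p ≠ 2 → jacobiSym (D : ℤ) p =
          ZMod.χ₈ (p : ZMod 8) * jacobiSym (f : ℤ) p := by
        intro p hp hp2
        have hpo := hp.odd_of_ne_two hp2
        rw [hm, four_left p (2 * f) hpo]
        push_cast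
        rw [jacobiSym.mul_left, jacobiSym.at_two hpo]
      have hf4 : f % 4 = 1 ∨ f % 4 = 3 := by
        have := Nat.odd_iff.1 hfo
        omega
      rcases hf4 with hf4 | hf4
      · refine ⟨f, 3, psi8, by rw [hm]; ring, by norm_num, hfs, hfo, ?_, ?_⟩
        · rintro ⟨h, -⟩
          exact psi8_ne_one h
        · intro p hp hp2
          have hpo := hp.odd_of_ne_two hp2
          rw [hdec p hp hp2, jacobiSym.quadratic_reciprocity_one_mod_four hf4 hpo, psi8_apply]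
          push_cast
          rfl
      · refine ⟨f, 3, psi8', by rw [hm]; ring, by norm_num, hfs, hfo, ?_, ?_⟩
        · rintro ⟨-, h⟩
          omega
        · intro p hp hp2
          have hpo := hp.odd_of_ne_two hp2
          rw [hdec p hp hp2, recip3 f p hf4 hpo, ← chi4_of_odd p hpo, psi8'_apply]
          have h8 : (ZMod.χ₈ (p : ZMod 8) : ℤ) * ZMod.χ₈ (p : ZMod 8) = 1 := by
            have h1 : p % 8 = 1 ∨ p % 8 = 3 ∨ p % 8 = 5 ∨ p % 8 = 7 := by
              have := Nat.odd_iff.1 hpo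
              omega
            have h2 : ((p : ℕ) : ZMod 8) = ((p % 8 : ℕ) : ZMod 8) := by
              rw [ZMod.natCast_mod]
            rw [h2]
            rcases h1 with h | h | h | h <;> rw [h] <;> decide
          have h9 : ZMod.χ₈ (p : ZMod 8) * (ZMod.χ₈ (p : ZMod 8) * ZMod.χ₈' (p : ZMod 8) *
              jacobiSym (p : ℤ) f) = ZMod.χ₈' (p : ZMod 8) * jacobiSym (p : ℤ) f := by
            rw [← mul_assoc, ← mul_assoc, h8, one_mul]
          rw [h9]
          push_cast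
          rfl
    · refine ⟨m, 2, psi8 * psi8', by rw [hm]; ring, by norm_num, hsq, Nat.odd_iff.2 (by omega),
        ?_, ?_⟩
      · rintro ⟨-, h⟩
        omega
      · intro p hp hp2
        have hpo := hp.odd_of_ne_two hp2
        rw [hm, four_left p m hpo, recip3 m p h4 hpo, ← chi4_of_odd p hpo, MulChar.mul_apply,
          psi8_apply, psi8'_apply]
        push_cast
        ring

/-- very few discriminants have few split primes in (y, 2y] -/
theorem low_card (hCC5 : P_CC5) : ∃ C : ℝ, 0 < C ∧ ∃ y0 : ℕ, ∀ y ≥ y0, ∀ i : ℕ, 1 ≤ i →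
    ∀ X : ℕ, (2 * X : ℝ) ≤ ((2 * y : ℝ)) ^ ((i : ℝ) / 2) →
    (((Finset.Ioc X (2 * X)).filter (fun D => IsFund D ∧
      ∑ p ∈ PP y, (1 + ((jacobiSym (D : ℤ) p : ℤ) : ℝ)) < ((PP y).card : ℝ) / 20)).card : ℝ) ≤
      4 * (C * (i.factorial : ℝ) * (3 * Real.log y) ^ i) := by
  obtain ⟨C, hC, y0, hy0⟩ := hCC5 8 (by norm_num)
  refine ⟨C, hC, max y0 2, fun y hy i hi X hX => ?_⟩
  have hyy0 : y0 ≤ y := le_trans (le_max_left _ _) hy
  have hy2 : 2 ≤ y := le_trans (le_max_right _ _) hy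
  have h1 := hy0 y hyy0 i hi
  set F := (Finset.Icc 1 ⌊((2 * y : ℝ)) ^ ((i : ℝ) / 2)⌋₊).filter
    (fun f => Squarefree f ∧ f.Coprime (2 * 8) ∧ BadF 8 y f) with hF
  have hsub : ((Finset.Ioc X (2 * X)).filter (fun D => IsFund D ∧
      ∑ p ∈ PP y, (1 + ((jacobiSym (D : ℤ) p : ℤ) : ℝ)) < ((PP y).card : ℝ) / 20)) ⊆
      (Finset.range 4 ×ˢ F).image (fun z => 2 ^ z.1 * z.2) := by
    intro D hD
    obtain ⟨hD1, hD2, hD3⟩ := Finset.mem_filter.1 hD
    obtain ⟨f, e, ψ, hf1, he, hfs, hfo, hne, hrec⟩ := recip D hD2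
    rw [Finset.mem_image]
    refine ⟨(e, f), ?_, hf1.symm⟩
    rw [Finset.mem_product, Finset.mem_range, hF, Finset.mem_filter, Finset.mem_Icc]
    refine ⟨he, ⟨hfo.pos, ?_⟩, hfs, ?_, ψ, hne, ?_⟩
    · apply Nat.le_floor
      refine le_trans ?_ hX
      have h2 : f ≤ D := by
        rw [hf1]
        exact Nat.le_mul_of_pos_left f (by positivity)
      have h3 : f ≤ 2 * X := h2.trans (Finset.mem_Ioc.1 hD1).2
      exact_mod_cast h3
    · rw [show (2 * 8 : ℕ) = 2 ^ 4 by norm_num]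
      exact Nat.Coprime.pow_right 4 (Nat.coprime_two_right.2 hfo)
    · have h2 : ∑ p ∈ PP y, ψ (p : ZMod 8) * ((jacobiSym (p : ℤ) f : ℤ) : ℂ) =
          ((∑ p ∈ PP y, ((jacobiSym (D : ℤ) p : ℤ) : ℝ) : ℝ) : ℂ) := by
        push_cast
        refine Finset.sum_congr rfl fun p hp => ?_
        unfold PP at hp
        rw [Finset.mem_filter, Finset.mem_Ioc] at hp
        exact (hrec p hp.2 (by omega)).symm
      rw [h2, Complex.norm_real, Real.norm_eq_abs]
      rw [Finset.sum_add_distrib, Finset.sum_const, nsmul_eq_mul, mul_one] at hD3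
      have h4 : (0 : ℝ) ≤ (PP y).card := Nat.cast_nonneg _
      have h5 := neg_le_abs (∑ p ∈ PP y, ((jacobiSym (D : ℤ) p : ℤ) : ℝ))
      rcases eq_or_lt_of_le h4 with h6 | h6
      · exfalso
        rw [← h6] at hD3
        have h7 : (PP y).card = 0 := by exact_mod_cast h6.symm
        rw [Finset.card_eq_zero] at h7
        rw [h7] at hD3
        simp at hD3
      · linarith
  have h2 : ((Finset.range 4 ×ˢ F).image (fun z => 2 ^ z.1 * z.2)).card ≤ 4 * F.card := by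
    refine Finset.card_image_le.trans ?_
    rw [Finset.card_product, Finset.card_range]
  have h3 : (((Finset.Ioc X (2 * X)).filter (fun D => IsFund D ∧
      ∑ p ∈ PP y, (1 + ((jacobiSym (D : ℤ) p : ℤ) : ℝ)) < ((PP y).card : ℝ) / 20)).card : ℝ) ≤
      4 * (F.card : ℝ) := by
    exact_mod_cast (Finset.card_le_card hsub).trans h2
  linarith

end Pool.Agent.R345.IY
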