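import Pool.Agent.R345.IXPar

/-!
# Sizes of the parameters, second version
-/

set_option autoImplicit false

namespace Pool.Agent.R345.IY

open Finset Filter Pool.Agent.H38R2.CG Pool.Agent.R345.IX
open scoped Classical

noncomputable def kJ (a : ℝ) (X : ℕ) : ℕ := (kI a X - 1) / 2
noncomputable def iJ (a : ℝ) (X : ℕ) : ℕ := ⌈2 * Real.log (2 * X) / Real.log (2 * yI a X)⌉₊

/-- the moment used for the large sieve -/
theorem params_i (a : ℝ) (ha : 1 < a) (ε C : ℝ) (hε : 0 < ε) (hC : 0 < C) : ∀ᶠ X : ℕ in atTop,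
    1 ≤ iJ a X ∧ (2 * X : ℝ) ≤ ((2 * yI a X : ℝ)) ^ ((iJ a X : ℝ) / 2) ∧
    C * ((iJ a X).factorial : ℝ) * (3 * Real.log (yI a X)) ^ (iJ a X) ≤ (X : ℝ) ^ (2 / a + ε) := by
  have hLt : Tendsto (fun X : ℕ => Real.log (X : ℝ)) atTop atTop :=
    Real.tendsto_log_atTop.comp tendsto_natCast_atTop_atTop
  have hlt : Tendsto (fun X : ℕ => Real.log (Real.log (X : ℝ))) atTop atTop :=
    Real.tendsto_log_atTop.comp hLt
  have ha0 : 0 < a := by linarith
  set η : ℝ := min (ε / 20) (1 / 4) with hη
  have hη0 : 0 < η := lt_min (by positivity) (by norm_num)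
  have hη1 : η ≤ ε / 20 := min_le_left _ _
  have hη2 : η ≤ 1 / 4 := min_le_right _ _
  -- log(3 a l) ≤ η l for large l
  have hll : ∀ᶠ l : ℝ in atTop, Real.log (3 * a * l) ≤ η * l := by
    have h1 := ev_ll (η / 2) (by positivity)
    filter_upwards [h1, eventually_ge_atTop (1 : ℝ),
      eventually_ge_atTop (2 * Real.log (3 * a) / η)] with l h2 h3 h4
    rw [Real.log_mul (by positivity) (by linarith)]
    rw [div_le_iff₀ hη0] at h4
    linarith
  filter_upwards [hLt.eventually_ge_atTop 8, hlt.eventually_ge_atTop 4,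
    hlt.eventually hll, hlt.eventually_ge_atTop (4 / η + 2),
    hLt.eventually (ev_ll (η / a) (by positivity)), hLt.eventually_ge_atTop (8 / η),
    hLt.eventually_ge_atTop (Real.log C / η), eventually_ge_atTop 2] with X e1 e2 e3 e4 e5 e6 e7 e8
  set L := Real.log (X : ℝ) with hL
  set l := Real.log L with hl
  obtain ⟨p1, p2, p3, p4, p5, p6, p7, p8, p9, p10⟩ := par1 a ha X L l hL hl (by linarith) e2
  set y := yI a X with hy
  have hX0 : (0 : ℝ) < X := by
    have : 0 < X := by omega
    exact_mod_cast this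
  have hL0 : 0 < L := by linarith
  have hl0 : 0 < l := by linarith
  have hlal : l ≤ a * l := by
    have := mul_le_mul_of_nonneg_right ha.le hl0.le
    linarith
  have hlog2y : 0 < Real.log (2 * y) := by linarith
  have hlog2X : Real.log (2 * X) ≤ L + 1 := by
    rw [Real.log_mul (by norm_num) hX0.ne']
    have := Real.log_two_lt_d9
    linarith
  have hlog2X0 : 0 < Real.log (2 * X) := by
    rw [Real.log_mul (by norm_num) hX0.ne']
    have := Real.log_pos (by norm_num : (1 : ℝ) < 2)
    linarith
  set i := iJ a X with hi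
  have hi1 : 2 * Real.log (2 * X) / Real.log (2 * y) ≤ i := Nat.le_ceil _
  have hi2 : (i : ℝ) < 2 * Real.log (2 * X) / Real.log (2 * y) + 1 :=
    Nat.ceil_lt_add_one (by positivity)
  have hipos : 1 ≤ i := by
    have h1 : (0 : ℝ) < i := lt_of_lt_of_le (by positivity) hi1
    have h2 : 0 < i := by exact_mod_cast h1
    exact h2
  refine ⟨hipos, ?_, ?_⟩
  · have hy0 : (0 : ℝ) < 2 * y := by
      have : 0 < 2 * y := by omega
      exact_mod_cast this
    rw [← Real.log_le_log_iff (by positivity) (by positivity), Real.log_rpow hy0]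
    rw [div_le_iff₀ hlog2y] at hi1
    linarith
  · have hal2 : 0 < a * l - 2 := by linarith
    have hle : (i : ℝ) ≤ (2 * L + 2) / (a * l - 2) + 1 := by
      refine hi2.le.trans ?_
      have : 2 * Real.log (2 * X) / Real.log (2 * y) ≤ (2 * L + 2) / (a * l - 2) := by
        apply div_le_div₀ (by positivity) (by linarith) hal2 p3
      linarith
    have hiL : (i : ℝ) ≤ L := by
      have h1 : (2 * L + 2) / (a * l - 2) ≤ (2 * L + 2) / 14 := by
        apply div_le_div_of_nonneg_left (by positivity) (by norm_num)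
        have h2 : 16 ≤ 4 / η := by
          rw [le_div_iff₀ hη0]
          linarith
        linarith
      linarith
    have hi0 : (0 : ℝ) < i := by exact_mod_cast hipos
    -- i l ≤ (2/a + 3 η) L
    have hil : (i : ℝ) * l ≤ (2 / a + 4 * η) * L := by
      have h1 : l / (a * l - 2) ≤ 1 / a + η / 2 := by
        rw [div_le_iff₀ hal2]
        have h2 : (1 / a + η / 2) * (a * l - 2) = l - 2 / a + η / 2 * (a * l - 2) := by
          field_simp
        rw [h2]
        have h3 : 2 / a ≤ 2 := by
          rw [div_le_iff₀ ha0]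
          linarith
        have h4 : 2 ≤ η / 2 * (a * l - 2) := by
          have h5 : 4 / η ≤ a * l - 2 := by linarith
          rw [div_le_iff₀ hη0] at h5
          linarith
        linarith
      have h6 : l ≤ η / a * L := e5
      have h7 : η / a * L ≤ η * L := by
        apply mul_le_mul_of_nonneg_right _ hL0.le
        rw [div_le_iff₀ ha0]
        nlinarith
      have h8 : 8 ≤ η * L := by
        rw [div_le_iff₀ hη0] at e6
        linarith
      calc (i : ℝ) * l ≤ ((2 * L + 2) / (a * l - 2) + 1) * l := by gcongr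
        _ = (2 * L + 2) * (l / (a * l - 2)) + l := by ring
        _ ≤ (2 * L + 2) * (1 / a + η / 2) + l := by gcongr
        _ ≤ (2 / a + 4 * η) * L := by
            have h9 : 1 / a ≤ 1 := by
              rw [div_le_iff₀ ha0]
              linarith
            have h10 : (2 * L + 2) * (1 / a + η / 2) = 2 / a * L + η * L + 2 * (1 / a) + η := by
              field_simp
              ring
            rw [h10]
            linarith
    have hlogy : 0 < 3 * Real.log y := by linarith
    have hfac : ((i.factorial : ℕ) : ℝ) ≤ (i : ℝ) ^ i := by exact_mod_cast Nat.factorial_le_pow i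
    have h1 : C * (i.factorial : ℝ) * (3 * Real.log y) ^ i ≤
        C * (i : ℝ) ^ i * (3 * Real.log y) ^ i := by gcongr
    refine h1.trans ?_
    rw [← Real.log_le_log_iff (by positivity) (by positivity), Real.log_rpow hX0,
      Real.log_mul (by positivity) (by positivity), Real.log_mul hC.ne' (by positivity),
      Real.log_pow, Real.log_pow]
    have h2 : Real.log i ≤ l := Real.log_le_log hi0 hiL
    have h3 : Real.log (3 * Real.log y) ≤ η * l := by
      refine le_trans ?_ e3
      apply Real.log_le_log hlogy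
      linarith
    have h4 : Real.log C ≤ η * L := by
      rw [div_le_iff₀ hη0] at e7
      linarith
    have h5 : (i : ℝ) * Real.log i ≤ i * l := mul_le_mul_of_nonneg_left h2 hi0.le
    have h6 : (i : ℝ) * Real.log (3 * Real.log y) ≤ i * (η * l) :=
      mul_le_mul_of_nonneg_left h3 hi0.le
    have h7 : (i : ℝ) * (η * l) = η * (i * l) := by ring
    have h8 : η * ((i : ℝ) * l) ≤ η * ((2 / a + 4 * η) * L) :=
      mul_le_mul_of_nonneg_left hil hη0.le
    have h9 : (2 / a + 4 * η) ≤ 3 := by
      have : 2 / a ≤ 2 := by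
        rw [div_le_iff₀ ha0]
        linarith
      linarith
    have h10 : η * ((2 / a + 4 * η) * L) ≤ η * (3 * L) := by gcongr
    have h11 : η * L ≤ ε / 20 * L := by gcongr
    have h12 : (2 / a + ε) * L = 2 / a * L + ε * L := by ring
    have h13 : (2 / a + 4 * η) * L = 2 / a * L + 4 * (η * L) := by ring
    rw [h12]
    rw [h13] at hil
    have h14 : 0 ≤ ε * L := by positivity
    linarith

/-- the short products -/
theorem params_k (a : ℝ) (ha : 1 < a) (ε : ℝ) (hε : 0 < ε) : ∀ᶠ X : ℕ in atTop,
    4 * ((2 * yI a X) ^ (kJ a X) * (2 * yI a X) ^ (kJ a X)) < X ∧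
    80 * kJ a X ≤ (PP (yI a X)).card ∧ 2 * kJ a X ≤ kI a X ∧
    (X : ℝ) ^ ((1 - 1 / a) / 2 - ε) ≤ ((PP (yI a X)).card.choose (kJ a X) : ℝ) := by
  obtain ⟨y0, hy0⟩ := NBh.part2
  have hLt : Tendsto (fun X : ℕ => Real.log (X : ℝ)) atTop atTop :=
    Real.tendsto_log_atTop.comp tendsto_natCast_atTop_atTop
  have hlt : Tendsto (fun X : ℕ => Real.log (Real.log (X : ℝ))) atTop atTop :=
    Real.tendsto_log_atTop.comp hLt
  have ha0 : 0 < a := by linarith
  have ha1 : 0 < a - 1 := by linarith
  have hc : 0 < min (ε / (2 * a)) (1 / (16 * a)) := by positivity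
  filter_upwards [hLt.eventually_ge_atTop (4 * a + 64), hLt.eventually_ge_atTop (8 * (y0 : ℝ)),
    hlt.eventually_ge_atTop 4, hlt.eventually_ge_atTop (8 / ε),
    hlt.eventually_ge_atTop (8 / (a - 1)),
    hLt.eventually (ev_ll _ hc), eventually_ge_atTop 2, params a ha 1 1 one_pos le_rfl]
    with X e1 e2 e3 e5 e6 e7 e8 e9
  obtain ⟨-, hyk, -⟩ := e9
  set L := Real.log (X : ℝ) with hL
  set l := Real.log L with hl
  obtain ⟨p1, p2, p3, p4, p5, p6, p7, p8, p9, p10⟩ := par1 a ha X L l hL hl (by linarith) e3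
  set y := yI a X with hy
  set k := kI a X with hk
  set n0 := (PP y).card with hn0
  have hL0 : 0 < L := by linarith
  have hl0 : 0 < l := by linarith
  have hX0 : (0 : ℝ) < X := by
    have : 0 < X := by omega
    exact_mod_cast this
  have hlal : l ≤ a * l := by
    have := mul_le_mul_of_nonneg_right ha.le hl0.le
    linarith
  have hal : 4 ≤ a * l := by linarith
  have hal0 : 0 < a * l := by linarith
  have hsmall1 : l ≤ ε / (2 * a) * L :=
    e7.trans (mul_le_mul_of_nonneg_right (min_le_left _ _) hL0.le)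
  have hsmall2 : l ≤ 1 / (16 * a) * L :=
    e7.trans (mul_le_mul_of_nonneg_right (min_le_right _ _) hL0.le)
  have h16 : 16 * (a * l) ≤ L := by
    have : l * (16 * a) ≤ L := by
      calc l * (16 * a) ≤ (1 / (16 * a) * L) * (16 * a) := by gcongr
        _ = L := by field_simp
    linarith
  have hLal : 16 ≤ L / (a * l) := by
    rw [le_div_iff₀ hal0]
    linarith
  have hk8 : 8 ≤ k := by
    have : (8 : ℝ) ≤ k := by linarith
    exact_mod_cast this
  have hk0 : (0 : ℝ) < k := by linarith
  have hLa : L ≤ L ^ a := by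
    have := Real.rpow_le_rpow_of_exponent_le (by linarith : 1 ≤ L) ha.le
    rwa [Real.rpow_one] at this
  have hyy0 : y0 ≤ y := by
    have h1 : (y0 : ℝ) ≤ y := by linarith
    exact_mod_cast h1
  have hy8 : 8 ≤ y := by
    have h1 : (8 : ℝ) ≤ y := by linarith
    exact_mod_cast h1
  have hnb := (hy0 y hyy0).1
  have hLap : 0 < L ^ a := by positivity
  have hn1 : L ^ a / (9 * (a * l)) ≤ n0 := by
    refine le_trans ?_ hnb
    calc L ^ a / (9 * (a * l)) ≤ (9 / 10 * (L ^ a / 8)) / (a * l) := by
          rw [div_le_div_iff₀ (by positivity) hal0]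
          have : 0 < L ^ a * (a * l) := by positivity
          have e : 9 / 10 * (L ^ a / 8) * (9 * (a * l)) = 81 / 80 * (L ^ a * (a * l)) := by ring
          rw [e]
          linarith
      _ ≤ (9 / 10 * (y : ℝ)) / Real.log y := by
          apply div_le_div₀ (by positivity) (by linarith) p5 p6
      _ = 9 / 10 * y / Real.log y := by ring
  have hpow : L ^ a = L ^ (a - 1) * L := by
    rw [Real.rpow_sub_one hL0.ne']
    field_simp
  have hkL : (k : ℝ) ≤ 2 * L / (a * l) := by
    refine p8.trans ?_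
    rw [div_le_div_iff₀ (by linarith) hal0]
    have := mul_le_mul_of_nonneg_left hal hL0.le
    linarith
  have hLa1 : 0 < L ^ (a - 1) := by positivity
  have hkn : (k : ℝ) * L ^ (a - 1) ≤ 18 * n0 := by
    calc (k : ℝ) * L ^ (a - 1) ≤ (2 * L / (a * l)) * L ^ (a - 1) := by gcongr
      _ = 18 * (L ^ a / (9 * (a * l))) := by
          rw [hpow]
          field_simp
          ring
      _ ≤ 18 * n0 := by linarith
  have hLa1log : Real.log (L ^ (a - 1)) = (a - 1) * l := by rw [Real.log_rpow hL0]
  have h6 : 8 ≤ (a - 1) * l := by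
    rw [div_le_iff₀ ha1] at e6
    linarith
  have hLa1big : 800 ≤ L ^ (a - 1) := by
    have h1 : Real.exp 8 ≤ L ^ (a - 1) := by
      rw [← Real.exp_log hLa1, hLa1log]
      exact Real.exp_le_exp.2 h6
    have h2 : (800 : ℝ) ≤ Real.exp 8 := by
      have h3 := Real.exp_one_gt_d9
      have h4 : Real.exp 8 = Real.exp 1 ^ 8 := by
        rw [← Real.exp_nat_mul]
        norm_num
      rw [h4]
      calc (800 : ℝ) ≤ 2.7182818283 ^ 8 := by norm_num
        _ ≤ Real.exp 1 ^ 8 := by gcongr
    linarith
  set j := kJ a X with hj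
  have hjdef : j = (k - 1) / 2 := rfl
  have h2j : 2 * j ≤ k - 1 := by omega
  have h2j' : k ≤ 2 * j + 2 := by omega
  have hj1 : 1 ≤ j := by omega
  have h80 : 80 * j ≤ n0 := by
    have h1 : (40 : ℝ) * k ≤ n0 := by
      have h2 : (k : ℝ) * 800 ≤ k * L ^ (a - 1) := by gcongr
      have h3 : (0 : ℝ) ≤ n0 := Nat.cast_nonneg _
      linarith
    have h2 : 40 * k ≤ n0 := by exact_mod_cast h1
    omega
  refine ⟨?_, h80, by omega, ?_⟩
  · have h1 : (2 * y) ^ k ≤ X := by
      have h2 : (((2 * y) ^ k : ℕ) : ℝ) ≤ X := by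
        push_cast
        push_cast at hyk
        exact hyk
      exact_mod_cast h2
    have h2 : (2 * y) * ((2 * y) ^ j * (2 * y) ^ j) ≤ (2 * y) ^ k := by
      rw [← pow_add, ← pow_succ']
      exact Nat.pow_le_pow_right (by omega) (by omega)
    have h3 : 0 < (2 * y) ^ j * (2 * y) ^ j := by positivity
    have h4 : 4 * ((2 * y) ^ j * (2 * y) ^ j) < (2 * y) * ((2 * y) ^ j * (2 * y) ^ j) :=
      Nat.mul_lt_mul_of_pos_right (by omega) h3
    omega
  · have h1 : ((n0 + 1 - j : ℕ) ^ j : ℝ) / (j.factorial : ℝ) ≤ (n0.choose j : ℝ) :=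
      Nat.pow_le_choose j n0
    have h2 : (n0 : ℝ) / 2 ≤ ((n0 + 1 - j : ℕ) : ℝ) := by
      rw [Nat.cast_sub (by omega)]
      have : (80 : ℝ) * j ≤ n0 := by exact_mod_cast h80
      push_cast
      linarith
    have h3 : ((j.factorial : ℕ) : ℝ) ≤ (j : ℝ) ^ j := by
      exact_mod_cast Nat.factorial_le_pow j
    have hj0 : (0 : ℝ) < j := by exact_mod_cast hj1
    have h4 : ((n0 : ℝ) / 2) ^ j / (j : ℝ) ^ j ≤ (n0.choose j : ℝ) := by
      refine le_trans ?_ h1
      have h5 : (0 : ℝ) < j.factorial := by exact_mod_cast Nat.factorial_pos j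
      apply div_le_div₀ (by positivity) _ h5 h3
      gcongr
    refine le_trans ?_ h4
    rw [← div_pow]
    have h5 : L ^ (a - 1) / 18 ≤ (n0 : ℝ) / 2 / j := by
      rw [le_div_iff₀ hj0]
      have h7 : (2 : ℝ) * j ≤ k := by
        have : 2 * j ≤ k := by omega
        exact_mod_cast this
      have h8 : L ^ (a - 1) * (2 * j) ≤ L ^ (a - 1) * k := mul_le_mul_of_nonneg_left h7 hLa1.le
      linarith
    have h6' : (L ^ (a - 1) / 18) ^ j ≤ ((n0 : ℝ) / 2 / j) ^ j := by gcongr
    refine le_trans ?_ h6'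
    rw [← Real.log_le_log_iff (by positivity) (by positivity), Real.log_rpow hX0, Real.log_pow,
      Real.log_div hLa1.ne' (by norm_num), hLa1log]
    have hlog18 : Real.log 18 ≤ 3 := by
      rw [Real.log_le_iff_le_exp (by norm_num)]
      have h3 := Real.exp_one_gt_d9
      have h4 : Real.exp 3 = Real.exp 1 ^ 3 := by
        rw [← Real.exp_nat_mul]
        norm_num
      rw [h4]
      calc (18 : ℝ) ≤ 2.7182818283 ^ 3 := by norm_num
        _ ≤ Real.exp 1 ^ 3 := by gcongr
    have h7 : 0 ≤ (a - 1) * l - 3 := by linarith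
    have h8 : (L / (a * l) - 3) / 2 ≤ j := by
      have h9 : (k : ℝ) ≤ 2 * j + 2 := by exact_mod_cast h2j'
      linarith
    calc ((1 - 1 / a) / 2 - ε) * L ≤ ((L / (a * l) - 3) / 2) * ((a - 1) * l - 3) := by
          have e9 : ((L / (a * l) - 3) / 2) * ((a - 1) * l - 3) =
              (1 - 1 / a) / 2 * L - 3 / 2 * (L / (a * l)) - 3 / 2 * ((a - 1) * l) + 9 / 2 := by
            field_simp
            ring
          rw [e9]
          have h8 : 4 * (L / (a * l)) ≤ ε / 2 * L := by
            have h9 : 8 / ε ≤ a * l := by linarith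
            rw [div_le_iff₀ hε] at h9
            rw [← mul_div_assoc, div_le_iff₀ hal0]
            have := mul_le_mul_of_nonneg_left h9 hL0.le
            linarith
          have h10 : (a - 1) * l ≤ ε / 2 * L - l := by
            calc (a - 1) * l = a * l - l := by ring
              _ ≤ a * (ε / (2 * a) * L) - l := by gcongr
              _ = ε / 2 * L - l := by field_simp
          have h11 : (0 : ℝ) < L / (a * l) := by linarith
          have e10 : ((1 - 1 / a) / 2 - ε) * L = (1 - 1 / a) / 2 * L - ε * L := by ring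
          rw [e10]
          linarith
      _ ≤ j * ((a - 1) * l - Real.log 18) := by
          apply mul_le_mul h8 (by linarith) h7 hj0.le

end Pool.Agent.R345.IY
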