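import Pool.Agent.R345.IXEnd
import Pool.Agent.R345.IYLow
import Pool.Agent.R345.IYPar

/-!
# A Linnik type theorem for the ideal classes reached by short products of small primes
-/

set_option autoImplicit false

namespace Pool.Agent.R345.IY

open Finset Filter NumberField Pool.Agent.H38R2.CG Pool.Agent.H38R2.CG2 Pool.Agent.R345.IX
open scoped Classical

theorem choose_cmp2 (n0 n1 k : ℕ) (h1 : n0 ≤ 40 * n1) (h2 : 80 * k ≤ n0) :
    n0.choose k ≤ 80 ^ k * n1.choose k := by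
  have h3 : n0.descFactorial k ≤ 80 ^ k * n1.descFactorial k := by
    rw [Nat.descFactorial_eq_prod_range, Nat.descFactorial_eq_prod_range]
    have h4 : 80 ^ k * ∏ i ∈ Finset.range k, (n1 - i) = ∏ i ∈ Finset.range k, 80 * (n1 - i) := by
      rw [Finset.prod_mul_distrib, Finset.prod_const, Finset.card_range]
    rw [h4]
    refine Finset.prod_le_prod' fun i hi => ?_
    have := Finset.mem_range.1 hi
    omega
  rw [Nat.descFactorial_eq_factorial_mul_choose, Nat.descFactorial_eq_factorial_mul_choose] at h3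
  have h5 : 0 < k.factorial := Nat.factorial_pos k
  refine Nat.le_of_mul_le_mul_left ?_ h5
  calc k.factorial * n0.choose k ≤ 80 ^ k * (k.factorial * n1.choose k) := h3
    _ = _ := by ring

theorem MD_low2 (D : ℕ) (P : Finset ℕ) (hP : ∀ p ∈ P, p.Prime ∧ p ≠ 2) (k : ℕ)
    (h20 : 80 * k ≤ P.card)
    (hlow : (P.card : ℝ) / 20 ≤ ∑ p ∈ P, (1 + ((jacobiSym (D : ℤ) p : ℤ) : ℝ))) :
    (P.card.choose k : ℝ) ≤ 80 ^ k * MD D (P.powersetCard k) (fun _ => 1) := by
  set P1 := P.filter (fun p => 0 ≤ jacobiSym (D : ℤ) p) with hP1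
  have h1 : ∑ p ∈ P, (1 + ((jacobiSym (D : ℤ) p : ℤ) : ℝ)) ≤ 2 * P1.card := by
    calc ∑ p ∈ P, (1 + ((jacobiSym (D : ℤ) p : ℤ) : ℝ))
        ≤ ∑ p ∈ P, (if 0 ≤ jacobiSym (D : ℤ) p then (2 : ℝ) else 0) := by
          refine Finset.sum_le_sum fun p _ => ?_
          rcases jacobiSym.trichotomy (D : ℤ) p with h | h | h <;> rw [h] <;> norm_num
      _ = 2 * P1.card := by
          rw [← Finset.sum_filter, Finset.sum_const, nsmul_eq_mul, mul_comm]
  have h2 : P.card ≤ 40 * P1.card := by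
    have : (P.card : ℝ) ≤ 40 * P1.card := by linarith
    exact_mod_cast this
  have h3 := choose_cmp2 P.card P1.card k h2 h20
  have h4 : (P1.card.choose k : ℝ) ≤ MD D (P.powersetCard k) (fun _ => 1) := by
    unfold MD
    have hnn : ∀ s ∈ P.powersetCard k, 0 ≤ (1 : ℝ) * ∏ p ∈ s, (1 + (chi D p : ℝ)) := by
      intro s hs
      rw [one_mul]
      refine Finset.prod_nonneg fun p hp => ?_
      have hpP := hP p ((mem_powersetCard.1 hs).1 hp)
      rw [chi_odd _ _ hpP.1 hpP.2]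
      rcases jacobiSym.trichotomy (D : ℤ) p with h | h | h <;> rw [h] <;> norm_num
    calc (P1.card.choose k : ℝ) = ∑ s ∈ P1.powersetCard k, (1 : ℝ) := by
          rw [Finset.sum_const, Finset.card_powersetCard, nsmul_eq_mul, mul_one]
      _ ≤ ∑ s ∈ P1.powersetCard k, (1 : ℝ) * ∏ p ∈ s, (1 + (chi D p : ℝ)) := by
          refine Finset.sum_le_sum fun s hs => ?_
          rw [one_mul]
          have h5 : ∀ p ∈ s, (1 : ℝ) ≤ 1 + (chi D p : ℝ) := by
            intro p hp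
            have hp1 := (mem_powersetCard.1 hs).1 hp
            have hpP := hP p (Finset.filter_subset _ _ hp1)
            rw [chi_odd _ _ hpP.1 hpP.2]
            have h6 := (Finset.mem_filter.1 hp1).2
            have h7 : (0 : ℝ) ≤ ((jacobiSym (D : ℤ) p : ℤ) : ℝ) := by exact_mod_cast h6
            linarith
          calc (1 : ℝ) = ∏ p ∈ s, (1 : ℝ) := by rw [Finset.prod_const_one]
            _ ≤ ∏ p ∈ s, (1 + (chi D p : ℝ)) :=
              Finset.prod_le_prod (fun _ _ => zero_le_one) h5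
      _ ≤ ∑ s ∈ P.powersetCard k, (1 : ℝ) * ∏ p ∈ s, (1 + (chi D p : ℝ)) :=
          Finset.sum_le_sum_of_subset_of_nonneg
            (Finset.powersetCard_mono (Finset.filter_subset _ _)) fun s hs _ => hnn s hs
  calc (P.card.choose k : ℝ) ≤ ((80 ^ k * P1.card.choose k : ℕ) : ℝ) := by exact_mod_cast h3
    _ = 80 ^ k * (P1.card.choose k : ℝ) := by push_cast; ring
    _ ≤ _ := mul_le_mul_of_nonneg_left h4 (by positivity)

/-- the exceptional discriminants -/
def BadJ (a e : ℝ) (X D : ℕ) : Prop := ∃ (K : Type) (_ : Field K) (_ : NumberField K),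
  Module.finrank ℚ K = 2 ∧ NumberField.discr K = (D : ℤ) ∧
    ¬ ((Nat.card (ClassGroup (𝓞 K)) : ℝ) ≤
      (X : ℝ) ^ e * ((Reach K (2 * yI a X : ℕ) (kJ a X)).ncard : ℝ))

/-- the deterministic part -/
theorem not_bad2 (hN0 : P_N0) (hN1 : P_N1) (hN3 : P_N3) (h4 : P_N4) (hKF : P_KF)
    (h5b : P_N5b) (hN6 : P_N6) (a η C : ℝ) (ha : 1 < a) (hC : 0 < C)
    (hLone : ∀ D : ℕ, IsFund D → Lone D ≤ C * (1 + Real.log D))
    (X D : ℕ) (hD : IsFund D) (hXD : X < D)
    (hDX : D ≤ 2 * X) (hX : 1 ≤ X) (hy : 2 ≤ yI a X)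
    (hB : (12800 : ℝ) ^ (kJ a X) ≤ (X : ℝ) ^ η)
    (h20 : 80 * kJ a X ≤ (PP (yI a X)).card)
    (hsz : 4 * ((2 * yI a X) ^ (kJ a X) * (2 * yI a X) ^ (kJ a X)) < X)
    (hM : (X : ℝ) ^ ((1 - 1 / a) / 2 - η) ≤ ((PP (yI a X)).card.choose (kJ a X) : ℝ))
    (hL2 : C * (2 + Real.log X) ≤ (X : ℝ) ^ η) (h4' : 4 ≤ (X : ℝ) ^ η)
    (hlow : ((PP (yI a X)).card : ℝ) / 20 ≤
      ∑ p ∈ PP (yI a X), (1 + ((jacobiSym (D : ℤ) p : ℤ) : ℝ))) :
    ¬ BadJ a (1 / (2 * a) + 4 * η) X D := by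
  rintro ⟨K, i1, i2, h2, hK, hne⟩
  apply hne
  have hXr : (1 : ℝ) ≤ X := by exact_mod_cast hX
  have hX0 : (0 : ℝ) < X := by linarith
  have hsX : 0 < √(X : ℝ) := Real.sqrt_pos.2 hX0
  have hlogX : 0 ≤ Real.log X := Real.log_natCast_nonneg X
  set P := PP (yI a X) with hP
  set k := kJ a X with hk
  set M : ℝ := (P.card.choose k : ℝ) with hMdef
  have hPm : ∀ p ∈ P, p.Prime ∧ p ≠ 2 ∧ (p : ℝ) ≤ ((2 * yI a X : ℕ) : ℝ) := by
    intro p hp
    rw [hP] at hp
    unfold PP at hp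
    rw [Finset.mem_filter, Finset.mem_Ioc] at hp
    refine ⟨hp.2, by omega, ?_⟩
    exact_mod_cast hp.1.2
  have hR := reach_bound hN0 hN1 hN3 h4 hKF h5b hN6 K D hD h2 hK P ((2 * yI a X : ℕ) : ℝ) hPm k
  have hMD := MD_low2 D P (fun p hp => ⟨(hPm p hp).1, (hPm p hp).2.1⟩) k h20 hlow
  have hSD := SD_diag X D k hX hXD (P.powersetCard k) ((2 * yI a X) ^ k) hsz (by
    intro s hs
    obtain ⟨hs1, hs2⟩ := Finset.mem_powersetCard.1 hs
    refine ⟨fun p hp => (hPm p (hs1 hp)).1, hs2, ?_⟩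
    unfold prodS
    rw [← hs2]
    exact Finset.prod_le_pow_card _ _ _ fun p hp => by
      have := (hPm p (hs1 hp)).2.2
      exact_mod_cast this)
  rw [Finset.card_powersetCard] at hSD
  set R : ℝ := ((Reach K ((2 * yI a X : ℕ) : ℝ) k).ncard : ℝ) with hRdef
  set h : ℝ := (Nat.card (ClassGroup (𝓞 K)) : ℝ) with hh
  set md := MD D (P.powersetCard k) (fun _ => 1) with hmd
  set sd := SD D (P.powersetCard k) (fun _ => 1) with hsd
  have hR0 : 0 ≤ R := Nat.cast_nonneg _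
  have hh0 : 0 ≤ h := Nat.cast_nonneg _
  have hM0 : 0 < M := lt_of_lt_of_le (Real.rpow_pos_of_pos hX0 _) hM
  have hsd0 : 0 ≤ sd := SD_nonneg D _
  have hD1 : 1 < D := hD.1
  have hDr : (1 : ℝ) < D := by exact_mod_cast hD1
  have hDX' : (D : ℝ) ≤ 2 * X := by exact_mod_cast hDX
  have hlogD : Real.log D ≤ 1 + Real.log X := by
    have h1 : Real.log D ≤ Real.log (2 * X) := Real.log_le_log (by linarith) hDX'
    rw [Real.log_mul (by norm_num) hX0.ne'] at h1
    have := Real.log_two_lt_d9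
    linarith
  have hL0 : 0 ≤ Lone D := (hN3 K D hD h2 hK).1
  have hL : Lone D ≤ (X : ℝ) ^ η := by
    refine (hLone D hD).trans (le_trans ?_ hL2)
    apply mul_le_mul_of_nonneg_left _ hC.le
    linarith
  have hsD : √(D : ℝ) ≤ 2 * √(X : ℝ) := by
    rw [Real.sqrt_le_left (by positivity), mul_pow, Real.sq_sqrt hX0.le]
    linarith
  have hXη : 0 < (X : ℝ) ^ η := Real.rpow_pos_of_pos hX0 _
  -- the inequality for h
  have h1 : h * M ^ 2 ≤ 6400 ^ k * (R * (2 * (2 * √(X : ℝ)) * (X : ℝ) ^ η * (2 ^ k * M))) := by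
    have e6400 : (6400 : ℝ) ^ k = (80 ^ k) ^ 2 := by
      rw [← pow_mul, mul_comm, pow_mul]; norm_num
    calc h * M ^ 2 ≤ h * (80 ^ k * md) ^ 2 := by gcongr
      _ = 6400 ^ k * (h * md ^ 2) := by rw [e6400]; ring
      _ ≤ 6400 ^ k * (R * (2 * √(D : ℝ) * Lone D * sd)) := by gcongr
      _ ≤ _ := by gcongr
  have e128 : (6400 : ℝ) ^ k * 2 ^ k = 12800 ^ k := by rw [← mul_pow]; norm_num
  have h3 : h * M ≤ 12800 ^ k * R * 4 * (X : ℝ) ^ η * √(X : ℝ) := by
    refine le_of_mul_le_mul_right ?_ hM0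
    calc h * M * M = h * M ^ 2 := by ring
      _ ≤ _ := h1
      _ = (6400 ^ k * 2 ^ k) * R * 4 * (X : ℝ) ^ η * √(X : ℝ) * M := by ring
      _ = _ := by rw [e128]
  have h5 : h * (X : ℝ) ^ ((1 - 1 / a) / 2 - η) ≤
      (X : ℝ) ^ η * R * (X : ℝ) ^ η * (X : ℝ) ^ η * (X : ℝ) ^ (1 / 2 : ℝ) := by
    calc h * (X : ℝ) ^ ((1 - 1 / a) / 2 - η) ≤ h * M := by gcongr
      _ ≤ _ := h3
      _ ≤ (X : ℝ) ^ η * R * (X : ℝ) ^ η * (X : ℝ) ^ η * √(X : ℝ) := by gcongr
      _ = _ := by rw [Real.sqrt_eq_rpow]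
  have hpos : 0 < (X : ℝ) ^ ((1 - 1 / a) / 2 - η) := Real.rpow_pos_of_pos hX0 _
  refine le_of_mul_le_mul_right (h5.trans (le_of_eq ?_)) hpos
  have e1 : (X : ℝ) ^ (1 / (2 * a) + 4 * η) * R * (X : ℝ) ^ ((1 - 1 / a) / 2 - η) =
      ((X : ℝ) ^ (1 / (2 * a) + 4 * η) * (X : ℝ) ^ ((1 - 1 / a) / 2 - η)) * R := by ring
  have e2 : (X : ℝ) ^ η * R * (X : ℝ) ^ η * (X : ℝ) ^ η * (X : ℝ) ^ (1 / 2 : ℝ) =
      ((X : ℝ) ^ η * (X : ℝ) ^ η * (X : ℝ) ^ η * (X : ℝ) ^ (1 / 2 : ℝ)) * R := by ring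
  rw [e1, e2, ← Real.rpow_add hX0, ← Real.rpow_add hX0, ← Real.rpow_add hX0, ← Real.rpow_add hX0]
  congr 2
  field_simp
  ring

/-- few exceptional discriminants in a dyadic interval -/
theorem count_bad2 (hN0 : P_N0) (hN1 : P_N1) (hN3 : P_N3) (h4 : P_N4) (hKF : P_KF)
    (h5b : P_N5b) (hN6 : P_N6) (hN3a : P_N3a) (hCC5 : P_CC5) (a : ℝ) (ha : 1 < a) (ε : ℝ)
    (hε : 0 < ε) : ∃ X0 : ℕ, ∀ X ≥ X0,
    (((Finset.Ioc X (2 * X)).filter (fun D => IsFund D ∧
      BadJ a (1 / (2 * a) + ε) X D)).card : ℝ) ≤ (X : ℝ) ^ (2 / a + ε) := by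
  obtain ⟨C, hC, hLone⟩ := Lone_le hN3a
  obtain ⟨C5, hC5, y0, hy0⟩ := low_card hCC5
  have ha0 : 0 < a := by linarith
  set η : ℝ := ε / 4 with hη
  have hηpos : 0 < η := by positivity
  rw [← Filter.eventually_atTop]
  have hpar := params a ha η 12800 hηpos (by norm_num)
  have hpk := params_k a ha η hηpos
  have hpi := params_i a ha ε (4 * C5) hε (by positivity)
  have hlog1 := ERRh.ev_log (η / 2) (by positivity)
  have hc1 := ERRh.ev_const (η / 2) (by positivity) (max (2 * C) 4)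
  have hLt : Tendsto (fun X : ℕ => Real.log (X : ℝ)) atTop atTop :=
    Real.tendsto_log_atTop.comp tendsto_natCast_atTop_atTop
  have hlt : Tendsto (fun X : ℕ => Real.log (Real.log (X : ℝ))) atTop atTop :=
    Real.tendsto_log_atTop.comp hLt
  filter_upwards [hpar, hpk, hpi, hlog1, hc1, hLt.eventually_ge_atTop (8 * (y0 : ℝ) + 8),
    hlt.eventually_ge_atTop 4, eventually_ge_atTop 1] with X hX hXk hXi hl1 hk1 hLy hl4 hX1
  obtain ⟨q1, q2, q3, q4, q5, q6, q7, q8, q9, -⟩ := hX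
  obtain ⟨r1, r2, r3, r4⟩ := hXk
  obtain ⟨s1, s2, s3⟩ := hXi
  obtain ⟨p1, -⟩ := par1 a ha X (Real.log X) (Real.log (Real.log X)) rfl rfl
    (by have : (0 : ℝ) ≤ y0 := Nat.cast_nonneg _
        linarith) hl4
  have hXr : (1 : ℝ) ≤ X := by exact_mod_cast hX1
  have hX0 : (0 : ℝ) < X := by linarith
  have hlogX : 0 ≤ Real.log X := Real.log_natCast_nonneg X
  have hXh : 0 < (X : ℝ) ^ (η / 2) := Real.rpow_pos_of_pos hX0 _
  have hyy0 : y0 ≤ yI a X := by
    have hLa : Real.log X ≤ (Real.log X) ^ a := by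
      have := Real.rpow_le_rpow_of_exponent_le (by
        have : (0 : ℝ) ≤ y0 := Nat.cast_nonneg _
        linarith : 1 ≤ Real.log X) ha.le
      rwa [Real.rpow_one] at this
    have h1 : (y0 : ℝ) ≤ yI a X := by linarith
    exact_mod_cast h1
  have hlow := hy0 (yI a X) hyy0 (iJ a X) s1 X s2
  have hsub : ((Finset.Ioc X (2 * X)).filter (fun D => IsFund D ∧
      BadJ a (1 / (2 * a) + ε) X D)) ⊆ ((Finset.Ioc X (2 * X)).filter (fun D => IsFund D ∧
      ∑ p ∈ PP (yI a X), (1 + ((jacobiSym (D : ℤ) p : ℤ) : ℝ)) <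
        ((PP (yI a X)).card : ℝ) / 20)) := by
    intro D hD
    obtain ⟨hD1, hD2, hD3⟩ := Finset.mem_filter.1 hD
    obtain ⟨hDa, hDb⟩ := Finset.mem_Ioc.1 hD1
    rw [Finset.mem_filter]
    refine ⟨hD1, hD2, ?_⟩
    by_contra hcon
    rw [not_lt] at hcon
    have hB : (12800 : ℝ) ^ (kJ a X) ≤ (X : ℝ) ^ η := by
      refine le_trans ?_ q3
      exact pow_le_pow_right₀ (by norm_num) (by omega)
    have := not_bad2 hN0 hN1 hN3 h4 hKF h5b hN6 a η C ha hC hLone X D hD2 hDa hDb hX1 q1 hB r2 r1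
      r4 (by
        have h2C : 2 * C ≤ (X : ℝ) ^ (η / 2) := (le_max_left _ _).trans hk1
        calc C * (2 + Real.log X) ≤ C * (2 * (1 + Real.log X)) := by gcongr; linarith
          _ = (2 * C) * (1 + Real.log X) := by ring
          _ ≤ (X : ℝ) ^ (η / 2) * (X : ℝ) ^ (η / 2) := by gcongr
          _ = (X : ℝ) ^ η := by rw [← Real.rpow_add hX0]; congr 1; ring) (by
        have h4 : (4 : ℝ) ≤ (X : ℝ) ^ (η / 2) := (le_max_right _ _).trans hk1
        have h5 : (X : ℝ) ^ (η / 2) ≤ (X : ℝ) ^ η :=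
          Real.rpow_le_rpow_of_exponent_le hXr (by linarith)
        linarith) hcon
    apply this
    have e1 : 1 / (2 * a) + 4 * η = 1 / (2 * a) + ε := by rw [hη]; ring
    rw [e1]
    exact hD3
  have hcard : (((Finset.Ioc X (2 * X)).filter (fun D => IsFund D ∧
      BadJ a (1 / (2 * a) + ε) X D)).card : ℝ) ≤ (((Finset.Ioc X (2 * X)).filter
      (fun D => IsFund D ∧ ∑ p ∈ PP (yI a X), (1 + ((jacobiSym (D : ℤ) p : ℤ) : ℝ)) <
        ((PP (yI a X)).card : ℝ) / 20)).card : ℝ) := by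
    exact_mod_cast Finset.card_le_card hsub
  refine hcard.trans (hlow.trans (le_trans (le_of_eq ?_) s3))
  ring

/-- dyadic summation -/
theorem dyadic2 (E : Finset ℕ → ℕ) (Q : ℕ → Prop) (hE : ∀ S : Finset ℕ, E S = (S.filter Q).card)
    (κ A : ℝ) (hκ : 0 < κ) (hA : 0 < A) (Y0 : ℕ)
    (h : ∀ Y ≥ Y0, ((E (Finset.Ioc Y (2 * Y)) : ℕ) : ℝ) ≤ A * (Y : ℝ) ^ κ) :
    ∃ C : ℝ, 0 < C ∧ ∀ X : ℕ, ((E (Finset.Icc 2 X) : ℕ) : ℝ) ≤ C * (X : ℝ) ^ κ := by
  set q : ℝ := (2 / 3 : ℝ) ^ κ with hq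
  have hq0 : 0 < q := by positivity
  have hq1 : q < 1 := Real.rpow_lt_one (by norm_num) (by norm_num) hκ
  refine ⟨max (A / (1 - q)) (2 * Y0 + 3), lt_of_lt_of_le (by positivity) (le_max_right _ _), ?_⟩
  set C : ℝ := max (A / (1 - q)) (2 * Y0 + 3) with hC
  have hCA : A / (1 - q) ≤ C := le_max_left _ _
  have hCY : 2 * (Y0 : ℝ) + 3 ≤ C := le_max_right _ _
  have hC0 : 0 < C := lt_of_lt_of_le (by positivity) hCY
  rw [div_le_iff₀ (by linarith)] at hCA
  intro X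
  induction X using Nat.strong_induction_on with
  | _ X ih =>
    rcases Nat.lt_or_ge X (2 * Y0 + 3) with hX | hX
    · rcases Nat.eq_zero_or_pos X with h0 | h0
      · subst h0
        rw [hE]
        have : ((Finset.Icc 2 0).filter Q).card = 0 := by simp
        rw [this, Nat.cast_zero]
        exact mul_nonneg hC0.le (Real.rpow_nonneg le_rfl _)
      · have h1 : E (Finset.Icc 2 X) ≤ X := by
          rw [hE]
          refine (Finset.card_filter_le _ _).trans ?_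
          rw [Nat.card_Icc]
          omega
        have h2 : ((E (Finset.Icc 2 X) : ℕ) : ℝ) ≤ X := by exact_mod_cast h1
        have h3 : (X : ℝ) ≤ 2 * Y0 + 3 := by exact_mod_cast hX.le
        have h4 : (1 : ℝ) ≤ (X : ℝ) ^ κ := Real.one_le_rpow (by exact_mod_cast h0) hκ.le
        nlinarith
    · set Y := (X + 1) / 2 with hY
      have hYX : Y < X := by omega
      have hYY : Y0 ≤ Y := by omega
      have h2Y : X ≤ 2 * Y := by omega
      have hY3 : 3 * Y ≤ 2 * X := by omega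
      have h1 := ih Y hYX
      have h2 := h Y hYY
      have h3 : E (Finset.Icc 2 X) ≤ E (Finset.Icc 2 Y) + E (Finset.Ioc Y (2 * Y)) := by
        rw [hE, hE, hE]
        have hsub : (Finset.Icc 2 X).filter Q ⊆
            (Finset.Icc 2 Y).filter Q ∪ (Finset.Ioc Y (2 * Y)).filter Q := by
          intro d hd
          rw [Finset.mem_filter, Finset.mem_Icc] at hd
          rw [Finset.mem_union, Finset.mem_filter, Finset.mem_filter, Finset.mem_Icc,
            Finset.mem_Ioc]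
          by_cases hdY : d ≤ Y
          · exact Or.inl ⟨⟨hd.1.1, hdY⟩, hd.2⟩
          · exact Or.inr ⟨⟨by omega, by omega⟩, hd.2⟩
        exact (Finset.card_le_card hsub).trans (Finset.card_union_le _ _)
      have h4 : ((E (Finset.Icc 2 X) : ℕ) : ℝ) ≤
          ((E (Finset.Icc 2 Y) : ℕ) : ℝ) + ((E (Finset.Ioc Y (2 * Y)) : ℕ) : ℝ) := by
        exact_mod_cast h3
      have hX0 : (0 : ℝ) < X := by
        have : 0 < X := by omega
        exact_mod_cast this
      have hYr : (Y : ℝ) ≤ (2 / 3) * X := by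
        have : (3 : ℝ) * Y ≤ 2 * X := by exact_mod_cast hY3
        linarith
      have h5 : (Y : ℝ) ^ κ ≤ q * (X : ℝ) ^ κ := by
        calc (Y : ℝ) ^ κ ≤ ((2 / 3) * X) ^ κ :=
              Real.rpow_le_rpow (Nat.cast_nonneg _) hYr hκ.le
          _ = q * (X : ℝ) ^ κ := Real.mul_rpow (by norm_num) hX0.le
      have h6 : 0 ≤ (X : ℝ) ^ κ := by positivity
      calc ((E (Finset.Icc 2 X) : ℕ) : ℝ) ≤ C * (Y : ℝ) ^ κ + A * (Y : ℝ) ^ κ := by
            linarith
        _ = (C + A) * (Y : ℝ) ^ κ := by ring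
        _ ≤ (C + A) * (q * (X : ℝ) ^ κ) := by gcongr
        _ = ((C + A) * q) * (X : ℝ) ^ κ := by ring
        _ ≤ C * (X : ℝ) ^ κ := by
            apply mul_le_mul_of_nonneg_right _ h6
            nlinarith

/-- the property of the radicand -/
def GoodJ (a e : ℝ) (d : ℕ) : Prop :=
  ∀ (K : Type) [Field K] [NumberField K], Module.finrank ℚ K = 2 →
    (∃ x : K, x ^ 2 = (d : K)) →
    (Nat.card (ClassGroup (𝓞 K)) : ℝ) ≤ (d : ℝ) ^ e *
      ((Reach K ((Real.log d) ^ a) (Real.log d / (2 * Real.log (Real.log d)))).ncard : ℝ)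

/-- **Main theorem.** All but `O(X^(2/a+ε))` radicands up to X are good. -/
theorem main2 (a : ℝ) (ha : 1 < a) (ε : ℝ) (hε : 0 < ε) : ∃ C : ℝ, 0 < C ∧
    ∀ X : ℕ, (((Finset.Icc 2 X).filter (fun d => Squarefree d ∧
      ¬ GoodJ a (1 / (2 * a) + ε) d)).card : ℝ) ≤ C * (X : ℝ) ^ (2 / a + ε) := by
  have h_P_N0 : P_N0 := T_N0
  have h_P_N0d : P_N0d := T_N0d
  have h_P_SPL : P_SPL := T_SPL h_P_N0
  have h_P_N1 : P_N1 := T_N1 h_P_SPL
  have h_P_N2 : P_N2 := T_N2 h_P_SPL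
  have h_P_KR : P_KR := T_KR
  have h_P_PV : P_PV := T_PV
  have h_P_N3a : P_N3a := T_N3a h_P_KR h_P_PV
  have h_P_N3b : P_N3b := T_N3b h_P_KR h_P_PV h_P_N3a
  have h_P_N3 : P_N3 := T_N3 h_P_N2 h_P_N3b
  have h_P_N4a : P_N4a := T_N4a
  have h_P_N4b : P_N4b := T_N4b
  have h_P_N4 : P_N4 := T_N4 h_P_N4a h_P_N4b
  have h_P_KF : P_KF := T_KF
  have h_P_N5b : P_N5b := T_N5b h_P_KF h_P_N4
  have h_P_N6 : P_N6 := T_N6 h_P_KF
  have h_P_CC5 : P_CC5 := T_CC5 T_LS T_NB
  obtain ⟨X0, hX0⟩ := count_bad2 h_P_N0 h_P_N1 h_P_N3 h_P_N4 h_P_KF h_P_N5b h_P_N6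
    h_P_N3a h_P_CC5 a ha (ε / 2) (by positivity)
  have ha0 : 0 < a := by linarith
  set θ : ℝ := 1 / (2 * a) with hθ
  have hθ0 : 0 ≤ θ := by positivity
  set κ : ℝ := 2 / a + ε / 2 with hκ
  have hκ0 : 0 < κ := by positivity
  obtain ⟨X1, hX1⟩ := Filter.eventually_atTop.1 (params a ha 1 1 one_pos le_rfl)
  obtain ⟨X3, hX3⟩ := Filter.eventually_atTop.1 (params_k a ha 1 one_pos)
  obtain ⟨X2, hX2⟩ := Filter.eventually_atTop.1
    (ERRh.ev_const (ε / 2) (by positivity) ((4 : ℝ) ^ (θ + ε / 2)))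
  -- a bad radicand gives a bad discriminant
  have key : ∀ Y : ℕ, X2 ≤ Y → 1 ≤ Y → ∀ d : ℕ, Y < d → d ≤ 2 * Y →
      Squarefree d → ¬ GoodJ a (θ + ε) d → ∀ X : ℕ, X1 ≤ X → X3 ≤ X → X ≤ 4 * d → d ≤ 2 * X →
      IsFund (Dof d) ∧ BadJ a (θ + ε / 2) X (Dof d) := by
    intro Y hY2 hY1 d hd1 hd2 hsq hbad X hXX1 hXX3 hX4 hdX
    have hd : 1 < d := by omega
    refine ⟨isFund_Dof hd hsq, ?_⟩
    unfold GoodJ at hbad
    push Not at hbad
    obtain ⟨K, i1, i2, h2, hx, hlt⟩ := hbad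
    refine ⟨K, i1, i2, h2, ?_, ?_⟩
    · rw [h_P_N0d K d hd hsq h2 hx]
      unfold Dof
      split_ifs <;> push_cast <;> rfl
    · intro hle
      refine absurd hle (not_le.2 (lt_of_le_of_lt ?_ hlt))
      have hdr : (0 : ℝ) < d := by
        have : 0 < d := by omega
        exact_mod_cast this
      obtain ⟨-, -, -, -, -, -, -, -, -, hfin⟩ := hX1 X hXX1
      obtain ⟨-, -, hk3, -⟩ := hX3 X hXX3
      obtain ⟨g1, g2⟩ := hfin d (by
        have : (X : ℝ) ≤ 4 * d := by exact_mod_cast hX4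
        linarith) (by exact_mod_cast hdX)
      have g3 : ((kJ a X : ℕ) : ℝ) ≤ Real.log d / (2 * Real.log (Real.log d)) := by
        have h6 : (2 : ℝ) * ((kJ a X : ℕ) : ℝ) ≤ kI a X := by exact_mod_cast hk3
        have h7 : Real.log d / (2 * Real.log (Real.log d)) =
            (Real.log d / Real.log (Real.log d)) / 2 := by
          rw [div_div, mul_comm]
        rw [h7]
        linarith
      have hsub : Reach K ((2 * yI a X : ℕ) : ℝ) (kJ a X) ⊆
          Reach K ((Real.log d) ^ a) (Real.log d / (2 * Real.log (Real.log d))) :=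
        reach_mono (by push_cast; exact g1) g3
      have hcard : ((Reach K ((2 * yI a X : ℕ) : ℝ) (kJ a X)).ncard : ℝ) ≤
          ((Reach K ((Real.log d) ^ a) (Real.log d / (2 * Real.log (Real.log d)))).ncard : ℝ) := by
        exact_mod_cast Set.ncard_le_ncard hsub (Set.toFinite _)
      have hpow : (X : ℝ) ^ (θ + ε / 2) ≤ (d : ℝ) ^ (θ + ε) := by
        have h4d : (4 : ℝ) ^ (θ + ε / 2) ≤ (d : ℝ) ^ (ε / 2) := hX2 d (by omega)
        calc (X : ℝ) ^ (θ + ε / 2) ≤ (4 * (d : ℝ)) ^ (θ + ε / 2) := by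
              apply Real.rpow_le_rpow (Nat.cast_nonneg _) _ (by positivity)
              exact_mod_cast hX4
          _ = (4 : ℝ) ^ (θ + ε / 2) * (d : ℝ) ^ (θ + ε / 2) :=
              Real.mul_rpow (by norm_num) hdr.le
          _ ≤ (d : ℝ) ^ (ε / 2) * (d : ℝ) ^ (θ + ε / 2) := by gcongr
          _ = (d : ℝ) ^ (θ + ε) := by
              rw [← Real.rpow_add hdr]
              congr 1
              ring
      exact mul_le_mul hpow hcard (Nat.cast_nonneg _) (by positivity)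
  have hdy := dyadic2 (fun S => (S.filter (fun d => Squarefree d ∧ ¬ GoodJ a (θ + ε) d)).card)
    (fun d => Squarefree d ∧ ¬ GoodJ a (θ + ε) d) (fun S => by congr) κ (1 + 4 ^ κ) hκ0
    (by positivity) (max (max X0 X1) (max (max X2 X3) 1)) (by
      intro Y hY
      have hY0 : X0 ≤ Y := le_trans (le_trans (le_max_left _ _) (le_max_left _ _)) hY
      have hY1 : X1 ≤ Y := le_trans (le_trans (le_max_right _ _) (le_max_left _ _)) hY
      have hY2 : X2 ≤ Y := le_trans (le_trans (le_trans (le_max_left _ _) (le_max_left _ _))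
        (le_max_right _ _)) hY
      have hY3' : X3 ≤ Y := le_trans (le_trans (le_trans (le_max_right _ _) (le_max_left _ _))
        (le_max_right _ _)) hY
      have hY3 : 1 ≤ Y := le_trans (le_trans (le_max_right _ _) (le_max_right _ _)) hY
      have hYr : (0 : ℝ) < Y := by exact_mod_cast hY3
      set S := (Finset.Ioc Y (2 * Y)).filter (fun d => Squarefree d ∧ ¬ GoodJ a (θ + ε) d) with hS
      set A := (Finset.Ioc Y (2 * Y)).filter (fun D => IsFund D ∧ BadJ a (θ + ε / 2) Y D) with hA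
      set B := (Finset.Ioc (4 * Y) (2 * (4 * Y))).filter
        (fun D => IsFund D ∧ BadJ a (θ + ε / 2) (4 * Y) D) with hB
      have hA' := hX0 Y hY0
      have hB' := hX0 (4 * Y) (by omega)
      have hinj : S.card ≤ (A ∪ B).card := by
        refine Finset.card_le_card_of_injOn Dof ?_ ?_
        · intro d hd
          rw [Finset.mem_coe] at hd ⊢
          obtain ⟨h1, h2, h3⟩ := Finset.mem_filter.1 hd
          obtain ⟨h4, h5⟩ := Finset.mem_Ioc.1 h1
          rw [Finset.mem_union]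
          by_cases h : d % 4 = 1
          · left
            have hDof : Dof d = d := by unfold Dof; rw [if_pos h]
            have hk := key Y hY2 hY3 d h4 h5 h2 h3 Y hY1 hY3' (by omega) (by omega)
            rw [hA, Finset.mem_filter, Finset.mem_Ioc]
            exact ⟨by rw [hDof]; exact ⟨h4, h5⟩, hk⟩
          · right
            have hDof : Dof d = 4 * d := by unfold Dof; rw [if_neg h]
            have hk := key Y hY2 hY3 d h4 h5 h2 h3 (4 * Y) (by omega) (by omega)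
              (by omega) (by omega)
            rw [hB, Finset.mem_filter, Finset.mem_Ioc]
            exact ⟨by rw [hDof]; omega, hk⟩
        · intro d _ d' _ hdd
          unfold Dof at hdd
          split_ifs at hdd <;> omega
      have h1 : (S.card : ℝ) ≤ A.card + B.card := by
        exact_mod_cast hinj.trans (Finset.card_union_le _ _)
      have h4Y : (((4 * Y : ℕ) : ℝ)) ^ κ = 4 ^ κ * (Y : ℝ) ^ κ := by
        push_cast
        rw [Real.mul_rpow (by norm_num) hYr.le]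
      show ((S.card : ℕ) : ℝ) ≤ (1 + 4 ^ κ) * (Y : ℝ) ^ κ
      rw [h4Y] at hB'
      linarith)
  obtain ⟨C, hC, hfin⟩ := hdy
  refine ⟨C, hC, fun X => ?_⟩
  rcases Nat.eq_zero_or_pos X with h0 | h0
  · subst h0
    have h1 := hfin 0
    have h2 : ((0 : ℕ) : ℝ) ^ κ = 0 := by
      rw [Nat.cast_zero]
      exact Real.zero_rpow hκ0.ne'
    rw [h2, mul_zero] at h1
    refine h1.trans ?_
    positivity
  · refine (hfin X).trans ?_
    have hXr : (1 : ℝ) ≤ X := by exact_mod_cast h0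
    have : (X : ℝ) ^ κ ≤ (X : ℝ) ^ (2 / a + ε) :=
      Real.rpow_le_rpow_of_exponent_le hXr (by linarith)
    gcongr

end Pool.Agent.R345.IY
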