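import Mathlib

set_option autoImplicit false

/-!
# Random polynomial images: the sparse block structure

Fix `d ≥ 3`. The levels are `lv d 0 = 64 (d + 1)`, `lv d (m+1) = 4 * 2 ^ lv d m`. The set `A` contains the integers
`i` such that for every `m` with `lv d m ≤ i < 2 ^ lv d m` the residue of `i` modulo `16 d (lv d m)` is
less than `lv d m`.
-/

namespace Pool.Agent.R345.NP

open Finset

/-- the levels -/
def lv (d : ℕ) : ℕ → ℕ
  | 0 => 64 * (d + 1)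
  | m + 1 => 4 * 2 ^ lv d m

/-- the block structured set -/
def InA (d i : ℕ) : Prop := ∀ m : ℕ, lv d m ≤ i → i < 2 ^ lv d m → i % (16 * d * lv d m) < lv d m

lemma lv_ge (d m : ℕ) : 64 ≤ lv d m := by
  induction m with
  | zero => rw [lv]; omega
  | succ m ih =>
    rw [lv]
    have : 2 ^ 64 ≤ 2 ^ lv d m := Nat.pow_le_pow_right (by norm_num) ih
    have h2 : (16 : ℕ) ≤ 2 ^ 64 := by norm_num
    omega

lemma lv_lt (d m : ℕ) : lv d m < 2 ^ lv d m := Nat.lt_two_pow_self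

lemma lv_succ (d m : ℕ) : lv d (m + 1) = 4 * 2 ^ lv d m := rfl

lemma lv_strictMono (d : ℕ) : StrictMono (lv d) := by
  apply strictMono_nat_of_lt_succ
  intro m
  rw [lv_succ]
  have := lv_lt d m
  omega

lemma four_dvd (d m : ℕ) : 4 ∣ lv d m := by
  cases m with
  | zero => exact ⟨16 * (d + 1), by rw [lv]; ring⟩
  | succ m => exact ⟨2 ^ lv d m, rfl⟩

lemma two_pow_le (d : ℕ) {m m' : ℕ} (h : m < m') : 4 * 2 ^ lv d m ≤ lv d m' := by
  have : lv d (m + 1) ≤ lv d m' := (lv_strictMono d).monotone h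
  rwa [lv_succ] at this

/-! ### The digits -/

/-- the elements of `A` below `2 ^ lv d m` have small residues -/
lemma mod_small {d i m : ℕ} (hd : 1 ≤ d) (h : InA d i) (hi : i < 2 ^ lv d m) :
    i % (16 * d * lv d m) < lv d m := by
  rcases Nat.lt_or_ge i (lv d m) with h1 | h1
  · have : i < 16 * d * lv d m := by nlinarith
    rw [Nat.mod_eq_of_lt this]
    exact h1
  · exact h m h1 hi

/-- a real number which is an even integer plus a number in `[0,1)` -/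
lemma floor_even {z : ℝ} (N : ℤ) (θ : ℝ) (h : z = 2 * N + θ) (h0 : 0 ≤ θ) (h1 : θ < 1) :
    ⌊z⌋ % 2 = 0 := by
  have : ⌊z⌋ = 2 * N := by
    rw [Int.floor_eq_iff]
    push_cast
    constructor <;> linarith
  rw [this]
  omega

/-- the key estimate for the digits of the power of a finite sum -/
lemma finite_part {d m : ℕ} (hd : 1 ≤ d) (S : Finset ℕ) (hS : ∀ i ∈ S, InA d i ∧ i < 2 ^ lv d m)
    (n t : ℕ) (hn1 : 16 * d * lv d m * t + d * lv d m ≤ n)
    (hn2 : n + 3 * d * lv d m ≤ 16 * d * lv d m * (t + 1)) :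
    ∃ (N : ℤ) (θ : ℝ), 0 ≤ θ ∧ θ ≤ 1 / 4 ∧
      2 ^ n * (∑ i ∈ S, (1 / 2 : ℝ) ^ i) ^ d = 2 * N + θ := by
  classical
  set q := 16 * d * lv d m with hq
  have hlv := lv_ge d m
  have hq0 : 0 < q := by positivity
  set PF := Fintype.piFinset (fun _ : Fin d => S) with hPF
  have hsum : 2 ^ n * (∑ i ∈ S, (1 / 2 : ℝ) ^ i) ^ d =
      ∑ φ ∈ PF, 2 ^ n * (1 / 2 : ℝ) ^ (∑ i, φ i) := by
    rw [Finset.sum_pow', Finset.mul_sum]
    refine Finset.sum_congr rfl fun φ _ => ?_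
    rw [Finset.prod_pow_eq_pow_sum]
  -- the block number
  have hsmall : ∀ φ ∈ PF, ∑ i, φ i ≤ q * (∑ i, φ i / q) + d * (lv d m - 1) := by
    intro φ hφ
    rw [Fintype.mem_piFinset] at hφ
    have h1 : ∑ i, φ i = q * (∑ i, φ i / q) + ∑ i, φ i % q := by
      rw [Finset.mul_sum, ← Finset.sum_add_distrib]
      exact Finset.sum_congr rfl fun i _ => (Nat.div_add_mod (φ i) q).symm
    have h2 : ∑ i : Fin d, φ i % q ≤ ∑ _i : Fin d, (lv d m - 1) := by
      apply Finset.sum_le_sum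
      intro i _
      have := mod_small hd (hS _ (hφ i)).1 (hS _ (hφ i)).2
      rw [← hq] at this
      omega
    rw [Finset.sum_const, Finset.card_univ, Fintype.card_fin, smul_eq_mul] at h2
    omega
  have hbig : ∀ φ ∈ PF, q * (∑ i, φ i / q) ≤ ∑ i, φ i := by
    intro φ _
    rw [Finset.mul_sum]
    exact Finset.sum_le_sum fun i _ => Nat.mul_div_le _ _
  have hcard : (PF.card : ℝ) ≤ 2 ^ (d * lv d m) := by
    rw [hPF, Fintype.card_piFinset, Finset.prod_const, Finset.card_univ, Fintype.card_fin]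
    have h1 : S.card ≤ 2 ^ lv d m := by
      have : S ⊆ Finset.range (2 ^ lv d m) := fun i hi => Finset.mem_range.2 (hS i hi).2
      simpa using Finset.card_le_card this
    have h2 : S.card ^ d ≤ (2 ^ lv d m) ^ d := Nat.pow_le_pow_left h1 d
    rw [← pow_mul, mul_comm (lv d m) d] at h2
    exact_mod_cast h2
  refine ⟨∑ φ ∈ PF.filter (fun φ => ∑ i, φ i / q ≤ t), 2 ^ (n - ∑ i, φ i - 1),
    ∑ φ ∈ PF.filter (fun φ => ¬ ∑ i, φ i / q ≤ t), 2 ^ n * (1 / 2 : ℝ) ^ (∑ i, φ i), ?_, ?_, ?_⟩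
  · positivity
  · have h1 : ∀ φ ∈ PF.filter (fun φ => ¬ ∑ i, φ i / q ≤ t),
        2 ^ n * (1 / 2 : ℝ) ^ (∑ i, φ i) ≤ (1 / 2 : ℝ) ^ (3 * d * lv d m) := by
      intro φ hφ
      rw [Finset.mem_filter, not_le] at hφ
      have h2 := hbig φ hφ.1
      have h3 : q * (t + 1) ≤ q * (∑ i, φ i / q) := Nat.mul_le_mul_left _ hφ.2
      have h4 : n + 3 * d * lv d m ≤ ∑ i, φ i := by omega
      have h5 : (1 / 2 : ℝ) ^ (∑ i, φ i) ≤ (1 / 2 : ℝ) ^ (n + 3 * d * lv d m) :=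
        pow_le_pow_of_le_one (by norm_num) (by norm_num) h4
      calc 2 ^ n * (1 / 2 : ℝ) ^ (∑ i, φ i) ≤ 2 ^ n * (1 / 2 : ℝ) ^ (n + 3 * d * lv d m) := by
            gcongr
        _ = (2 * (1 / 2 : ℝ)) ^ n * (1 / 2 : ℝ) ^ (3 * d * lv d m) := by
            rw [pow_add, mul_pow]; ring
        _ = (1 / 2 : ℝ) ^ (3 * d * lv d m) := by norm_num
    have h2 := Finset.sum_le_card_nsmul _ _ _ h1
    rw [nsmul_eq_mul] at h2
    have h3 : ((PF.filter (fun φ => ¬ ∑ i, φ i / q ≤ t)).card : ℝ) ≤ 2 ^ (d * lv d m) := by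
      refine le_trans ?_ hcard
      exact_mod_cast Finset.card_filter_le _ _
    calc _ ≤ _ := h2
      _ ≤ 2 ^ (d * lv d m) * (1 / 2 : ℝ) ^ (3 * d * lv d m) := by gcongr
      _ = (2 * (1 / 2 : ℝ)) ^ (d * lv d m) * (1 / 2 : ℝ) ^ (2 * d * lv d m) := by
          rw [mul_pow, show 3 * d * lv d m = d * lv d m + 2 * d * lv d m by ring, pow_add]; ring
      _ = (1 / 2 : ℝ) ^ (2 * d * lv d m) := by norm_num
      _ ≤ (1 / 2 : ℝ) ^ 2 := by
          apply pow_le_pow_of_le_one (by norm_num) (by norm_num)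
          nlinarith
      _ = 1 / 4 := by norm_num
  · rw [hsum, ← Finset.sum_filter_add_sum_filter_not PF (fun φ => ∑ i, φ i / q ≤ t)]
    congr 1
    push_cast
    rw [Finset.mul_sum]
    refine Finset.sum_congr rfl fun φ hφ => ?_
    rw [Finset.mem_filter] at hφ
    have h1 := hsmall φ hφ.1
    have h2 : q * (∑ i, φ i / q) ≤ q * t := Nat.mul_le_mul_left _ hφ.2
    have h3 : d * (lv d m - 1) + d = d * lv d m := by
      rw [← Nat.mul_succ]; congr 1; omega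
    have h4 : ∑ i, φ i + 1 ≤ n := by omega
    obtain ⟨r, hr⟩ := Nat.exists_eq_add_of_le h4
    have h5 : n - ∑ i, φ i - 1 = r := by omega
    rw [h5, hr]
    rw [show ∑ i, φ i + 1 + r = ∑ i, φ i + (r + 1) by ring, pow_add]
    calc (2 : ℝ) ^ (∑ i, φ i) * 2 ^ (r + 1) * (1 / 2) ^ (∑ i, φ i)
        = (2 * (1 / 2 : ℝ)) ^ (∑ i, φ i) * 2 ^ (r + 1) := by rw [mul_pow]; ring
      _ = 2 * 2 ^ r := by rw [pow_succ]; norm_num; ring

/-! ### Digits of the power of the full sum -/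

/-- the `n`-th digit in base `b` of the fractional part of `y`, `n ≥ 1` -/
noncomputable def digit (b : ℕ) (y : ℝ) (n : ℕ) : ℤ := ⌊y * (b : ℝ) ^ n⌋ % b

lemma pow_diff {X X1 X2 : ℝ} (h1 : 0 ≤ X1) (h2 : X1 ≤ X) (h3 : X ≤ 1) (h4 : X = X1 + X2) (k : ℕ) :
    X ^ k - X1 ^ k ≤ k * X2 := by
  have hX2 : 0 ≤ X2 := by linarith
  induction k with
  | zero => simp
  | succ k ih =>
    have e1 : X ^ (k + 1) - X1 ^ (k + 1) = X * (X ^ k - X1 ^ k) + (X - X1) * X1 ^ k := by ring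
    have h5 : 0 ≤ X ^ k - X1 ^ k := sub_nonneg.2 (pow_le_pow_left₀ h1 h2 k)
    have h6 : X1 ^ k ≤ 1 := pow_le_one₀ h1 (by linarith)
    have h7 : X * (X ^ k - X1 ^ k) ≤ 1 * (X ^ k - X1 ^ k) := mul_le_mul_of_nonneg_right h3 h5
    have h8 : (X - X1) * X1 ^ k ≤ X2 * 1 := by
      have : X - X1 = X2 := by rw [h4]; ring
      rw [this]
      exact mul_le_mul_of_nonneg_left h6 hX2
    rw [e1]
    push_cast
    linarith

lemma digit_zero {d m : ℕ} (hd : 1 ≤ d) (x : ℕ → ℕ) (hx1 : ∀ i, x i ≤ 1)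
    (hxA : ∀ i, x i ≠ 0 → InA d i) (hx0 : x 0 = 0) (n t : ℕ)
    (hn1 : 16 * d * lv d m * t + d * lv d m ≤ n)
    (hn2 : n + 3 * d * lv d m ≤ 16 * d * lv d m * (t + 1)) (hn3 : n + d + 3 ≤ 2 ^ lv d m) :
    digit 2 ((∑' i, (x i : ℝ) * (1 / 2 : ℝ) ^ i) ^ d) n = 0 := by
  classical
  obtain ⟨N, hN⟩ : ∃ N : ℕ, N = 2 ^ lv d m := ⟨_, rfl⟩
  rw [← hN] at hn3
  have hgeo : Summable (fun i : ℕ => (1 / 2 : ℝ) ^ i) := summable_geometric_two
  have hle : ∀ i, (x i : ℝ) * (1 / 2 : ℝ) ^ i ≤ (1 / 2 : ℝ) ^ i := by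
    intro i
    have h1 : (x i : ℝ) ≤ 1 := by exact_mod_cast hx1 i
    have h2 : (0 : ℝ) ≤ (1 / 2 : ℝ) ^ i := by positivity
    nlinarith
  have hs : Summable (fun i => (x i : ℝ) * (1 / 2 : ℝ) ^ i) :=
    Summable.of_nonneg_of_le (fun i => by positivity) hle hgeo
  set X := ∑' i, (x i : ℝ) * (1 / 2 : ℝ) ^ i with hX
  set S := (Finset.range N).filter (fun i => x i = 1) with hS
  set X1 := ∑ i ∈ S, (1 / 2 : ℝ) ^ i with hX1
  have hX1' : X1 = ∑ i ∈ Finset.range N, (x i : ℝ) * (1 / 2 : ℝ) ^ i := by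
    rw [hX1, hS, Finset.sum_filter]
    refine Finset.sum_congr rfl fun i _ => ?_
    have := hx1 i
    rcases Nat.lt_or_ge (x i) 1 with h | h
    · have h0 : x i = 0 := by omega
      rw [h0]; simp
    · have h0 : x i = 1 := by omega
      rw [h0]; simp
  have hsplit : X = X1 + ∑' i, (x (i + N) : ℝ) * (1 / 2 : ℝ) ^ (i + N) := by
    rw [hX1', hX]
    exact (hs.sum_add_tsum_nat_add N).symm
  set X2 := ∑' i, (x (i + N) : ℝ) * (1 / 2 : ℝ) ^ (i + N) with hX2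
  have hX2nn : 0 ≤ X2 := tsum_nonneg fun i => by positivity
  have hX2le : X2 ≤ 2 * (1 / 2 : ℝ) ^ N := by
    have h1 : X2 ≤ ∑' i : ℕ, (1 / 2 : ℝ) ^ i * (1 / 2 : ℝ) ^ N := by
      apply Summable.tsum_le_tsum
      · intro i
        rw [← pow_add]
        exact hle (i + N)
      · exact (summable_nat_add_iff N).2 hs
      · exact hgeo.mul_right _
    rw [tsum_mul_right, tsum_geometric_two] at h1
    exact h1
  have hX0 : 0 ≤ X := tsum_nonneg fun i => by positivity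
  have hX1nn : 0 ≤ X1 := by positivity
  have hXle : X ≤ 1 := by
    have h1 : X = ∑' i, (x (i + 1) : ℝ) * (1 / 2 : ℝ) ^ (i + 1) := by
      have h3 := hs.sum_add_tsum_nat_add 1
      rw [Finset.sum_range_one, hx0, Nat.cast_zero, zero_mul, zero_add] at h3
      exact h3.symm
    rw [h1]
    have h2 : ∑' i, (x (i + 1) : ℝ) * (1 / 2 : ℝ) ^ (i + 1) ≤ ∑' i : ℕ, (1 / 2 : ℝ) ^ i * (1 / 2) := by
      apply Summable.tsum_le_tsum
      · intro i
        rw [← pow_succ]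
        exact hle (i + 1)
      · exact (summable_nat_add_iff 1).2 hs
      · exact hgeo.mul_right _
    rw [tsum_mul_right, tsum_geometric_two] at h2
    linarith
  have hX1X : X1 ≤ X := by linarith
  obtain ⟨M, θ, hθ0, hθ1, hM⟩ := finite_part hd S (fun i hi => by
    rw [hS, Finset.mem_filter, Finset.mem_range] at hi
    exact ⟨hxA i (by omega), by rw [← hN]; exact hi.1⟩) n t hn1 hn2
  -- the difference
  have hdiff0 : 0 ≤ X ^ d - X1 ^ d := sub_nonneg.2 (pow_le_pow_left₀ hX1nn hX1X d)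
  have hdiff : X ^ d - X1 ^ d ≤ d * X2 := pow_diff hX1nn hX1X hXle hsplit d
  have h2n : (2 : ℝ) ^ n * (X ^ d - X1 ^ d) ≤ 1 / 4 := by
    have h1 : (2 : ℝ) ^ n * (X ^ d - X1 ^ d) ≤ 2 ^ n * (d * (2 * (1 / 2 : ℝ) ^ N)) := by
      have : X ^ d - X1 ^ d ≤ d * (2 * (1 / 2 : ℝ) ^ N) := by
        refine hdiff.trans ?_
        gcongr
      gcongr
    refine h1.trans ?_
    have h2 : (1 / 2 : ℝ) ^ N ≤ (1 / 2 : ℝ) ^ (n + d + 3) :=
      pow_le_pow_of_le_one (by norm_num) (by norm_num) hn3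
    have h3 : (d : ℝ) ≤ 2 ^ d := by
      have : d ≤ 2 ^ d := Nat.lt_two_pow_self.le
      exact_mod_cast this
    have h4 : (2 : ℝ) ^ n * (d * (2 * (1 / 2 : ℝ) ^ N)) ≤
        2 ^ n * (2 ^ d * (2 * (1 / 2 : ℝ) ^ (n + d + 3))) := by gcongr
    refine h4.trans (le_of_eq ?_)
    rw [show n + d + 3 = n + (d + 3) by ring, pow_add, pow_add (1 / 2 : ℝ) d 3]
    have e1 : (2 : ℝ) ^ n * (1 / 2) ^ n = 1 := by rw [← mul_pow]; norm_num
    have e2 : (2 : ℝ) ^ d * (1 / 2) ^ d = 1 := by rw [← mul_pow]; norm_num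
    calc (2 : ℝ) ^ n * (2 ^ d * (2 * ((1 / 2) ^ n * ((1 / 2) ^ d * (1 / 2) ^ 3))))
        = ((2 : ℝ) ^ n * (1 / 2) ^ n) * ((2 : ℝ) ^ d * (1 / 2) ^ d) * (2 * (1 / 2) ^ 3) := by ring
      _ = 1 / 4 := by rw [e1, e2]; norm_num
  have hfin : X ^ d * ((2 : ℕ) : ℝ) ^ n = 2 * M + (θ + 2 ^ n * (X ^ d - X1 ^ d)) := by
    push_cast
    linear_combination hM
  unfold digit
  rw [hfin]
  exact floor_even M _ rfl (by positivity) (by linarith)

end Pool.Agent.R345.NP
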