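import Pool.Agent.R345.NPDefs

set_option autoImplicit false

namespace Pool.Agent.R345.NP

open Finset Filter Topology

/-- The real number `y` is normal in base `b`: every word `w` of length `k ≥ 1` starts, in the base `b`
digit sequence of (the fractional part of) `y`, with asymptotic frequency `b ^ (-k)`. -/
def Normal (b : ℕ) (y : ℝ) : Prop :=
  ∀ k : ℕ, 1 ≤ k → ∀ w : Fin k → Fin b,
    Tendsto (fun N : ℕ => (((Finset.Icc 1 N).filter
        (fun n => ∀ i : Fin k, digit b y (n + i) = ((w i : ℕ) : ℤ))).card : ℝ) / N)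
      atTop (𝓝 (((b : ℝ) ^ k)⁻¹))

lemma sq_le_two_pow {a : ℕ} (h : 4 ≤ a) : a * a ≤ 2 ^ a := by
  induction a, h using Nat.le_induction with
  | base => norm_num
  | succ a h ih =>
    rw [pow_succ]
    nlinarith

lemma le_lv (d m : ℕ) : m ≤ lv d m := (lv_strictMono d).id_le m

lemma large (d : ℕ) : ∀ m : ℕ, 200 * d ≤ m → 200 * d * lv d m ≤ 2 ^ lv d m := by
  intro m hm
  have h1 := le_lv d m
  have h2 := sq_le_two_pow (a := lv d m) (by have := lv_ge d m; omega)
  exact le_trans (Nat.mul_le_mul_right _ (hm.trans h1)) h2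

lemma many_zeros {d m : ℕ} (hd : 1 ≤ d) (hm : 200 * d ≤ m) (x : ℕ → ℕ) (hx1 : ∀ i, x i ≤ 1)
    (hxA : ∀ i, x i ≠ 0 → InA d i) (hx0 : x 0 = 0) :
    5 * 2 ^ lv d m ≤ 8 * ((Finset.Icc 1 (2 ^ lv d m)).filter (fun n =>
      digit 2 ((∑' i, (x i : ℝ) * (1 / 2 : ℝ) ^ i) ^ d) n = 0)).card := by
  classical
  have hlarge := large d m hm
  have ha := lv_ge d m
  have hz := fun n t h1 h2 h3 => digit_zero (m := m) hd x hx1 hxA hx0 n t h1 h2 h3
  generalize (∑' i, (x i : ℝ) * (1 / 2 : ℝ) ^ i) ^ d = Y at hz ⊢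
  generalize lv d m = a at hlarge ha hz ⊢
  generalize 2 ^ a = N at hlarge hz ⊢
  have hda : 64 * d ≤ d * a := by nlinarith
  set q := 16 * d * a with hq
  have hq0 : 0 < q := by positivity
  set T := (N - d - 3) / q with hT
  have hTq : q * T ≤ N - d - 3 := Nat.mul_div_le _ _
  have hTq2 : N - d - 3 < q * T + q := by
    have := Nat.lt_mul_div_succ (N - d - 3) hq0
    rw [Nat.mul_succ] at this
    exact this
  have hcard : T * (12 * (d * a)) ≤ ((Finset.Icc 1 N).filter (fun n => digit 2 Y n = 0)).card := by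
    have h1 : ((Finset.range T) ×ˢ (Finset.range (12 * (d * a)))).card = T * (12 * (d * a)) := by
      rw [card_product, card_range, card_range]
    rw [← h1]
    apply Finset.card_le_card_of_injOn (fun z => q * z.1 + d * a + z.2)
    · intro z hz'
      rw [mem_coe, mem_product, mem_range, mem_range] at hz'
      have h2 : q * (z.1 + 1) ≤ q * T := Nat.mul_le_mul_left _ hz'.1
      rw [Nat.mul_succ] at h2
      have h3 : q = 16 * (d * a) := by rw [hq]; ring
      rw [mem_coe, mem_filter, mem_Icc]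
      dsimp only
      refine ⟨⟨by omega, by omega⟩, ?_⟩
      refine hz _ z.1 (by omega) ?_ (by omega)
      rw [Nat.mul_succ, show 3 * d * a = 3 * (d * a) by ring]
      omega
    · intro z hz1 z' hz2 he
      rw [mem_coe, mem_product, mem_range, mem_range] at hz1 hz2
      have h3 : q = 16 * (d * a) := by rw [hq]; ring
      have he' : q * z.1 + (d * a + z.2) = q * z'.1 + (d * a + z'.2) := by
        have : q * z.1 + d * a + z.2 = q * z'.1 + d * a + z'.2 := he
        omega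
      have h4 : z.1 = z'.1 := by
        have e1 : (q * z.1 + (d * a + z.2)) / q = z.1 := by
          rw [Nat.mul_add_div hq0, Nat.div_eq_of_lt (by omega), add_zero]
        have e2 : (q * z'.1 + (d * a + z'.2)) / q = z'.1 := by
          rw [Nat.mul_add_div hq0, Nat.div_eq_of_lt (by omega), add_zero]
        rw [← e1, ← e2, he']
      have h5 : z.2 = z'.2 := by
        rw [h4] at he'
        omega
      exact Prod.ext h4 h5
  have h6 : q * T = 16 * (T * (d * a)) := by rw [hq]; ring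
  have h7 : T * (12 * (d * a)) = 12 * (T * (d * a)) := by ring
  have h8 : q = 16 * (d * a) := by rw [hq]; ring
  have h9 : 200 * d * a = 200 * (d * a) := by ring
  omega

/-- the power of the number is not normal in base `2` -/
theorem not_normal {d : ℕ} (hd : 1 ≤ d) (x : ℕ → ℕ) (hx1 : ∀ i, x i ≤ 1)
    (hxA : ∀ i, x i ≠ 0 → InA d i) (hx0 : x 0 = 0) :
    ¬ Normal 2 ((∑' i, (x i : ℝ) * (1 / 2 : ℝ) ^ i) ^ d) := by
  intro h
  have h1 := h 1 le_rfl (fun _ => 0)
  have hmono : Tendsto (fun m : ℕ => 2 ^ lv d m) atTop atTop := by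
    apply StrictMono.tendsto_atTop
    intro m m' hmm
    exact Nat.pow_lt_pow_right (by norm_num) (lv_strictMono d hmm)
  have h2 := h1.comp hmono
  have h3 : ∀ᶠ m : ℕ in atTop, (5 / 8 : ℝ) ≤ (((Finset.Icc 1 (2 ^ lv d m)).filter
      (fun n => ∀ i : Fin 1, digit 2 ((∑' i, (x i : ℝ) * (1 / 2 : ℝ) ^ i) ^ d) (n + i) =
        (((0 : Fin 2) : ℕ) : ℤ))).card : ℝ) / ((2 ^ lv d m : ℕ) : ℝ) := by
    filter_upwards [eventually_ge_atTop (200 * d)] with m hm
    have h4 := many_zeros hd hm x hx1 hxA hx0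
    have h5 : (Finset.Icc 1 (2 ^ lv d m)).filter (fun n =>
        digit 2 ((∑' i, (x i : ℝ) * (1 / 2 : ℝ) ^ i) ^ d) n = 0) =
        (Finset.Icc 1 (2 ^ lv d m)).filter
      (fun n => ∀ i : Fin 1, digit 2 ((∑' i, (x i : ℝ) * (1 / 2 : ℝ) ^ i) ^ d) (n + i) =
        (((0 : Fin 2) : ℕ) : ℤ)) := by
      apply Finset.filter_congr
      intro n _
      simp
    rw [h5] at h4
    have hN : (0 : ℝ) < ((2 ^ lv d m : ℕ) : ℝ) := by positivity
    rw [le_div_iff₀ hN]
    have h6 : (5 : ℝ) * ((2 ^ lv d m : ℕ) : ℝ) ≤ 8 * ((((Finset.Icc 1 (2 ^ lv d m)).filter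
      (fun n => ∀ i : Fin 1, digit 2 ((∑' i, (x i : ℝ) * (1 / 2 : ℝ) ^ i) ^ d) (n + i) =
        (((0 : Fin 2) : ℕ) : ℤ))).card : ℕ) : ℝ) := by exact_mod_cast h4
    linarith
  have h4 := ge_of_tendsto h2 h3
  norm_num at h4

end Pool.Agent.R345.NP
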