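import Pool.Agent.R345.NPLow

set_option autoImplicit false

namespace Pool.Agent.R345.NP

open Finset Filter Topology

/-- removing the two forbidden indices -/
lemma remove_two (J0 : Finset ℕ) (f σ : ℕ) (h : ∀ i ∈ J0, i ≤ σ) :
    ∃ J ⊆ J0, (∀ i ∈ J, i ≠ f ∧ σ - i ≠ f) ∧ J0.card ≤ J.card + 2 := by
  classical
  refine ⟨(J0.erase f).erase (σ - f), fun i hi => ?_, fun i hi => ?_, ?_⟩
  · exact Finset.mem_of_mem_erase (Finset.mem_of_mem_erase hi)
  · rw [Finset.mem_erase, Finset.mem_erase] at hi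
    have := h i hi.2.2
    refine ⟨hi.2.1, fun h2 => hi.1 (by omega)⟩
  · have h1 := Finset.pred_card_le_card_erase (s := J0) (a := f)
    have h2 := Finset.pred_card_le_card_erase (s := J0.erase f) (a := σ - f)
    omega

/-- the case of small `s` -/
lemma caseII {d b s : ℕ} (hd : 3 ≤ d) (hb : 16 * (d + 1) ≤ b) (h1 : 4 * b ≤ s)
    (h2 : s < 128 * d * b) :
    ∃ (J : Finset ℕ) (f σ : ℕ), s = σ + f ∧ d - 2 ≤ f ∧
      (f = d - 2 ∨ ∃ t, 1 ≤ t ∧ t ≤ 64 * d ∧ f = t * (2 * b)) ∧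
      (∀ i ∈ J, b ≤ i ∧ 2 * i < σ ∧ i ≠ f ∧ σ - i ≠ f ∧ i < 4 * b ∧ σ - i < 4 * b) ∧
      s ≤ 256 * d * J.card := by
  classical
  obtain ⟨f, σ, hs, hf, hft, hσ1, hσ2⟩ : ∃ f σ : ℕ, s = σ + f ∧ d - 2 ≤ f ∧
      (f = d - 2 ∨ ∃ t, 1 ≤ t ∧ t ≤ 64 * d ∧ f = t * (2 * b)) ∧ 4 * b ≤ σ + d ∧ σ < 6 * b := by
    rcases Nat.lt_or_ge s (6 * b) with h | h
    · exact ⟨d - 2, s - (d - 2), by omega, le_rfl, Or.inl rfl, by omega, by omega⟩
    · set t := (s - 4 * b) / (2 * b) with ht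
      have hb0 : 0 < 2 * b := by omega
      have h3 : 2 * b * t ≤ s - 4 * b := Nat.mul_div_le _ _
      have h4 : s - 4 * b < 2 * b * (t + 1) := Nat.lt_mul_div_succ _ hb0
      have h5 : 1 ≤ t := by
        rw [ht, Nat.le_div_iff_mul_le hb0]
        omega
      have h6 : t < 64 * d := by
        by_contra hcon
        push Not at hcon
        have h7 : 2 * b * (64 * d) ≤ 2 * b * t := Nat.mul_le_mul_left _ hcon
        have h8 : 2 * b * (64 * d) = 128 * d * b := by ring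
        omega
      have h7 : 2 * b * 1 ≤ 2 * b * t := Nat.mul_le_mul_left _ h5
      rw [Nat.mul_succ] at h4
      refine ⟨t * (2 * b), s - t * (2 * b), ?_, ?_, Or.inr ⟨t, h5, h6.le, rfl⟩, ?_, ?_⟩
      all_goals rw [mul_comm t (2 * b)]; omega
  set J0 := Finset.Ico (max b (σ - 4 * b + 1)) ((σ + 1) / 2) with hJ0
  obtain ⟨J, hJ, hJ2, hcard⟩ := remove_two J0 f σ (fun i hi => by
    rw [hJ0, mem_Ico] at hi
    omega)
  refine ⟨J, f, σ, hs, hf, hft, fun i hi => ?_, ?_⟩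
  · have h3 := hJ hi
    rw [hJ0, mem_Ico] at h3
    have h4 := hJ2 i hi
    refine ⟨by omega, by omega, h4.1, h4.2, by omega, by omega⟩
  · rw [hJ0, Nat.card_Ico] at hcard
    have h5 : b ≤ 2 * J.card := by omega
    have h6 : d * b ≤ d * (2 * J.card) := Nat.mul_le_mul_left _ h5
    have h7 : 128 * d * b = 128 * (d * b) := by ring
    have h8 : 256 * d * J.card = 128 * (d * (2 * J.card)) := by ring
    omega

/-- the case of large `s` -/
lemma caseI {d b s : ℕ} (hd : 3 ≤ d) (hb : 16 * (d + 1) ≤ b) (h1 : 128 * d * b ≤ s) :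
    ∃ (J : Finset ℕ) (f σ : ℕ), s = σ + f ∧ d - 2 ≤ f ∧
      (∃ t, 1 ≤ t ∧ t ≤ 64 * d ∧ f = t * (2 * b)) ∧
      (∀ i ∈ J, b ≤ i ∧ 2 * i < σ ∧ i ≠ f ∧ σ - i ≠ f ∧ i % (64 * d * b) < 4 * b ∧
        (σ - i) % (64 * d * b) < 4 * b) ∧
      s ≤ 384 * d * J.card := by
  classical
  set q := 64 * d * b with hq
  have hb00 : 0 < b := by omega
  have hd00 : 0 < d := by omega
  have hq0 : 0 < q := by positivity
  have hqb : 192 * b ≤ q := by
    rw [hq]
    have : 64 * 3 * b ≤ 64 * d * b := by gcongr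
    omega
  obtain ⟨k, hk⟩ : ∃ k, k = s / q := ⟨_, rfl⟩
  have hk1 : q * k ≤ s := by rw [hk]; exact Nat.mul_div_le _ _
  have hk2 : s < q * (k + 1) := by rw [hk]; exact Nat.lt_mul_div_succ _ hq0
  have hk3 : 2 ≤ k := by
    rw [hk, Nat.le_div_iff_mul_le hq0]
    have : 2 * q = 128 * d * b := by rw [hq]; ring
    omega
  clear hk
  obtain ⟨k', rfl⟩ : ∃ k', k = k' + 1 := ⟨k - 1, by omega⟩
  have hk' : 1 ≤ k' := by omega
  have e1 : q * (k' + 1) = q * k' + q := by ring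
  have e2 : q * (k' + 1 + 1) = q * k' + 2 * q := by ring
  rw [e1] at hk1
  rw [e2] at hk2
  obtain ⟨ρ, hρ⟩ : ∃ ρ, s = q * k' + ρ := ⟨s - q * k', by omega⟩
  have hρ1 : q ≤ ρ := by omega
  have hρ2 : ρ < 2 * q := by omega
  set t := (ρ - 4 * b) / (2 * b) with ht
  have hb0 : 0 < 2 * b := by omega
  have h3 : 2 * b * t ≤ ρ - 4 * b := Nat.mul_div_le _ _
  have h4 : ρ - 4 * b < 2 * b * (t + 1) := Nat.lt_mul_div_succ _ hb0
  have h5 : 1 ≤ t := by
    rw [ht, Nat.le_div_iff_mul_le hb0]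
    omega
  have h6 : t < 64 * d := by
    by_contra hcon
    push Not at hcon
    have h7 : 2 * b * (64 * d) ≤ 2 * b * t := Nat.mul_le_mul_left _ hcon
    have h8 : 2 * b * (64 * d) = 2 * q := by rw [hq]; ring
    omega
  have h7 : 2 * b * 1 ≤ 2 * b * t := Nat.mul_le_mul_left _ h5
  rw [Nat.mul_succ] at h4
  set f := 2 * b * t with hf
  obtain ⟨σ0, hσ0⟩ : ∃ σ0, ρ = σ0 + f := ⟨ρ - f, by omega⟩
  have hσ1 : 4 * b ≤ σ0 := by omega
  have hσ2 : σ0 < 6 * b := by omega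
  set σ := q * k' + σ0 with hσ
  set J0 := ((Finset.range ((k' + 1) / 2)) ×ˢ (Finset.Ico (2 * b) (4 * b))).image
    (fun z => q * z.1 + z.2) with hJ0
  have hmem : ∀ i ∈ J0, ∃ k1 r1, 2 * k1 < k' ∧ 2 * b ≤ r1 ∧ r1 < 4 * b ∧ i = q * k1 + r1 := by
    intro i hi
    rw [hJ0, mem_image] at hi
    obtain ⟨z, hz, rfl⟩ := hi
    rw [mem_product, mem_range, mem_Ico] at hz
    exact ⟨z.1, z.2, by omega, hz.2.1, hz.2.2, rfl⟩
  have hle : ∀ i ∈ J0, 2 * i < σ := by
    intro i hi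
    obtain ⟨k1, r1, g1, g2, g3, rfl⟩ := hmem i hi
    have g4 : q * (2 * k1 + 1) ≤ q * k' := Nat.mul_le_mul_left _ (by omega)
    have g5 : q * (2 * k1 + 1) = 2 * (q * k1) + q := by ring
    omega
  obtain ⟨J, hJ, hJ2, hcard⟩ := remove_two J0 f σ (fun i hi => by
    have := hle i hi
    omega)
  have hcard0 : J0.card = (k' + 1) / 2 * (2 * b) := by
    rw [hJ0, Finset.card_image_of_injOn, card_product, card_range, Nat.card_Ico]
    · congr 1
      omega
    · intro z hz z' hz' he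
      rw [mem_coe, mem_product, mem_range, mem_Ico] at hz hz'
      have he' : q * z.1 + z.2 = q * z'.1 + z'.2 := he
      have g1 : z.1 = z'.1 := by
        have a1 : (q * z.1 + z.2) / q = z.1 := by
          rw [Nat.mul_add_div hq0, Nat.div_eq_of_lt (by omega), add_zero]
        have a2 : (q * z'.1 + z'.2) / q = z'.1 := by
          rw [Nat.mul_add_div hq0, Nat.div_eq_of_lt (by omega), add_zero]
        rw [← a1, ← a2, he']
      have g2 : z.2 = z'.2 := by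
        rw [g1] at he'
        omega
      exact Prod.ext g1 g2
  refine ⟨J, f, σ, by omega, by omega, ⟨t, h5, h6.le, by rw [hf]; ring⟩, fun i hi => ?_, ?_⟩
  · have g0 := hJ2 i hi
    have gl := hle i (hJ hi)
    obtain ⟨k1, r1, g1, g2, g3, rfl⟩ := hmem i (hJ hi)
    obtain ⟨k2, hk2'⟩ : ∃ k2, k' = k1 + k2 := ⟨k' - k1, by omega⟩
    have g4 : σ - (q * k1 + r1) = q * k2 + (σ0 - r1) := by
      have : q * k' = q * k1 + q * k2 := by rw [hk2']; ring
      omega
    refine ⟨?_, gl, g0.1, g0.2, ?_, ?_⟩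
    · have : 0 ≤ q * k1 := Nat.zero_le _
      omega
    · rw [Nat.mul_add_mod, Nat.mod_eq_of_lt (by omega)]
      exact g3
    · rw [g4, Nat.mul_add_mod, Nat.mod_eq_of_lt (by omega)]
      omega
  · have g1 : k' * b ≤ (k' + 1) / 2 * (2 * b) := by
      have : k' ≤ (k' + 1) / 2 * 2 := by omega
      calc k' * b ≤ ((k' + 1) / 2 * 2) * b := Nat.mul_le_mul_right _ this
        _ = (k' + 1) / 2 * (2 * b) := by ring
    have g2 : 1 * b ≤ k' * b := Nat.mul_le_mul_right _ hk'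
    have g3 : k' * b ≤ 2 * J.card := by omega
    have g4 : q * 1 ≤ q * k' := Nat.mul_le_mul_left _ hk'
    have g5 : s ≤ 3 * (q * k') := by omega
    have g6 : q * k' = 64 * d * (k' * b) := by rw [hq]; ring
    have g7 : 64 * d * (k' * b) ≤ 64 * d * (2 * J.card) := Nat.mul_le_mul_left _ g3
    have g8 : 384 * d * J.card = 3 * (64 * d * (2 * J.card)) := by ring
    omega

/-- the lower bound for `R_d` -/
lemma R_lower {d m s : ℕ} (hd : 3 ≤ d) (hm : 200 * d ≤ m) (h1 : lv d (m + 1) ≤ s)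
    (h2 : s < lv d (m + 2)) :
    (1 / 4 : ℝ) ^ (d - 1) * ((1 / 2 : ℝ) ^ (m + 1) / (512 * d)) * (s / (384 * d)) ≤
      R d (pr d) (s + ∑ g ∈ Finset.Icc 1 (d - 3), g) := by
  obtain ⟨b, hb⟩ := four_dvd d (m + 1)
  have hlarge := large d (m + 1) (by omega)
  have hb1 : 16 * (d + 1) ≤ b := by
    have h3 : lv d 0 ≤ lv d (m + 1) := (lv_strictMono d).monotone (Nat.zero_le _)
    rw [lv] at h3
    omega
  have hd0 : (0 : ℝ) < d := by exact_mod_cast (by omega : 0 < d)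
  have hq : 16 * d * lv d (m + 1) = 64 * d * b := by rw [hb]; ring
  obtain ⟨J, f, σ, hs, hf, hft, hJ, hcard⟩ : ∃ (J : Finset ℕ) (f σ : ℕ), s = σ + f ∧ d - 2 ≤ f ∧
      (f = d - 2 ∨ ∃ t, 1 ≤ t ∧ t ≤ 64 * d ∧ f = t * (2 * b)) ∧
      (∀ i ∈ J, b ≤ i ∧ 2 * i < σ ∧ i ≠ f ∧ σ - i ≠ f ∧ i % (64 * d * b) < 4 * b ∧
        (σ - i) % (64 * d * b) < 4 * b) ∧ s ≤ 384 * d * J.card := by
    rcases Nat.lt_or_ge s (128 * d * b) with h | h
    · obtain ⟨J, f, σ, a1, a2, a3, a4, a5⟩ := caseII hd hb1 (by omega) h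
      have hqb : 192 * b ≤ 64 * d * b := by
        have : 64 * 3 * b ≤ 64 * d * b := by gcongr
        omega
      refine ⟨J, f, σ, a1, a2, a3, fun i hi => ?_, ?_⟩
      · obtain ⟨b1, b2, b3, b4, b5, b6⟩ := a4 i hi
        refine ⟨b1, b2, b3, b4, ?_, ?_⟩
        · rw [Nat.mod_eq_of_lt (by omega)]; exact b5
        · rw [Nat.mod_eq_of_lt (by omega)]; exact b6
      · refine a5.trans ?_
        have : 256 * d * J.card ≤ 384 * d * J.card := by gcongr; norm_num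
        exact this
    · obtain ⟨J, f, σ, a1, a2, a3, a4, a5⟩ := caseI hd hb1 h
      exact ⟨J, f, σ, a1, a2, Or.inr a3, a4, a5⟩
  have hfb : f < 2 ^ lv d (m + 1) := by
    rcases hft with h | ⟨t, h3, h4, h5⟩
    · have h6 := lv_lt d (m + 1)
      omega
    · have h6 : t * (2 * b) ≤ 64 * d * (2 * b) := Nat.mul_le_mul_right _ h4
      have h7 : 200 * d * lv d (m + 1) = 800 * (d * b) := by rw [hb]; ring
      have h8 : 64 * d * (2 * b) = 128 * (d * b) := by ring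
      have h9 : 1 * 1 ≤ d * b := Nat.mul_le_mul (by omega) (by omega)
      omega
  have hη : (1 / 2 : ℝ) ^ (m + 1) / (512 * d) ≤ pr d f * (1 - pr d f) := by
    apply v_ge (by omega) _ hfb
    rcases hft with h | ⟨t, h3, h4, h5⟩
    · left
      exact inA_small (by omega)
    · right
      refine ⟨m + 1, t, h3, h4, ?_⟩
      rw [hb, h5]
      ring
  have key := R_ge hd (pr d) (pr_mem d) J f σ _ hf hη
    (fun i _ hi => pr_A (inA_small hi)) (fun i hi => by
      obtain ⟨b1, b2, b3, b4, b5, b6⟩ := hJ i hi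
      refine ⟨by omega, b2, b3, b4, pr_A ?_, pr_A ?_⟩
      · apply inA_of (m := m)
        · omega
        · omega
        · rw [hq, hb]; exact b5
      · apply inA_of (m := m)
        · omega
        · omega
        · rw [hq, hb]; exact b6)
  rw [← hs] at key
  refine le_trans ?_ key
  have h3 : (s : ℝ) / (384 * d) ≤ J.card := by
    rw [div_le_iff₀ (by positivity)]
    have : (s : ℝ) ≤ ((384 * d * J.card : ℕ) : ℝ) := by exact_mod_cast hcard
    push_cast at this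
    linarith
  exact mul_le_mul_of_nonneg_left h3 (by positivity)

end Pool.Agent.R345.NP
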