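import Pool.Agent.R345.NPDigits

set_option autoImplicit false

namespace Pool.Agent.R345.NP

open Finset Filter Topology

/-- `R_d(s)`: the sum of the products `v_{i_1} ⋯ v_{i_d}`, `v_i = p_i (1 - p_i)`, over all
`1 ≤ i_1 < ⋯ < i_d` with `i_1 + ⋯ + i_d = s` (that is, over the sets `{i_1, ..., i_d}`). -/
noncomputable def R (d : ℕ) (p : ℕ → ℝ) (s : ℕ) : ℝ :=
  ∑ I ∈ ((Finset.Icc 1 s).powersetCard d).filter (fun I => ∑ i ∈ I, i = s),
    ∏ i ∈ I, p i * (1 - p i)

lemma R_ge {d : ℕ} (hd : 3 ≤ d) (p : ℕ → ℝ) (hp : ∀ i, 0 ≤ p i ∧ p i ≤ 1) (J : Finset ℕ)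
    (f σ : ℕ) (η : ℝ) (hf : d - 2 ≤ f) (hη : η ≤ p f * (1 - p f))
    (hG : ∀ i, 1 ≤ i → i < 64 * (d + 1) → p i = 1 / 2)
    (hJ : ∀ i ∈ J, d ≤ i ∧ 2 * i < σ ∧ i ≠ f ∧ σ - i ≠ f ∧ p i = 1 / 2 ∧ p (σ - i) = 1 / 2) :
    (1 / 4 : ℝ) ^ (d - 1) * η * J.card ≤ R d p (σ + f + ∑ g ∈ Finset.Icc 1 (d - 3), g) := by
  classical
  set G := Finset.Icc 1 (d - 3) with hGdef
  set I : ℕ → Finset ℕ := fun i => insert f (insert i (insert (σ - i) G)) with hI
  have hvn : ∀ i, 0 ≤ p i * (1 - p i) := fun i =>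
    mul_nonneg (hp i).1 (sub_nonneg.2 (hp i).2)
  have hmemG : ∀ x, x ∈ G ↔ 1 ≤ x ∧ x ≤ d - 3 := fun x => by rw [hGdef, mem_Icc]
  have n1 : ∀ i ∈ J, σ - i ∉ G := by
    intro i hi h
    have h1 := (hmemG _).1 h
    have h2 := hJ i hi
    omega
  have n2 : ∀ i ∈ J, i ∉ insert (σ - i) G := by
    intro i hi h
    have h2 := hJ i hi
    rcases Finset.mem_insert.1 h with h1 | h1
    · omega
    · have := (hmemG _).1 h1
      omega
  have n3 : ∀ i ∈ J, f ∉ insert i (insert (σ - i) G) := by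
    intro i hi h
    have h2 := hJ i hi
    rcases Finset.mem_insert.1 h with h1 | h1
    · omega
    · rcases Finset.mem_insert.1 h1 with h3 | h3
      · omega
      · have := (hmemG _).1 h3
        omega
  have hcardG : G.card = d - 3 := by rw [hGdef, Nat.card_Icc]; omega
  have hprod : ∀ i ∈ J, (1 / 4 : ℝ) ^ (d - 1) * η ≤ ∏ k ∈ I i, p k * (1 - p k) := by
    intro i hi
    have h2 := hJ i hi
    rw [hI]
    dsimp only
    rw [Finset.prod_insert (n3 i hi), Finset.prod_insert (n2 i hi), Finset.prod_insert (n1 i hi),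
      h2.2.2.2.2.1, h2.2.2.2.2.2]
    have h3 : ∏ k ∈ G, p k * (1 - p k) = (1 / 4 : ℝ) ^ (d - 3) := by
      rw [Finset.prod_congr rfl (g := fun _ => (1 / 4 : ℝ)), Finset.prod_const, hcardG]
      intro k hk
      have h4 := (hmemG _).1 hk
      rw [hG k h4.1 (by omega)]
      norm_num
    rw [h3]
    have h4 : (1 / 4 : ℝ) ^ (d - 1) = (1 / 4) * (1 / 4) * (1 / 4) ^ (d - 3) := by
      rw [show d - 1 = (d - 3) + 2 by omega, pow_add]; ring
    rw [h4]
    have h5 : (0 : ℝ) ≤ (1 / 4) ^ (d - 3) := by positivity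
    nlinarith
  have hinj : Set.InjOn I (J : Set ℕ) := by
    intro i hi i' hi' h
    have h1 := hJ i hi
    have h2 := hJ i' hi'
    have h3 : i ∈ I i' := by
      rw [← h, hI]
      exact mem_insert_of_mem (mem_insert_self _ _)
    rw [hI] at h3
    rcases Finset.mem_insert.1 h3 with h4 | h4
    · omega
    · rcases Finset.mem_insert.1 h4 with h5 | h5
      · exact h5
      · rcases Finset.mem_insert.1 h5 with h6 | h6
        · omega
        · have := (hmemG _).1 h6
          omega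
  have hsub : J.image I ⊆ ((Finset.Icc 1 (σ + f + ∑ g ∈ G, g)).powersetCard d).filter
      (fun I => ∑ i ∈ I, i = σ + f + ∑ g ∈ G, g) := by
    intro K hK
    obtain ⟨i, hi, rfl⟩ := Finset.mem_image.1 hK
    have h1 := hJ i hi
    have hsumI : ∑ k ∈ I i, k = σ + f + ∑ g ∈ G, g := by
      rw [hI]
      dsimp only
      rw [Finset.sum_insert (n3 i hi), Finset.sum_insert (n2 i hi), Finset.sum_insert (n1 i hi)]
      omega
    rw [mem_filter, mem_powersetCard]
    refine ⟨⟨?_, ?_⟩, hsumI⟩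
    · intro x hx
      rw [mem_Icc]
      constructor
      · rw [hI] at hx
        rcases Finset.mem_insert.1 hx with h4 | h4
        · omega
        · rcases Finset.mem_insert.1 h4 with h5 | h5
          · omega
          · rcases Finset.mem_insert.1 h5 with h6 | h6
            · omega
            · exact ((hmemG _).1 h6).1
      · rw [← hsumI]
        exact Finset.single_le_sum (f := fun k => k) (fun _ _ => Nat.zero_le _) hx
    · rw [hI]
      dsimp only
      rw [Finset.card_insert_of_notMem (n3 i hi), Finset.card_insert_of_notMem (n2 i hi),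
        Finset.card_insert_of_notMem (n1 i hi), hcardG]
      omega
  calc (1 / 4 : ℝ) ^ (d - 1) * η * J.card = ∑ _i ∈ J, (1 / 4 : ℝ) ^ (d - 1) * η := by
        rw [Finset.sum_const, nsmul_eq_mul]; ring
    _ ≤ ∑ i ∈ J, ∏ k ∈ I i, p k * (1 - p k) := Finset.sum_le_sum hprod
    _ = ∑ K ∈ J.image I, ∏ k ∈ K, p k * (1 - p k) :=
        (Finset.sum_image (f := fun K : Finset ℕ => ∏ k ∈ K, p k * (1 - p k)) hinj).symm
    _ ≤ R d p (σ + f + ∑ g ∈ G, g) := by
        unfold R
        exact Finset.sum_le_sum_of_subset_of_nonneg hsub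
          (fun K _ _ => Finset.prod_nonneg fun k _ => hvn k)

/-! ### The probabilities -/

/-- the sparse auxiliary indices -/
def InF (d i : ℕ) : Prop := ∃ m t : ℕ, 1 ≤ t ∧ t ≤ 64 * d ∧ 2 * i = t * lv d m

lemma ex_level (d i : ℕ) : ∃ m, i < 2 ^ lv d m := by
  refine ⟨i, ?_⟩
  exact lt_of_le_of_lt (le_lv d i) (lv_lt d i)

open scoped Classical in
/-- the level of an index -/
noncomputable def ix (d i : ℕ) : ℕ := Nat.find (ex_level d i)

open scoped Classical in
/-- the probabilities -/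
noncomputable def pr (d i : ℕ) : ℝ :=
  if InA d i then 1 / 2 else if InF d i then (1 / 2 : ℝ) ^ ix d i / (256 * d) else 0

lemma pr_mem (d i : ℕ) : 0 ≤ pr d i ∧ pr d i ≤ 1 := by
  unfold pr
  split_ifs
  · norm_num
  · constructor
    · positivity
    · rcases Nat.eq_zero_or_pos d with rfl | hd
      · simp
      · have h1 : (1 / 2 : ℝ) ^ ix d i ≤ 1 := pow_le_one₀ (by norm_num) (by norm_num)
        have h2 : (1 : ℝ) ≤ d := by exact_mod_cast hd
        rw [div_le_one (by positivity)]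
        linarith
  · norm_num

lemma inA_of {d m i : ℕ} (h1 : lv d (m + 1) ≤ 4 * i) (h2 : i < lv d (m + 2))
    (h3 : i % (16 * d * lv d (m + 1)) < lv d (m + 1)) : InA d i := by
  intro m' hm1 hm2
  rcases Nat.lt_trichotomy m' (m + 1) with h | h | h
  · exfalso
    have := two_pow_le d h
    omega
  · rw [h]; exact h3
  · exfalso
    have : lv d (m + 2) ≤ lv d m' := (lv_strictMono d).monotone h
    omega

lemma inA_small {d i : ℕ} (h : i < 64 * (d + 1)) : InA d i := by
  intro m hm1 hm2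
  have : lv d 0 ≤ lv d m := (lv_strictMono d).monotone (Nat.zero_le m)
  rw [lv] at this
  omega

lemma pr_A {d i : ℕ} (h : InA d i) : pr d i = 1 / 2 := by
  unfold pr
  rw [if_pos h]

lemma v_ge {d m i : ℕ} (hd : 1 ≤ d) (h : InA d i ∨ InF d i) (hi : i < 2 ^ lv d m) :
    (1 / 2 : ℝ) ^ m / (512 * d) ≤ pr d i * (1 - pr d i) := by
  have hd' : (1 : ℝ) ≤ d := by exact_mod_cast hd
  have hm1 : (1 / 2 : ℝ) ^ m ≤ 1 := pow_le_one₀ (by norm_num) (by norm_num)
  have hm0 : (0 : ℝ) ≤ (1 / 2 : ℝ) ^ m := by positivity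
  by_cases hA : InA d i
  · rw [pr_A hA]
    generalize (1 / 2 : ℝ) ^ m = y at hm1 hm0
    rw [div_le_iff₀ (by positivity)]
    linarith
  · have hF : InF d i := h.resolve_left hA
    have e : pr d i = (1 / 2 : ℝ) ^ ix d i / (256 * d) := by
      unfold pr
      rw [if_neg hA, if_pos hF]
    have hix : ix d i ≤ m := by
      classical
      unfold ix
      exact Nat.find_min' _ hi
    have h1 : (1 / 2 : ℝ) ^ m ≤ (1 / 2 : ℝ) ^ ix d i :=
      pow_le_pow_of_le_one (by norm_num) (by norm_num) hix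
    have h2 : (1 / 2 : ℝ) ^ ix d i ≤ 1 := pow_le_one₀ (by norm_num) (by norm_num)
    rw [e]
    generalize (1 / 2 : ℝ) ^ ix d i = x at h1 h2
    generalize (1 / 2 : ℝ) ^ m = y at hm0 h1
    have hx0 : 0 ≤ x := hm0.trans h1
    have h3 : y / (512 * d) = (y / (256 * d)) * (1 / 2) := by
      rw [show (512 : ℝ) * d = (256 * d) * 2 by ring, ← div_div]
      ring
    have h4 : y / (256 * d) ≤ x / (256 * d) := div_le_div_of_nonneg_right h1 (by positivity)
    have h5 : x / (256 * d) ≤ 1 / 2 := by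
      rw [div_le_iff₀ (by positivity)]
      linarith
    have h6 : (1 / 2 : ℝ) ≤ 1 - x / (256 * d) := by linarith
    rw [h3]
    exact mul_le_mul h4 h6 (by norm_num) (by positivity)

end Pool.Agent.R345.NP
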