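import Pool.Agent.R345.NPGrow

set_option autoImplicit false

namespace Pool.Agent.R345.NP

open Finset Filter Topology MeasureTheory ProbabilityTheory

lemma sixteen (d m : ℕ) : 16 ^ m ≤ lv d m := by
  induction m with
  | zero => rw [lv]; omega
  | succ m ih =>
    have h1 := lv_ge d m
    have h2 := sq_le_two_pow (a := lv d m) (by omega)
    rw [lv_succ, pow_succ]
    nlinarith

lemma R_sqrt {d : ℕ} (hd : 3 ≤ d) : ∃ C : ℝ, 0 < C ∧ ∃ S0 : ℕ, ∀ s : ℕ, S0 ≤ s →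
    C * √(s : ℝ) ≤ R d (pr d) (s + ∑ g ∈ Finset.Icc 1 (d - 3), g) := by
  classical
  have hd0 : (0 : ℝ) < d := by exact_mod_cast (by omega : 0 < d)
  refine ⟨(1 / 4 : ℝ) ^ (d - 1) / ((512 * d) * (384 * d)), by positivity,
    lv d (200 * d + 1), fun s hs => ?_⟩
  have hex : ∃ k, s < lv d k := ⟨s + 1, lt_of_lt_of_le (Nat.lt_succ_self s) (le_lv d (s + 1))⟩
  set k := Nat.find hex with hk
  have hk1 : s < lv d k := Nat.find_spec hex
  have hk2 : 200 * d + 1 < k := by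
    by_contra hcon
    push Not at hcon
    have := (lv_strictMono d).monotone hcon
    omega
  obtain ⟨m, hm⟩ : ∃ m, k = m + 2 := ⟨k - 2, by omega⟩
  have hk3 : lv d (m + 1) ≤ s := by
    have := Nat.find_min hex (m := m + 1) (by omega)
    omega
  rw [hm] at hk1
  have key := R_lower hd (by omega) hk3 hk1
  refine le_trans ?_ key
  have h16 := (sixteen d (m + 1)).trans hk3
  have hy : ((2 : ℝ) ^ (m + 1)) ≤ √(s : ℝ) := by
    apply Real.le_sqrt_of_sq_le
    have h3 : (4 : ℕ) ^ (m + 1) ≤ s :=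
      le_trans (Nat.pow_le_pow_left (by norm_num) _) h16
    have h4 : ((4 : ℕ) ^ (m + 1) : ℝ) ≤ (s : ℝ) := by exact_mod_cast h3
    calc ((2 : ℝ) ^ (m + 1)) ^ 2 = 4 ^ (m + 1) := by
          rw [← pow_mul, mul_comm, pow_mul]; norm_num
      _ ≤ s := by exact_mod_cast h3
  have hs0 : (0 : ℝ) ≤ s := Nat.cast_nonneg _
  have h5 : √(s : ℝ) ≤ (1 / 2 : ℝ) ^ (m + 1) * s := by
    have h6 : √(s : ℝ) * 2 ^ (m + 1) ≤ s := by
      calc √(s : ℝ) * 2 ^ (m + 1) ≤ √(s : ℝ) * √(s : ℝ) :=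
            mul_le_mul_of_nonneg_left hy (Real.sqrt_nonneg _)
        _ = s := Real.mul_self_sqrt hs0
    have h7 : (1 / 2 : ℝ) ^ (m + 1) * 2 ^ (m + 1) = 1 := by rw [← mul_pow]; norm_num
    calc √(s : ℝ) = √(s : ℝ) * ((1 / 2 : ℝ) ^ (m + 1) * 2 ^ (m + 1)) := by rw [h7, mul_one]
      _ = (1 / 2 : ℝ) ^ (m + 1) * (√(s : ℝ) * 2 ^ (m + 1)) := by ring
      _ ≤ (1 / 2 : ℝ) ^ (m + 1) * s := mul_le_mul_of_nonneg_left h6 (by positivity)
  have h8 : (1 / 4 : ℝ) ^ (d - 1) * ((1 / 2 : ℝ) ^ (m + 1) / (512 * d)) * (s / (384 * d)) =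
      (1 / 4 : ℝ) ^ (d - 1) / ((512 * d) * (384 * d)) * ((1 / 2 : ℝ) ^ (m + 1) * s) := by
    field_simp
  rw [h8]
  exact mul_le_mul_of_nonneg_left h5 (by positivity)

/-- the series converges for every constant -/
theorem summ {d : ℕ} (hd : 3 ≤ d) (c : ℝ) (hc : 0 < c) :
    Summable fun s : ℕ => (s : ℝ) * Real.exp (-c * R d (pr d) s) := by
  obtain ⟨C, hC, S0, hS⟩ := R_sqrt hd
  set g := ∑ g ∈ Finset.Icc 1 (d - 3), g with hg
  -- eventually 3 log s ≤ c * R s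
  have hlog : ∀ᶠ s : ℕ in atTop, 3 * Real.log s ≤ c * R d (pr d) s := by
    have h1 : (fun x : ℝ => Real.log x) =o[atTop] fun x : ℝ => x ^ (1 / 2 : ℝ) :=
      isLittleO_log_rpow_atTop (by norm_num)
    have h2 := (h1.def (show (0 : ℝ) < c * C / 6 by positivity)).natCast_atTop
    filter_upwards [h2, eventually_ge_atTop (S0 + 2 * g + 1)] with s h3 h4
    rw [← Real.sqrt_eq_rpow, Real.norm_eq_abs, Real.norm_eq_abs,
      abs_of_nonneg (Real.log_natCast_nonneg s), abs_of_nonneg (Real.sqrt_nonneg _)] at h3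
    have h5 := hS (s - g) (by omega)
    rw [Nat.sub_add_cancel (by omega)] at h5
    have h6 : √(s : ℝ) ≤ 2 * √((s - g : ℕ) : ℝ) := by
      rw [show (2 : ℝ) = √4 by rw [show (4 : ℝ) = 2 ^ 2 by norm_num, Real.sqrt_sq (by norm_num)],
        ← Real.sqrt_mul (by norm_num)]
      apply Real.sqrt_le_sqrt
      have : s ≤ 4 * (s - g) := by omega
      exact_mod_cast this
    have h7 : c * (C * √((s - g : ℕ) : ℝ)) ≤ c * R d (pr d) s :=
      mul_le_mul_of_nonneg_left h5 hc.le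
    have h8 : c * C / 6 * √(s : ℝ) ≤ c * C / 6 * (2 * √((s - g : ℕ) : ℝ)) :=
      mul_le_mul_of_nonneg_left h6 (by positivity)
    nlinarith
  have hb : Summable fun s : ℕ => 1 / (s : ℝ) ^ 2 := Real.summable_one_div_nat_pow.2 (by norm_num)
  refine Summable.of_norm_bounded_eventually_nat hb ?_
  filter_upwards [hlog, eventually_ge_atTop 1] with s h1 h2
  have hs : (0 : ℝ) < s := by exact_mod_cast h2
  rw [Real.norm_eq_abs, abs_of_nonneg (by positivity)]
  have h3 : Real.exp (-c * R d (pr d) s) ≤ Real.exp (-(3 * Real.log s)) := by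
    apply Real.exp_le_exp.2
    linarith
  have h4 : Real.exp (-(3 * Real.log s)) = 1 / (s : ℝ) ^ 3 := by
    rw [Real.exp_neg, show (3 : ℝ) * Real.log s = ((3 : ℕ) : ℝ) * Real.log s by norm_num,
      Real.exp_nat_mul, Real.exp_log hs]
    simp
  rw [h4] at h3
  calc (s : ℝ) * Real.exp (-c * R d (pr d) s) ≤ s * (1 / (s : ℝ) ^ 3) :=
        mul_le_mul_of_nonneg_left h3 hs.le
    _ = 1 / (s : ℝ) ^ 2 := by
        field_simp

/-! ### The exceptional event -/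

/-- The random variables `ξ_n`, `n ≥ 1`, are independent, with values in `{0, 1}`, and `ξ_n = 1` has the
probability `p_n`. -/
def Model {Ω : Type} [MeasurableSpace Ω] (μ : Measure Ω) (ξ : ℕ → Ω → ℕ) (p : ℕ → ℝ) : Prop :=
  (∀ n, 1 ≤ n → Measurable (ξ n)) ∧ iIndepFun (fun n : ℕ => ξ (n + 1)) μ ∧
    (∀ n, 1 ≤ n → ∀ ω, ξ n ω = 0 ∨ ξ n ω = 1) ∧
    ∀ n, 1 ≤ n → μ {ω | ξ n ω = 1} = ENNReal.ofReal (p n)

lemma ix_ge {d m t i : ℕ} (ht : 1 ≤ t) (h : 2 * i = t * lv d m) : m ≤ ix d i := by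
  classical
  unfold ix
  rw [Nat.le_find_iff]
  intro k hk h1
  have h2 := two_pow_le d hk
  have h3 : 1 * lv d m ≤ t * lv d m := Nat.mul_le_mul_right _ ht
  omega

lemma small_event {d : ℕ} (hd : 3 ≤ d) {Ω : Type} [MeasurableSpace Ω] (μ : Measure Ω)
    (ξ : ℕ → Ω → ℕ) (h : Model μ ξ (pr d)) :
    μ {ω | ∃ i, 1 ≤ i ∧ ξ i ω = 1 ∧ ¬ InA d i} ≤ ENNReal.ofReal (1 / 2) := by
  classical
  have hd0 : (0 : ℝ) < d := by exact_mod_cast (by omega : 0 < d)
  set Bm : ℕ → ℕ → Set Ω := fun m t => {ω | ∃ i, 1 ≤ i ∧ 2 * i = t * lv d m ∧ ξ i ω = 1 ∧ ¬ InA d i}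
    with hBm
  set Z : ℕ → Set Ω := fun i => {ω | 1 ≤ i ∧ ξ i ω = 1 ∧ ¬ InA d i ∧ ¬ InF d i} with hZ
  have hsub : {ω | ∃ i, 1 ≤ i ∧ ξ i ω = 1 ∧ ¬ InA d i} ⊆
      (⋃ m, ⋃ t ∈ Finset.Icc 1 (64 * d), Bm m t) ∪ ⋃ i, Z i := by
    rintro ω ⟨i, h1, h2, h3⟩
    by_cases hF : InF d i
    · left
      obtain ⟨m, t, h4, h5, h6⟩ := hF
      rw [Set.mem_iUnion]
      refine ⟨m, ?_⟩
      rw [Set.mem_iUnion₂]
      exact ⟨t, Finset.mem_Icc.2 ⟨h4, h5⟩, i, h1, h6, h2, h3⟩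
    · right
      rw [Set.mem_iUnion]
      exact ⟨i, h1, h2, h3, hF⟩
  have hZ0 : μ (⋃ i, Z i) = 0 := by
    rw [measure_iUnion_null_iff]
    intro i
    by_cases hi : 1 ≤ i ∧ ¬ InA d i ∧ ¬ InF d i
    · refine measure_mono_null (t := {ω | ξ i ω = 1}) (fun ω hω => hω.2.1) ?_
      rw [h.2.2.2 i hi.1]
      have : pr d i = 0 := by
        unfold pr
        rw [if_neg hi.2.1, if_neg hi.2.2]
      rw [this, ENNReal.ofReal_zero]
    · have : Z i = ∅ := by
        rw [Set.eq_empty_iff_forall_notMem]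
        rintro ω ⟨a1, a2, a3, a4⟩
        exact hi ⟨a1, a3, a4⟩
      rw [this, measure_empty]
  have hB : ∀ m, ∀ t ∈ Finset.Icc 1 (64 * d),
      μ (Bm m t) ≤ ENNReal.ofReal ((1 / 2 : ℝ) ^ m / (256 * d)) := by
    intro m t ht
    rw [Finset.mem_Icc] at ht
    by_cases hi : ∃ i, 1 ≤ i ∧ 2 * i = t * lv d m ∧ ¬ InA d i
    · obtain ⟨i, h1, h2, h3⟩ := hi
      have hs : Bm m t ⊆ {ω | ξ i ω = 1} := by
        rintro ω ⟨i', a1, a2, a3, a4⟩
        have : i' = i := by omega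
        rw [this] at a3
        exact a3
      refine (measure_mono hs).trans ?_
      rw [h.2.2.2 i h1]
      apply ENNReal.ofReal_le_ofReal
      have hF : InF d i := ⟨m, t, ht.1, ht.2, h2⟩
      have e : pr d i = (1 / 2 : ℝ) ^ ix d i / (256 * d) := by
        unfold pr
        rw [if_neg h3, if_pos hF]
      rw [e]
      have h5 : (1 / 2 : ℝ) ^ ix d i ≤ (1 / 2 : ℝ) ^ m :=
        pow_le_pow_of_le_one (by norm_num) (by norm_num) (ix_ge ht.1 h2)
      exact div_le_div_of_nonneg_right h5 (by positivity)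
    · have : Bm m t = ∅ := by
        rw [Set.eq_empty_iff_forall_notMem]
        rintro ω ⟨i', a1, a2, a3, a4⟩
        exact hi ⟨i', a1, a2, a4⟩
      rw [this, measure_empty]
      exact zero_le
  have hU : ∀ m, μ (⋃ t ∈ Finset.Icc 1 (64 * d), Bm m t) ≤
      ENNReal.ofReal ((1 / 2 : ℝ) ^ m * (1 / 4)) := by
    intro m
    refine (measure_biUnion_finset_le _ _).trans ?_
    refine (Finset.sum_le_sum (hB m)).trans ?_
    rw [Finset.sum_const, Nat.card_Icc, nsmul_eq_mul, Nat.add_sub_cancel,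
      ← ENNReal.ofReal_natCast, ← ENNReal.ofReal_mul (by positivity)]
    apply ENNReal.ofReal_le_ofReal
    push_cast
    apply le_of_eq
    field_simp
    norm_num
  calc μ {ω | ∃ i, 1 ≤ i ∧ ξ i ω = 1 ∧ ¬ InA d i}
      ≤ μ ((⋃ m, ⋃ t ∈ Finset.Icc 1 (64 * d), Bm m t) ∪ ⋃ i, Z i) := measure_mono hsub
    _ ≤ μ (⋃ m, ⋃ t ∈ Finset.Icc 1 (64 * d), Bm m t) + μ (⋃ i, Z i) := measure_union_le _ _
    _ = μ (⋃ m, ⋃ t ∈ Finset.Icc 1 (64 * d), Bm m t) := by rw [hZ0, add_zero]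
    _ ≤ ∑' m, μ (⋃ t ∈ Finset.Icc 1 (64 * d), Bm m t) := measure_iUnion_le _
    _ ≤ ∑' m : ℕ, ENNReal.ofReal ((1 / 2 : ℝ) ^ m * (1 / 4)) := ENNReal.tsum_le_tsum hU
    _ = ENNReal.ofReal (1 / 2) := by
        rw [← ENNReal.ofReal_tsum_of_nonneg (fun m => by positivity)
          (summable_geometric_two.mul_right _), tsum_mul_right, tsum_geometric_two]
        norm_num

/-- The random number `X = ∑_{n ≥ 1} ξ_n 2^{-n}`. -/
noncomputable def X {Ω : Type} (ξ : ℕ → Ω → ℕ) (ω : Ω) : ℝ :=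
  ∑' n : ℕ, (ξ (n + 1) ω : ℝ) * (1 / 2 : ℝ) ^ (n + 1)

lemma not_normal_X {d : ℕ} (hd : 3 ≤ d) {Ω : Type} [MeasurableSpace Ω] (μ : Measure Ω)
    (ξ : ℕ → Ω → ℕ) (h : Model μ ξ (pr d)) (ω : Ω) (hω : ∀ i, 1 ≤ i → ξ i ω = 1 → InA d i) :
    ¬ Normal 2 ((X ξ ω) ^ d) := by
  set x : ℕ → ℕ := fun i => if i = 0 then 0 else ξ i ω with hx
  have hx1 : ∀ i, x i ≤ 1 := by
    intro i
    simp only [hx]
    split_ifs with h0
    · omega
    · rcases h.2.2.1 i (by omega) ω with h1 | h1 <;> omega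
  have hxA : ∀ i, x i ≠ 0 → InA d i := by
    intro i hi
    simp only [hx] at hi
    split_ifs at hi with h0
    · exact absurd rfl hi
    · rcases h.2.2.1 i (by omega) ω with h1 | h1
      · exact absurd h1 hi
      · exact hω i (by omega) h1
  have hle : ∀ i, (x i : ℝ) * (1 / 2 : ℝ) ^ i ≤ (1 / 2 : ℝ) ^ i := by
    intro i
    have h1 : (x i : ℝ) ≤ 1 := by exact_mod_cast hx1 i
    have h2 : (0 : ℝ) ≤ (1 / 2 : ℝ) ^ i := by positivity
    nlinarith
  have hs : Summable (fun i => (x i : ℝ) * (1 / 2 : ℝ) ^ i) :=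
    Summable.of_nonneg_of_le (fun i => by positivity) hle summable_geometric_two
  have hX : X ξ ω = ∑' i, (x i : ℝ) * (1 / 2 : ℝ) ^ i := by
    rw [hs.tsum_eq_zero_add]
    unfold X
    simp [hx]
  rw [hX]
  exact not_normal (by omega) x hx1 hxA (by simp [hx])

/-- with probability at least `1/2` the power is not normal -/
theorem not_ae {d : ℕ} (hd : 3 ≤ d) {Ω : Type} [MeasurableSpace Ω] (μ : Measure Ω)
    [IsProbabilityMeasure μ] (ξ : ℕ → Ω → ℕ) (h : Model μ ξ (pr d)) :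
    ENNReal.ofReal (1 / 2) ≤ μ {ω | ¬ Normal 2 ((X ξ ω) ^ d)} := by
  have h1 := small_event hd μ ξ h
  have hcover : (Set.univ : Set Ω) ⊆ {ω | ¬ Normal 2 ((X ξ ω) ^ d)} ∪
      {ω | ∃ i, 1 ≤ i ∧ ξ i ω = 1 ∧ ¬ InA d i} := by
    intro ω _
    by_cases hω : ∃ i, 1 ≤ i ∧ ξ i ω = 1 ∧ ¬ InA d i
    · right; exact hω
    · left
      push Not at hω
      exact not_normal_X hd μ ξ h ω hω
  have h2 : (1 : ENNReal) ≤ μ {ω | ¬ Normal 2 ((X ξ ω) ^ d)} + ENNReal.ofReal (1 / 2) := by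
    calc (1 : ENNReal) = μ Set.univ := measure_univ.symm
      _ ≤ _ := measure_mono hcover
      _ ≤ _ := measure_union_le _ _
      _ ≤ _ := by gcongr
  have h3 : (1 : ENNReal) = ENNReal.ofReal (1 / 2) + ENNReal.ofReal (1 / 2) := by
    rw [← ENNReal.ofReal_add (by norm_num) (by norm_num)]
    norm_num
  rw [h3] at h2
  exact (ENNReal.add_le_add_iff_right ENNReal.ofReal_ne_top).1 h2

/-- existence of the random variables -/
theorem model_exists (p : ℕ → ℝ) (hp : ∀ n, 0 ≤ p n ∧ p n ≤ 1) :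
    ∃ (Ω : Type) (_ : MeasurableSpace Ω) (μ : Measure Ω) (_ : IsProbabilityMeasure μ)
      (ξ : ℕ → Ω → ℕ), Model μ ξ p := by
  classical
  set ν : ℕ → Measure Bool := fun n =>
    ENNReal.ofReal (p n) • Measure.dirac true + ENNReal.ofReal (1 - p n) • Measure.dirac false with hν
  have hprob : ∀ n, IsProbabilityMeasure (ν n) := by
    intro n
    constructor
    simp only [hν]
    rw [Measure.add_apply, Measure.smul_apply, Measure.smul_apply, measure_univ, measure_univ,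
      smul_eq_mul, smul_eq_mul, mul_one, mul_one, ← ENNReal.ofReal_add (hp n).1 (by linarith [(hp n).2])]
    norm_num
  refine ⟨ℕ → Bool, inferInstance, Measure.infinitePi ν, inferInstance,
    fun n ω => (ω n).toNat, ?_, ?_, ?_, ?_⟩
  · intro n _
    exact (measurable_of_finite (fun b : Bool => b.toNat)).comp
      (measurable_pi_apply (X := fun _ : ℕ => Bool) n)
  · have h1 : iIndepFun (fun (n : ℕ) (ω : ℕ → Bool) => (ω n).toNat) (Measure.infinitePi ν) :=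
      iIndepFun_infinitePi (Ω := fun _ : ℕ => Bool) (P := ν) (X := fun _ (b : Bool) => b.toNat)
        (fun _ => measurable_of_finite _)
    exact h1.precomp (g := fun n => n + 1) (fun a b hab => by simpa using hab)
  · intro n _ ω
    show (ω n).toNat = 0 ∨ (ω n).toNat = 1
    cases ω n <;> simp
  · intro n _
    have h1 : {ω : ℕ → Bool | (ω n).toNat = 1} = (fun ω : ℕ → Bool => ω n) ⁻¹' {true} := by
      ext ω
      simp only [Set.mem_ofPred_eq, Set.mem_preimage, Set.mem_singleton_iff]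
      cases ω n <;> simp
    rw [h1, ← Measure.map_apply (measurable_pi_apply n) (measurableSet_singleton _),
      Measure.infinitePi_map_eval]
    simp only [hν]
    rw [Measure.add_apply, Measure.smul_apply, Measure.smul_apply,
      Measure.dirac_apply' _ (measurableSet_singleton _),
      Measure.dirac_apply' _ (measurableSet_singleton _)]
    simp

end Pool.Agent.R345.NP
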