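import Mathlib

set_option autoImplicit false

/-! Sums of Jacobi symbols over sumsets: complete sums modulo a product of distinct odd primes and the bilinear bound. -/

namespace Pool.Agent.R345.SS

open Finset

/-- the Jacobi symbol as a real number -/
noncomputable def J (n : ℤ) (p : ℕ) : ℝ := ((jacobiSym n p : ℤ) : ℝ)

theorem J_abs (n : ℤ) (p : ℕ) : |J n p| ≤ 1 := by
  unfold J
  rcases jacobiSym.trichotomy n p with h | h | h <;> rw [h] <;> simp

theorem J_mul (m n : ℤ) (p : ℕ) : J (m * n) p = J m p * J n p := by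
  unfold J
  rw [jacobiSym.mul_left]
  push_cast
  rfl

theorem J_congr {m n : ℤ} {p : ℕ} (h : m % p = n % p) : J m p = J n p := by
  unfold J
  rw [jacobiSym.mod_left m p, jacobiSym.mod_left n p, h]

theorem J_sq_le (n : ℤ) (p : ℕ) : J n p ^ 2 ≤ 1 := by
  have h := J_abs n p
  rw [← sq_abs]
  have h0 := abs_nonneg (J n p)
  nlinarith

/-- (from `H568.GR.Crt`) the two-factor case -/
theorem crt_sum {a b : ℕ} (hab : Nat.Coprime a b) (ha : a ≠ 0) (hb : b ≠ 0) (F G : ℕ → ℝ)
    (hF : ∀ x, F (x % a) = F x) (hG : ∀ x, G (x % b) = G x) :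
    ∑ x ∈ range (a * b), F x * G x = (∑ x ∈ range a, F x) * ∑ x ∈ range b, G x := by
  rw [Finset.sum_mul_sum, ← Finset.sum_product']
  refine Finset.sum_bij (fun x _ => (x % a, x % b)) ?_ ?_ ?_ ?_
  · intro x _
    rw [Finset.mem_product, Finset.mem_range, Finset.mem_range]
    exact ⟨Nat.mod_lt _ (Nat.pos_of_ne_zero ha), Nat.mod_lt _ (Nat.pos_of_ne_zero hb)⟩
  · intro x hx y hy hxy
    rw [Finset.mem_range] at hx hy
    have h1 : x ≡ y [MOD a] := (Prod.ext_iff.1 hxy).1
    have h2 : x ≡ y [MOD b] := (Prod.ext_iff.1 hxy).2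
    have h3 : x ≡ y [MOD a * b] := (Nat.modEq_and_modEq_iff_modEq_mul hab).1 ⟨h1, h2⟩
    exact Nat.ModEq.eq_of_lt_of_lt h3 hx hy
  · rintro ⟨u, v⟩ huv
    rw [Finset.mem_product, Finset.mem_range, Finset.mem_range] at huv
    refine ⟨Nat.chineseRemainder hab u v, ?_, ?_⟩
    · rw [Finset.mem_range]
      exact Nat.chineseRemainder_lt_mul hab u v ha hb
    · have h1 := (Nat.chineseRemainder hab u v).2
      refine Prod.ext ?_ ?_
      · show (Nat.chineseRemainder hab u v : ℕ) % a = u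
        rw [show (Nat.chineseRemainder hab u v : ℕ) % a = u % a from h1.1]
        exact Nat.mod_eq_of_lt huv.1
      · show (Nat.chineseRemainder hab u v : ℕ) % b = v
        rw [show (Nat.chineseRemainder hab u v : ℕ) % b = v % b from h1.2]
        exact Nat.mod_eq_of_lt huv.2
  · intro x _
    show F x * G x = F (x % a) * G (x % b)
    rw [hF, hG]

theorem coprime_prod {p : ℕ} (hp : p.Prime) {T : Finset ℕ} (hT : ∀ q ∈ T, q.Prime) (h : p ∉ T) :
    Nat.Coprime p (∏ q ∈ T, q) := by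
  apply Nat.Coprime.prod_right
  intro q hq
  exact (Nat.coprime_primes hp (hT q hq)).2 (fun e => h (e ▸ hq))

theorem prod_ne {T : Finset ℕ} (hT : ∀ q ∈ T, q.Prime) : (∏ q ∈ T, q) ≠ 0 :=
  Finset.prod_ne_zero_iff.2 fun q hq => (hT q hq).ne_zero

/-- the general case -/
theorem crt_prod (T : Finset ℕ) (hT : ∀ p ∈ T, p.Prime) (g : ℕ → ℕ → ℝ)
    (hg : ∀ p ∈ T, ∀ x, g p (x % p) = g p x) :
    ∑ x ∈ range (∏ p ∈ T, p), ∏ p ∈ T, g p x = ∏ p ∈ T, ∑ x ∈ range p, g p x := by
  induction T using Finset.induction_on with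
  | empty => simp
  | insert p T hp ih =>
    have hp' : p.Prime := hT p (mem_insert_self _ _)
    have hT' : ∀ q ∈ T, q.Prime := fun q hq => hT q (mem_insert_of_mem hq)
    rw [prod_insert hp, prod_insert hp, ← ih hT' (fun q hq => hg q (mem_insert_of_mem hq)),
      ← crt_sum (coprime_prod hp' hT' hp) hp'.ne_zero (prod_ne hT') (g p) (fun x => ∏ q ∈ T, g q x)
        (hg p (mem_insert_self _ _))]
    · exact sum_congr rfl fun x _ => prod_insert hp
    · intro x
      refine prod_congr rfl fun q hq => ?_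
      have h1 := hg q (mem_insert_of_mem hq)
      rw [← h1 (x % ∏ q ∈ T, q), ← h1 x, Nat.mod_mod_of_dvd _ (dvd_prod_of_mem _ hq)]

/-- the weight of a difference -/
noncomputable def c (h : ℤ) (p : ℕ) : ℝ := 1 + p * (if (p : ℤ) ∣ h then 1 else 0)

theorem c_nonneg (h : ℤ) (p : ℕ) : 0 ≤ c h p := by
  unfold c
  split_ifs <;> positivity

theorem sum_zmod (p : ℕ) [NeZero p] (F : ZMod p → ℝ) : ∑ x ∈ range p, F (x : ZMod p) = ∑ z : ZMod p, F z := by
  refine Finset.sum_bij' (fun x _ => (x : ZMod p)) (fun z _ => z.val) ?_ ?_ ?_ ?_ ?_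
  · intro x _; exact mem_univ _
  · intro z _; exact mem_range.2 (ZMod.val_lt z)
  · intro x hx; exact ZMod.val_cast_of_lt (mem_range.1 hx)
  · intro z _; exact ZMod.natCast_zmod_val z
  · intro x _; rfl

/-- complete sums modulo a prime -/
theorem one_prime (p : ℕ) (hp : p.Prime) (h2 : p ≠ 2) (a a' : ℤ) :
    |∑ x ∈ range p, J (a + x) p * J (a' + x) p| ≤ c (a - a') p := by
  have : Fact p.Prime := ⟨hp⟩
  by_cases hd : (p : ℤ) ∣ a - a'
  · unfold c
    rw [if_pos hd]
    refine (abs_sum_le_sum_abs _ _).trans ?_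
    refine (sum_le_sum (g := fun _ => (1 : ℝ)) fun x _ => ?_).trans ?_
    · rw [abs_mul]
      exact mul_le_one₀ (J_abs _ _) (abs_nonneg _) (J_abs _ _)
    · simp
  · unfold c
    rw [if_neg hd]
    have hJ : ∀ n : ℤ, J n p = ((quadraticChar (ZMod p) (n : ZMod p) : ℤ) : ℝ) := by
      intro n
      unfold J
      rw [← jacobiSym.legendreSym.to_jacobiSym]
      rfl
    have hne : ((a' - a : ℤ) : ZMod p) ≠ 0 := by
      intro h
      rw [ZMod.intCast_zmod_eq_zero_iff_dvd] at h
      apply hd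
      have := (dvd_neg (a := (p : ℤ))).2 h
      rwa [neg_sub] at this
    have hchar : ringChar (ZMod p) ≠ 2 := by
      rw [ZMod.ringChar_zmod_n]; exact h2
    have hnt : quadraticChar (ZMod p) ≠ 1 := quadraticChar_ne_one hchar
    have hinv : (quadraticChar (ZMod p))⁻¹ = quadraticChar (ZMod p) := (quadraticChar_isQuadratic (ZMod p)).inv
    have hjs := jacobiSum_nontrivial_inv hnt
    rw [hinv, jacobiSum] at hjs
    set χ := quadraticChar (ZMod p) with hχ
    set cc : ZMod p := ((a' - a : ℤ) : ZMod p) with hcc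
    have key : ∑ z : ZMod p, χ ((a : ZMod p) + z) * χ ((a' : ZMod p) + z) = -1 := by
      have h3 : ∑ z : ZMod p, χ ((a : ZMod p) + z) * χ ((a' : ZMod p) + z) =
          ∑ t : ZMod p, χ (-1) * (χ t * χ (1 - t)) := by
        have e : Function.Bijective (fun t : ZMod p => -cc * t - (a : ZMod p)) := by
          have h4 : Function.Injective (fun t : ZMod p => -cc * t - (a : ZMod p)) := by
            intro x y hxy
            simp only [sub_left_inj] at hxy
            exact mul_left_cancel₀ (neg_ne_zero.2 hne) hxy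
          exact Finite.injective_iff_bijective.1 h4
        rw [← (Equiv.ofBijective _ e).sum_comp]
        refine sum_congr rfl fun t _ => ?_
        rw [Equiv.ofBijective_apply]
        have e1 : (a : ZMod p) + (-cc * t - (a : ZMod p)) = -1 * (cc * t) := by ring
        have e2 : (a' : ZMod p) + (-cc * t - (a : ZMod p)) = cc * (1 - t) := by
          rw [hcc]; push_cast; ring
        rw [e1, e2, map_mul, map_mul, map_mul]
        have h5 : χ cc * χ cc = 1 := by
          rw [← sq]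
          exact quadraticChar_sq_one hne
        calc χ (-1) * (χ cc * χ t) * (χ cc * χ (1 - t)) = χ (-1) * (χ t * χ (1 - t)) * (χ cc * χ cc) := by ring
          _ = _ := by rw [h5, mul_one]
      rw [h3, ← mul_sum, hjs]
      have h6 : χ (-1) * χ (-1) = 1 := by
        rw [← sq]
        exact quadraticChar_sq_one (neg_ne_zero.2 one_ne_zero)
      linarith
    have h7 : ∑ x ∈ range p, J (a + x) p * J (a' + x) p = -1 := by
      have h8 := sum_zmod p (fun z => ((χ ((a : ZMod p) + z) * χ ((a' : ZMod p) + z) : ℤ) : ℝ))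
      have h9 : ∑ x ∈ range p, J (a + x) p * J (a' + x) p =
          ∑ x ∈ range p, ((χ ((a : ZMod p) + (x : ZMod p)) * χ ((a' : ZMod p) + (x : ZMod p)) : ℤ) : ℝ) := by
        refine sum_congr rfl fun x _ => ?_
        rw [hJ, hJ]
        push_cast
        rfl
      rw [h9, h8, ← Int.cast_sum, key]
      norm_num
    rw [h7]
    simp

/-- the bilinear bound -/
theorem bilinear (T : Finset ℕ) (hT : ∀ p ∈ T, p.Prime ∧ p ≠ 2) (A B : Finset ℤ) :
    (∑ a ∈ A, ∑ b ∈ B, ∏ p ∈ T, J (a + b) p) ^ 2 ≤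
      (∑ a ∈ A, ∑ a' ∈ A, ∏ p ∈ T, c (a - a') p) *
        (∑ b ∈ B, ∑ b' ∈ B, ∏ p ∈ T, (if (p : ℤ) ∣ b - b' then (1 : ℝ) else 0)) := by
  classical
  have hTp : ∀ p ∈ T, p.Prime := fun p hp => (hT p hp).1
  set q : ℕ := ∏ p ∈ T, p with hq
  have hq0 : 0 < q := Nat.pos_of_ne_zero (prod_ne hTp)
  have hqz : (q : ℤ) ≠ 0 := by exact_mod_cast hq0.ne'
  -- the residue
  set ρ : ℤ → ℕ := fun b => (b % q).toNat with hρ
  have hρ0 : ∀ b, ((ρ b : ℕ) : ℤ) = b % q := fun b => Int.toNat_of_nonneg (Int.emod_nonneg b hqz)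
  have hρlt : ∀ b, ρ b < q := by
    intro b
    have := Int.emod_lt_of_pos b (by exact_mod_cast hq0 : (0 : ℤ) < q)
    rw [← hρ0] at this
    exact_mod_cast this
  set F : ℕ → ℝ := fun r => ∑ a ∈ A, ∏ p ∈ T, J (a + r) p with hF
  have hper : ∀ b : ℤ, ∑ a ∈ A, ∏ p ∈ T, J (a + b) p = F (ρ b) := by
    intro b
    refine sum_congr rfl fun a _ => prod_congr rfl fun p hp => ?_
    apply J_congr
    rw [hρ0]
    have h1 : (p : ℤ) ∣ q := by exact_mod_cast dvd_prod_of_mem _ hp
    rw [Int.add_emod, Int.add_emod a (b % q), Int.emod_emod_of_dvd _ h1]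
  have h1 : ∑ a ∈ A, ∑ b ∈ B, ∏ p ∈ T, J (a + b) p = ∑ r ∈ range q, F r * ((B.filter (fun b => ρ b = r)).card : ℝ) := by
    rw [sum_comm, sum_congr rfl fun b _ => hper b, ← sum_fiberwise_of_maps_to (g := ρ) (t := range q)
      (fun b _ => mem_range.2 (hρlt b))]
    refine sum_congr rfl fun r _ => ?_
    rw [sum_congr rfl (g := fun _ => F r) fun b hb => by rw [(mem_filter.1 hb).2], sum_const, nsmul_eq_mul, mul_comm]
  rw [h1]
  refine (sum_mul_sq_le_sq_mul_sq _ _ _).trans ?_
  have h2 : ∑ r ∈ range q, F r ^ 2 ≤ ∑ a ∈ A, ∑ a' ∈ A, ∏ p ∈ T, c (a - a') p := by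
    have h3 : ∀ r, F r ^ 2 = ∑ a ∈ A, ∑ a' ∈ A, ∏ p ∈ T, (J (a + r) p * J (a' + r) p) := by
      intro r
      rw [sq, hF]
      simp only
      rw [sum_mul_sum]
      refine sum_congr rfl fun a _ => sum_congr rfl fun a' _ => ?_
      rw [prod_mul_distrib]
    rw [sum_congr rfl fun r _ => h3 r, sum_comm]
    refine sum_le_sum fun a _ => ?_
    rw [sum_comm]
    refine sum_le_sum fun a' _ => ?_
    rw [hq, crt_prod T hTp (fun p x => J (a + x) p * J (a' + x) p)]
    · refine (le_abs_self _).trans ?_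
      rw [abs_prod]
      exact prod_le_prod (fun _ _ => abs_nonneg _) fun p hp => one_prime p (hT p hp).1 (hT p hp).2 a a'
    · intro p _ x
      have e : ∀ b : ℤ, J (b + ((x % p : ℕ) : ℤ)) p = J (b + x) p := by
        intro b
        apply J_congr
        push_cast
        rw [Int.add_emod, Int.emod_emod_of_dvd _ dvd_rfl, ← Int.add_emod]
      simp only [e]
  have h4 : ∑ r ∈ range q, ((B.filter (fun b => ρ b = r)).card : ℝ) ^ 2 =
      ∑ b ∈ B, ∑ b' ∈ B, ∏ p ∈ T, (if (p : ℤ) ∣ b - b' then (1 : ℝ) else 0) := by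
    have h5 : ∀ b b' : ℤ, (∏ p ∈ T, (if (p : ℤ) ∣ b - b' then (1 : ℝ) else 0)) = if ρ b' = ρ b then 1 else 0 := by
      intro b b'
      have h6 : ρ b' = ρ b ↔ ∀ p ∈ T, (p : ℤ) ∣ b - b' := by
        have h7 : ρ b' = ρ b ↔ (q : ℤ) ∣ b - b' := by
          rw [← Int.modEq_iff_dvd, Int.ModEq, ← hρ0 b', ← hρ0 b]
          exact Nat.cast_inj.symm
        rw [h7, hq]
        push_cast
        constructor
        · intro h p hp
          exact (dvd_prod_of_mem (fun p : ℕ => (p : ℤ)) hp).trans h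
        · intro h
          apply Finset.prod_dvd_of_coprime
          · intro p hp q hq hpq
            exact Nat.isCoprime_iff_coprime.2 ((Nat.coprime_primes (hTp p hp) (hTp q hq)).2 hpq)
          · exact h
      by_cases h : ∀ p ∈ T, (p : ℤ) ∣ b - b'
      · rw [if_pos (h6.2 h)]
        exact prod_eq_one fun p hp => if_pos (h p hp)
      · rw [if_neg (fun e => h (h6.1 e))]
        push Not at h
        obtain ⟨p, hp, hpb⟩ := h
        exact prod_eq_zero hp (if_neg hpb)
    rw [sum_congr rfl fun b _ => sum_congr rfl fun b' _ => h5 b b']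
    have h8 : ∀ b, ∑ b' ∈ B, (if ρ b' = ρ b then (1 : ℝ) else 0) = ((B.filter (fun b' => ρ b' = ρ b)).card : ℝ) := by
      intro b
      rw [sum_boole]
    rw [sum_congr rfl fun b _ => h8 b, ← sum_fiberwise_of_maps_to (g := ρ) (t := range q)
      (fun b _ => mem_range.2 (hρlt b))]
    refine sum_congr rfl fun r _ => ?_
    rw [sum_congr rfl (g := fun _ => ((B.filter (fun b' => ρ b' = r)).card : ℝ)) fun b hb => by rw [(mem_filter.1 hb).2],
      sum_const, nsmul_eq_mul, sq]
  rw [h4]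
  refine mul_le_mul_of_nonneg_right h2 (sum_nonneg fun _ _ => sum_nonneg fun _ _ => prod_nonneg fun _ _ => ?_)
  split_ifs <;> norm_num

end Pool.Agent.R345.SS
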