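import Pool.Agent.R345.SS9

set_option autoImplicit false

/-! Double sums of Legendre symbols modulo almost all primes. -/

namespace Pool.Agent.R345.SS

open Finset
open scoped Nat.Prime

theorem F4_abs {A B : Finset ℤ} {X1 : ℕ} (hAB : ∀ a ∈ A, ∀ b ∈ B, |a + b| ≤ X1) {z : (ℤ × ℤ) × (ℤ × ℤ)}
    (hz : z ∈ Q4 A B) : |F4 z| ≤ (X1 : ℤ) ^ 4 := by
  unfold Q4 at hz
  rw [mem_product, mem_product, mem_product] at hz
  obtain ⟨⟨h1, h2⟩, h3, h4⟩ := hz
  unfold F4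
  rw [abs_mul, abs_mul, abs_mul]
  have hX : (0 : ℤ) ≤ X1 := Nat.cast_nonneg _
  have g1 := mul_le_mul (hAB _ h1 _ h3) (hAB _ h2 _ h3) (abs_nonneg _) hX
  have g2 := mul_le_mul (hAB _ h1 _ h4) (hAB _ h2 _ h4) (abs_nonneg _) hX
  have g3 := mul_le_mul g1 g2 (by positivity) (by positivity)
  refine g3.trans (le_of_eq ?_)
  ring

theorem J_sq_lower (w n : ℤ) (p : ℕ) (hp : p.Prime) (hn : n = w * w) :
    1 - (if (p : ℤ) ∣ n then (1 : ℝ) else 0) ≤ J n p := by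
  rw [hn, J_mul]
  split_ifs with h
  · rw [sub_self]
    exact mul_self_nonneg _
  · rw [sub_zero]
    have hw : ¬ (p : ℤ) ∣ w := fun e => h (e.mul_right _)
    have hg : w.gcd p = 1 := by
      have h1 : Nat.Coprime w.natAbs p := by
        rw [Nat.coprime_comm, Nat.Prime.coprime_iff_not_dvd hp]
        intro e
        exact hw (Int.natCast_dvd.2 e)
      exact h1
    have h2 := jacobiSym.sq_one hg
    unfold J
    rw [← sq]
    exact_mod_cast h2.ge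

/-- few square products -/
theorem sq_few (y0 X1 : ℕ) (A B : Finset ℤ) (hy : 4 ≤ y0) (hyX : y0 ≤ X1)
    (hA : ∀ a ∈ A, ∀ a' ∈ A, |a - a'| ≤ X1) (hB : ∀ b ∈ B, ∀ b' ∈ B, |b - b'| ≤ X1)
    (hAB : ∀ a ∈ A, ∀ b ∈ B, |a + b| ≤ X1) (hcA : (y0 : ℝ) ^ 2 ≤ A.card) (hcB : (y0 : ℝ) ^ 2 ≤ B.card)
    (hlog : 128 * Real.log X1 ≤ y0)
    (hP : (y0 : ℝ) / (4 * Real.log y0) ≤ (((Nat.primesLE y0).filter (fun p => Nat.sqrt y0 < p)).card : ℝ))
    (D : ℤ) (hD0 : D ≠ 0) (hD : |D| ≤ (X1 : ℤ) ^ 4) :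
    ((((Q4 A B).filter (fun z => F4 z ≠ 0)).filter (fun z => IsSquare (D * F4 z))).card : ℝ) ≤
      1536 * Real.log X1 ^ 2 / y0 * ((A.card : ℝ) * B.card) ^ 2 := by
  classical
  set P := (Nat.primesLE y0).filter (fun p => Nat.sqrt y0 < p) with hPd
  have hyr : (4 : ℝ) ≤ y0 := by exact_mod_cast hy
  have hXr : (y0 : ℝ) ≤ X1 := by exact_mod_cast hyX
  have hly : 0 < Real.log y0 := Real.log_pos (by linarith)
  have hlX : Real.log y0 ≤ Real.log X1 := Real.log_le_log (by linarith) hXr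
  have hPp : ∀ p ∈ P, p.Prime ∧ p ≠ 2 ∧ (p : ℝ) ≤ y0 := by
    intro p hp
    rw [hPd, mem_filter, Nat.mem_primesLE] at hp
    have h1 : 2 ≤ Nat.sqrt y0 := Nat.le_sqrt'.2 (by omega)
    exact ⟨hp.1.2, by omega, by exact_mod_cast hp.1.1⟩
  have hPs : ∀ p ∈ P, p.Prime ∧ Nat.sqrt y0 < p := by
    intro p hp
    rw [hPd, mem_filter, Nat.mem_primesLE] at hp
    exact ⟨hp.1.2, hp.2⟩
  have hPpos : (0 : ℝ) < P.card := lt_of_lt_of_le (by positivity) hP
  have hne : P.Nonempty := card_pos.1 (by exact_mod_cast hPpos)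
  have hPy : (P.card : ℝ) ≤ y0 := card_le_y P y0 hPp hne
  set W : ℝ := 2 * Real.log X1 / Real.log y0 with hW
  have hW1 : 1 ≤ W := by
    rw [hW, one_le_div hly]
    linarith
  have hfew : ∀ S : Finset ℤ, (∀ a ∈ S, ∀ a' ∈ S, |a - a'| ≤ X1) →
      ∀ a ∈ S, ∀ a' ∈ S, a ≠ a' → ((P.filter (fun p : ℕ => (p : ℤ) ∣ a - a')).card : ℝ) ≤ W := by
    intro S hS a ha a' ha' hne'
    exact few_large y0 X1 hy P hPs (a - a') (sub_ne_zero.2 hne') (hS a ha a' ha')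
  have hP2 : (P.card : ℝ) ^ 2 ≤ (y0 : ℝ) ^ 2 := pow_le_pow_left₀ hPpos.le hPy 2
  have h1 := second4 P y0 W (1 / 2) A B D (by norm_num) hne hPp hW1 (hfew A hA) (hfew B hB)
    (hP2.trans hcA) (hP2.trans hcB)
  have hsub : ((Q4 A B).filter (fun z => F4 z ≠ 0)).filter (fun z => IsSquare (D * F4 z)) ⊆
      (Q4 A B).filter (fun z => (1 / 2 : ℝ) * P.card ≤ |∑ p ∈ P, J (D * F4 z) p|) := by
    intro z hz
    rw [mem_filter, mem_filter] at hz
    obtain ⟨⟨hz1, hz2⟩, w, hw⟩ := hz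
    rw [mem_filter]
    refine ⟨hz1, ?_⟩
    have hn0 : D * F4 z ≠ 0 := mul_ne_zero hD0 hz2
    have hnX : |D * F4 z| ≤ ((X1 ^ 8 : ℕ) : ℤ) := by
      rw [abs_mul]
      refine (mul_le_mul hD (F4_abs hAB hz1) (abs_nonneg _) (by positivity)).trans (le_of_eq ?_)
      push_cast
      ring
    have h2 := few_large y0 (X1 ^ 8) hy P hPs (D * F4 z) hn0 hnX
    rw [Nat.cast_pow, Real.log_pow] at h2
    have h3 : 2 * ((8 : ℕ) * Real.log X1) / Real.log y0 ≤ P.card / 2 := by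
      have h4 : 2 * (((8 : ℕ) : ℝ) * Real.log X1) / Real.log y0 ≤ (y0 : ℝ) / (4 * Real.log y0) / 2 := by
        rw [div_div, div_le_div_iff₀ hly (by positivity)]
        push_cast
        have h5 := mul_le_mul_of_nonneg_right hlog hly.le
        linarith
      linarith
    have h5 : (P.card : ℝ) - ((P.filter (fun p : ℕ => (p : ℤ) ∣ D * F4 z)).card : ℝ) ≤ ∑ p ∈ P, J (D * F4 z) p := by
      have h6 : ∑ p ∈ P, (1 - (if (p : ℤ) ∣ D * F4 z then (1 : ℝ) else 0)) ≤ ∑ p ∈ P, J (D * F4 z) p :=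
        sum_le_sum fun p hp => J_sq_lower w _ p (hPp p hp).1 hw
      rw [sum_sub_distrib, sum_const, nsmul_eq_mul, mul_one, sum_boole] at h6
      exact h6
    refine le_trans ?_ (le_abs_self _)
    linarith
  have h7 : ((((Q4 A B).filter (fun z => F4 z ≠ 0)).filter (fun z => IsSquare (D * F4 z))).card : ℝ) ≤
      (((Q4 A B).filter (fun z => (1 / 2 : ℝ) * P.card ≤ |∑ p ∈ P, J (D * F4 z) p|)).card : ℝ) := by
    exact_mod_cast card_le_card hsub
  set N : ℝ := (((Q4 A B).filter (fun z => (1 / 2 : ℝ) * P.card ≤ |∑ p ∈ P, J (D * F4 z) p|)).card : ℝ) with hN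
  have hN0 : 0 ≤ N := Nat.cast_nonneg _
  refine h7.trans ?_
  set RR : ℝ := ((A.card : ℝ) * B.card) ^ 2 with hRR
  have h8 : N * ((y0 : ℝ) / (8 * Real.log y0)) ^ 2 ≤ 6 * y0 * W ^ 2 * RR := by
    refine le_trans ?_ h1
    refine mul_le_mul_of_nonneg_left (pow_le_pow_left₀ (by positivity) ?_ 2) hN0
    have e : (y0 : ℝ) / (8 * Real.log y0) = 1 / 2 * ((y0 : ℝ) / (4 * Real.log y0)) := by
      field_simp
      norm_num
    rw [e]
    exact mul_le_mul_of_nonneg_left hP (by norm_num)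
  have h9 : N * ((y0 : ℝ) / (8 * Real.log y0)) ^ 2 ≤
      (1536 * Real.log X1 ^ 2 / y0 * RR) * ((y0 : ℝ) / (8 * Real.log y0)) ^ 2 := by
    refine h8.trans (le_of_eq ?_)
    rw [hW]
    field_simp
    ring
  exact le_of_mul_le_mul_right h9 (by positivity)

/-- the primes modulo which the four-cycles have a large sum -/
noncomputable def badTr (Q : ℕ) (τ : ℝ) (A B : Finset ℤ) : Finset ℕ :=
  (Nat.primesLE Q).filter (fun p => p ≠ 2 ∧ τ * ((A.card : ℝ) * B.card) ^ 2 ≤ Tr p A B)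

theorem badTr_card_le (Q : ℕ) (τ : ℝ) (A B : Finset ℤ) : ((badTr Q τ A B).card : ℝ) ≤ Q := by
  have h1 : badTr Q τ A B ⊆ Icc 1 Q := by
    intro p hp
    unfold badTr at hp
    rw [mem_filter, Nat.mem_primesLE] at hp
    rw [mem_Icc]
    exact ⟨hp.1.2.one_lt.le, hp.1.1⟩
  have h2 := card_le_card h1
  rw [Nat.card_Icc] at h2
  exact_mod_cast h2

/-- the number of the bad primes -/
theorem bad_count (K : ℕ) : ∃ C : ℝ, 0 < C ∧ ∀ (Q : ℕ) (A B : Finset ℤ) (m : ℕ) (τ : ℝ), 3 ≤ Q →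
    A ⊆ Icc (-(Q : ℤ) ^ K) ((Q : ℤ) ^ K) → B ⊆ Icc (-(Q : ℤ) ^ K) ((Q : ℤ) ^ K) →
    1 ≤ m → m ≤ A.card → m ≤ B.card → 0 < τ → τ ≤ 1 →
      τ ^ 2 * ((badTr Q τ A B).card : ℝ) ≤
        C * (Q : ℝ) * (Real.log Q ^ 4 / m) ^ (1 / (2 * (10 * (K : ℝ) + 2))) := by
  classical
  obtain ⟨Y0, hY04, hY0⟩ := pi_facts (1 / 2) (by norm_num)
  obtain ⟨k, hk⟩ : ∃ k : ℕ, k = 10 * K + 2 := ⟨_, rfl⟩
  have hkr : (k : ℝ) = 10 * (K : ℝ) + 2 := by rw [hk]; push_cast; ring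
  have hk0 : (0 : ℝ) < k := by rw [hkr]; positivity
  set c : ℝ := 1 / (2 * (10 * (K : ℝ) + 2)) with hc
  have hck : c * k = 1 / 2 := by
    rw [hc, hkr]
    field_simp
  have hc0 : 0 < c := by positivity
  have hc1 : c ≤ 1 := by
    rw [hc, div_le_one (by positivity)]
    have : (0 : ℝ) ≤ K := Nat.cast_nonneg _
    linarith
  set S : ℝ := max (Y0 : ℝ) (128 * ((K : ℝ) + 1)) with hS
  have hS1 : (1 : ℝ) ≤ S := by
    refine le_trans ?_ (le_max_right _ _)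
    have : (0 : ℝ) ≤ K := Nat.cast_nonneg _
    linarith
  set M0 : ℝ := (2 * S) ^ 2 with hM0
  have hM01 : 1 ≤ M0 := by
    rw [hM0]
    apply one_le_pow₀
    linarith
  set C3 : ℝ := 6144 * ((K : ℝ) + 1) ^ 2 + 1024 with hC3
  have hfac : (1 : ℝ) ≤ k.factorial := by exact_mod_cast Nat.one_le_iff_ne_zero.2 (Nat.factorial_ne_zero k)
  set C4 : ℝ := k.factorial * C3 with hC4
  have hC31 : 1 ≤ C3 := by
    have : (0 : ℝ) ≤ 6144 * ((K : ℝ) + 1) ^ 2 := by positivity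
    linarith
  have hC41 : 1 ≤ C4 := by
    exact one_le_mul_of_one_le_of_one_le hfac hC31
  refine ⟨M0 + C4, by positivity, ?_⟩
  intro Q A B m τ hQ hA hB hm hmA hmB hτ hτ1
  have hQr : (3 : ℝ) ≤ Q := by exact_mod_cast hQ
  set L : ℝ := Real.log Q with hL
  have hL1 : 1 ≤ L := by
    rw [hL, Real.le_log_iff_exp_le (by linarith)]
    have := Real.exp_one_lt_d9
    linarith
  have hmr : (1 : ℝ) ≤ m := by exact_mod_cast hm
  have hx0 : 0 < L ^ 4 / m := by positivity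
  set u : ℝ := (L ^ 4 / m) ^ c with hu
  have hu0 : 0 < u := Real.rpow_pos_of_pos hx0 _
  set N : ℝ := ((badTr Q τ A B).card : ℝ) with hN
  have hN0 : 0 ≤ N := Nat.cast_nonneg _
  have hτ2 : τ ^ 2 ≤ 1 := pow_le_one₀ hτ.le hτ1
  by_cases hsmall : (m : ℝ) ≤ M0 * L ^ 4
  · -- few elements
    have h1 : 1 ≤ M0 * u := by
      have h2 : 1 / M0 ≤ L ^ 4 / m := by
        rw [div_le_div_iff₀ (by positivity) (by positivity)]
        linarith
      have h3 : (1 / M0) ^ c ≤ u := Real.rpow_le_rpow (by positivity) h2 hc0.le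
      have h4 : 1 / M0 ≤ (1 / M0) ^ c := by
        have h5 : (1 / M0) ^ (1 : ℝ) ≤ (1 / M0) ^ c :=
          Real.rpow_le_rpow_of_exponent_ge (by positivity) (by rw [div_le_one (by linarith)]; exact hM01) hc1
        rwa [Real.rpow_one] at h5
      have h6 : 1 / M0 ≤ u := h4.trans h3
      calc (1 : ℝ) = M0 * (1 / M0) := by field_simp
        _ ≤ _ := mul_le_mul_of_nonneg_left h6 (by positivity)
    have h2 : N ≤ Q := badTr_card_le Q τ A B
    calc τ ^ 2 * N ≤ 1 * N := mul_le_mul_of_nonneg_right hτ2 hN0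
      _ ≤ Q * 1 := by linarith
      _ ≤ Q * (M0 * u) := mul_le_mul_of_nonneg_left h1 (by linarith)
      _ ≤ Q * ((M0 + C4) * u) := by
          refine mul_le_mul_of_nonneg_left (mul_le_mul_of_nonneg_right (by linarith) hu0.le) (by linarith)
      _ = _ := by ring
  push Not at hsmall
  obtain ⟨y0, hy0⟩ : ∃ y0, y0 = Nat.sqrt m := ⟨_, rfl⟩
  have hy1 : 1 ≤ y0 := by rw [hy0]; exact Nat.le_sqrt'.2 (by omega)
  have hyle : y0 ^ 2 ≤ m := by rw [hy0]; exact Nat.sqrt_le' m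
  have hylt : m < (y0 + 1) ^ 2 := by rw [hy0]; exact Nat.lt_succ_sqrt' m
  have hy1r : (1 : ℝ) ≤ y0 := by exact_mod_cast hy1
  have hyler : (y0 : ℝ) ^ 2 ≤ m := by exact_mod_cast hyle
  have hm4 : (m : ℝ) ≤ (2 * y0) ^ 2 := by
    have h1 : (m : ℝ) ≤ ((y0 : ℝ) + 1) ^ 2 := by exact_mod_cast hylt.le
    exact h1.trans (pow_le_pow_left₀ (by positivity) (by linarith) 2)
  have hyS : S * L ^ 2 ≤ y0 := by
    have h1 : (2 * (S * L ^ 2)) ^ 2 ≤ (2 * (y0 : ℝ)) ^ 2 := by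
      calc (2 * (S * L ^ 2)) ^ 2 = M0 * L ^ 4 := by rw [hM0]; ring
        _ ≤ (m : ℝ) := hsmall.le
        _ ≤ _ := hm4
    have h2 := le_of_sq_le_sq h1 (by positivity)
    linarith
  have hLL : L ≤ L ^ 2 := le_self_pow₀ hL1 (by norm_num)
  have hSL : S ≤ y0 := by
    have : (1 : ℝ) ≤ L ^ 2 := one_le_pow₀ hL1
    exact (le_mul_of_one_le_right (by linarith) this).trans hyS
  have hYy : Y0 ≤ y0 := by
    have : (Y0 : ℝ) ≤ y0 := (le_max_left _ _).trans hSL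
    exact_mod_cast this
  have hy4 : 4 ≤ y0 := hY04.trans hYy
  obtain ⟨f1, -, f3, -, -⟩ := hY0 y0 hYy
  obtain ⟨X1, hX1⟩ : ∃ X1 : ℕ, X1 = 2 * Q ^ K := ⟨_, rfl⟩
  have hQK : 1 ≤ Q ^ K := Nat.one_le_pow _ _ (by omega)
  have hQKr : (1 : ℝ) ≤ (Q : ℝ) ^ K := one_le_pow₀ (by linarith)
  have hX1r : (X1 : ℝ) = 2 * (Q : ℝ) ^ K := by rw [hX1]; push_cast; ring
  have hlogX : Real.log X1 ≤ ((K : ℝ) + 1) * L := by
    rw [hX1r, Real.log_mul (by norm_num) (by positivity), Real.log_pow]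
    have := Real.log_two_lt_d9
    rw [add_mul, one_mul]
    linarith
  have hlogX0 : 0 ≤ Real.log X1 := Real.log_natCast_nonneg _
  have hmX : m ≤ X1 + 1 := by
    refine hmA.trans ((card_le_card hA).trans ?_)
    rw [Int.card_Icc, hX1]
    have : ((Q : ℤ) ^ K + 1 - -(Q : ℤ) ^ K) = ((2 * Q ^ K + 1 : ℕ) : ℤ) := by push_cast; ring
    rw [this, Int.toNat_natCast]
  have hyX : y0 ≤ X1 := by
    by_contra h
    push Not at h
    have h2 : X1 + 1 ≤ y0 := h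
    have h3 : 1 ≤ X1 := by omega
    have h4 : (X1 + 1) * 2 ≤ y0 * y0 := Nat.mul_le_mul h2 (by omega)
    rw [sq] at hyle
    omega
  have hdiff : ∀ T : Finset ℤ, T ⊆ Icc (-(Q : ℤ) ^ K) ((Q : ℤ) ^ K) → ∀ a ∈ T, ∀ a' ∈ T, |a - a'| ≤ X1 := by
    intro T hT a ha a' ha'
    have h1 := mem_Icc.1 (hT ha)
    have h2 := mem_Icc.1 (hT ha')
    rw [hX1, abs_le]
    push_cast
    constructor <;> linarith [h1.1, h1.2, h2.1, h2.2]
  have hsum : ∀ a ∈ A, ∀ b ∈ B, |a + b| ≤ X1 := by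
    intro a ha b hb
    have h1 := mem_Icc.1 (hA ha)
    have h2 := mem_Icc.1 (hB hb)
    rw [hX1, abs_le]
    push_cast
    constructor <;> linarith [h1.1, h1.2, h2.1, h2.2]
  have hmAr : (m : ℝ) ≤ A.card := by exact_mod_cast hmA
  have hmBr : (m : ℝ) ≤ B.card := by exact_mod_cast hmB
  have hlog128 : 128 * Real.log X1 ≤ y0 := by
    have h1 : 128 * ((K : ℝ) + 1) ≤ S := le_max_right _ _
    have h2 : 128 * ((K : ℝ) + 1) * L ^ 2 ≤ S * L ^ 2 := mul_le_mul_of_nonneg_right h1 (by positivity)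
    have h3 : 128 * (((K : ℝ) + 1) * L) ≤ 128 * ((K : ℝ) + 1) * L ^ 2 := by
      have : (0 : ℝ) ≤ 128 * ((K : ℝ) + 1) := by positivity
      rw [← mul_assoc]
      exact mul_le_mul_of_nonneg_left hLL this
    linarith
  have hPcard : (y0 : ℝ) / (4 * Real.log y0) ≤ (((Nat.primesLE y0).filter (fun p => Nat.sqrt y0 < p)).card : ℝ) := by
    have h1 : (((Nat.primesLE y0).filter (fun p => ¬ Nat.sqrt y0 < p)).card : ℝ) ≤ Real.sqrt y0 := by
      have h2 : (Nat.primesLE y0).filter (fun p => ¬ Nat.sqrt y0 < p) ⊆ Icc 1 (Nat.sqrt y0) := by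
        intro p hp
        rw [mem_filter, Nat.mem_primesLE] at hp
        rw [mem_Icc]
        exact ⟨hp.1.2.one_lt.le, not_lt.1 hp.2⟩
      have h3 := card_le_card h2
      rw [Nat.card_Icc] at h3
      refine le_trans ?_ Real.nat_sqrt_le_real_sqrt
      exact_mod_cast h3
    have h4 : ((π y0 : ℕ) : ℝ) = (((Nat.primesLE y0).filter (fun p => Nat.sqrt y0 < p)).card : ℝ) +
        (((Nat.primesLE y0).filter (fun p => ¬ Nat.sqrt y0 < p)).card : ℝ) := by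
      rw [← Nat.primesLE_card_eq_primeCounting,
        ← card_filter_add_card_filter_not (s := Nat.primesLE y0) (fun p => Nat.sqrt y0 < p)]
      push_cast
      rfl
    have h5 : (y0 : ℝ) / (4 * Real.log y0) = (y0 : ℝ) / (2 * Real.log y0) / 2 := by
      rw [div_div]; congr 1; ring
    rw [h5]
    linarith
  set R : ℝ := ((A.card : ℝ) * B.card) ^ 2 with hR
  have hR0 : 0 < R := by
    have h1 : (0 : ℝ) < A.card := by linarith
    have h2 : (0 : ℝ) < B.card := by linarith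
    positivity
  set Z := (Q4 A B).filter (fun z => F4 z ≠ 0) with hZ
  set ρ : ℝ := 1536 * Real.log X1 ^ 2 / y0 with hρ
  have hρ0 : 0 ≤ ρ := by positivity
  have hN1 : ∀ z ∈ Z, |((F4 z : ℤ) : ℝ)| ≤ (X1 : ℝ) ^ 4 := by
    intro z hz
    have := F4_abs hsum (mem_filter.1 hz).1
    exact_mod_cast this
  have hlarge := large Z F4 k Q (by rw [hk]; exact ⟨5 * K + 1, by ring⟩) (by omega) ρ ((X1 : ℝ) ^ 4) R hR0
    (by positivity) hN1 ?_ ?_ hρ0 (badTr Q τ A B) ?_ τ hτ.le ?_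
  · -- the end
    have hkey : (k.factorial : ℝ) * (((Q : ℝ) ^ k + 1) * ρ + 4 * ((X1 : ℝ) ^ 4) ^ 2) ≤ (C4 * Q * u) ^ k := by
      set t : ℝ := Real.sqrt (L ^ 4 / m) with ht
      have ht0 : 0 ≤ t := Real.sqrt_nonneg _
      have huk : u ^ k = t := by
        rw [hu, ht, ← Real.rpow_natCast, ← Real.rpow_mul hx0.le, hck, Real.sqrt_eq_rpow]
      have hQk : (1 : ℝ) ≤ (Q : ℝ) ^ k := one_le_pow₀ (by linarith)
      have hy0p : (0 : ℝ) < y0 := by linarith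
      have e1 : L ^ 2 / y0 ≤ 2 * t := by
        have h1 : L ^ 2 / y0 / 2 ≤ t := by
          rw [ht]
          apply Real.le_sqrt_of_sq_le
          rw [div_pow, div_pow, div_div, div_le_div_iff₀ (by positivity) (by positivity)]
          have h2 : (m : ℝ) ≤ (y0 : ℝ) ^ 2 * 2 ^ 2 := by linarith [hm4, mul_pow (2 : ℝ) (y0 : ℝ) 2]
          have h3 : (0 : ℝ) ≤ L ^ 4 := by positivity
          calc (L ^ 2) ^ 2 * (m : ℝ) = L ^ 4 * m := by ring
            _ ≤ L ^ 4 * ((y0 : ℝ) ^ 2 * 2 ^ 2) := mul_le_mul_of_nonneg_left h2 h3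
        linarith
      have e2 : ρ ≤ 3072 * ((K : ℝ) + 1) ^ 2 * t := by
        have h1 : Real.log X1 ^ 2 ≤ (((K : ℝ) + 1) * L) ^ 2 := pow_le_pow_left₀ hlogX0 hlogX 2
        calc ρ = 1536 * (Real.log X1 ^ 2 / y0) := by rw [hρ]; ring
          _ ≤ 1536 * ((((K : ℝ) + 1) * L) ^ 2 / y0) := by
              refine mul_le_mul_of_nonneg_left ?_ (by norm_num)
              exact div_le_div_of_nonneg_right h1 hy0p.le
          _ = 1536 * ((K : ℝ) + 1) ^ 2 * (L ^ 2 / y0) := by ring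
          _ ≤ 1536 * ((K : ℝ) + 1) ^ 2 * (2 * t) := mul_le_mul_of_nonneg_left e1 (by positivity)
          _ = _ := by ring
      have e3 : 4 * ((X1 : ℝ) ^ 4) ^ 2 ≤ 1024 * (Q : ℝ) ^ k * t := by
        have h1 : (1 : ℝ) ≤ (Q : ℝ) ^ (2 * K + 2) * t := by
          have h2 : (m : ℝ) ≤ (Q : ℝ) ^ (K + 1) := by
            have h3 : (m : ℝ) ≤ X1 + 1 := by exact_mod_cast hmX
            rw [hX1r] at h3
            calc (m : ℝ) ≤ 2 * (Q : ℝ) ^ K + 1 := h3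
              _ ≤ (Q : ℝ) ^ K * 3 := by linarith
              _ ≤ (Q : ℝ) ^ K * Q := mul_le_mul_of_nonneg_left hQr (by positivity)
              _ = _ := (pow_succ _ _).symm
          have h4 : 1 / (Q : ℝ) ^ (K + 1) ≤ L ^ 4 / m := by
            rw [div_le_div_iff₀ (by positivity) (by positivity)]
            have : (1 : ℝ) ≤ L ^ 4 := one_le_pow₀ hL1
            exact mul_le_mul this h2 (by positivity) (by positivity)
          have h5 : 1 / (Q : ℝ) ^ (K + 1) ≤ t := by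
            rw [ht]
            apply Real.le_sqrt_of_sq_le
            refine le_trans ?_ h4
            have h6 : 1 / (Q : ℝ) ^ (K + 1) ≤ 1 := by
              rw [div_le_one (by positivity)]
              exact one_le_pow₀ (by linarith)
            have h7 : 0 ≤ 1 / (Q : ℝ) ^ (K + 1) := by positivity
            exact pow_le_of_le_one h7 h6 (by norm_num)
          have h8 : (Q : ℝ) ^ (2 * K + 2) = (Q : ℝ) ^ (K + 1) * (Q : ℝ) ^ (K + 1) := by rw [← pow_add]; congr 1; ring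
          have h9 : (1 : ℝ) ≤ (Q : ℝ) ^ (K + 1) := one_le_pow₀ (by linarith)
          calc (1 : ℝ) ≤ (Q : ℝ) ^ (K + 1) * 1 := by linarith
            _ = (Q : ℝ) ^ (K + 1) * ((Q : ℝ) ^ (K + 1) * (1 / (Q : ℝ) ^ (K + 1))) := by field_simp
            _ ≤ (Q : ℝ) ^ (K + 1) * ((Q : ℝ) ^ (K + 1) * t) :=
                mul_le_mul_of_nonneg_left (mul_le_mul_of_nonneg_left h5 (by positivity)) (by positivity)
            _ = _ := by rw [h8]; ring
        have h10 : (Q : ℝ) ^ k = (Q : ℝ) ^ (8 * K) * (Q : ℝ) ^ (2 * K + 2) := by rw [← pow_add, hk]; congr 1; ring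
        have h11 : ((X1 : ℝ) ^ 4) ^ 2 = 256 * (Q : ℝ) ^ (8 * K) := by
          rw [hX1r, ← pow_mul, mul_pow, ← pow_mul]
          have : K * (4 * 2) = 8 * K := by ring
          rw [this]
          norm_num
        rw [h11, h10]
        have h12 : (0 : ℝ) ≤ (Q : ℝ) ^ (8 * K) := by positivity
        calc 4 * (256 * (Q : ℝ) ^ (8 * K)) = 1024 * (Q : ℝ) ^ (8 * K) * 1 := by ring
          _ ≤ 1024 * (Q : ℝ) ^ (8 * K) * ((Q : ℝ) ^ (2 * K + 2) * t) := mul_le_mul_of_nonneg_left h1 (by positivity)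
          _ = _ := by ring
      have e4 : ((Q : ℝ) ^ k + 1) * ρ ≤ 6144 * ((K : ℝ) + 1) ^ 2 * ((Q : ℝ) ^ k * t) := by
        calc ((Q : ℝ) ^ k + 1) * ρ ≤ (2 * (Q : ℝ) ^ k) * (3072 * ((K : ℝ) + 1) ^ 2 * t) :=
              mul_le_mul (by linarith) e2 hρ0 (by positivity)
          _ = _ := by ring
      have e5 : ((Q : ℝ) ^ k + 1) * ρ + 4 * ((X1 : ℝ) ^ 4) ^ 2 ≤ C3 * ((Q : ℝ) ^ k * t) := by
        rw [hC3, add_mul]
        linarith
      calc (k.factorial : ℝ) * (((Q : ℝ) ^ k + 1) * ρ + 4 * ((X1 : ℝ) ^ 4) ^ 2)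
          ≤ k.factorial * (C3 * ((Q : ℝ) ^ k * t)) := mul_le_mul_of_nonneg_left e5 (by positivity)
        _ = C4 * ((Q : ℝ) ^ k * t) := by rw [hC4]; ring
        _ ≤ C4 ^ k * ((Q : ℝ) ^ k * t) :=
            mul_le_mul_of_nonneg_right (le_self_pow₀ hC41 (by omega)) (by positivity)
        _ = _ := by rw [mul_pow (C4 * (Q : ℝ)) u k, mul_pow C4 (Q : ℝ) k, huk]; ring
    have h1 : (τ ^ 2 * N) ^ k ≤ (C4 * Q * u) ^ k := hlarge.trans hkey
    have h2 : τ ^ 2 * N ≤ C4 * Q * u := le_of_pow_le_pow_left₀ (by omega) (by positivity) h1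
    refine h2.trans ?_
    refine mul_le_mul_of_nonneg_right (mul_le_mul_of_nonneg_right (by linarith) (by linarith)) hu0.le
  · rw [hR, ← Q4_card]
    exact_mod_cast card_filter_le _ _
  · intro z' hz'
    rw [hZ, mem_filter] at hz'
    exact sq_few y0 X1 A B hy4 hyX (hdiff A hA) (hdiff B hB) hsum (hyler.trans hmAr) (hyler.trans hmBr) hlog128
      hPcard (F4 z') hz'.2 (F4_abs hsum hz'.1)
  · intro p hp
    unfold badTr at hp
    rw [mem_filter, Nat.mem_primesLE] at hp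
    exact ⟨hp.1.2, hp.2.1, hp.1.1⟩
  · intro p hp
    unfold badTr at hp
    rw [mem_filter, Nat.mem_primesLE] at hp
    have h1 : ∑ z ∈ Z, J (F4 z) p = Tr p A B := by
      rw [hZ, sum_filter]
      unfold Tr
      refine sum_congr rfl fun z _ => ?_
      split_ifs with h
      · rfl
      · push Not at h
        rw [h]
        unfold J
        rw [jacobiSym.zero_left hp.1.2.one_lt]
        norm_num
    rw [h1]
    exact hp.2.2.trans (le_abs_self _)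

/-- the bilinear forms modulo a good prime -/
theorem good_forms (Q : ℕ) (κ : ℝ) (A B : Finset ℤ) (hκ : 0 ≤ κ) (p : ℕ) (hp : p.Prime) (hp2 : p ≠ 2) (hpQ : p ≤ Q)
    (hgood : p ∉ badTr Q (κ ^ 4) A B) (f g : ℤ → ℂ) :
    ‖∑ a ∈ A, ∑ b ∈ B, f a * g b * (J (a + b) p : ℂ)‖ ≤
      κ * Real.sqrt ((A.card : ℝ) * B.card) * (Real.sqrt (∑ a ∈ A, ‖f a‖ ^ 2) * Real.sqrt (∑ b ∈ B, ‖g b‖ ^ 2)) := by
  have h1 : Tr p A B ≤ κ ^ 4 * ((A.card : ℝ) * B.card) ^ 2 := by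
    by_contra h
    push Not at h
    apply hgood
    unfold badTr
    rw [mem_filter, Nat.mem_primesLE]
    exact ⟨⟨hpQ, hp⟩, hp2, h.le⟩
  have h2 := bil_Tr p A B f g
  have hF : 0 ≤ ∑ a ∈ A, ‖f a‖ ^ 2 := sum_nonneg fun _ _ => by positivity
  have hG : 0 ≤ ∑ b ∈ B, ‖g b‖ ^ 2 := sum_nonneg fun _ _ => by positivity
  have hAB : (0 : ℝ) ≤ (A.card : ℝ) * B.card := by positivity
  refine le_of_pow_le_pow_left₀ (n := 4) (by norm_num) (by positivity) (h2.trans ?_)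
  have e : ∀ x : ℝ, 0 ≤ x → Real.sqrt x ^ 4 = x ^ 2 := by
    intro x hx
    rw [show 4 = 2 * 2 by norm_num, pow_mul, Real.sq_sqrt hx]
  rw [mul_pow, mul_pow, mul_pow, e _ hF, e _ hG, e _ hAB]
  calc (∑ a ∈ A, ‖f a‖ ^ 2) ^ 2 * (∑ b ∈ B, ‖g b‖ ^ 2) ^ 2 * Tr p A B
      ≤ (∑ a ∈ A, ‖f a‖ ^ 2) ^ 2 * (∑ b ∈ B, ‖g b‖ ^ 2) ^ 2 * (κ ^ 4 * ((A.card : ℝ) * B.card) ^ 2) :=
        mul_le_mul_of_nonneg_left h1 (by positivity)
    _ = _ := by ring

end Pool.Agent.R345.SS
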