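import Pool.Agent.R345.SS1

set_option autoImplicit false

/-! Sums of Jacobi symbols over sumsets: the moment bound. -/

namespace Pool.Agent.R345.SS

open Finset

/-- the second elementary symmetric function -/
noncomputable def e2 (B : Finset ℕ) (x : ℕ → ℝ) : ℝ := ∑ U ∈ powersetCard 2 B, ∏ p ∈ U, x p

theorem e2_insert {a : ℕ} {B : Finset ℕ} (ha : a ∉ B) (x : ℕ → ℝ) :
    e2 (insert a B) x = e2 B x + x a * ∑ p ∈ B, x p := by
  classical
  unfold e2
  rw [powersetCard_succ_insert ha, sum_union]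
  · congr 1
    rw [sum_image]
    · rw [powersetCard_one, sum_map, mul_sum]
      refine sum_congr rfl fun p hp => ?_
      simp only [Function.Embedding.coeFn_mk]
      rw [prod_insert, prod_singleton]
      intro h
      rw [mem_singleton] at h
      exact ha (h ▸ hp)
    · intro U hU V hV hUV
      have hU' := (mem_powersetCard.1 (mem_coe.1 hU)).1
      have hV' := (mem_powersetCard.1 (mem_coe.1 hV)).1
      have h1 : (insert a U).erase a = (insert a V).erase a := by rw [show insert a U = insert a V from hUV]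
      rwa [erase_insert (fun h => ha (hU' h)), erase_insert (fun h => ha (hV' h))] at h1
  · rw [disjoint_left]
    intro U hU hU'
    obtain ⟨V, hV, rfl⟩ := mem_image.1 hU'
    exact ha ((mem_powersetCard.1 hU).1 (mem_insert_self _ _))

theorem e2_sq (B : Finset ℕ) (x : ℕ → ℝ) : (∑ p ∈ B, x p) ^ 2 = ∑ p ∈ B, x p ^ 2 + 2 * e2 B x := by
  induction B using Finset.induction_on with
  | empty =>
    have : powersetCard 2 (∅ : Finset ℕ) = ∅ := powersetCard_eq_empty.2 (by simp)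
    simp [e2, this]
  | insert a B ha ih =>
    rw [e2_insert ha, sum_insert ha, sum_insert ha]
    linear_combination ih

theorem e2_le (B : Finset ℕ) (x : ℕ → ℝ) : e2 B x ≤ (∑ p ∈ B, x p) ^ 2 / 2 := by
  have h := e2_sq B x
  have h2 : 0 ≤ ∑ p ∈ B, x p ^ 2 := sum_nonneg fun _ _ => sq_nonneg _
  linarith

theorem e2_nonneg (B : Finset ℕ) (x : ℕ → ℝ) (hx : ∀ p ∈ B, 0 ≤ x p) : 0 ≤ e2 B x :=
  sum_nonneg fun _ hU => prod_nonneg fun p hp => hx p ((mem_powersetCard.1 hU).1 hp)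

/-- the products of the symmetric functions of disjoint blocks -/
theorem fam (B : ℕ → Finset ℕ) (I : Finset ℕ) (hd : ∀ i ∈ I, ∀ j ∈ I, i ≠ j → Disjoint (B i) (B j)) :
    ∃ F : Finset (Finset ℕ), (∀ T ∈ F, T ⊆ I.biUnion B) ∧
      ∀ x : ℕ → ℝ, ∑ T ∈ F, ∏ p ∈ T, x p = ∏ i ∈ I, e2 (B i) x := by
  classical
  induction I using Finset.induction_on with
  | empty => exact ⟨{∅}, by simp, fun x => by simp⟩
  | insert i I hi ih =>
    obtain ⟨F, hF, hFs⟩ := ih (fun j hj l hl => hd j (mem_insert_of_mem hj) l (mem_insert_of_mem hl))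
    have hdis : Disjoint (I.biUnion B) (B i) := by
      rw [disjoint_biUnion_left]
      intro j hj
      exact hd j (mem_insert_of_mem hj) i (mem_insert_self _ _) (fun e => hi (e ▸ hj))
    have hinj : ∀ T ⊆ I.biUnion B, ∀ U ⊆ B i, (T ∪ U) ∩ I.biUnion B = T ∧ (T ∪ U) ∩ B i = U := by
      intro T hT U hU
      constructor
      · ext p
        simp only [mem_inter, mem_union]
        constructor
        · rintro ⟨h | h, h'⟩
          · exact h
          · exact absurd (hU h) (disjoint_left.1 hdis h')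
        · intro h
          exact ⟨Or.inl h, hT h⟩
      · ext p
        simp only [mem_inter, mem_union]
        constructor
        · rintro ⟨h | h, h'⟩
          · exact absurd h' (disjoint_left.1 hdis (hT h))
          · exact h
        · intro h
          exact ⟨Or.inr h, hU h⟩
    refine ⟨(F ×ˢ powersetCard 2 (B i)).image (fun z => z.1 ∪ z.2), ?_, ?_⟩
    · intro T hT
      obtain ⟨z, hz, rfl⟩ := mem_image.1 hT
      rw [mem_product, mem_powersetCard] at hz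
      rw [biUnion_insert]
      exact union_subset ((hF _ hz.1).trans subset_union_right) (hz.2.1.trans subset_union_left)
    · intro x
      rw [sum_image, sum_product, prod_insert hi, mul_comm, ← hFs x, e2, sum_mul_sum]
      · refine sum_congr rfl fun T hT => sum_congr rfl fun U hU => ?_
        rw [prod_union]
        exact disjoint_of_subset_left (hF T hT) (disjoint_of_subset_right (mem_powersetCard.1 hU).1 hdis)
      · intro z hz z' hz' hzz
        rw [mem_coe, mem_product, mem_powersetCard] at hz hz'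
        have h1 := hinj _ (hF _ hz.1) _ hz.2.1
        have h2 := hinj _ (hF _ hz'.1) _ hz'.2.1
        have h3 : z.1 ∪ z.2 = z'.1 ∪ z'.2 := hzz
        rw [h3] at h1
        exact Prod.ext (h1.1.symm.trans h2.1) (h1.2.symm.trans h2.2)

theorem sum_c (B : Finset ℕ) (y W : ℝ) (hB : ∀ p ∈ B, (p : ℝ) ≤ y) (h : ℤ)
    (hW : ((B.filter (fun p : ℕ => (p : ℤ) ∣ h)).card : ℝ) ≤ W) (hy : 0 ≤ y) :
    ∑ p ∈ B, c h p ≤ B.card + y * W := by
  unfold c
  rw [sum_add_distrib]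
  refine add_le_add (by simp) ?_
  calc ∑ p ∈ B, (p : ℝ) * (if (p : ℤ) ∣ h then 1 else 0) ≤ ∑ p ∈ B, y * (if (p : ℤ) ∣ h then 1 else 0) := by
        refine sum_le_sum fun p hp => mul_le_mul_of_nonneg_right (hB p hp) ?_
        split_ifs <;> norm_num
    _ = y * (B.filter (fun p : ℕ => (p : ℤ) ∣ h)).card := by
        rw [← mul_sum, sum_boole]
    _ ≤ y * W := mul_le_mul_of_nonneg_left hW hy

/-- a double sum over pairs -/
theorem pairs_le (A : Finset ℤ) (f : ℤ → ℤ → ℝ) (u v : ℝ) (hv : 0 ≤ v) (h1 : ∀ a ∈ A, f a a ≤ u)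
    (h2 : ∀ a ∈ A, ∀ a' ∈ A, a ≠ a' → f a a' ≤ v) :
    ∑ a ∈ A, ∑ a' ∈ A, f a a' ≤ A.card * u + (A.card : ℝ) ^ 2 * v := by
  classical
  have h : ∀ a ∈ A, ∑ a' ∈ A, f a a' ≤ u + A.card * v := by
    intro a ha
    rw [← add_sum_erase A (f a) ha]
    refine add_le_add (h1 a ha) ?_
    refine (sum_le_sum (g := fun _ => v) fun a' ha' => h2 a ha a' (mem_of_mem_erase ha') (ne_of_mem_erase ha').symm).trans ?_
    rw [sum_const, nsmul_eq_mul]
    refine mul_le_mul_of_nonneg_right ?_ hv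
    exact_mod_cast card_le_card (erase_subset a A)
  refine (sum_le_sum h).trans ?_
  rw [sum_const, nsmul_eq_mul]
  apply le_of_eq
  ring

/-- the data -/
structure Data (k : ℕ) (y W : ℝ) (b : ℕ) (B : ℕ → Finset ℕ) (X : Finset ℕ) (A : Finset ℤ) : Prop where
  card : X.card = k
  prime : ∀ i ∈ X, ∀ p ∈ B i, p.Prime ∧ p ≠ 2 ∧ (p : ℝ) ≤ y
  block : ∀ i ∈ X, (B i).card = b
  disj : ∀ i ∈ X, ∀ j ∈ X, i ≠ j → Disjoint (B i) (B j)
  hb : 1 ≤ b
  hby : (b : ℝ) ≤ y
  hW : 1 ≤ W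
  few : ∀ i ∈ X, ∀ a ∈ A, ∀ a' ∈ A, a ≠ a' → (((B i).filter (fun p : ℕ => (p : ℤ) ∣ a - a')).card : ℝ) ≤ W
  many : (b : ℝ) ^ (2 * k) ≤ A.card

theorem Data.pow {k : ℕ} {y W : ℝ} {b : ℕ} {B : ℕ → Finset ℕ} {X : Finset ℕ} {A : Finset ℤ}
    (h : Data k y W b B X A) {j : ℕ} (hj : j ≤ k) : (b : ℝ) ^ (2 * j) ≤ A.card := by
  refine le_trans ?_ h.many
  exact pow_le_pow_right₀ (by exact_mod_cast h.hb) (by omega)

/-- the sum of the weights -/
theorem sumG {k : ℕ} {y W : ℝ} {b : ℕ} {B : ℕ → Finset ℕ} {X : Finset ℕ} {A : Finset ℤ}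
    (h : Data k y W b B X A) {I : Finset ℕ} (hI : I ⊆ X) :
    ∑ a ∈ A, ∑ a' ∈ A, ∏ i ∈ I, e2 (B i) (c (a - a')) ≤
      (1 / 2) ^ I.card * (2 * (A.card : ℝ) ^ 2 * (2 * y * W) ^ (2 * I.card)) := by
  have hb1 : (1 : ℝ) ≤ b := by exact_mod_cast h.hb
  have hy1 : 1 ≤ y := hb1.trans h.hby
  have hW := h.hW
  have hIk : I.card ≤ k := h.card ▸ card_le_card hI
  have hA1 : (1 : ℝ) ≤ A.card := (one_le_pow₀ hb1).trans (h.pow hIk)
  have hyW : y ≤ y * W := le_mul_of_one_le_right (by linarith) hW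
  have h1 : ∀ a ∈ A, ∏ i ∈ I, e2 (B i) (c (a - a)) ≤ (1 / 2) ^ I.card * ((2 * y * b) ^ (2 * I.card)) := by
    intro a _
    refine (prod_le_prod (g := fun _ => 1 / 2 * (2 * y * b) ^ 2) (fun i _ => e2_nonneg _ _ fun p _ => c_nonneg _ _) ?_).trans ?_
    · intro i hi
      refine (e2_le _ _).trans ?_
      have h3 : ∑ p ∈ B i, c (a - a) p ≤ 2 * y * b := by
        refine (sum_le_sum (g := fun _ => 2 * y) fun p hp => ?_).trans ?_
        · unfold c
          rw [sub_self, if_pos (dvd_zero _)]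
          have := (h.prime i (hI hi) p hp).2.2
          linarith
        · rw [sum_const, h.block i (hI hi), nsmul_eq_mul]
          apply le_of_eq; ring
      have h4 : 0 ≤ ∑ p ∈ B i, c (a - a) p := sum_nonneg fun _ _ => c_nonneg _ _
      have := pow_le_pow_left₀ h4 h3 2
      linarith
    · rw [prod_const, mul_pow, ← pow_mul]
  have h2 : ∀ a ∈ A, ∀ a' ∈ A, a ≠ a' → ∏ i ∈ I, e2 (B i) (c (a - a')) ≤ (1 / 2) ^ I.card * ((2 * y * W) ^ (2 * I.card)) := by
    intro a ha a' ha' hne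
    refine (prod_le_prod (g := fun _ => 1 / 2 * (2 * y * W) ^ 2) (fun i _ => e2_nonneg _ _ fun p _ => c_nonneg _ _) ?_).trans ?_
    · intro i hi
      refine (e2_le _ _).trans ?_
      have h3 : ∑ p ∈ B i, c (a - a') p ≤ 2 * y * W := by
        refine (sum_c (B i) y W (fun p hp => (h.prime i (hI hi) p hp).2.2) _ (h.few i (hI hi) a ha a' ha' hne) (by linarith)).trans ?_
        rw [h.block i (hI hi)]
        have := h.hby
        linarith
      have h4 : 0 ≤ ∑ p ∈ B i, c (a - a') p := sum_nonneg fun _ _ => c_nonneg _ _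
      have := pow_le_pow_left₀ h4 h3 2
      linarith
    · rw [prod_const, mul_pow, ← pow_mul]
  refine (pairs_le A _ _ _ (by positivity) h1 h2).trans ?_
  have h5 : (A.card : ℝ) * (2 * y * b) ^ (2 * I.card) ≤ (A.card : ℝ) ^ 2 * (2 * y * W) ^ (2 * I.card) := by
    have h6 : (2 * y * b) ^ (2 * I.card) = (2 * y) ^ (2 * I.card) * (b : ℝ) ^ (2 * I.card) := by rw [mul_pow]
    have h7 : (2 * y) ^ (2 * I.card) ≤ (2 * y * W) ^ (2 * I.card) := by
      refine pow_le_pow_left₀ (by linarith) (by linarith) _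
    rw [h6]
    calc (A.card : ℝ) * ((2 * y) ^ (2 * I.card) * (b : ℝ) ^ (2 * I.card))
        ≤ (A.card : ℝ) * ((2 * y * W) ^ (2 * I.card) * A.card) := by
          refine mul_le_mul_of_nonneg_left ?_ (by linarith)
          exact mul_le_mul h7 (h.pow hIk) (by positivity) (by positivity)
      _ = _ := by ring
  have h8 : (0 : ℝ) < (1 / 2) ^ I.card := by positivity
  nlinarith

/-- the sum of the numbers of coincidences -/
theorem sumE {k : ℕ} {y W : ℝ} {b : ℕ} {B : ℕ → Finset ℕ} {X : Finset ℕ} {A : Finset ℤ}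
    (h : Data k y W b B X A) {I : Finset ℕ} (hI : I ⊆ X) :
    ∑ a ∈ A, ∑ a' ∈ A, ∏ i ∈ I, e2 (B i) (fun p => if (p : ℤ) ∣ a - a' then (1 : ℝ) else 0) ≤
      (1 / 2) ^ I.card * (2 * (A.card : ℝ) ^ 2 * W ^ (2 * I.card)) := by
  have hb1 : (1 : ℝ) ≤ b := by exact_mod_cast h.hb
  have hW := h.hW
  have hIk : I.card ≤ k := h.card ▸ card_le_card hI
  have hA1 : (1 : ℝ) ≤ A.card := (one_le_pow₀ hb1).trans (h.pow hIk)
  have hnn : ∀ (z : ℤ) (p : ℕ), (0 : ℝ) ≤ if (p : ℤ) ∣ z then (1 : ℝ) else 0 := by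
    intro z p; split_ifs <;> norm_num
  have h1 : ∀ a ∈ A, ∏ i ∈ I, e2 (B i) (fun p => if (p : ℤ) ∣ a - a then (1 : ℝ) else 0) ≤ (1 / 2) ^ I.card * ((b : ℝ) ^ (2 * I.card)) := by
    intro a _
    refine (prod_le_prod (g := fun _ => 1 / 2 * (b : ℝ) ^ 2) (fun i _ => e2_nonneg _ _ fun p _ => hnn _ _) ?_).trans ?_
    · intro i hi
      refine (e2_le _ _).trans ?_
      rw [sum_boole]
      have h3 : (((B i).filter (fun p : ℕ => (p : ℤ) ∣ a - a)).card : ℝ) ≤ b := by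
        rw [← h.block i (hI hi)]
        exact_mod_cast card_filter_le _ _
      have := pow_le_pow_left₀ (Nat.cast_nonneg _) h3 2
      linarith
    · rw [prod_const, mul_pow, ← pow_mul]
  have h2 : ∀ a ∈ A, ∀ a' ∈ A, a ≠ a' → ∏ i ∈ I, e2 (B i) (fun p => if (p : ℤ) ∣ a - a' then (1 : ℝ) else 0) ≤ (1 / 2) ^ I.card * (W ^ (2 * I.card)) := by
    intro a ha a' ha' hne
    refine (prod_le_prod (g := fun _ => 1 / 2 * W ^ 2) (fun i _ => e2_nonneg _ _ fun p _ => hnn _ _) ?_).trans ?_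
    · intro i hi
      refine (e2_le _ _).trans ?_
      rw [sum_boole]
      have := pow_le_pow_left₀ (Nat.cast_nonneg _) (h.few i (hI hi) a ha a' ha' hne) 2
      linarith
    · rw [prod_const, mul_pow, ← pow_mul]
  refine (pairs_le A _ _ _ (by positivity) h1 h2).trans ?_
  have h5 : (A.card : ℝ) * (b : ℝ) ^ (2 * I.card) ≤ (A.card : ℝ) ^ 2 * W ^ (2 * I.card) := by
    have h7 : (1 : ℝ) ≤ W ^ (2 * I.card) := one_le_pow₀ hW
    calc (A.card : ℝ) * (b : ℝ) ^ (2 * I.card) ≤ (A.card : ℝ) * A.card :=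
          mul_le_mul_of_nonneg_left (h.pow hIk) (by linarith)
      _ = (A.card : ℝ) ^ 2 * 1 := by ring
      _ ≤ _ := mul_le_mul_of_nonneg_left h7 (by positivity)
  have h8 : (0 : ℝ) < (1 / 2) ^ I.card := by positivity
  nlinarith

/-- the sum of the products of symmetric functions over the pairs -/
theorem sumT {k : ℕ} {y W : ℝ} {b : ℕ} {B : ℕ → Finset ℕ} {X : Finset ℕ} {A A' : Finset ℤ}
    (h : Data k y W b B X A) (h' : Data k y W b B X A') (w : ℕ → ℝ) (hw : ∀ p, |w p| ≤ 1)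
    {I : Finset ℕ} (hI : I ⊆ X) :
    2 ^ I.card * ∑ a ∈ A, ∑ a' ∈ A', ∏ i ∈ I, e2 (B i) (fun p => w p * J (a + a') p) ≤
      2 * A.card * A'.card * (2 * y * W ^ 2) ^ I.card := by
  classical
  have hb1 : (1 : ℝ) ≤ b := by exact_mod_cast h.hb
  have hy1 : 1 ≤ y := hb1.trans h.hby
  have hW := h.hW
  obtain ⟨F, hF, hFs⟩ := fam B I (fun i hi j hj => h.disj i (hI hi) j (hI hj))
  set Z : Finset ℕ → ℝ := fun T => ∑ a ∈ A, ∑ a' ∈ A', ∏ p ∈ T, J (a + a') p with hZ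
  have h1 : ∑ a ∈ A, ∑ a' ∈ A', ∏ i ∈ I, e2 (B i) (fun p => w p * J (a + a') p) =
      ∑ T ∈ F, (∏ p ∈ T, w p) * Z T := by
    have e : ∀ a a' : ℤ, ∏ i ∈ I, e2 (B i) (fun p => w p * J (a + a') p) =
        ∑ T ∈ F, (∏ p ∈ T, w p) * ∏ p ∈ T, J (a + a') p := by
      intro a a'
      rw [← hFs]
      exact sum_congr rfl fun T _ => prod_mul_distrib
    rw [sum_congr rfl fun a _ => sum_congr rfl fun a' _ => e a a']
    rw [sum_congr rfl fun a _ => sum_comm, sum_comm]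
    refine sum_congr rfl fun T _ => ?_
    rw [hZ, mul_sum]
    exact sum_congr rfl fun a _ => (mul_sum _ _ _).symm
  have h2 : ∑ T ∈ F, (∏ p ∈ T, w p) * Z T ≤ ∑ T ∈ F, |Z T| := by
    refine sum_le_sum fun T _ => ?_
    refine (le_abs_self _).trans ?_
    rw [abs_mul, abs_prod]
    have : ∏ p ∈ T, |w p| ≤ 1 := prod_le_one (fun _ _ => abs_nonneg _) fun p _ => hw p
    exact mul_le_of_le_one_left (abs_nonneg _) this
  have hTp : ∀ T ∈ F, ∀ p ∈ T, p.Prime ∧ p ≠ 2 := by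
    intro T hT p hp
    obtain ⟨i, hi, hpi⟩ := mem_biUnion.1 (hF T hT hp)
    have := h.prime i (hI hi) p hpi
    exact ⟨this.1, this.2.1⟩
  have h3 : (∑ T ∈ F, |Z T|) ^ 2 ≤
      (∑ T ∈ F, ∑ a ∈ A, ∑ a' ∈ A, ∏ p ∈ T, c (a - a') p) *
        (∑ T ∈ F, ∑ b ∈ A', ∑ b' ∈ A', ∏ p ∈ T, (if (p : ℤ) ∣ b - b' then (1 : ℝ) else 0)) := by
    refine sum_sq_le_sum_mul_sum_of_sq_le_mul F ?_ ?_ ?_
    · intro T _
      exact sum_nonneg fun _ _ => sum_nonneg fun _ _ => prod_nonneg fun _ _ => c_nonneg _ _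
    · intro T _
      refine sum_nonneg fun _ _ => sum_nonneg fun _ _ => prod_nonneg fun _ _ => ?_
      split_ifs <;> norm_num
    · intro T hT
      rw [sq_abs]
      exact bilinear T (hTp T hT) A A'
  have h4 : ∑ T ∈ F, ∑ a ∈ A, ∑ a' ∈ A, ∏ p ∈ T, c (a - a') p = ∑ a ∈ A, ∑ a' ∈ A, ∏ i ∈ I, e2 (B i) (c (a - a')) := by
    rw [sum_comm]
    refine sum_congr rfl fun a _ => ?_
    rw [sum_comm]
    exact sum_congr rfl fun a' _ => hFs _
  have h5 : ∑ T ∈ F, ∑ b ∈ A', ∑ b' ∈ A', ∏ p ∈ T, (if (p : ℤ) ∣ b - b' then (1 : ℝ) else 0) =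
      ∑ b ∈ A', ∑ b' ∈ A', ∏ i ∈ I, e2 (B i) (fun p => if (p : ℤ) ∣ b - b' then (1 : ℝ) else 0) := by
    rw [sum_comm]
    refine sum_congr rfl fun a _ => ?_
    rw [sum_comm]
    exact sum_congr rfl fun a' _ => hFs _
  rw [h4, h5] at h3
  have h6 := sumG h hI
  have h7 := sumE h' hI
  have h8 : (∑ T ∈ F, |Z T|) ^ 2 ≤ ((1 / 2) ^ I.card * (2 * A.card * A'.card * (2 * y * W ^ 2) ^ I.card)) ^ 2 := by
    refine h3.trans ((mul_le_mul h6 h7 ?_ (by positivity)).trans (le_of_eq ?_))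
    · refine sum_nonneg fun _ _ => sum_nonneg fun _ _ => prod_nonneg fun _ _ => e2_nonneg _ _ fun _ _ => ?_
      split_ifs <;> norm_num
    · rw [pow_mul, pow_mul]
      have e : ((2 * y * W) ^ 2) ^ I.card * (W ^ 2) ^ I.card = ((2 * y * W ^ 2) ^ I.card) ^ 2 := by
        rw [← mul_pow, ← pow_mul, mul_comm I.card 2, pow_mul]
        congr 1
        ring
      calc (1 / 2 : ℝ) ^ I.card * (2 * (A.card : ℝ) ^ 2 * ((2 * y * W) ^ 2) ^ I.card) *
            ((1 / 2) ^ I.card * (2 * (A'.card : ℝ) ^ 2 * (W ^ 2) ^ I.card)) =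
          ((1 / 2 : ℝ) ^ I.card * (2 * A.card * A'.card)) ^ 2 *
            (((2 * y * W) ^ 2) ^ I.card * (W ^ 2) ^ I.card) := by ring
        _ = _ := by rw [e]; ring
  have h9 : ∑ T ∈ F, |Z T| ≤ (1 / 2) ^ I.card * (2 * A.card * A'.card * (2 * y * W ^ 2) ^ I.card) := by
    refine le_of_sq_le_sq ?_ ?_
    · exact h8
    · positivity
  rw [h1]
  have h10 : (2 : ℝ) ^ I.card * (1 / 2) ^ I.card = 1 := by rw [← mul_pow]; norm_num
  calc 2 ^ I.card * ∑ T ∈ F, (∏ p ∈ T, w p) * Z T ≤ 2 ^ I.card * ∑ T ∈ F, |Z T| :=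
        mul_le_mul_of_nonneg_left h2 (by positivity)
    _ ≤ 2 ^ I.card * ((1 / 2) ^ I.card * (2 * A.card * A'.card * (2 * y * W ^ 2) ^ I.card)) :=
        mul_le_mul_of_nonneg_left h9 (by positivity)
    _ = (2 ^ I.card * (1 / 2) ^ I.card) * (2 * A.card * A'.card * (2 * y * W ^ 2) ^ I.card) := by ring
    _ = _ := by rw [h10, one_mul]

/-- the moment bound -/
theorem moment {k : ℕ} {y W : ℝ} {b : ℕ} {B : ℕ → Finset ℕ} {X : Finset ℕ} {A A' : Finset ℤ}
    (h : Data k y W b B X A) (h' : Data k y W b B X A') (w : ℕ → ℝ) (hw : ∀ p, |w p| ≤ 1) :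
    ∑ a ∈ A, ∑ a' ∈ A', ∏ i ∈ X, (∑ p ∈ B i, w p * J (a + a') p) ^ 2 ≤
      2 * A.card * A'.card * (3 * y * W ^ 2) ^ k := by
  classical
  have hb1 : (1 : ℝ) ≤ b := by exact_mod_cast h.hb
  have hy1 : 1 ≤ y := hb1.trans h.hby
  have hW := h.hW
  have h1 : ∀ a a' : ℤ, ∏ i ∈ X, (∑ p ∈ B i, w p * J (a + a') p) ^ 2 ≤
      ∑ I ∈ X.powerset, (2 ^ I.card * ∏ i ∈ I, e2 (B i) (fun p => w p * J (a + a') p)) * ∏ i ∈ X \ I, (b : ℝ) := by
    intro a a'
    have h2 : ∏ i ∈ X, (∑ p ∈ B i, w p * J (a + a') p) ^ 2 ≤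
        ∏ i ∈ X, (2 * e2 (B i) (fun p => w p * J (a + a') p) + b) := by
      refine prod_le_prod (fun _ _ => sq_nonneg _) fun i hi => ?_
      rw [e2_sq]
      have h3 : ∑ p ∈ B i, (w p * J (a + a') p) ^ 2 ≤ b := by
        refine (sum_le_sum (g := fun _ => (1 : ℝ)) fun p _ => ?_).trans ?_
        · have h4 : |w p * J (a + a') p| ≤ 1 := by
            rw [abs_mul]
            exact mul_le_one₀ (hw p) (abs_nonneg _) (J_abs _ _)
          rw [← sq_abs]
          have := abs_nonneg (w p * J (a + a') p)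
          nlinarith
        · rw [sum_const, h.block i hi]; simp
      linarith
    refine h2.trans (le_of_eq ?_)
    rw [prod_add]
    refine sum_congr rfl fun I _ => ?_
    rw [prod_mul_distrib, prod_const]
  refine (sum_le_sum fun a _ => sum_le_sum fun a' _ => h1 a a').trans ?_
  rw [sum_congr rfl fun a _ => sum_comm, sum_comm]
  have h5 : ∀ I ∈ X.powerset, ∑ a ∈ A, ∑ a' ∈ A', (2 ^ I.card * ∏ i ∈ I, e2 (B i) (fun p => w p * J (a + a') p)) * ∏ i ∈ X \ I, (b : ℝ) ≤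
      (2 * A.card * A'.card) * ((∏ i ∈ I, (2 * y * W ^ 2)) * ∏ i ∈ X \ I, (b : ℝ)) := by
    intro I hI
    have hI' := mem_powerset.1 hI
    have h6 := sumT h h' w hw hI'
    have h7 : ∑ a ∈ A, ∑ a' ∈ A', (2 ^ I.card * ∏ i ∈ I, e2 (B i) (fun p => w p * J (a + a') p)) * ∏ i ∈ X \ I, (b : ℝ) =
        (2 ^ I.card * ∑ a ∈ A, ∑ a' ∈ A', ∏ i ∈ I, e2 (B i) (fun p => w p * J (a + a') p)) * ∏ i ∈ X \ I, (b : ℝ) := by
      rw [mul_sum, sum_mul]
      refine sum_congr rfl fun a _ => ?_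
      rw [mul_sum, sum_mul]
    rw [h7, prod_const, prod_const]
    refine (mul_le_mul_of_nonneg_right h6 (by positivity)).trans (le_of_eq ?_)
    ring
  refine (sum_le_sum h5).trans ?_
  rw [← mul_sum, ← prod_add, prod_const, h.card]
  refine mul_le_mul_of_nonneg_left ?_ (by positivity)
  refine pow_le_pow_left₀ (by positivity) ?_ _
  have h8 : y ≤ y * W ^ 2 := le_mul_of_one_le_right (by linarith) (one_le_pow₀ hW)
  have := h.hby
  linarith

end Pool.Agent.R345.SS
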