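import Pool.Agent.R345.SS2
import Pool.Agent.Y549.SP.BL

set_option autoImplicit false

/-! Sums of Jacobi symbols over sumsets: few pairs have a large sum. -/

namespace Pool.Agent.R345.SS

open Finset

theorem card_le_y (P : Finset ℕ) (y : ℝ) (hP : ∀ p ∈ P, p.Prime ∧ p ≠ 2 ∧ (p : ℝ) ≤ y) (hne : P.Nonempty) :
    (P.card : ℝ) ≤ y := by
  obtain ⟨p0, hp0⟩ := hne
  have hy : 0 ≤ y := (Nat.cast_nonneg p0).trans (hP p0 hp0).2.2
  have h1 : P ⊆ Icc 1 ⌊y⌋₊ := by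
    intro p hp
    rw [mem_Icc]
    exact ⟨(hP p hp).1.one_lt.le, Nat.le_floor (hP p hp).2.2⟩
  have h2 := card_le_card h1
  rw [Nat.card_Icc] at h2
  have h3 : P.card ≤ ⌊y⌋₊ := by omega
  exact (Nat.cast_le.2 h3).trans (Nat.floor_le hy)

/-- one choice of blocks -/
theorem one_choice {k : ℕ} {y W : ℝ} {b : ℕ} {B : ℕ → Finset ℕ} {X : Finset ℕ} {A A' : Finset ℤ}
    (h : Data k y W b B X A) (h' : Data k y W b B X A') (D : ℤ) (V : ℝ) (hV : 0 ≤ V) :
    (((A ×ˢ A').filter (fun z : ℤ × ℤ => ∀ i ∈ X, V ≤ |∑ p ∈ B i, J (D * (z.1 + z.2)) p|)).card : ℝ) * V ^ (2 * k) ≤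
      2 * A.card * A'.card * (3 * y * W ^ 2) ^ k := by
  classical
  refine le_trans ?_ (moment h h' (fun p => J D p) (fun p => J_abs D p))
  rw [← sum_product']
  set G := (A ×ˢ A').filter (fun z : ℤ × ℤ => ∀ i ∈ X, V ≤ |∑ p ∈ B i, J (D * (z.1 + z.2)) p|) with hG
  calc (G.card : ℝ) * V ^ (2 * k) = ∑ z ∈ G, V ^ (2 * k) := by rw [sum_const, nsmul_eq_mul]
    _ ≤ ∑ z ∈ G, ∏ i ∈ X, (∑ p ∈ B i, J D p * J (z.1 + z.2) p) ^ 2 := by
        refine sum_le_sum fun z hz => ?_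
        have hz' := (mem_filter.1 hz).2
        rw [pow_mul, ← h.card, ← prod_const]
        refine prod_le_prod (fun _ _ => sq_nonneg _) fun i hi => ?_
        have h1 := hz' i hi
        have h2 : ∑ p ∈ B i, J (D * (z.1 + z.2)) p = ∑ p ∈ B i, J D p * J (z.1 + z.2) p :=
          sum_congr rfl fun p _ => J_mul _ _ _
        rw [h2] at h1
        rw [← sq_abs (∑ p ∈ B i, J D p * J (z.1 + z.2) p)]
        exact pow_le_pow_left₀ hV h1 2
    _ ≤ ∑ z ∈ A ×ˢ A', ∏ i ∈ X, (∑ p ∈ B i, J D p * J (z.1 + z.2) p) ^ 2 :=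
        sum_le_sum_of_subset_of_nonneg (filter_subset _ _) fun _ _ _ => prod_nonneg fun _ _ => sq_nonneg _

open Pool.Agent.Y549.SP in
/-- few pairs have a large sum -/
theorem excep (k : ℕ) (hk : 1 ≤ k) (η : ℝ) (hη : 0 < η) (hη1 : η ≤ 1) : ∃ C : ℝ, 0 < C ∧
    ∀ (P : Finset ℕ) (y W : ℝ) (A A' : Finset ℤ) (D : ℤ), P.Nonempty →
      (∀ p ∈ P, p.Prime ∧ p ≠ 2 ∧ (p : ℝ) ≤ y) → 1 ≤ W →
      (∀ a ∈ A, ∀ a' ∈ A, a ≠ a' → ((P.filter (fun p : ℕ => (p : ℤ) ∣ a - a')).card : ℝ) ≤ W) →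
      (∀ a ∈ A', ∀ a' ∈ A', a ≠ a' → ((P.filter (fun p : ℕ => (p : ℤ) ∣ a - a')).card : ℝ) ≤ W) →
      (P.card : ℝ) ^ (2 * k) ≤ A.card → (P.card : ℝ) ^ (2 * k) ≤ A'.card →
      (((A ×ˢ A').filter (fun z : ℤ × ℤ => η * P.card ≤ |∑ p ∈ P, J (D * (z.1 + z.2)) p|)).card : ℝ) ≤
        C * (y * W ^ 2 / (P.card : ℝ) ^ 2) ^ k * (A.card * A'.card) := by
  classical
  set K : ℕ := ⌈2 * (k : ℝ) / η⌉₊ with hK
  have hkr : (1 : ℝ) ≤ k := by exact_mod_cast hk
  have hK1 : 2 * (k : ℝ) / η ≤ K := Nat.le_ceil _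
  have hK2 : 2 * (k : ℝ) ≤ η * K := by
    rw [div_le_iff₀ hη] at hK1
    linarith
  have hK3 : (2 : ℝ) ≤ K := by nlinarith [(Nat.cast_nonneg K : (0 : ℝ) ≤ K)]
  have hK0 : (0 : ℝ) < K := by linarith
  have hKn : 0 < K := by exact_mod_cast hK0
  set C1 : ℝ := 2 ^ K * (2 * (192 * (K : ℝ) ^ 2 / η ^ 2) ^ k) with hC1
  set C2 : ℝ := (4 * K / η) ^ k with hC2
  have hC1p : 0 < C1 := by positivity
  have hC2p : 0 < C2 := by positivity
  refine ⟨C1 + C2, by positivity, ?_⟩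
  intro P y W A A' D hne hP hW hA hA' hcA hcA'
  have hN1 : (1 : ℝ) ≤ P.card := by exact_mod_cast hne.card_pos
  have hNy : (P.card : ℝ) ≤ y := card_le_y P y hP hne
  have hy1 : 1 ≤ y := hN1.trans hNy
  have hAA : (0 : ℝ) ≤ A.card * A'.card := by positivity
  have hZ : 0 ≤ (y * W ^ 2 / (P.card : ℝ) ^ 2) ^ k := by positivity
  by_cases hsmall : η * P.card < 4 * K
  · -- few primes
    have h1 : (((A ×ˢ A').filter (fun z : ℤ × ℤ => η * P.card ≤ |∑ p ∈ P, J (D * (z.1 + z.2)) p|)).card : ℝ) ≤ A.card * A'.card := by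
      have := card_filter_le (A ×ˢ A') (fun z : ℤ × ℤ => η * P.card ≤ |∑ p ∈ P, J (D * (z.1 + z.2)) p|)
      rw [card_product] at this
      exact_mod_cast this
    refine h1.trans ?_
    have h2 : 1 ≤ C2 * (y * W ^ 2 / (P.card : ℝ) ^ 2) ^ k := by
      rw [hC2, ← mul_pow]
      apply one_le_pow₀
      have h3 : (1 : ℝ) / P.card ≤ y * W ^ 2 / (P.card : ℝ) ^ 2 := by
        rw [div_le_div_iff₀ (by linarith) (by positivity)]
        have : (1 : ℝ) ≤ W ^ 2 := one_le_pow₀ hW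
        have h4 : (P.card : ℝ) ≤ y * W ^ 2 := hNy.trans (le_mul_of_one_le_right (by linarith) this)
        nlinarith
      have h5 : 1 ≤ (4 * K / η) * (1 / (P.card : ℝ)) := by
        rw [div_mul_div_comm, le_div_iff₀ (by positivity)]
        linarith
      refine h5.trans (mul_le_mul_of_nonneg_left h3 (by positivity))
    have h6 : C2 * (y * W ^ 2 / (P.card : ℝ) ^ 2) ^ k ≤ (C1 + C2) * (y * W ^ 2 / (P.card : ℝ) ^ 2) ^ k :=
      mul_le_mul_of_nonneg_right (by linarith) hZ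
    calc (A.card * A'.card : ℝ) = 1 * (A.card * A'.card) := (one_mul _).symm
      _ ≤ _ := mul_le_mul_of_nonneg_right (h2.trans h6) hAA
  push Not at hsmall
  obtain ⟨b, hb⟩ : ∃ b, b = P.card / K := ⟨_, rfl⟩
  have hb1 : K * b ≤ P.card := by rw [hb]; exact Nat.mul_div_le _ _
  have hb2 : P.card ≤ K * b + K := by
    have h1 := Nat.div_add_mod P.card K
    have h2 := Nat.mod_lt P.card hKn
    rw [← hb] at h1
    omega
  have hNK : 4 * (K : ℝ) ≤ P.card := hsmall.trans (mul_le_of_le_one_left (by linarith) hη1)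
  have hb3 : 1 ≤ b := by
    rw [hb, Nat.one_le_div_iff hKn]
    have : (K : ℝ) ≤ P.card := by linarith
    exact_mod_cast this
  have hbr : (1 : ℝ) ≤ b := by exact_mod_cast hb3
  have hb2r : (P.card : ℝ) ≤ 2 * K * b := by
    have : (P.card : ℝ) ≤ K * b + K := by exact_mod_cast hb2
    nlinarith
  have hbN : (b : ℝ) ≤ P.card := by
    have : (K * b : ℝ) ≤ P.card := by exact_mod_cast hb1
    nlinarith
  obtain ⟨B, hB, hD, hBL⟩ := BL.main P K b hb1 hb2
  set V : ℝ := η / 4 * b with hV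
  have hV0 : 0 < V := by positivity
  -- the data
  have hdata : ∀ X ∈ powersetCard k (range K), ∀ S : Finset ℤ,
      (∀ a ∈ S, ∀ a' ∈ S, a ≠ a' → ((P.filter (fun p : ℕ => (p : ℤ) ∣ a - a')).card : ℝ) ≤ W) →
      (P.card : ℝ) ^ (2 * k) ≤ S.card → Data k y W b B X S := by
    intro X hX S hS hcS
    rw [mem_powersetCard] at hX
    refine ⟨hX.2, ?_, ?_, ?_, hb3, hbN.trans hNy, hW, ?_, ?_⟩
    · intro i hi p hp
      exact hP p ((hB i (mem_range.1 (hX.1 hi))).1 hp)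
    · intro i hi
      exact (hB i (mem_range.1 (hX.1 hi))).2
    · intro i hi j hj
      exact hD i (mem_range.1 (hX.1 hi)) j (mem_range.1 (hX.1 hj))
    · intro i hi a ha a' ha' hne
      refine le_trans ?_ (hS a ha a' ha' hne)
      exact_mod_cast card_le_card (filter_subset_filter _ (hB i (mem_range.1 (hX.1 hi))).1)
    · exact (pow_le_pow_left₀ (by linarith) hbN _).trans hcS
  have hJ : ∀ (n : ℤ) (T : Finset ℕ), ((∑ p ∈ T, jacobiSym n p : ℤ) : ℝ) = ∑ p ∈ T, J n p := by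
    intro n T
    rw [Int.cast_sum]
    rfl
  set G : Finset ℕ → Finset (ℤ × ℤ) := fun X =>
    (A ×ˢ A').filter (fun z : ℤ × ℤ => ∀ i ∈ X, V ≤ |∑ p ∈ B i, J (D * (z.1 + z.2)) p|) with hG
  have hcover : (A ×ˢ A').filter (fun z : ℤ × ℤ => η * P.card ≤ |∑ p ∈ P, J (D * (z.1 + z.2)) p|) ⊆
      (powersetCard k (range K)).biUnion G := by
    intro z hz
    rw [mem_filter] at hz
    obtain ⟨X, hX1, hX2, hX3⟩ := hBL (fun p => jacobiSym (D * (z.1 + z.2)) p) η k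
      (fun p _ => by
        rcases jacobiSym.trichotomy (D * (z.1 + z.2)) p with h | h | h <;> rw [h] <;> simp)
      hη hη1 hK2 hsmall (by rw [hJ]; exact hz.2)
    rw [mem_biUnion]
    refine ⟨X, mem_powersetCard.2 ⟨hX1, hX2⟩, ?_⟩
    rw [hG]
    simp only [mem_filter]
    refine ⟨hz.1, fun i hi => ?_⟩
    have := hX3 i hi
    rw [hJ] at this
    exact this
  set Q : ℝ := y * W ^ 2 / (P.card : ℝ) ^ 2 with hQ
  have hQ0 : 0 ≤ Q := by positivity
  have hGc : ∀ X ∈ powersetCard k (range K), ((G X).card : ℝ) ≤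
      2 * (192 * (K : ℝ) ^ 2 / η ^ 2) ^ k * Q ^ k * (A.card * A'.card) := by
    intro X hX
    have h1 := one_choice (hdata X hX A hA hcA) (hdata X hX A' hA' hcA') D V hV0.le
    have h2 : (3 * y * W ^ 2) ^ k ≤ ((192 * (K : ℝ) ^ 2 / η ^ 2) * Q) ^ k * V ^ (2 * k) := by
      rw [pow_mul, ← mul_pow]
      refine pow_le_pow_left₀ (by positivity) ?_ _
      have h3 : (192 * (K : ℝ) ^ 2 / η ^ 2) * Q * V ^ 2 = 3 * y * W ^ 2 * ((2 * K * b) ^ 2 / (P.card : ℝ) ^ 2) := by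
        rw [hQ, hV]
        field_simp
        ring
      rw [h3]
      refine le_mul_of_one_le_right (by positivity) ?_
      rw [one_le_div (by positivity)]
      exact pow_le_pow_left₀ (by linarith) hb2r 2
    have h4 : ((G X).card : ℝ) * V ^ (2 * k) ≤
        (2 * (192 * (K : ℝ) ^ 2 / η ^ 2) ^ k * Q ^ k * (A.card * A'.card)) * V ^ (2 * k) := by
      refine h1.trans ?_
      calc 2 * (A.card : ℝ) * A'.card * (3 * y * W ^ 2) ^ k ≤
          2 * (A.card : ℝ) * A'.card * (((192 * (K : ℝ) ^ 2 / η ^ 2) * Q) ^ k * V ^ (2 * k)) :=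
            mul_le_mul_of_nonneg_left h2 (by positivity)
        _ = _ := by rw [mul_pow]; ring
    exact le_of_mul_le_mul_right h4 (by positivity)
  have h5 : (((powersetCard k (range K)).biUnion G).card : ℝ) ≤
      2 ^ K * (2 * (192 * (K : ℝ) ^ 2 / η ^ 2) ^ k * Q ^ k * (A.card * A'.card)) := by
    have h6 : (((powersetCard k (range K)).biUnion G).card : ℝ) ≤ ∑ X ∈ powersetCard k (range K), ((G X).card : ℝ) := by
      exact_mod_cast card_biUnion_le
    refine h6.trans ((sum_le_sum hGc).trans ?_)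
    rw [sum_const, nsmul_eq_mul]
    refine mul_le_mul_of_nonneg_right ?_ (by positivity)
    rw [card_powersetCard, card_range]
    exact_mod_cast Nat.choose_le_two_pow K k
  calc (((A ×ˢ A').filter (fun z : ℤ × ℤ => η * P.card ≤ |∑ p ∈ P, J (D * (z.1 + z.2)) p|)).card : ℝ)
      ≤ (((powersetCard k (range K)).biUnion G).card : ℝ) := by exact_mod_cast card_le_card hcover
    _ ≤ C1 * Q ^ k * (A.card * A'.card) := by
        refine h5.trans (le_of_eq ?_)
        rw [hC1]; ring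
    _ ≤ (C1 + C2) * Q ^ k * (A.card * A'.card) := by
        refine mul_le_mul_of_nonneg_right (mul_le_mul_of_nonneg_right (by linarith) ?_) hAA
        positivity

end Pool.Agent.R345.SS
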