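import Pool.Agent.R345.SS3

set_option autoImplicit false

/-! Sums of Jacobi symbols over sumsets: all `y` in a dyadic interval. -/

namespace Pool.Agent.R345.SS

open Finset Filter
open scoped Nat.Prime

theorem pi_facts (η : ℝ) (hη : 0 < η) : ∃ Y0 : ℕ, 4 ≤ Y0 ∧ ∀ Y : ℕ, Y0 ≤ Y →
    (Y : ℝ) / (2 * Real.log Y) ≤ (π Y : ℝ) ∧ (π (2 * Y) : ℝ) ≤ 12 * (π Y : ℝ) ∧
      Real.sqrt Y ≤ η * (π Y : ℝ) ∧ (π (2 * Y) : ℝ) ≤ Y ∧ 1 ≤ η * (π Y : ℝ) := by
  have t1 := (Real.isLittleO_log_id_atTop).def (show (0 : ℝ) < 0.08 by norm_num)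
  have t2 : ∀ᶠ x : ℝ in atTop, Real.sqrt x * (Real.log x * (2 / η + 4)) ≤ x := by
    have h := (isLittleO_log_rpow_atTop (show (0 : ℝ) < 1 / 2 by norm_num)).def
      (show (0 : ℝ) < 1 / (2 / η + 4) by positivity)
    filter_upwards [h, eventually_ge_atTop (1 : ℝ)] with x hx hx1
    rw [Real.norm_of_nonneg (Real.log_nonneg hx1), Real.norm_of_nonneg (by positivity), ← Real.sqrt_eq_rpow] at hx
    have h3 : Real.log x * (2 / η + 4) ≤ Real.sqrt x := by
      have h4 : (0 : ℝ) < 2 / η + 4 := by positivity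
      calc Real.log x * (2 / η + 4) ≤ (1 / (2 / η + 4) * Real.sqrt x) * (2 / η + 4) :=
            mul_le_mul_of_nonneg_right hx h4.le
        _ = Real.sqrt x := by field_simp
    calc Real.sqrt x * (Real.log x * (2 / η + 4)) ≤ Real.sqrt x * Real.sqrt x :=
          mul_le_mul_of_nonneg_left h3 (Real.sqrt_nonneg _)
      _ = x := Real.mul_self_sqrt (by linarith)
  have t3 := Real.tendsto_log_atTop.eventually_ge_atTop 6
  obtain ⟨x0, hx0⟩ := eventually_atTop.1 (t1.and (t2.and t3))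
  refine ⟨max 4 ⌈x0⌉₊, le_max_left _ _, ?_⟩
  intro Y hY
  have hY4 : (4 : ℝ) ≤ Y := by exact_mod_cast (le_max_left _ _).trans hY
  have hYx : x0 ≤ Y := (Nat.le_ceil x0).trans (by exact_mod_cast (le_max_right _ _).trans hY)
  obtain ⟨g1, g2, g3⟩ := hx0 Y hYx
  obtain ⟨g1', -, -⟩ := hx0 (Y + 1 : ℝ) (by linarith)
  simp only [id_eq] at g1 g1'
  rw [Real.norm_of_nonneg (by linarith), Real.norm_of_nonneg (by linarith)] at g1
  rw [Real.norm_of_nonneg (Real.log_nonneg (by linarith)), Real.norm_of_nonneg (by linarith)] at g1'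
  have hl0 : 0 < Real.log Y := by linarith
  have hl2 := Real.log_two_gt_d9
  have a1 : (Y : ℝ) / (2 * Real.log Y) ≤ (π Y : ℝ) := by
    refine le_trans ?_ (Chebyshev.pi_ge Y)
    rw [div_le_div_iff₀ (by linarith) hl0]
    have h1 : (Y : ℝ) ≤ 2 * (Y * Real.log 2 - Real.log (Y + 1)) := by nlinarith
    calc (Y : ℝ) * Real.log Y ≤ 2 * (Y * Real.log 2 - Real.log (Y + 1)) * Real.log Y :=
          mul_le_mul_of_nonneg_right h1 hl0.le
      _ = _ := by ring
  have hsq : Real.sqrt Y ≤ (Y : ℝ) / (Real.log Y * (2 / η + 4)) := by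
    rw [le_div_iff₀ (by positivity)]
    exact g2
  have a2 : (π (2 * Y) : ℝ) ≤ 6 * (Y / Real.log Y) := by
    have h1 := Chebyshev.pi_le_log4_mul_div (x := 2 * (Y : ℝ)) (by linarith)
    have h2 : ⌊2 * (Y : ℝ)⌋₊ = 2 * Y := by
      have : (2 * (Y : ℝ)) = ((2 * Y : ℕ) : ℝ) := by push_cast; ring
      rw [this, Nat.floor_natCast]
    rw [h2] at h1
    refine h1.trans ?_
    have h3 : Real.log (Real.sqrt (2 * Y)) = Real.log (2 * Y) / 2 := Real.log_sqrt (by linarith)
    have h4 : Real.log Y ≤ Real.log (2 * Y) := Real.log_le_log (by linarith) (by linarith)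
    have h5 : Real.log 4 = 2 * Real.log 2 := by
      rw [show (4 : ℝ) = 2 ^ 2 by norm_num, Real.log_pow]; norm_num
    have h6 := Real.log_two_lt_d9
    have h7 : Real.log 4 * (2 * Y) / Real.log (Real.sqrt (2 * Y)) ≤ 5.6 * (Y / Real.log Y) := by
      rw [h3, h5, div_le_iff₀ (by linarith)]
      have h8 : 5.6 * ((Y : ℝ) / Real.log Y) * (Real.log (2 * Y) / 2) = 2.8 * Y * (Real.log (2 * Y) / Real.log Y) := by
        ring
      rw [h8]
      have h9 : 1 ≤ Real.log (2 * Y) / Real.log Y := by rw [one_le_div hl0]; exact h4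
      have h10 : 2.8 * (Y : ℝ) ≤ 2.8 * Y * (Real.log (2 * Y) / Real.log Y) :=
        le_mul_of_one_le_right (by linarith) h9
      nlinarith
    have h11 : Real.sqrt (2 * Y) ≤ 0.4 * (Y / Real.log Y) := by
      have h12 : Real.sqrt (2 * Y) ≤ 1.5 * Real.sqrt Y := by
        rw [Real.sqrt_mul (by norm_num)]
        refine mul_le_mul_of_nonneg_right ?_ (Real.sqrt_nonneg _)
        rw [Real.sqrt_le_left (by norm_num)]
        norm_num
      have h13 : (Y : ℝ) / (Real.log Y * (2 / η + 4)) ≤ 0.25 * (Y / Real.log Y) := by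
        rw [div_le_iff₀ (by positivity)]
        have h14 : 0.25 * ((Y : ℝ) / Real.log Y) * (Real.log Y * (2 / η + 4)) = 0.25 * Y * (2 / η + 4) := by
          field_simp
        rw [h14]
        have : 0 < 2 / η := by positivity
        nlinarith
      have h15 : 0 ≤ (Y : ℝ) / Real.log Y := by positivity
      nlinarith
    linarith
  have hYl : (Y : ℝ) / (2 * Real.log Y) = (1 / 2) * (Y / Real.log Y) := by field_simp
  refine ⟨a1, ?_, ?_, ?_, ?_⟩
  · rw [hYl] at a1
    linarith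
  · refine hsq.trans ?_
    have h1 : (Y : ℝ) / (Real.log Y * (2 / η + 4)) ≤ η * (Y / (2 * Real.log Y)) := by
      rw [div_le_iff₀ (by positivity)]
      have h2 : η * ((Y : ℝ) / (2 * Real.log Y)) * (Real.log Y * (2 / η + 4)) = Y * (1 + 2 * η) := by
        field_simp
        ring
      rw [h2]
      nlinarith
    exact h1.trans (mul_le_mul_of_nonneg_left a1 hη.le)
  · refine a2.trans ?_
    rw [← mul_div_assoc, div_le_iff₀ hl0]
    nlinarith
  · have h1 : (1 : ℝ) ≤ Real.sqrt Y := by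
      rw [Real.one_le_sqrt]; linarith
    have h2 : Real.sqrt Y ≤ η * (π Y : ℝ) := by
      refine hsq.trans ?_
      have h1 : (Y : ℝ) / (Real.log Y * (2 / η + 4)) ≤ η * (Y / (2 * Real.log Y)) := by
        rw [div_le_iff₀ (by positivity)]
        have h2 : η * ((Y : ℝ) / (2 * Real.log Y)) * (Real.log Y * (2 / η + 4)) = Y * (1 + 2 * η) := by
          field_simp
          ring
        rw [h2]
        nlinarith
      exact h1.trans (mul_le_mul_of_nonneg_left a1 hη.le)
    exact h1.trans h2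

/-- the sum of the symbols `(n | p)` over the primes `p ≤ y` -/
noncomputable def SJ (n : ℤ) (y : ℕ) : ℝ := ∑ p ∈ Nat.primesLE y, J n p

theorem few_large (Y X : ℕ) (hY : 4 ≤ Y) (P : Finset ℕ) (hP : ∀ p ∈ P, p.Prime ∧ Nat.sqrt Y < p) (h : ℤ) (h0 : h ≠ 0)
    (hX : |h| ≤ X) : ((P.filter (fun p : ℕ => (p : ℤ) ∣ h)).card : ℝ) ≤ 2 * Real.log X / Real.log Y := by
  classical
  set Q := P.filter (fun p : ℕ => (p : ℤ) ∣ h) with hQ
  have h1 : (∏ p ∈ Q, p) ∣ h.natAbs := by
    apply Finset.prod_primes_dvd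
    · intro p hp
      exact Nat.prime_iff.1 (hP p (mem_filter.1 hp).1).1
    · intro p hp
      exact Int.natCast_dvd.1 (mem_filter.1 hp).2
  have hn0 : 0 < h.natAbs := Int.natAbs_pos.2 h0
  have h2 : (∏ p ∈ Q, p) ≤ X := by
    refine (Nat.le_of_dvd hn0 h1).trans ?_
    have : (h.natAbs : ℤ) ≤ X := by rw [Int.natCast_natAbs]; exact hX
    exact_mod_cast this
  have h3 : (Y : ℝ) ^ Q.card ≤ (X : ℝ) ^ 2 := by
    have h4 : Y ^ Q.card ≤ (∏ p ∈ Q, p) ^ 2 := by
      rw [← prod_pow, ← prod_const]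
      refine prod_le_prod (fun _ _ => Nat.zero_le _) fun p hp => ?_
      have := Nat.sqrt_lt'.1 (hP p (mem_filter.1 hp).1).2
      omega
    have h5 := h4.trans (Nat.pow_le_pow_left h2 2)
    exact_mod_cast h5
  have hYr : (4 : ℝ) ≤ Y := by exact_mod_cast hY
  have hl : 0 < Real.log Y := Real.log_pos (by linarith)
  rw [le_div_iff₀ hl]
  have h6 := Real.log_le_log (by positivity) h3
  rw [Real.log_pow, Real.log_pow] at h6
  exact_mod_cast h6

theorem card_Icc_le {A : Finset ℤ} {u : ℤ} {X : ℕ} (hA : A ⊆ Icc u (u + X)) : (A.card : ℝ) ≤ X + 1 := by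
  have h := card_le_card hA
  rw [Int.card_Icc] at h
  have h2 : (u + X + 1 - u).toNat = X + 1 := by
    rw [show u + (X : ℤ) + 1 - u = ((X + 1 : ℕ) : ℤ) by push_cast; ring, Int.toNat_natCast]
  rw [h2] at h
  exact_mod_cast h

theorem diff_Icc {A : Finset ℤ} {u : ℤ} {X : ℕ} (hA : A ⊆ Icc u (u + X)) {a a' : ℤ} (ha : a ∈ A) (ha' : a' ∈ A) :
    |a - a'| ≤ X := by
  have h1 := mem_Icc.1 (hA ha)
  have h2 := mem_Icc.1 (hA ha')
  rw [abs_le]
  constructor <;> linarith [h1.1, h1.2, h2.1, h2.2]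

/-- all `y` in a dyadic interval -/
theorem dyadic (k : ℕ) (hk : 1 ≤ k) (η : ℝ) (hη : 0 < η) (hη1 : η ≤ 1) : ∃ C : ℝ, 0 < C ∧ ∃ Y0 : ℕ, 4 ≤ Y0 ∧
    ∀ (Y X : ℕ) (u v : ℤ) (A A' : Finset ℤ) (D : ℤ), Y0 ≤ Y → A ⊆ Icc u (u + X) → A' ⊆ Icc v (v + X) →
      (Y : ℝ) ^ (2 * k) ≤ A.card → (Y : ℝ) ^ (2 * k) ≤ A'.card →
      ∀ G : Finset (ℤ × ℤ), (∀ z ∈ G, z ∈ A ×ˢ A' ∧ ∃ y, (Y ≤ y ∧ y ≤ 2 * Y) ∧ η * (π y : ℝ) ≤ |SJ (D * (z.1 + z.2)) y|) →
      (G.card : ℝ) ≤ C * (Real.log X ^ 2 / Y) ^ k * (A.card * A'.card) := by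
  classical
  obtain ⟨C, hC, hex⟩ := excep k hk (η / 2) (by linarith) (by linarith)
  obtain ⟨Y0, hY04, hY0⟩ := pi_facts (η / 8) (by linarith)
  obtain ⟨I, hI⟩ : ∃ I : ℕ, 96 / η ≤ I := exists_nat_ge _
  refine ⟨(I + 1) * (C * 128 ^ k), by positivity, Y0, hY04, ?_⟩
  intro Y X u v A A' D hYY hA hA' hcA hcA' G hG
  obtain ⟨f1, f2, f3, f4, f5⟩ := hY0 Y hYY
  have hY4 : 4 ≤ Y := hY04.trans hYY
  have hY4r : (4 : ℝ) ≤ Y := by exact_mod_cast hY4
  set N : ℕ := π Y with hN
  have hN8 : 8 ≤ η * N := by linarith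
  have hNpos : (0 : ℝ) < N := by nlinarith
  -- `Y ≤ X`
  have hYX : (Y : ℝ) ≤ X := by
    have h1 := hcA.trans (card_Icc_le hA)
    have h2 : (Y : ℝ) ^ 2 ≤ (Y : ℝ) ^ (2 * k) := pow_le_pow_right₀ (by linarith) (by omega)
    nlinarith
  have hlY : 0 < Real.log Y := Real.log_pos (by linarith)
  have hlX : Real.log Y ≤ Real.log X := Real.log_le_log (by linarith) hYX
  set W : ℝ := 2 * Real.log X / Real.log Y with hW
  have hW1 : 1 ≤ W := by
    rw [hW, one_le_div hlY]; linarith
  -- the grid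
  set h : ℕ := ⌈η / 8 * N⌉₊ with hh
  have hh1 : η / 8 * N ≤ h := Nat.le_ceil _
  have hh2 : (h : ℝ) ≤ η / 4 * N := by
    have := Nat.ceil_lt_add_one (show 0 ≤ η / 8 * (N : ℝ) by positivity)
    linarith
  have hh0 : 0 < h := by
    have : (0 : ℝ) < h := by nlinarith
    exact_mod_cast this
  set g : ℕ → ℕ := fun i => Nat.findGreatest (fun y => π y ≤ N + i * h) (2 * Y) with hg
  have hg1 : ∀ i, π (g i) ≤ N + i * h ∧ Y ≤ g i ∧ g i ≤ 2 * Y := by
    intro i
    refine ⟨?_, ?_, Nat.findGreatest_le _⟩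
    · exact Nat.findGreatest_spec (P := fun y => π y ≤ N + i * h) (m := Y) (by omega) (by omega)
    · exact Nat.le_findGreatest (by omega) (by omega)
  set P : ℕ → Finset ℕ := fun i => (Nat.primesLE (g i)).filter (fun p => Nat.sqrt Y < p) with hPd
  set small : Finset ℕ := (Nat.primesLE Y).filter (fun p => ¬ Nat.sqrt Y < p) with hsm
  have hsmall : (small.card : ℝ) ≤ η / 8 * N := by
    refine le_trans ?_ f3
    have h1 : small ⊆ Icc 1 (Nat.sqrt Y) := by
      intro p hp
      rw [hsm, mem_filter, Nat.mem_primesLE] at hp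
      rw [mem_Icc]
      exact ⟨hp.1.2.one_lt.le, not_lt.1 hp.2⟩
    have h2 := card_le_card h1
    rw [Nat.card_Icc] at h2
    have h3 : (small.card : ℝ) ≤ Nat.sqrt Y := by
      have : small.card ≤ Nat.sqrt Y := by omega
      exact_mod_cast this
    exact h3.trans Real.nat_sqrt_le_real_sqrt
  have hsplit : ∀ i n, SJ n (g i) = ∑ p ∈ P i, J n p + ∑ p ∈ small, J n p := by
    intro i n
    have h1 : small = (Nat.primesLE (g i)).filter (fun p => ¬ Nat.sqrt Y < p) := by
      rw [hsm]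
      ext p
      rw [mem_filter, mem_filter, Nat.mem_primesLE, Nat.mem_primesLE]
      have h2 := (hg1 i).2.1
      have h3 := Nat.sqrt_le_self Y
      constructor
      · rintro ⟨⟨h4, h5⟩, h6⟩
        exact ⟨⟨by omega, h5⟩, h6⟩
      · rintro ⟨⟨h4, h5⟩, h6⟩
        exact ⟨⟨by omega, h5⟩, h6⟩
    rw [h1, SJ]
    exact (sum_filter_add_sum_filter_not _ _ _).symm
  have hcard : ∀ i, ((π (g i) : ℕ) : ℝ) = (P i).card + small.card := by
    intro i
    have h1 : small = (Nat.primesLE (g i)).filter (fun p => ¬ Nat.sqrt Y < p) := by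
      rw [hsm]
      ext p
      rw [mem_filter, mem_filter, Nat.mem_primesLE, Nat.mem_primesLE]
      have h2 := (hg1 i).2.1
      have h3 := Nat.sqrt_le_self Y
      constructor
      · rintro ⟨⟨h4, h5⟩, h6⟩
        exact ⟨⟨by omega, h5⟩, h6⟩
      · rintro ⟨⟨h4, h5⟩, h6⟩
        exact ⟨⟨by omega, h5⟩, h6⟩
    rw [h1, ← Nat.primesLE_card_eq_primeCounting, ← card_filter_add_card_filter_not (s := Nat.primesLE (g i)) (fun p => Nat.sqrt Y < p)]
    push_cast
    rfl
  have habs : ∀ (T : Finset ℕ) (n : ℤ), |∑ p ∈ T, J n p| ≤ T.card := by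
    intro T n
    refine (abs_sum_le_sum_abs _ _).trans ((sum_le_sum (g := fun _ => (1 : ℝ)) fun p _ => J_abs n p).trans ?_)
    simp
  -- covering
  have hcover : G ⊆
      (range (I + 1)).biUnion (fun i => (A ×ˢ A').filter (fun z : ℤ × ℤ =>
        η / 2 * (P i).card ≤ |∑ p ∈ P i, J (D * (z.1 + z.2)) p|)) := by
    intro z hz
    obtain ⟨hzA, y, hy, hbad⟩ := hG z hz
    have hmono : N ≤ π y := Nat.monotone_primeCounting hy.1
    set i : ℕ := (π y - N) / h with hi
    have hi1 : i * h ≤ π y - N := Nat.div_mul_le_self _ _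
    have hi2 : π y - N < i * h + h := by
      have := Nat.lt_div_mul_add (a := π y - N) hh0
      exact this
    have hπ2 : π y ≤ π (2 * Y) := Nat.monotone_primeCounting hy.2
    have hiI : i < I + 1 := by
      have h1 : (i : ℝ) * h ≤ 12 * N := by
        have h2 : ((i * h : ℕ) : ℝ) ≤ (π y : ℝ) := by exact_mod_cast hi1.trans (Nat.sub_le _ _)
        have h3 : (π y : ℝ) ≤ (π (2 * Y) : ℝ) := by exact_mod_cast hπ2
        push_cast at h2
        linarith
      have h4 : (i : ℝ) * (η / 8 * N) ≤ 12 * N := (mul_le_mul_of_nonneg_left hh1 (Nat.cast_nonneg _)).trans h1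
      have h5 : (i : ℝ) * η ≤ 96 := by
        have : (i : ℝ) * η * N ≤ 96 * N := by nlinarith
        exact le_of_mul_le_mul_right this hNpos
      have h6 : (i : ℝ) ≤ 96 / η := by rw [le_div_iff₀ hη]; exact h5
      have h7 : (i : ℝ) ≤ I := h6.trans hI
      have : i ≤ I := by exact_mod_cast h7
      omega
    rw [mem_biUnion]
    refine ⟨i, mem_range.2 hiI, ?_⟩
    rw [mem_filter]
    refine ⟨hzA, ?_⟩
    -- compare `g i` and `y`
    have hgi := hg1 i
    have hle : N + i * h ≤ π y := by omega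
    have hgy : π (g i) = N + i * h ∨ (y ≤ g i) := by
      by_cases hyg : y ≤ g i
      · right; exact hyg
      · left
        push Not at hyg
        refine le_antisymm hgi.1 ?_
        by_contra hlt
        push Not at hlt
        have h1 : π (g i + 1) ≤ π (g i) + 1 := by
          rw [← Nat.primesLE_card_eq_primeCounting, ← Nat.primesLE_card_eq_primeCounting]
          have : Nat.primesLE (g i + 1) ⊆ insert (g i + 1) (Nat.primesLE (g i)) := by
            intro p hp
            rw [Nat.mem_primesLE] at hp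
            rw [mem_insert, Nat.mem_primesLE]
            rcases Nat.lt_or_ge (g i) p with h2 | h2
            · left; omega
            · right; exact ⟨h2, hp.2⟩
          exact (card_le_card this).trans (card_insert_le _ _)
        have h2 : g i + 1 ≤ g i := Nat.le_findGreatest (P := fun y => π y ≤ N + i * h) (by omega) (by omega)
        omega
    have hdiff : |SJ (D * (z.1 + z.2)) y - SJ (D * (z.1 + z.2)) (g i)| ≤ h := by
      rcases hgy with hgy | hgy
      · by_cases hyg : y ≤ g i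
        · have h1 : π y = π (g i) := le_antisymm (Nat.monotone_primeCounting hyg) (by omega)
          have h2 : Nat.primesLE y = Nat.primesLE (g i) := by
            apply eq_of_subset_of_card_le (Nat.primesLE_mono hyg)
            rw [Nat.primesLE_card_eq_primeCounting, Nat.primesLE_card_eq_primeCounting, h1]
          rw [SJ, SJ, h2, sub_self, abs_zero]
          exact Nat.cast_nonneg _
        · push Not at hyg
          have h1 : Nat.primesLE (g i) ⊆ Nat.primesLE y := Nat.primesLE_mono hyg.le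
          have h2 : SJ (D * (z.1 + z.2)) y - SJ (D * (z.1 + z.2)) (g i) =
              ∑ p ∈ Nat.primesLE y \ Nat.primesLE (g i), J (D * (z.1 + z.2)) p := by
            rw [SJ, SJ, ← sum_sdiff h1]; ring
          rw [h2]
          refine (habs _ _).trans ?_
          rw [card_sdiff_of_subset h1, Nat.primesLE_card_eq_primeCounting, Nat.primesLE_card_eq_primeCounting]
          have : π y - π (g i) ≤ h := by omega
          exact_mod_cast this
      · have h1 : π y = π (g i) := le_antisymm (Nat.monotone_primeCounting hgy) (by omega)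
        have h2 : Nat.primesLE y = Nat.primesLE (g i) := by
          apply eq_of_subset_of_card_le (Nat.primesLE_mono hgy)
          rw [Nat.primesLE_card_eq_primeCounting, Nat.primesLE_card_eq_primeCounting, h1]
        rw [SJ, SJ, h2, sub_self, abs_zero]
        exact Nat.cast_nonneg _
    have hNy : (N : ℝ) ≤ (π y : ℝ) := by exact_mod_cast hmono
    have hgy' : ((π (g i) : ℕ) : ℝ) ≤ (π y : ℝ) := by
      have : π (g i) ≤ π y := by omega
      exact_mod_cast this
    have hPi : ((P i).card : ℝ) ≤ (π y : ℝ) := by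
      have h1 := hcard i
      have h2 : (0 : ℝ) ≤ small.card := Nat.cast_nonneg _
      linarith
    have h3 := hsplit i (D * (z.1 + z.2))
    have h4 := habs small (D * (z.1 + z.2))
    have h5 : |SJ (D * (z.1 + z.2)) y| ≤ |∑ p ∈ P i, J (D * (z.1 + z.2)) p| + small.card + h := by
      have e : SJ (D * (z.1 + z.2)) y = ∑ p ∈ P i, J (D * (z.1 + z.2)) p + ∑ p ∈ small, J (D * (z.1 + z.2)) p +
          (SJ (D * (z.1 + z.2)) y - SJ (D * (z.1 + z.2)) (g i)) := by rw [← h3]; ring
      rw [e]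
      refine (abs_add_le _ _).trans (add_le_add ((abs_add_le _ _).trans (by linarith)) hdiff)
    have h6 : η / 2 * (P i).card ≤ η / 2 * (π y : ℝ) := mul_le_mul_of_nonneg_left hPi (by linarith)
    have h7 : η / 8 * N + η / 4 * N ≤ η / 2 * (π y : ℝ) := by
      have : η * N ≤ η * (π y : ℝ) := mul_le_mul_of_nonneg_left hNy hη.le
      linarith [mul_pos hη hNpos]
    linarith
  -- each grid point
  have heach : ∀ i ∈ range (I + 1), (((A ×ˢ A').filter (fun z : ℤ × ℤ =>
        η / 2 * (P i).card ≤ |∑ p ∈ P i, J (D * (z.1 + z.2)) p|)).card : ℝ) ≤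
      C * 128 ^ k * (Real.log X ^ 2 / Y) ^ k * (A.card * A'.card) := by
    intro i _
    have hgi := hg1 i
    have hgN : (N : ℝ) ≤ ((π (g i) : ℕ) : ℝ) := by exact_mod_cast Nat.monotone_primeCounting hgi.2.1
    have hPN : (N : ℝ) / 2 ≤ (P i).card := by
      have h1 := hcard i
      have h2 : η / 8 * (N : ℝ) ≤ N / 8 := by nlinarith
      linarith
    have hPpos : (0 : ℝ) < (P i).card := by linarith
    have hPne : (P i).Nonempty := card_pos.1 (by exact_mod_cast hPpos)
    have hPY : ((P i).card : ℝ) ≤ Y := by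
      have h1 := hcard i
      have h2 : ((π (g i) : ℕ) : ℝ) ≤ (π (2 * Y) : ℝ) := by exact_mod_cast Nat.monotone_primeCounting hgi.2.2
      have h3 : (0 : ℝ) ≤ small.card := Nat.cast_nonneg _
      linarith
    have hPp : ∀ p ∈ P i, p.Prime ∧ Nat.sqrt Y < p := by
      intro p hp
      rw [hPd] at hp
      simp only [mem_filter, Nat.mem_primesLE] at hp
      exact ⟨hp.1.2, hp.2⟩
    have hs2 : 2 ≤ Nat.sqrt Y := by
      rw [Nat.le_sqrt']; omega
    have h1 := hex (P i) (2 * Y) W A A' D hPne ?_ hW1 ?_ ?_ ?_ ?_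
    · refine h1.trans ?_
      have hAA : (0 : ℝ) ≤ A.card * A'.card := by positivity
      refine mul_le_mul_of_nonneg_right ?_ hAA
      rw [show C * 128 ^ k * (Real.log X ^ 2 / (Y : ℝ)) ^ k = C * (128 * (Real.log X ^ 2 / Y)) ^ k by rw [mul_pow]; ring]
      refine mul_le_mul_of_nonneg_left (pow_le_pow_left₀ (by positivity) ?_ _) hC.le
      rw [div_le_iff₀ (by positivity)]
      have h2 : (Y : ℝ) / (4 * Real.log Y) ≤ (P i).card := by
        refine le_trans ?_ hPN
        have : (Y : ℝ) / (4 * Real.log Y) = (Y / (2 * Real.log Y)) / 2 := by field_simp; norm_num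
        rw [this]
        linarith
      have h3 : ((Y : ℝ) / (4 * Real.log Y)) ^ 2 ≤ ((P i).card : ℝ) ^ 2 := pow_le_pow_left₀ (by positivity) h2 2
      have h4 : 2 * (Y : ℝ) * W ^ 2 = 128 * (Real.log X ^ 2 / Y) * (Y / (4 * Real.log Y)) ^ 2 := by
        rw [hW]
        field_simp
        ring
      rw [h4]
      exact mul_le_mul_of_nonneg_left h3 (by positivity)
    · intro p hp
      have h2 := hPp p hp
      refine ⟨h2.1, by omega, ?_⟩
      have h3 : p ≤ 2 * Y := by
        have hp' := hp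
        rw [hPd] at hp'
        simp only [mem_filter, Nat.mem_primesLE] at hp'
        omega
      exact_mod_cast h3
    · intro a ha a' ha' hne
      exact few_large Y X hY4 (P i) hPp _ (sub_ne_zero.2 hne) (diff_Icc hA ha ha')
    · intro a ha a' ha' hne
      exact few_large Y X hY4 (P i) hPp _ (sub_ne_zero.2 hne) (diff_Icc hA' ha ha')
    · exact (pow_le_pow_left₀ hPpos.le hPY _).trans hcA
    · exact (pow_le_pow_left₀ hPpos.le hPY _).trans hcA'
  have h8 := card_le_card hcover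
  have h9 : (G.card : ℝ) ≤
      ∑ i ∈ range (I + 1), (((A ×ˢ A').filter (fun z : ℤ × ℤ =>
        η / 2 * (P i).card ≤ |∑ p ∈ P i, J (D * (z.1 + z.2)) p|)).card : ℝ) := by
    exact_mod_cast h8.trans card_biUnion_le
  refine h9.trans ((sum_le_sum heach).trans ?_)
  rw [sum_const, card_range, nsmul_eq_mul]
  apply le_of_eq
  push_cast
  ring

end Pool.Agent.R345.SS
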