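import Pool.Agent.R345.SS4

set_option autoImplicit false

/-! Split primes in the quadratic fields given by the elements of a sumset. -/

namespace Pool.Agent.R345.SS

open Finset Filter
open scoped Nat.Prime

/-- the fundamental discriminants (and `1`) -/
def Fund (d : ℤ) : Prop := (d % 4 = 1 ∧ Squarefree d) ∨
  (∃ m : ℤ, d = 4 * m ∧ (m % 4 = 2 ∨ m % 4 = 3) ∧ Squarefree m)

theorem Fund.mod {d : ℤ} (h : Fund d) : d % 4 = 0 ∨ d % 4 = 1 := by
  rcases h with ⟨h, _⟩ | ⟨m, h, _⟩ <;> omega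

theorem Fund.ne {d : ℤ} (h : Fund d) : d ≠ 0 := by
  rcases h with ⟨h, _⟩ | ⟨m, h, h2, _⟩ <;> omega

theorem card_primeFactors_le (n : ℕ) (hn : n ≠ 0) : (n.primeFactors.card : ℝ) ≤ 2 * Real.log n := by
  have h1 : 2 ^ n.primeFactors.card ≤ n := by
    calc 2 ^ n.primeFactors.card = ∏ _p ∈ n.primeFactors, 2 := by rw [prod_const]
      _ ≤ ∏ p ∈ n.primeFactors, p := prod_le_prod (fun _ _ => Nat.zero_le _)
          fun p hp => (Nat.prime_of_mem_primeFactors hp).two_le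
      _ ≤ n := Nat.le_of_dvd (Nat.pos_of_ne_zero hn) (Nat.prod_primeFactors_dvd n)
  have h2 : (2 : ℝ) ^ n.primeFactors.card ≤ n := by exact_mod_cast h1
  have h3 := Real.log_le_log (by positivity) h2
  rw [Real.log_pow] at h3
  have h4 := Real.log_two_gt_d9
  have h5 : (0 : ℝ) ≤ n.primeFactors.card := Nat.cast_nonneg _
  nlinarith

/-- (from `TH869.EVF.Sp`) -/
theorem split_iff (d : ℤ) (hd : d % 4 = 0 ∨ d % 4 = 1) (p : ℕ) (hp : p.Prime) (hp2 : p ≠ 2) :
    (¬ (p : ℤ) ∣ d ∧ ∃ x : ℤ, (4 * (p : ℤ)) ∣ x ^ 2 - d) ↔ jacobiSym d p = 1 := by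
  have : Fact p.Prime := ⟨hp⟩
  rw [← jacobiSym.legendreSym.to_jacobiSym]
  constructor
  · rintro ⟨h1, x, hx⟩
    have h0 : ((d : ℤ) : ZMod p) ≠ 0 := by
      intro h
      exact h1 ((ZMod.intCast_zmod_eq_zero_iff_dvd d p).mp h)
    rw [legendreSym.eq_one_iff p h0]
    refine ⟨(x : ZMod p), ?_⟩
    have h2 : ((x ^ 2 - d : ℤ) : ZMod p) = 0 :=
      (ZMod.intCast_zmod_eq_zero_iff_dvd _ p).mpr ((Dvd.intro_left _ rfl).trans hx)
    push_cast at h2
    have h3 := sub_eq_zero.mp h2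
    rw [← h3]; ring
  · intro h
    have h0 : ((d : ℤ) : ZMod p) ≠ 0 := by
      intro h1
      rw [(legendreSym.eq_zero_iff p d).mpr h1] at h
      exact zero_ne_one h
    refine ⟨fun h1 => h0 ((ZMod.intCast_zmod_eq_zero_iff_dvd d p).mpr h1), ?_⟩
    obtain ⟨r, hr⟩ := (legendreSym.eq_one_iff p h0).mp h
    set x0 : ℤ := (r.val : ℤ) with hx0
    have h1 : (p : ℤ) ∣ x0 ^ 2 - d := by
      rw [← ZMod.intCast_zmod_eq_zero_iff_dvd]
      push_cast
      rw [hx0, Int.cast_natCast, ZMod.natCast_zmod_val, hr]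
      ring
    obtain ⟨r0, hr0⟩ : ∃ r0 : ℤ, (4 : ℤ) ∣ r0 ^ 2 - d := by
      rcases hd with hd | hd
      · exact ⟨0, by omega⟩
      · exact ⟨1, by omega⟩
    have hpodd : (p : ℤ) % 2 = 1 := by
      have := hp.eq_two_or_odd
      omega
    have h4 : (4 : ℤ) ∣ (p : ℤ) ^ 2 - 1 := by
      obtain ⟨t, ht⟩ : ∃ t : ℤ, (p : ℤ) = 2 * t + 1 := ⟨(p : ℤ) / 2, by omega⟩
      rw [ht]
      exact ⟨t ^ 2 + t, by ring⟩
    refine ⟨x0 + (p : ℤ) ^ 2 * (r0 - x0), ?_⟩
    have hcop : IsCoprime (4 : ℤ) (p : ℤ) := by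
      rw [show (4 : ℤ) = 2 ^ 2 by norm_num]
      apply IsCoprime.pow_left
      have : Nat.Coprime 2 p := (Nat.coprime_primes Nat.prime_two hp).mpr (Ne.symm hp2)
      exact_mod_cast Nat.isCoprime_iff_coprime.mpr this
    refine hcop.mul_dvd ?_ ?_
    · obtain ⟨u, hu⟩ := h4
      obtain ⟨v, hv⟩ := hr0
      have e1 : (p : ℤ) ^ 2 = 4 * u + 1 := by linarith
      have e2 : d = r0 ^ 2 - 4 * v := by linarith
      rw [e1, e2]
      exact ⟨v + 4 * u ^ 2 * (r0 - x0) ^ 2 + 2 * r0 * u * (r0 - x0), by ring⟩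
    · obtain ⟨u, hu⟩ := h1
      have e1 : d = x0 ^ 2 - p * u := by linarith
      rw [e1]
      exact ⟨u + 2 * x0 * p * (r0 - x0) + p ^ 3 * (r0 - x0) ^ 2, by ring⟩

/-- the split primes up to `y` -/
noncomputable def Spl (d : ℤ) (y : ℕ) : Finset ℕ := by
  classical
  exact (Nat.primesLE y).filter (fun p : ℕ => ¬ (p : ℤ) ∣ d ∧ ∃ x : ℤ, (4 * (p : ℤ)) ∣ x ^ 2 - d)

theorem mem_Spl (d : ℤ) (y p : ℕ) : p ∈ Spl d y ↔
    (p ≤ y ∧ p.Prime) ∧ ¬ (p : ℤ) ∣ d ∧ ∃ x : ℤ, (4 * (p : ℤ)) ∣ x ^ 2 - d := by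
  classical
  unfold Spl
  rw [mem_filter, Nat.mem_primesLE]

theorem split_count (d : ℤ) (hd : d % 4 = 0 ∨ d % 4 = 1) (hd0 : d ≠ 0) (y : ℕ) :
    |((Spl d y).card : ℝ) - (π y : ℝ) / 2| ≤ 1 + Real.log |(d : ℝ)| + |SJ d y| / 2 := by
  classical
  set Z := (Nat.primesLE y).filter (fun p : ℕ => (p : ℤ) ∣ d) with hZ
  set sp : ℕ → Prop := fun p => ¬ (p : ℤ) ∣ d ∧ ∃ x : ℤ, (4 * (p : ℤ)) ∣ x ^ 2 - d with hsp
  have h1 : ((Spl d y).card : ℝ) = ∑ p ∈ Nat.primesLE y, (if sp p then (1 : ℝ) else 0) := by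
    rw [← sum_filter, sum_const, nsmul_eq_mul, mul_one]
    rfl
  have h2 : ∀ p ∈ Nat.primesLE y, |(if sp p then (1 : ℝ) else 0) - 1 / 2 - J d p / 2| ≤
      (if p = 2 then (1 : ℝ) else 0) + (if (p : ℤ) ∣ d then (1 : ℝ) else 0) / 2 := by
    intro p hp
    rw [Nat.mem_primesLE] at hp
    unfold J
    by_cases hp2 : p = 2
    · rw [if_pos hp2]
      have h3 : (0 : ℝ) ≤ (if (p : ℤ) ∣ d then (1 : ℝ) else 0) / 2 := by split_ifs <;> norm_num
      have h4 : |(if sp p then (1 : ℝ) else 0) - 1 / 2 - (jacobiSym d p : ℝ) / 2| ≤ 1 := by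
        rcases jacobiSym.trichotomy d p with h | h | h <;> rw [h] <;> split_ifs <;> norm_num
      linarith
    · rw [if_neg hp2, zero_add]
      have hiff := split_iff d hd p hp.2 hp2
      have : Fact p.Prime := ⟨hp.2⟩
      rcases jacobiSym.trichotomy d p with h | h | h
      · have h3 : (p : ℤ) ∣ d := by
          rw [← jacobiSym.legendreSym.to_jacobiSym, legendreSym.eq_zero_iff,
            ZMod.intCast_zmod_eq_zero_iff_dvd] at h
          exact h
        have h4 : ¬ sp p := fun h5 => h5.1 h3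
        rw [if_neg h4, if_pos h3, h]
        norm_num
      · have h4 : sp p := hiff.mpr h
        rw [if_pos h4, h, if_neg h4.1]
        norm_num
      · have h4 : ¬ sp p := fun h5 => by
          rw [hiff.mp h5] at h
          norm_num at h
        rw [if_neg h4, h]
        have h3 : (0 : ℝ) ≤ (if (p : ℤ) ∣ d then (1 : ℝ) else 0) / 2 := by
          split_ifs <;> norm_num
        norm_num
        split_ifs <;> norm_num
  have h3 : ((Spl d y).card : ℝ) - (π y : ℝ) / 2 =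
      ∑ p ∈ Nat.primesLE y, ((if sp p then (1 : ℝ) else 0) - 1 / 2 - J d p / 2) + SJ d y / 2 := by
    rw [h1, SJ, sum_sub_distrib, sum_sub_distrib, sum_const, nsmul_eq_mul, ← sum_div,
      Nat.primesLE_card_eq_primeCounting]
    ring
  have h4 : |∑ p ∈ Nat.primesLE y, ((if sp p then (1 : ℝ) else 0) - 1 / 2 - J d p / 2)| ≤
      1 + (Z.card : ℝ) / 2 := by
    refine (abs_sum_le_sum_abs _ _).trans ((sum_le_sum h2).trans ?_)
    rw [sum_add_distrib, ← sum_div, ← sum_filter, ← sum_filter, sum_const, sum_const,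
      nsmul_eq_mul, nsmul_eq_mul, mul_one, mul_one]
    have h5 : (((Nat.primesLE y).filter (fun p => p = 2)).card : ℝ) ≤ 1 := by
      have h6 : (Nat.primesLE y).filter (fun p => p = 2) ⊆ {2} := by
        intro p hp
        rw [mem_filter] at hp
        exact mem_singleton.mpr hp.2
      have := card_le_card h6
      rw [card_singleton] at this
      exact_mod_cast this
    linarith
  have h5 : (Z.card : ℝ) ≤ 2 * Real.log |(d : ℝ)| := by
    have h6 : Z ⊆ d.natAbs.primeFactors := by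
      intro p hp
      rw [hZ, mem_filter, Nat.mem_primesLE] at hp
      exact Nat.mem_primeFactors.mpr ⟨hp.1.2, Int.natCast_dvd.mp hp.2, Int.natAbs_ne_zero.mpr hd0⟩
    have h7 := card_le_card h6
    have h8 := card_primeFactors_le d.natAbs (Int.natAbs_ne_zero.mpr hd0)
    have h9 : ((d.natAbs : ℕ) : ℝ) = |(d : ℝ)| := by rw [Nat.cast_natAbs]; push_cast; rfl
    rw [h9] at h8
    have h10 : (Z.card : ℝ) ≤ d.natAbs.primeFactors.card := by exact_mod_cast h7
    linarith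
  rw [h3]
  refine (abs_add_le _ _).trans ?_
  rw [abs_div, abs_two]
  linarith

/-- passing from `n` to `d` when their product is a square -/
theorem symbol_change (n d z : ℤ) (hz : n * d = z * z) (hz0 : z ≠ 0) (y : ℕ) :
    |SJ d y| ≤ |SJ n y| + 4 * Real.log |(z : ℝ)| := by
  classical
  have h1 : ∀ p ∈ Nat.primesLE y, |J d p - J n p| ≤ 2 * (if p ∣ z.natAbs then (1 : ℝ) else 0) := by
    intro p hp
    rw [Nat.mem_primesLE] at hp
    by_cases h : p ∣ z.natAbs
    · rw [if_pos h]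
      have h2 := J_abs d p
      have h3 := J_abs n p
      have h4 := abs_sub (J d p) (J n p)
      linarith
    · rw [if_neg h, mul_zero]
      have hc : Int.gcd z p = 1 := by
        rw [Int.gcd_eq_natAbs, Int.natAbs_natCast]
        exact ((Nat.Prime.coprime_iff_not_dvd hp.2).mpr h).symm
      have h2 := jacobiSym.sq_one hc
      have h3 : jacobiSym n p * jacobiSym d p = 1 := by
        rw [← jacobiSym.mul_left, hz, jacobiSym.mul_left, ← sq, h2]
      have h4 : J d p = J n p := by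
        unfold J
        rcases jacobiSym.trichotomy d p with h | h | h <;>
          rcases jacobiSym.trichotomy n p with h' | h' | h' <;>
          rw [h, h'] at h3 <;> rw [h, h'] <;> norm_num at h3
      rw [h4, sub_self, abs_zero]
  have h2 : |SJ d y - SJ n y| ≤ 4 * Real.log |(z : ℝ)| := by
    rw [SJ, SJ, ← sum_sub_distrib]
    refine (abs_sum_le_sum_abs _ _).trans ((sum_le_sum h1).trans ?_)
    rw [← mul_sum, ← sum_filter, sum_const, nsmul_eq_mul, mul_one]
    have h6 : (Nat.primesLE y).filter (fun p => p ∣ z.natAbs) ⊆ z.natAbs.primeFactors := by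
      intro p hp
      rw [mem_filter, Nat.mem_primesLE] at hp
      exact Nat.mem_primeFactors.mpr ⟨hp.1.2, hp.2, Int.natAbs_ne_zero.mpr hz0⟩
    have h7 := card_le_card h6
    have h8 := card_primeFactors_le z.natAbs (Int.natAbs_ne_zero.mpr hz0)
    have h9 : ((z.natAbs : ℕ) : ℝ) = |(z : ℝ)| := by rw [Nat.cast_natAbs]; push_cast; rfl
    rw [h9] at h8
    have h10 : (((Nat.primesLE y).filter (fun p => p ∣ z.natAbs)).card : ℝ) ≤ z.natAbs.primeFactors.card := by
      exact_mod_cast h7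
    linarith
  have h3 := abs_sub_abs_le_abs_sub (SJ d y) (SJ n y)
  linarith

/-- the size of a fundamental discriminant -/
theorem disc_size (a d z : ℤ) (ha : a ≠ 0) (hz : a * d = z * z) (hd : Fund d) :
    |(d : ℝ)| ≤ 4 * |(a : ℝ)| := by
  have key : ∀ b w : ℤ, Squarefree b → a * b = w * w → |(b : ℝ)| ≤ |(a : ℝ)| := by
    intro b w hb hw
    have hb0 : b ≠ 0 := hb.ne_zero
    have h1 : b ∣ w * w := ⟨a, by rw [← hw]; ring⟩
    have h2 : b ∣ w := (hb.dvd_pow_iff_dvd (two_ne_zero)).mp (by rw [sq]; exact h1)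
    obtain ⟨t, rfl⟩ := h2
    have h3 : a = b * t ^ 2 := by
      apply mul_right_cancel₀ hb0
      rw [hw]; ring
    have ht : t ≠ 0 := by
      rintro rfl
      apply ha
      rw [h3]; ring
    have h4 : (1 : ℝ) ≤ |(t : ℝ)| := by exact_mod_cast Int.one_le_abs ht
    rw [h3]
    push_cast
    rw [abs_mul, abs_pow]
    have h5 : (1 : ℝ) ≤ |(t : ℝ)| ^ 2 := one_le_pow₀ h4
    exact le_mul_of_one_le_right (abs_nonneg _) h5
  rcases hd with ⟨_, hd⟩ | ⟨m, hm, _, hd⟩
  · have h1 := key d z hd hz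
    have h2 := abs_nonneg (a : ℝ)
    linarith
  · have h2 : (2 : ℤ) ∣ z := by
      have h3 : (2 : ℤ) ∣ z * z := ⟨2 * (a * m), by rw [← hz, hm]; ring⟩
      rcases Int.prime_two.dvd_or_dvd h3 with h | h <;> exact h
    obtain ⟨w, rfl⟩ := h2
    have h1 := key m w hd (by
      have : 4 * (a * m) = 4 * (w * w) := by
        calc 4 * (a * m) = a * (4 * m) := by ring
          _ = 2 * w * (2 * w) := by rw [← hm, hz]
          _ = _ := by ring
      linarith)
    rw [hm]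
    push_cast
    rw [abs_mul, abs_of_pos (by norm_num : (0 : ℝ) < 4)]
    linarith

/-- from the symbols to the split primes -/
theorem from_symbols (n d : ℤ) (hn : n ≠ 0) (H : ℕ) (hH : 2 ≤ H) (hnH : |n| ≤ H) (hd : Fund d) (hsq : IsSquare (n * d)) (y : ℕ) :
    |((Spl d y).card : ℝ) - (π y : ℝ) / 2| ≤ 9 * Real.log H + |SJ n y| / 2 := by
  obtain ⟨z, hz⟩ := hsq
  have hz0 : z ≠ 0 := by
    rintro rfl
    rw [mul_zero] at hz
    rcases mul_eq_zero.mp hz with h | h
    · exact hn h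
    · exact hd.ne h
  have h1 := split_count d hd.mod hd.ne y
  have h2 := symbol_change n d z hz hz0 y
  have h3 := disc_size n d z hn hz hd
  have hnr : |(n : ℝ)| ≤ H := by exact_mod_cast hnH
  have hHr : (2 : ℝ) ≤ H := by exact_mod_cast hH
  have hdH : |(d : ℝ)| ≤ 4 * H := h3.trans (by linarith)
  have hd0 : 0 < |(d : ℝ)| := abs_pos.2 (by exact_mod_cast hd.ne)
  have hzH : |(z : ℝ)| ≤ 2 * H := by
    have h4 : |(z : ℝ)| * |(z : ℝ)| = |(n : ℝ)| * |(d : ℝ)| := by
      rw [← abs_mul, ← abs_mul]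
      congr 1
      exact_mod_cast hz.symm
    have h5 : |(z : ℝ)| * |(z : ℝ)| ≤ H * (4 * H) := by
      rw [h4]
      exact mul_le_mul hnr hdH (abs_nonneg _) (by positivity)
    nlinarith [abs_nonneg (z : ℝ)]
  have hz1 : 0 < |(z : ℝ)| := abs_pos.2 (by exact_mod_cast hz0)
  have l1 : Real.log |(d : ℝ)| ≤ 2 * Real.log 2 + Real.log H := by
    refine (Real.log_le_log hd0 hdH).trans (le_of_eq ?_)
    rw [Real.log_mul (by norm_num) (by linarith), show (4 : ℝ) = 2 ^ 2 by norm_num, Real.log_pow]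
    norm_num
  have l2 : Real.log |(z : ℝ)| ≤ Real.log 2 + Real.log H := by
    refine (Real.log_le_log hz1 hzH).trans (le_of_eq ?_)
    rw [Real.log_mul (by norm_num) (by linarith)]
  have l3 : Real.log 2 ≤ Real.log H := Real.log_le_log (by norm_num) hHr
  have l4 := Real.log_two_gt_d9
  linarith

end Pool.Agent.R345.SS
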