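import Pool.Agent.R345.SS4

set_option autoImplicit false

/-! Four-cycles of Jacobi symbols: the bound modulo a product of distinct odd primes, and the moment bound. -/

namespace Pool.Agent.R345.SS

open Finset

/-- the product of the symbols -/
noncomputable def Xi (T : Finset ℕ) (n : ℤ) : ℝ := ∏ p ∈ T, J n p

theorem Xi_abs (T : Finset ℕ) (n : ℤ) : |Xi T n| ≤ 1 := by
  unfold Xi
  rw [abs_prod]
  exact prod_le_one (fun _ _ => abs_nonneg _) fun p _ => J_abs _ _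

/-- the residue -/
noncomputable def res (q : ℕ) (b : ℤ) : ℕ := (b % q).toNat

theorem res_cast {q : ℕ} (hq : 0 < q) (b : ℤ) : ((res q b : ℕ) : ℤ) = b % q :=
  Int.toNat_of_nonneg (Int.emod_nonneg b (by exact_mod_cast hq.ne'))

theorem res_lt {q : ℕ} (hq : 0 < q) (b : ℤ) : res q b < q := by
  have := Int.emod_lt_of_pos b (by exact_mod_cast hq : (0 : ℤ) < q)
  rw [← res_cast hq] at this
  exact_mod_cast this

theorem Xi_res {T : Finset ℕ} (hT : ∀ p ∈ T, p.Prime) (a b : ℤ) :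
    Xi T (a + b) = Xi T (a + res (∏ p ∈ T, p) b) := by
  have hq0 : 0 < ∏ p ∈ T, p := Nat.pos_of_ne_zero (prod_ne hT)
  refine prod_congr rfl fun p hp => ?_
  apply J_congr
  rw [res_cast hq0]
  have h1 : (p : ℤ) ∣ ((∏ p ∈ T, p : ℕ) : ℤ) := by exact_mod_cast dvd_prod_of_mem _ hp
  rw [Int.add_emod, Int.add_emod a (b % _), Int.emod_emod_of_dvd _ h1]

theorem complete (T : Finset ℕ) (hT : ∀ p ∈ T, p.Prime ∧ p ≠ 2) (B : Finset ℤ) (v : ℤ → ℝ) (hv : ∀ b, |v b| ≤ 1) :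
    ∑ r ∈ range (∏ p ∈ T, p), (∑ b ∈ B, v b * Xi T (b + r)) ^ 2 ≤ ∑ b ∈ B, ∑ b' ∈ B, ∏ p ∈ T, c (b - b') p := by
  have hTp : ∀ p ∈ T, p.Prime := fun p hp => (hT p hp).1
  have h3 : ∀ r : ℕ, (∑ b ∈ B, v b * Xi T (b + r)) ^ 2 =
      ∑ b ∈ B, ∑ b' ∈ B, (v b * v b') * ∏ p ∈ T, (J (b + r) p * J (b' + r) p) := by
    intro r
    rw [sq, sum_mul_sum]
    refine sum_congr rfl fun b _ => sum_congr rfl fun b' _ => ?_
    rw [prod_mul_distrib]
    unfold Xi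
    ring
  rw [sum_congr rfl fun r _ => h3 r, sum_comm]
  refine sum_le_sum fun b _ => ?_
  rw [sum_comm]
  refine sum_le_sum fun b' _ => ?_
  rw [← mul_sum, crt_prod T hTp (fun p x => J (b + x) p * J (b' + x) p)]
  · refine (le_abs_self _).trans ?_
    rw [abs_mul, abs_mul, abs_prod]
    have h1 : |v b| * |v b'| ≤ 1 := mul_le_one₀ (hv b) (abs_nonneg _) (hv b')
    have h2 : ∏ p ∈ T, |∑ x ∈ range p, J (b + x) p * J (b' + x) p| ≤ ∏ p ∈ T, c (b - b') p :=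
      prod_le_prod (fun _ _ => abs_nonneg _) fun p hp => one_prime p (hT p hp).1 (hT p hp).2 b b'
    have h0 : 0 ≤ ∏ p ∈ T, |∑ x ∈ range p, J (b + x) p * J (b' + x) p| := prod_nonneg fun _ _ => abs_nonneg _
    calc |v b| * |v b'| * ∏ p ∈ T, |∑ x ∈ range p, J (b + x) p * J (b' + x) p|
        ≤ 1 * ∏ p ∈ T, |∑ x ∈ range p, J (b + x) p * J (b' + x) p| := mul_le_mul_of_nonneg_right h1 h0
      _ ≤ _ := by rw [one_mul]; exact h2
  · intro p _ x
    have e : ∀ b : ℤ, J (b + ((x % p : ℕ) : ℤ)) p = J (b + x) p := by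
      intro b
      apply J_congr
      push_cast
      rw [Int.add_emod, Int.emod_emod_of_dvd _ dvd_rfl, ← Int.add_emod]
    simp only [e]

theorem fiber (A : Finset ℤ) {q : ℕ} (hq : 0 < q) (g : ℕ → ℝ) :
    ∑ a ∈ A, g (res q a) = ∑ r ∈ range q, ((A.filter (fun a => res q a = r)).card : ℝ) * g r := by
  rw [← sum_fiberwise_of_maps_to (g := res q) (t := range q) (fun b _ => mem_range.2 (res_lt hq b))]
  refine sum_congr rfl fun r _ => ?_
  rw [sum_congr rfl (g := fun _ => g r) fun b hb => by rw [(mem_filter.1 hb).2], sum_const, nsmul_eq_mul]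

theorem coinc (T : Finset ℕ) (hT : ∀ p ∈ T, p.Prime) (A : Finset ℤ) :
    ∑ r ∈ range (∏ p ∈ T, p), ((A.filter (fun a => res (∏ p ∈ T, p) a = r)).card : ℝ) ^ 2 =
      ∑ a ∈ A, ∑ a' ∈ A, ∏ p ∈ T, (if (p : ℤ) ∣ a - a' then (1 : ℝ) else 0) := by
  classical
  have hq0 : 0 < ∏ p ∈ T, p := Nat.pos_of_ne_zero (prod_ne hT)
  set q := ∏ p ∈ T, p with hq
  have h5 : ∀ b b' : ℤ, (∏ p ∈ T, (if (p : ℤ) ∣ b - b' then (1 : ℝ) else 0)) = if res q b' = res q b then 1 else 0 := by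
    intro b b'
    have h6 : res q b' = res q b ↔ ∀ p ∈ T, (p : ℤ) ∣ b - b' := by
      have h7 : res q b' = res q b ↔ (q : ℤ) ∣ b - b' := by
        rw [← Int.modEq_iff_dvd, Int.ModEq, ← res_cast hq0 b', ← res_cast hq0 b]
        exact Nat.cast_inj.symm
      rw [h7, hq]
      push_cast
      constructor
      · intro h p hp
        exact (dvd_prod_of_mem (fun p : ℕ => (p : ℤ)) hp).trans h
      · intro h
        apply Finset.prod_dvd_of_coprime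
        · intro p hp q hq hpq
          exact Nat.isCoprime_iff_coprime.2 ((Nat.coprime_primes (hT p hp) (hT q hq)).2 hpq)
        · exact h
    by_cases h : ∀ p ∈ T, (p : ℤ) ∣ b - b'
    · rw [if_pos (h6.2 h)]
      exact prod_eq_one fun p hp => if_pos (h p hp)
    · rw [if_neg (fun e => h (h6.1 e))]
      push Not at h
      obtain ⟨p, hp, hpb⟩ := h
      exact prod_eq_zero hp (if_neg hpb)
  rw [sum_congr rfl fun b _ => sum_congr rfl fun b' _ => h5 b b']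
  have h8 : ∀ b, ∑ b' ∈ A, (if res q b' = res q b then (1 : ℝ) else 0) = ((A.filter (fun b' => res q b' = res q b)).card : ℝ) := by
    intro b
    rw [sum_boole]
  rw [sum_congr rfl fun b _ => h8 b, fiber A hq0 (fun r => ((A.filter (fun b' => res q b' = r)).card : ℝ))]
  exact sum_congr rfl fun r _ => sq _

/-- the number of four-cycles, counted with symbols -/
noncomputable def R4 (T : Finset ℕ) (A B : Finset ℤ) : ℝ :=
  ∑ a ∈ A, ∑ a' ∈ A, (∑ b ∈ B, Xi T (a + b) * Xi T (a' + b)) ^ 2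

theorem four (T : Finset ℕ) (hT : ∀ p ∈ T, p.Prime ∧ p ≠ 2) (A B : Finset ℤ) :
    R4 T A B ≤ (∑ a ∈ A, ∑ a' ∈ A, ∏ p ∈ T, (if (p : ℤ) ∣ a - a' then (1 : ℝ) else 0)) *
      (∑ b ∈ B, ∑ b' ∈ B, ∏ p ∈ T, c (b - b') p) := by
  classical
  have hTp : ∀ p ∈ T, p.Prime := fun p hp => (hT p hp).1
  have hq0 : 0 < ∏ p ∈ T, p := Nat.pos_of_ne_zero (prod_ne hTp)
  set q := ∏ p ∈ T, p with hq
  set G : ℝ := ∑ b ∈ B, ∑ b' ∈ B, ∏ p ∈ T, c (b - b') p with hG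
  set N : ℕ → ℝ := fun r => ((A.filter (fun a => res q a = r)).card : ℝ) with hN
  set F : ℕ → ℕ → ℝ := fun r r' => ∑ b ∈ B, Xi T (b + r) * Xi T (b + r') with hF
  have hsymm : ∀ r r', F r r' = F r' r := fun r r' => sum_congr rfl fun b _ => mul_comm _ _
  have h1 : ∀ a a' : ℤ, ∑ b ∈ B, Xi T (a + b) * Xi T (a' + b) = F (res q a) (res q a') := by
    intro a a'
    refine sum_congr rfl fun b _ => ?_
    rw [add_comm a b, add_comm a' b, Xi_res hTp b a, Xi_res hTp b a']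
  have h2 : R4 T A B = ∑ r ∈ range q, N r * ∑ r' ∈ range q, N r' * F r r' ^ 2 := by
    unfold R4
    rw [sum_congr rfl fun a _ => sum_congr rfl fun a' _ => by rw [h1]]
    rw [sum_congr rfl fun a _ => fiber A hq0 (fun r' => F (res q a) r' ^ 2)]
    exact fiber A hq0 (fun r => ∑ r' ∈ range q, N r' * F r r' ^ 2)
  have hN0 : ∀ r, 0 ≤ N r := fun r => Nat.cast_nonneg _
  have h3 : ∑ r ∈ range q, N r * ∑ r' ∈ range q, N r' * F r r' ^ 2 ≤
      ∑ r ∈ range q, ∑ r' ∈ range q, (N r ^ 2 * F r r' ^ 2 / 2 + N r' ^ 2 * F r r' ^ 2 / 2) := by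
    refine sum_le_sum fun r _ => ?_
    rw [mul_sum]
    refine sum_le_sum fun r' _ => ?_
    nlinarith [sq_nonneg (N r - N r'), sq_nonneg (F r r'), mul_nonneg (sq_nonneg (N r - N r')) (sq_nonneg (F r r'))]
  have h4 : ∑ r ∈ range q, ∑ r' ∈ range q, (N r ^ 2 * F r r' ^ 2 / 2 + N r' ^ 2 * F r r' ^ 2 / 2) =
      ∑ r ∈ range q, N r ^ 2 * ∑ r' ∈ range q, F r r' ^ 2 := by
    have e1 : ∑ r ∈ range q, ∑ r' ∈ range q, N r' ^ 2 * F r r' ^ 2 / 2 =
        ∑ r ∈ range q, ∑ r' ∈ range q, N r ^ 2 * F r r' ^ 2 / 2 := by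
      rw [sum_comm]
      exact sum_congr rfl fun r _ => sum_congr rfl fun r' _ => by rw [hsymm r' r]
    simp only [sum_add_distrib]
    rw [e1, ← sum_add_distrib]
    refine sum_congr rfl fun r _ => ?_
    rw [mul_sum, ← sum_add_distrib]
    exact sum_congr rfl fun r' _ => by ring
  have h5 : ∀ r : ℕ, ∑ r' ∈ range q, F r r' ^ 2 ≤ G := fun r =>
    complete T hT B (fun b => Xi T (b + r)) (fun b => Xi_abs T _)
  rw [h2]
  refine h3.trans ?_
  rw [h4]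
  refine (sum_le_sum fun r _ => mul_le_mul_of_nonneg_left (h5 r) (sq_nonneg _)).trans ?_
  rw [← sum_mul, ← coinc T hTp A]

theorem R4_nonneg (T : Finset ℕ) (A B : Finset ℤ) : 0 ≤ R4 T A B :=
  sum_nonneg fun _ _ => sum_nonneg fun _ _ => sq_nonneg _

theorem R4_le (T : Finset ℕ) (A B : Finset ℤ) : R4 T A B ≤ ((A.card : ℝ) * B.card) ^ 2 := by
  have h : ∀ a ∈ A, ∀ a' ∈ A, (∑ b ∈ B, Xi T (a + b) * Xi T (a' + b)) ^ 2 ≤ (B.card : ℝ) ^ 2 := by
    intro a _ a' _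
    have h1 : |∑ b ∈ B, Xi T (a + b) * Xi T (a' + b)| ≤ B.card := by
      refine (abs_sum_le_sum_abs _ _).trans ((sum_le_sum (g := fun _ => (1 : ℝ)) fun b _ => ?_).trans (by simp))
      rw [abs_mul]
      exact mul_le_one₀ (Xi_abs _ _) (abs_nonneg _) (Xi_abs _ _)
    rw [← sq_abs]
    exact pow_le_pow_left₀ (abs_nonneg _) h1 2
  refine (sum_le_sum fun a ha => sum_le_sum fun a' ha' => h a ha a' ha').trans (le_of_eq ?_)
  rw [sum_const, sum_const, nsmul_eq_mul, nsmul_eq_mul]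
  ring

/-- the product of the four sums -/
def F4 (z : (ℤ × ℤ) × (ℤ × ℤ)) : ℤ := (z.1.1 + z.2.1) * (z.1.2 + z.2.1) * ((z.1.1 + z.2.2) * (z.1.2 + z.2.2))

/-- the four-cycles -/
def Q4 (A B : Finset ℤ) : Finset ((ℤ × ℤ) × (ℤ × ℤ)) := (A ×ˢ A) ×ˢ (B ×ˢ B)

theorem Q4_card (A B : Finset ℤ) : ((Q4 A B).card : ℝ) = ((A.card : ℝ) * B.card) ^ 2 := by
  unfold Q4
  rw [card_product, card_product, card_product]
  push_cast
  ring

theorem sum_Q4 (T : Finset ℕ) (A B : Finset ℤ) : ∑ z ∈ Q4 A B, ∏ p ∈ T, J (F4 z) p = R4 T A B := by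
  unfold Q4 R4
  rw [sum_product, sum_product]
  refine sum_congr rfl fun a _ => sum_congr rfl fun a' _ => ?_
  rw [sum_product, sq, sum_mul_sum]
  refine sum_congr rfl fun b _ => sum_congr rfl fun b' _ => ?_
  unfold F4 Xi
  rw [← prod_mul_distrib, ← prod_mul_distrib, ← prod_mul_distrib]
  exact prod_congr rfl fun p _ => by rw [J_mul, J_mul, J_mul]

/-- the sum of the products of symmetric functions over the four-cycles -/
theorem sumT4 {k : ℕ} {y W : ℝ} {b : ℕ} {B : ℕ → Finset ℕ} {X : Finset ℕ} {A A' : Finset ℤ}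
    (h : Data k y W b B X A) (h' : Data k y W b B X A') (w : ℕ → ℝ) (hw : ∀ p, |w p| ≤ 1)
    {I : Finset ℕ} (hI : I ⊆ X) :
    2 ^ I.card * ∑ z ∈ Q4 A A', ∏ i ∈ I, e2 (B i) (fun p => w p * J (F4 z) p) ≤
      2 * ((A.card : ℝ) * A'.card) ^ 2 * (2 * y * W ^ 2) ^ I.card := by
  classical
  have hb1 : (1 : ℝ) ≤ b := by exact_mod_cast h.hb
  have hy1 : 1 ≤ y := hb1.trans h.hby
  have hW := h.hW
  obtain ⟨F, hF, hFs⟩ := fam B I (fun i hi j hj => h.disj i (hI hi) j (hI hj))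
  have h1 : ∑ z ∈ Q4 A A', ∏ i ∈ I, e2 (B i) (fun p => w p * J (F4 z) p) =
      ∑ T ∈ F, (∏ p ∈ T, w p) * R4 T A A' := by
    have e : ∀ z, ∏ i ∈ I, e2 (B i) (fun p => w p * J (F4 z) p) =
        ∑ T ∈ F, (∏ p ∈ T, w p) * ∏ p ∈ T, J (F4 z) p := by
      intro z
      rw [← hFs]
      exact sum_congr rfl fun T _ => prod_mul_distrib
    rw [sum_congr rfl fun z _ => e z, sum_comm]
    refine sum_congr rfl fun T _ => ?_
    rw [← mul_sum, sum_Q4]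
  have h2 : ∑ T ∈ F, (∏ p ∈ T, w p) * R4 T A A' ≤ ∑ T ∈ F, R4 T A A' := by
    refine sum_le_sum fun T _ => ?_
    refine (le_abs_self _).trans ?_
    rw [abs_mul, abs_prod, abs_of_nonneg (R4_nonneg T A A')]
    have : ∏ p ∈ T, |w p| ≤ 1 := prod_le_one (fun _ _ => abs_nonneg _) fun p _ => hw p
    exact mul_le_of_le_one_left (R4_nonneg T A A') this
  have hTp : ∀ T ∈ F, ∀ p ∈ T, p.Prime ∧ p ≠ 2 := by
    intro T hT p hp
    obtain ⟨i, hi, hpi⟩ := mem_biUnion.1 (hF T hT hp)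
    have := h.prime i (hI hi) p hpi
    exact ⟨this.1, this.2.1⟩
  have hR0 : (0 : ℝ) ≤ ((A.card : ℝ) * A'.card) ^ 2 := by positivity
  have h3 : (∑ T ∈ F, R4 T A A') ^ 2 ≤
      (∑ T ∈ F, ((A.card : ℝ) * A'.card) ^ 2 * ∑ a ∈ A, ∑ a' ∈ A, ∏ p ∈ T, (if (p : ℤ) ∣ a - a' then (1 : ℝ) else 0)) *
        (∑ T ∈ F, ∑ b ∈ A', ∑ b' ∈ A', ∏ p ∈ T, c (b - b') p) := by
    have hE0 : ∀ T : Finset ℕ, (0 : ℝ) ≤ ∑ a ∈ A, ∑ a' ∈ A, ∏ p ∈ T, (if (p : ℤ) ∣ a - a' then (1 : ℝ) else 0) := by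
      intro T
      refine sum_nonneg fun _ _ => sum_nonneg fun _ _ => prod_nonneg fun _ _ => ?_
      split_ifs <;> norm_num
    refine sum_sq_le_sum_mul_sum_of_sq_le_mul F ?_ ?_ ?_
    · intro T _
      exact mul_nonneg hR0 (hE0 T)
    · intro T _
      exact sum_nonneg fun _ _ => sum_nonneg fun _ _ => prod_nonneg fun _ _ => c_nonneg _ _
    · intro T hT
      rw [sq, mul_assoc]
      exact mul_le_mul (R4_le T A A') (four T (hTp T hT) A A') (R4_nonneg T A A') hR0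
  rw [← mul_sum] at h3
  have h4 : ∑ T ∈ F, ∑ a ∈ A', ∑ a' ∈ A', ∏ p ∈ T, c (a - a') p = ∑ a ∈ A', ∑ a' ∈ A', ∏ i ∈ I, e2 (B i) (c (a - a')) := by
    rw [sum_comm]
    refine sum_congr rfl fun a _ => ?_
    rw [sum_comm]
    exact sum_congr rfl fun a' _ => hFs _
  have h5 : ∑ T ∈ F, ∑ b ∈ A, ∑ b' ∈ A, ∏ p ∈ T, (if (p : ℤ) ∣ b - b' then (1 : ℝ) else 0) =
      ∑ b ∈ A, ∑ b' ∈ A, ∏ i ∈ I, e2 (B i) (fun p => if (p : ℤ) ∣ b - b' then (1 : ℝ) else 0) := by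
    rw [sum_comm]
    refine sum_congr rfl fun a _ => ?_
    rw [sum_comm]
    exact sum_congr rfl fun a' _ => hFs _
  rw [h4, h5] at h3
  have h6 := sumG h' hI
  have h7 := sumE h hI
  have hG0 : 0 ≤ ∑ a ∈ A', ∑ a' ∈ A', ∏ i ∈ I, e2 (B i) (c (a - a')) :=
    sum_nonneg fun _ _ => sum_nonneg fun _ _ => prod_nonneg fun _ _ => e2_nonneg _ _ fun _ _ => c_nonneg _ _
  have h8 : (∑ T ∈ F, R4 T A A') ^ 2 ≤ ((1 / 2) ^ I.card * (2 * ((A.card : ℝ) * A'.card) ^ 2 * (2 * y * W ^ 2) ^ I.card)) ^ 2 := by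
    refine h3.trans ((mul_le_mul (mul_le_mul_of_nonneg_left h7 hR0) h6 hG0 (by positivity)).trans (le_of_eq ?_))
    rw [pow_mul, pow_mul]
    have e : ((2 * y * W) ^ 2) ^ I.card * (W ^ 2) ^ I.card = ((2 * y * W ^ 2) ^ I.card) ^ 2 := by
      rw [← mul_pow, ← pow_mul, mul_comm I.card 2, pow_mul]
      congr 1
      ring
    calc ((A.card : ℝ) * A'.card) ^ 2 * ((1 / 2 : ℝ) ^ I.card * (2 * (A.card : ℝ) ^ 2 * (W ^ 2) ^ I.card)) *
            ((1 / 2) ^ I.card * (2 * (A'.card : ℝ) ^ 2 * ((2 * y * W) ^ 2) ^ I.card)) =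
          ((1 / 2 : ℝ) ^ I.card * (2 * ((A.card : ℝ) * A'.card) ^ 2)) ^ 2 *
            (((2 * y * W) ^ 2) ^ I.card * (W ^ 2) ^ I.card) := by ring
      _ = _ := by rw [e]; ring
  have h9 : ∑ T ∈ F, R4 T A A' ≤ (1 / 2) ^ I.card * (2 * ((A.card : ℝ) * A'.card) ^ 2 * (2 * y * W ^ 2) ^ I.card) := by
    refine le_of_sq_le_sq ?_ ?_
    · exact h8
    · positivity
  rw [h1]
  have h10 : (2 : ℝ) ^ I.card * (1 / 2) ^ I.card = 1 := by rw [← mul_pow]; norm_num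
  calc 2 ^ I.card * ∑ T ∈ F, (∏ p ∈ T, w p) * R4 T A A' ≤ 2 ^ I.card * ∑ T ∈ F, R4 T A A' :=
        mul_le_mul_of_nonneg_left h2 (by positivity)
    _ ≤ 2 ^ I.card * ((1 / 2) ^ I.card * (2 * ((A.card : ℝ) * A'.card) ^ 2 * (2 * y * W ^ 2) ^ I.card)) :=
        mul_le_mul_of_nonneg_left h9 (by positivity)
    _ = (2 ^ I.card * (1 / 2) ^ I.card) * (2 * ((A.card : ℝ) * A'.card) ^ 2 * (2 * y * W ^ 2) ^ I.card) := by ring
    _ = _ := by rw [h10, one_mul]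

/-- the moment bound for four-cycles -/
theorem moment4 {k : ℕ} {y W : ℝ} {b : ℕ} {B : ℕ → Finset ℕ} {X : Finset ℕ} {A A' : Finset ℤ}
    (h : Data k y W b B X A) (h' : Data k y W b B X A') (w : ℕ → ℝ) (hw : ∀ p, |w p| ≤ 1) :
    ∑ z ∈ Q4 A A', ∏ i ∈ X, (∑ p ∈ B i, w p * J (F4 z) p) ^ 2 ≤
      2 * ((A.card : ℝ) * A'.card) ^ 2 * (3 * y * W ^ 2) ^ k := by
  classical
  have hb1 : (1 : ℝ) ≤ b := by exact_mod_cast h.hb
  have hy1 : 1 ≤ y := hb1.trans h.hby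
  have hW := h.hW
  have h1 : ∀ z, ∏ i ∈ X, (∑ p ∈ B i, w p * J (F4 z) p) ^ 2 ≤
      ∑ I ∈ X.powerset, (2 ^ I.card * ∏ i ∈ I, e2 (B i) (fun p => w p * J (F4 z) p)) * ∏ i ∈ X \ I, (b : ℝ) := by
    intro z
    have h2 : ∏ i ∈ X, (∑ p ∈ B i, w p * J (F4 z) p) ^ 2 ≤
        ∏ i ∈ X, (2 * e2 (B i) (fun p => w p * J (F4 z) p) + b) := by
      refine prod_le_prod (fun _ _ => sq_nonneg _) fun i hi => ?_
      rw [e2_sq]
      have h3 : ∑ p ∈ B i, (w p * J (F4 z) p) ^ 2 ≤ b := by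
        refine (sum_le_sum (g := fun _ => (1 : ℝ)) fun p _ => ?_).trans ?_
        · have h4 : |w p * J (F4 z) p| ≤ 1 := by
            rw [abs_mul]
            exact mul_le_one₀ (hw p) (abs_nonneg _) (J_abs _ _)
          rw [← sq_abs]
          have := abs_nonneg (w p * J (F4 z) p)
          nlinarith
        · rw [sum_const, h.block i hi]; simp
      linarith
    refine h2.trans (le_of_eq ?_)
    rw [prod_add]
    refine sum_congr rfl fun I _ => ?_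
    rw [prod_mul_distrib, prod_const]
  refine (sum_le_sum fun z _ => h1 z).trans ?_
  rw [sum_comm]
  have h5 : ∀ I ∈ X.powerset, ∑ z ∈ Q4 A A', (2 ^ I.card * ∏ i ∈ I, e2 (B i) (fun p => w p * J (F4 z) p)) * ∏ i ∈ X \ I, (b : ℝ) ≤
      (2 * ((A.card : ℝ) * A'.card) ^ 2) * ((∏ i ∈ I, (2 * y * W ^ 2)) * ∏ i ∈ X \ I, (b : ℝ)) := by
    intro I hI
    have hI' := mem_powerset.1 hI
    have h6 := sumT4 h h' w hw hI'
    rw [← sum_mul, ← mul_sum, prod_const, prod_const]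
    refine (mul_le_mul_of_nonneg_right h6 (by positivity)).trans (le_of_eq ?_)
    ring
  refine (sum_le_sum h5).trans ?_
  rw [← mul_sum, ← prod_add, prod_const, h.card]
  refine mul_le_mul_of_nonneg_left ?_ (by positivity)
  refine pow_le_pow_left₀ (by positivity) ?_ _
  have h8 : y ≤ y * W ^ 2 := le_mul_of_one_le_right (by linarith) (one_le_pow₀ hW)
  have := h.hby
  linarith

end Pool.Agent.R345.SS
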