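import Pool.Agent.R345.SS7

set_option autoImplicit false

/-! Four-cycles of Jacobi symbols: few four-cycles have a large sum, and bilinear forms. -/

namespace Pool.Agent.R345.SS

open Finset

/-- few four-cycles have a large sum over the primes -/
theorem second4 (P : Finset ℕ) (y W η : ℝ) (A A' : Finset ℤ) (D : ℤ) (hη : 0 ≤ η) (hne : P.Nonempty)
    (hP : ∀ p ∈ P, p.Prime ∧ p ≠ 2 ∧ (p : ℝ) ≤ y) (hW : 1 ≤ W)
    (hA : ∀ a ∈ A, ∀ a' ∈ A, a ≠ a' → ((P.filter (fun p : ℕ => (p : ℤ) ∣ a - a')).card : ℝ) ≤ W)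
    (hA' : ∀ a ∈ A', ∀ a' ∈ A', a ≠ a' → ((P.filter (fun p : ℕ => (p : ℤ) ∣ a - a')).card : ℝ) ≤ W)
    (hcA : (P.card : ℝ) ^ 2 ≤ A.card) (hcA' : (P.card : ℝ) ^ 2 ≤ A'.card) :
    (((Q4 A A').filter (fun z => η * P.card ≤ |∑ p ∈ P, J (D * F4 z) p|)).card : ℝ) * (η * P.card) ^ 2 ≤
      6 * y * W ^ 2 * ((A.card : ℝ) * A'.card) ^ 2 := by
  classical
  have hN1 : 1 ≤ P.card := hne.card_pos
  have hNy : (P.card : ℝ) ≤ y := card_le_y P y hP hne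
  have hdata : ∀ S : Finset ℤ,
      (∀ a ∈ S, ∀ a' ∈ S, a ≠ a' → ((P.filter (fun p : ℕ => (p : ℤ) ∣ a - a')).card : ℝ) ≤ W) →
      (P.card : ℝ) ^ 2 ≤ S.card → Data 1 y W P.card (fun _ => P) {0} S := by
    intro S hS hc
    refine ⟨by simp, ?_, ?_, ?_, hN1, hNy, hW, ?_, by simpa using hc⟩
    · intro i _ p hp; exact hP p hp
    · intro i _; rfl
    · intro i hi j hj hij
      exact absurd ((mem_singleton.1 hi).trans (mem_singleton.1 hj).symm) hij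
    · intro i _ a ha a' ha' hne'; exact hS a ha a' ha' hne'
  have h1 := moment4 (hdata A hA hcA) (hdata A' hA' hcA') (fun p => J D p) (fun p => J_abs D p)
  simp only [prod_singleton, pow_one] at h1
  set G := (Q4 A A').filter (fun z => η * P.card ≤ |∑ p ∈ P, J (D * F4 z) p|) with hG
  calc (G.card : ℝ) * (η * P.card) ^ 2 = ∑ z ∈ G, (η * P.card) ^ 2 := by rw [sum_const, nsmul_eq_mul]
    _ ≤ ∑ z ∈ G, (∑ p ∈ P, J D p * J (F4 z) p) ^ 2 := by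
        refine sum_le_sum fun z hz => ?_
        have h2 := (mem_filter.1 hz).2
        have h3 : ∑ p ∈ P, J (D * F4 z) p = ∑ p ∈ P, J D p * J (F4 z) p :=
          sum_congr rfl fun p _ => J_mul _ _ _
        rw [h3] at h2
        rw [← sq_abs (∑ p ∈ P, J D p * J (F4 z) p)]
        exact pow_le_pow_left₀ (by positivity) h2 2
    _ ≤ ∑ z ∈ Q4 A A', (∑ p ∈ P, J D p * J (F4 z) p) ^ 2 :=
        sum_le_sum_of_subset_of_nonneg (filter_subset _ _) fun _ _ _ => sq_nonneg _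
    _ ≤ 2 * ((A.card : ℝ) * A'.card) ^ 2 * (3 * y * W ^ 2) := h1
    _ = _ := by ring

/-- the number of four-cycles, counted with symbols modulo `p` -/
noncomputable def Tr (p : ℕ) (A B : Finset ℤ) : ℝ := ∑ z ∈ Q4 A B, J (F4 z) p

theorem Tr_eq (p : ℕ) (A B : Finset ℤ) :
    Tr p A B = ∑ b ∈ B, ∑ b' ∈ B, (∑ a ∈ A, J (a + b) p * J (a + b') p) ^ 2 := by
  unfold Tr Q4
  rw [sum_product, sum_comm, sum_product]
  refine sum_congr rfl fun b _ => sum_congr rfl fun b' _ => ?_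
  rw [sum_product, sq, sum_mul_sum]
  refine sum_congr rfl fun a _ => sum_congr rfl fun a' _ => ?_
  unfold F4
  simp only [J_mul]
  ring

theorem Tr_nonneg (p : ℕ) (A B : Finset ℤ) : 0 ≤ Tr p A B := by
  rw [Tr_eq]
  exact sum_nonneg fun _ _ => sum_nonneg fun _ _ => sq_nonneg _

/-- the bilinear forms -/
theorem bil_Tr (p : ℕ) (A B : Finset ℤ) (f g : ℤ → ℂ) :
    ‖∑ a ∈ A, ∑ b ∈ B, f a * g b * (J (a + b) p : ℂ)‖ ^ 4 ≤
      (∑ a ∈ A, ‖f a‖ ^ 2) ^ 2 * (∑ b ∈ B, ‖g b‖ ^ 2) ^ 2 * Tr p A B := by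
  set u : ℤ → ℂ := fun a => ∑ b ∈ B, g b * (J (a + b) p : ℂ) with hu
  have h1 : ∑ a ∈ A, ∑ b ∈ B, f a * g b * (J (a + b) p : ℂ) = ∑ a ∈ A, f a * u a := by
    refine sum_congr rfl fun a _ => ?_
    rw [hu, mul_sum]
    exact sum_congr rfl fun b _ => mul_assoc _ _ _
  have h2 : ‖∑ a ∈ A, f a * u a‖ ^ 2 ≤ (∑ a ∈ A, ‖f a‖ ^ 2) * ∑ a ∈ A, ‖u a‖ ^ 2 := by
    have h3 : ‖∑ a ∈ A, f a * u a‖ ≤ ∑ a ∈ A, ‖f a‖ * ‖u a‖ :=
      (norm_sum_le _ _).trans (le_of_eq (sum_congr rfl fun a _ => norm_mul _ _))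
    exact (pow_le_pow_left₀ (norm_nonneg _) h3 2).trans (sum_mul_sq_le_sq_mul_sq _ _ _)
  set V : ℤ → ℤ → ℝ := fun b b' => ∑ a ∈ A, J (a + b) p * J (a + b') p with hV
  have h4 : ((∑ a ∈ A, ‖u a‖ ^ 2 : ℝ) : ℂ) = ∑ b ∈ B, ∑ b' ∈ B, g b * (starRingEnd ℂ) (g b') * (V b b' : ℂ) := by
    have h5 : ∀ a, ((‖u a‖ ^ 2 : ℝ) : ℂ) = ∑ b ∈ B, ∑ b' ∈ B, g b * (starRingEnd ℂ) (g b') * ((J (a + b) p * J (a + b') p : ℝ) : ℂ) := by
      intro a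
      have h6 : ((‖u a‖ ^ 2 : ℝ) : ℂ) = u a * (starRingEnd ℂ) (u a) := by
        rw [Complex.mul_conj, Complex.normSq_eq_norm_sq]
      rw [h6, hu]
      simp only
      rw [map_sum, sum_mul_sum]
      refine sum_congr rfl fun b _ => sum_congr rfl fun b' _ => ?_
      rw [map_mul, Complex.conj_ofReal]
      push_cast
      ring
    rw [Complex.ofReal_sum, sum_congr rfl fun a _ => h5 a, sum_comm]
    refine sum_congr rfl fun b _ => ?_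
    rw [sum_comm]
    refine sum_congr rfl fun b' _ => ?_
    rw [hV]
    simp only
    rw [Complex.ofReal_sum, mul_sum]
  have h7 : ∑ a ∈ A, ‖u a‖ ^ 2 ≤ ∑ z ∈ B ×ˢ B, (‖g z.1‖ * ‖g z.2‖) * |V z.1 z.2| := by
    have h8 : ∑ a ∈ A, ‖u a‖ ^ 2 = ‖((∑ a ∈ A, ‖u a‖ ^ 2 : ℝ) : ℂ)‖ := by
      rw [Complex.norm_of_nonneg (sum_nonneg fun _ _ => by positivity)]
    rw [h8, h4, sum_product]
    refine (norm_sum_le _ _).trans (sum_le_sum fun b _ => ?_)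
    refine (norm_sum_le _ _).trans (sum_le_sum fun b' _ => ?_)
    rw [norm_mul, norm_mul, RCLike.norm_conj, Complex.norm_real, Real.norm_eq_abs]
  have h9 : (∑ a ∈ A, ‖u a‖ ^ 2) ^ 2 ≤ (∑ b ∈ B, ‖g b‖ ^ 2) ^ 2 * Tr p A B := by
    have h0 : 0 ≤ ∑ a ∈ A, ‖u a‖ ^ 2 := sum_nonneg fun _ _ => by positivity
    refine (pow_le_pow_left₀ h0 h7 2).trans ((sum_mul_sq_le_sq_mul_sq _ _ _).trans (le_of_eq ?_))
    rw [Tr_eq, sum_product, sum_product]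
    congr 1
    · rw [sq (∑ b ∈ B, ‖g b‖ ^ 2), sum_mul_sum]
      exact sum_congr rfl fun b _ => sum_congr rfl fun b' _ => by ring
    · exact sum_congr rfl fun b _ => sum_congr rfl fun b' _ => sq_abs _
  rw [h1]
  calc ‖∑ a ∈ A, f a * u a‖ ^ 4 = (‖∑ a ∈ A, f a * u a‖ ^ 2) ^ 2 := by ring
    _ ≤ ((∑ a ∈ A, ‖f a‖ ^ 2) * ∑ a ∈ A, ‖u a‖ ^ 2) ^ 2 := pow_le_pow_left₀ (by positivity) h2 2
    _ = (∑ a ∈ A, ‖f a‖ ^ 2) ^ 2 * (∑ a ∈ A, ‖u a‖ ^ 2) ^ 2 := by ring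
    _ ≤ (∑ a ∈ A, ‖f a‖ ^ 2) ^ 2 * ((∑ b ∈ B, ‖g b‖ ^ 2) ^ 2 * Tr p A B) :=
        mul_le_mul_of_nonneg_left h9 (by positivity)
    _ = _ := by ring

end Pool.Agent.R345.SS
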