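import Pool.Agent.R345.SS8
import Pool.Agent.H951R4.OD.A1

set_option autoImplicit false

/-! A large sieve for the Jacobi symbols of arbitrary integers with few square products. -/

namespace Pool.Agent.R345.SS

open Finset
open Pool.Agent.H951R4.OD (ch ch_mul_left)
open Pool.Agent.H951R4.OD.A1aux (ch_mul_right abs_ch_le abs_sum_le)

/-- the tuples of primes with a given product -/
theorem tuples_card (k : ℕ) (B : Finset ℕ) (h : ∀ p ∈ B, p.Prime) (n : ℕ) :
    ((Fintype.piFinset (fun _ : Fin k => B)).filter (fun t => ∏ i, t i = n)).card ≤ k.factorial := by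
  classical
  set S := (Fintype.piFinset (fun _ : Fin k => B)).filter (fun t => ∏ i, t i = n) with hS
  rcases S.eq_empty_or_nonempty with he | ⟨t0, ht0⟩
  · rw [he]; simp
  have hmem : ∀ t ∈ S, (∀ i, (t i).Prime) ∧ ∏ i, t i = n := by
    intro t ht
    rw [hS, mem_filter, Fintype.mem_piFinset] at ht
    exact ⟨fun i => h _ (ht.1 i), ht.2⟩
  have hperm : ∀ t ∈ S, (List.ofFn t).Perm n.primeFactorsList := by
    intro t ht
    obtain ⟨h1, h2⟩ := hmem t ht
    apply Nat.primeFactorsList_unique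
    · rw [List.prod_ofFn, h2]
    · intro p hp
      rw [List.mem_ofFn] at hp
      obtain ⟨i, rfl⟩ := hp
      exact h1 i
  have hlen : n.primeFactorsList.length = k := by
    rw [← (hperm t0 ht0).length_eq, List.length_ofFn]
  have hsub : S.image List.ofFn ⊆ n.primeFactorsList.permutations.toFinset := by
    intro l hl
    obtain ⟨t, ht, rfl⟩ := mem_image.1 hl
    rw [List.mem_toFinset, List.mem_permutations]
    exact hperm t ht
  have hinj : Function.Injective (List.ofFn : (Fin k → ℕ) → List ℕ) := List.ofFn_injective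
  rw [← card_image_of_injective S hinj]
  refine (card_le_card hsub).trans ((List.toFinset_card_le _).trans (le_of_eq ?_))
  rw [List.length_permutations, hlen]

theorem ch_prod_right (D : ℤ) {k : ℕ} (t : Fin k → ℕ) : ch D (∏ i, t i) = ∏ i, ch D (t i) := by
  classical
  have h : ∀ s : Finset (Fin k), ch D (∏ i ∈ s, t i) = ∏ i ∈ s, ch D (t i) := by
    intro s
    induction s using Finset.induction_on with
    | empty =>
      rw [prod_empty, prod_empty]
      unfold ch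
      rw [if_pos (by norm_num), jacobiSym.one_right]
      norm_num
    | insert a s ha ih => rw [prod_insert ha, prod_insert ha, ch_mul_right, ih]
  exact h univ

theorem ch_prime (D : ℤ) {p : ℕ} (hp : p.Prime) (h2 : p ≠ 2) : ch D p = J D p := by
  unfold ch J
  rw [if_pos ((hp.eq_two_or_odd).resolve_left h2)]

/-- the large sieve -/
theorem large {ι : Type*} (Z : Finset ι) (F : ι → ℤ) (k Q : ℕ) (hk : Even k) (hk0 : k ≠ 0) (ρ N1 R : ℝ)
    (hR0 : 0 < R) (hN1 : 0 ≤ N1)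
    (hF : ∀ z ∈ Z, |(F z : ℝ)| ≤ N1) (hR : (Z.card : ℝ) ≤ R)
    (hsq : ∀ z' ∈ Z, ((Z.filter (fun z => IsSquare (F z' * F z))).card : ℝ) ≤ ρ * R)
    (hρ : 0 ≤ ρ) (B : Finset ℕ) (hB : ∀ p ∈ B, p.Prime ∧ p ≠ 2 ∧ p ≤ Q) (τ : ℝ) (hτ : 0 ≤ τ)
    (hbad : ∀ p ∈ B, τ * R ≤ |∑ z ∈ Z, J (F z) p|) :
    (τ ^ 2 * B.card) ^ k ≤ k.factorial * (((Q : ℝ) ^ k + 1) * ρ + 4 * N1 ^ 2) := by
  classical
  set ε : ℕ → ℝ := fun p => if 0 ≤ ∑ z ∈ Z, J (F z) p then 1 else -1 with hε
  have hε1 : ∀ p, |ε p| ≤ 1 := by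
    intro p
    rw [hε]
    simp only
    split_ifs <;> simp
  have hε2 : ∀ p, ε p * ∑ z ∈ Z, J (F z) p = |∑ z ∈ Z, J (F z) p| := by
    intro p
    rw [hε]
    simp only
    split_ifs with h
    · rw [one_mul, abs_of_nonneg h]
    · rw [abs_of_neg (not_le.1 h)]; ring
  set a : ι → ℝ := fun z => ∑ p ∈ B, ε p * J (F z) p with ha
  set G : ℕ → ℝ := fun n => ∑ z ∈ Z, ch (F z) n with hG
  have h0 : τ * R * B.card ≤ ∑ z ∈ Z, a z := by
    have e : ∑ z ∈ Z, a z = ∑ p ∈ B, |∑ z ∈ Z, J (F z) p| := by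
      rw [ha]
      simp only
      rw [sum_comm]
      refine sum_congr rfl fun p _ => ?_
      rw [← mul_sum, hε2]
    rw [e]
    calc τ * R * B.card = ∑ p ∈ B, τ * R := by rw [sum_const, nsmul_eq_mul]; ring
      _ ≤ _ := sum_le_sum hbad
  obtain ⟨n, rfl⟩ : ∃ n, k = n + 1 := ⟨k - 1, by omega⟩
  set T := Fintype.piFinset (fun _ : Fin (n + 1) => B) with hT
  have h1 : (∑ z ∈ Z, a z) ^ (n + 1) ≤ R ^ n * ∑ z ∈ Z, a z ^ (n + 1) := by
    have h := pow_sum_div_card_le_sum_pow (s := Z) (f := fun z => |a z|) (fun z _ => abs_nonneg _) n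
    rcases Z.eq_empty_or_nonempty with he | hne
    · rw [he]; simp
    have hc : (0 : ℝ) < Z.card := by exact_mod_cast hne.card_pos
    rw [div_le_iff₀ (by positivity)] at h
    have h2 : ∑ z ∈ Z, |a z| ^ (n + 1) = ∑ z ∈ Z, a z ^ (n + 1) := sum_congr rfl fun z _ => hk.pow_abs _
    rw [h2] at h
    have h3 : (∑ z ∈ Z, a z) ^ (n + 1) ≤ (∑ z ∈ Z, |a z|) ^ (n + 1) := by
      rw [← hk.pow_abs]
      exact pow_le_pow_left₀ (abs_nonneg _) (abs_sum_le_sum_abs _ _) _
    have h4 : 0 ≤ ∑ z ∈ Z, a z ^ (n + 1) := sum_nonneg fun z _ => hk.pow_nonneg _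
    have h5 : (Z.card : ℝ) ^ n ≤ R ^ n := pow_le_pow_left₀ hc.le hR _
    calc (∑ z ∈ Z, a z) ^ (n + 1) ≤ (∑ z ∈ Z, |a z|) ^ (n + 1) := h3
      _ ≤ (∑ z ∈ Z, a z ^ (n + 1)) * (Z.card : ℝ) ^ n := h
      _ ≤ (∑ z ∈ Z, a z ^ (n + 1)) * R ^ n := mul_le_mul_of_nonneg_left h5 h4
      _ = _ := mul_comm _ _
  have h2 : ∑ z ∈ Z, a z ^ (n + 1) ≤ ∑ t ∈ T, |G (∏ i, t i)| := by
    have e : ∀ z, a z ^ (n + 1) = ∑ t ∈ T, (∏ i, ε (t i)) * ch (F z) (∏ i, t i) := by
      intro z
      rw [ha]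
      simp only
      rw [sum_pow']
      refine sum_congr rfl fun t ht => ?_
      rw [prod_mul_distrib, ch_prod_right]
      congr 1
      refine prod_congr rfl fun i _ => ?_
      have h3 := hB _ (Fintype.mem_piFinset.1 ht i)
      rw [ch_prime _ h3.1 h3.2.1]
    rw [sum_congr rfl fun z _ => e z, sum_comm]
    refine sum_le_sum fun t _ => ?_
    rw [← mul_sum]
    refine (le_abs_self _).trans ?_
    rw [abs_mul, abs_prod]
    exact mul_le_of_le_one_left (abs_nonneg _) (prod_le_one (fun _ _ => abs_nonneg _) fun i _ => hε1 _)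
  have h3 : (∑ t ∈ T, |G (∏ i, t i)|) ^ 2 ≤ (B.card : ℝ) ^ (n + 1) * ∑ t ∈ T, G (∏ i, t i) ^ 2 := by
    have h := sq_sum_le_card_mul_sum_sq (s := T) (f := fun t => |G (∏ i, t i)|)
    have hc : T.card = B.card ^ (n + 1) := by
      rw [hT, Fintype.card_piFinset_const]
    rw [hc] at h
    simp only [sq_abs] at h
    exact_mod_cast h
  have h4 : ∑ t ∈ T, G (∏ i, t i) ^ 2 ≤ (n + 1).factorial * ∑ m ∈ range (Q ^ (n + 1) + 1), G m ^ 2 := by
    have hmaps : ∀ t ∈ T, ∏ i, t i ∈ range (Q ^ (n + 1) + 1) := by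
      intro t ht
      rw [mem_range, Nat.lt_succ_iff]
      calc ∏ i, t i ≤ ∏ i : Fin (n + 1), Q := prod_le_prod' fun i _ => (hB _ (Fintype.mem_piFinset.1 ht i)).2.2
        _ = Q ^ (n + 1) := by simp
    rw [← sum_fiberwise_of_maps_to hmaps, mul_sum]
    refine sum_le_sum fun m _ => ?_
    rw [sum_congr rfl (g := fun _ => G m ^ 2) fun t ht => by rw [(mem_filter.1 ht).2], sum_const, nsmul_eq_mul]
    refine mul_le_mul_of_nonneg_right ?_ (sq_nonneg _)
    exact_mod_cast tuples_card (n + 1) B (fun p hp => (hB p hp).1) m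
  set E : ℝ := ((Q : ℝ) ^ (n + 1) + 1) * ρ + 4 * N1 ^ 2 with hE
  have hE0 : 0 ≤ E := by positivity
  have h5 : ∑ m ∈ range (Q ^ (n + 1) + 1), G m ^ 2 ≤ R ^ 2 * E := by
    have e : ∀ m, G m ^ 2 = ∑ z' ∈ Z, ∑ z ∈ Z, ch (F z' * F z) m := by
      intro m
      rw [hG]
      simp only
      rw [sq, sum_mul_sum]
      refine sum_congr rfl fun z' _ => sum_congr rfl fun z _ => ?_
      rw [ch_mul_left]
    rw [sum_congr rfl fun m _ => e m, sum_comm]
    have h6 : ∀ z' ∈ Z, ∑ m ∈ range (Q ^ (n + 1) + 1), ∑ z ∈ Z, ch (F z' * F z) m ≤ R * E := by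
      intro z' hz'
      rw [sum_comm]
      have h7 : ∀ z ∈ Z, ∑ m ∈ range (Q ^ (n + 1) + 1), ch (F z' * F z) m ≤
          (if IsSquare (F z' * F z) then ((Q : ℝ) ^ (n + 1) + 1) else 0) + 4 * N1 ^ 2 := by
        intro z hz
        by_cases hs : IsSquare (F z' * F z)
        · rw [if_pos hs]
          have h8 : ∑ m ∈ range (Q ^ (n + 1) + 1), ch (F z' * F z) m ≤ ∑ m ∈ range (Q ^ (n + 1) + 1), (1 : ℝ) :=
            sum_le_sum fun m _ => (le_abs_self _).trans (abs_ch_le _ _)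
          rw [sum_const, card_range, nsmul_eq_mul, mul_one] at h8
          push_cast at h8
          have h9 : 0 ≤ 4 * N1 ^ 2 := by positivity
          linarith
        · rw [if_neg hs, zero_add]
          refine (le_abs_self _).trans ((abs_sum_le _ hs _).trans ?_)
          rw [Nat.cast_mul, Nat.cast_natAbs, Int.cast_abs, Int.cast_mul, abs_mul]
          push_cast
          have h10 := mul_le_mul (hF z' hz') (hF z hz) (abs_nonneg _) hN1
          nlinarith
      refine (sum_le_sum h7).trans ?_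
      rw [sum_add_distrib, ← sum_filter, sum_const, sum_const, nsmul_eq_mul, nsmul_eq_mul, hE]
      have h11 := mul_le_mul_of_nonneg_right (hsq z' hz') (show 0 ≤ (Q : ℝ) ^ (n + 1) + 1 by positivity)
      have h12 := mul_le_mul_of_nonneg_right hR (show 0 ≤ 4 * N1 ^ 2 by positivity)
      calc _ ≤ ρ * R * ((Q : ℝ) ^ (n + 1) + 1) + R * (4 * N1 ^ 2) := add_le_add h11 h12
        _ = _ := by ring
    refine (sum_le_sum h6).trans ?_
    rw [sum_const, nsmul_eq_mul, sq, mul_assoc]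
    exact mul_le_mul_of_nonneg_right hR (by positivity)
  rcases Nat.eq_zero_or_pos B.card with hb | hb
  · rw [hb, Nat.cast_zero, mul_zero, zero_pow (by omega)]
    positivity
  have hb' : (0 : ℝ) < B.card := by exact_mod_cast hb
  set X := ∑ t ∈ T, |G (∏ i, t i)| with hX
  have hX0 : 0 ≤ X := sum_nonneg fun _ _ => abs_nonneg _
  have h13 : (τ * R * B.card) ^ (n + 1) ≤ R ^ n * X := by
    refine (pow_le_pow_left₀ (by positivity) h0 _).trans (h1.trans ?_)
    exact mul_le_mul_of_nonneg_left h2 (by positivity)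
  have h14 : X ^ 2 ≤ (B.card : ℝ) ^ (n + 1) * ((n + 1).factorial * (R ^ 2 * E)) := by
    refine h3.trans (mul_le_mul_of_nonneg_left ?_ (by positivity))
    exact h4.trans (mul_le_mul_of_nonneg_left h5 (by positivity))
  have h15 : (τ ^ 2 * B.card) ^ (n + 1) * (R ^ 2 * B.card) ^ (n + 1) ≤
      ((n + 1).factorial * E) * (R ^ 2 * B.card) ^ (n + 1) := by
    calc (τ ^ 2 * B.card) ^ (n + 1) * (R ^ 2 * B.card) ^ (n + 1) = ((τ * R * B.card) ^ (n + 1)) ^ 2 := by
          rw [← mul_pow, ← pow_mul, mul_comm (n + 1) 2, pow_mul]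
          congr 1
          ring
      _ ≤ (R ^ n * X) ^ 2 := pow_le_pow_left₀ (by positivity) h13 2
      _ = (R ^ n) ^ 2 * X ^ 2 := by ring
      _ ≤ (R ^ n) ^ 2 * ((B.card : ℝ) ^ (n + 1) * ((n + 1).factorial * (R ^ 2 * E))) :=
          mul_le_mul_of_nonneg_left h14 (by positivity)
      _ = ((n + 1).factorial * E) * (R ^ 2 * B.card) ^ (n + 1) := by
          rw [mul_pow (R ^ 2), ← pow_mul, ← pow_mul]
          ring
  exact le_of_mul_le_mul_right h15 (by positivity)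

end Pool.Agent.R345.SS
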